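import Mathlib

set_option linter.unusedSectionVars false

/-! Elementary bound for Kloosterman sums in characteristic two (fourth moment). -/

namespace Pool.Agent.X126.Kloo

variable {F : Type*} [Field F] [Fintype F] [DecidableEq F] [CharP F 2]

theorem two0 : (2 : F) = 0 := CharTwo.two_eq_zero

/-- a nontrivial additive character with values 1 and -1 -/
structure Psi (F : Type*) [Field F] where
  ψ : F → ℤ
  add : ∀ x y, ψ (x + y) = ψ x * ψ y
  pm : ∀ x, ψ x = 1 ∨ ψ x = -1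
  ex : ∃ x, ψ x = -1

namespace Psi
variable (P : Psi F)

theorem zero : P.ψ 0 = 1 := by
  have h := P.add 0 0
  rw [add_zero] at h
  rcases P.pm 0 with e | e
  · exact e
  · rw [e] at h; norm_num at h

theorem sum_zero {c : F} (hc : c ≠ 0) : ∑ x : F, P.ψ (x * c) = 0 := by
  obtain ⟨x0, hx0⟩ := P.ex
  have h := Fintype.sum_equiv (Equiv.addRight (x0 / c)) (fun x : F => P.ψ ((x + x0 / c) * c))
    (fun x => P.ψ (x * c)) (fun x => rfl)
  have h2 : ∀ x : F, P.ψ ((x + x0 / c) * c) = - P.ψ (x * c) := by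
    intro x
    rw [add_mul, div_mul_cancel₀ _ hc, P.add, hx0]; ring
  simp only [h2, Finset.sum_neg_distrib] at h
  omega

theorem sum_eq (c : F) : ∑ x : F, P.ψ (x * c) = if c = 0 then (Fintype.card F : ℤ) else 0 := by
  split_ifs with h
  · subst h; simp [P.zero]
  · exact P.sum_zero h

/-- Kloosterman sum -/
def K (a b : F) : ℤ := ∑ x : Fˣ, P.ψ (a * (x : F) + b * ((x⁻¹ : Fˣ) : F))

theorem K_eq {a b a' b' : F} (ha : a ≠ 0) (ha' : a' ≠ 0) (h : a * b = a' * b') :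
    P.K a b = P.K a' b' := by
  unfold K
  let u : Fˣ := Units.mk0 (a / a') (div_ne_zero ha ha')
  apply Fintype.sum_equiv (Equiv.mulLeft u)
  intro x
  congr 1
  simp only [Equiv.coe_mulLeft, Units.val_mul, u, Units.val_mk0, mul_inv, Units.val_inv_eq_inv_val]
  have hx : (x : F) ≠ 0 := x.ne_zero
  field_simp
  linear_combination h

/-- the first of two sums of a pair -/
def s (p : Fˣ × Fˣ) : F := (p.1 : F) + (p.2 : F)
/-- the second of two sums of a pair -/
def t (p : Fˣ × Fˣ) : F := ((p.1⁻¹ : Fˣ) : F) + ((p.2⁻¹ : Fˣ) : F)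

theorem K_sq (a b : F) : P.K a b ^ 2 = ∑ p : Fˣ × Fˣ, P.ψ (a * s p) * P.ψ (b * t p) := by
  rw [sq, K, Finset.sum_mul_sum, Fintype.sum_prod_type]
  refine Finset.sum_congr rfl (fun x _ => Finset.sum_congr rfl (fun y _ => ?_))
  rw [← P.add, ← P.add]
  congr 1
  simp only [s, t]
  ring

theorem K_four (a b : F) : P.K a b ^ 4 =
    ∑ z : (Fˣ × Fˣ) × (Fˣ × Fˣ), P.ψ (a * (s z.1 + s z.2)) * P.ψ (b * (t z.1 + t z.2)) := by
  have : P.K a b ^ 4 = P.K a b ^ 2 * P.K a b ^ 2 := by ring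
  rw [this, K_sq, Finset.sum_mul_sum]
  conv_rhs => rw [Fintype.sum_prod_type]
  refine Finset.sum_congr rfl (fun x _ => Finset.sum_congr rfl (fun y _ => ?_))
  rw [mul_add, mul_add, P.add, P.add]
  ring

theorem sol_cases (z : (Fˣ × Fˣ) × (Fˣ × Fˣ)) (h1 : s z.1 + s z.2 = 0) (h2 : t z.1 + t z.2 = 0) :
    (z.1.1 = z.1.2 ∧ z.2.1 = z.2.2) ∨ (z.2 = z.1) ∨ (z.2 = (z.1.2, z.1.1)) := by
  obtain ⟨⟨x1, x2⟩, x3, x4⟩ := z
  simp only [s, t] at h1 h2 ⊢
  simp only [Units.val_inv_eq_inv_val] at h2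
  have e1 : (x1 : F) ≠ 0 := x1.ne_zero
  have e2 : (x2 : F) ≠ 0 := x2.ne_zero
  have e3 : (x3 : F) ≠ 0 := x3.ne_zero
  have e4 : (x4 : F) ≠ 0 := x4.ne_zero
  field_simp at h2
  have h3 : (x1 : F) + x2 = x3 + x4 := CharTwo.add_eq_zero.1 h1
  by_cases hs : (x1 : F) + x2 = 0
  · left
    have h4 : (x3 : F) + x4 = 0 := by rw [← h3, hs]
    exact ⟨Units.ext (CharTwo.add_eq_zero.1 hs), Units.ext (CharTwo.add_eq_zero.1 h4)⟩
  · right
    have h5 : ((x1 : F) + x2) * (x1 * x2 + x3 * x4) = 0 := by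
      have : (x2 + x1 : F) * (x3 * x4) + x1 * x2 * (x4 + x3) = 0 := by linear_combination h2
      rw [show (x4 + x3 : F) = x1 + x2 by rw [h3]; ring] at this
      linear_combination this
    have h6 : (x1 * x2 + x3 * x4 : F) = 0 := (mul_eq_zero.1 h5).resolve_left hs
    have h7 : ((x1 : F) + x3) * (x1 + x4) = 0 := by
      linear_combination h6 - (x1 : F) * h3 + (x1 * x1 : F) * (two0 (F := F))
    rcases mul_eq_zero.1 h7 with h | h
    · left
      have h8 : (x1 : F) = x3 := CharTwo.add_eq_zero.1 h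
      rw [h8] at h3
      exact Prod.ext (Units.ext h8.symm) (Units.ext (add_left_cancel h3).symm)
    · right
      have h8 : (x1 : F) = x4 := CharTwo.add_eq_zero.1 h
      rw [h8, add_comm (x3 : F)] at h3
      exact Prod.ext (Units.ext (add_left_cancel h3).symm) (Units.ext h8.symm)

theorem fourth_moment : ∑ a : F, ∑ b : F, P.K a b ^ 4 ≤
    3 * (Fintype.card F : ℤ) ^ 2 * (Fintype.card Fˣ : ℤ) ^ 2 := by
  simp only [K_four]
  have e1 : ∀ a : F, ∑ b : F, ∑ z : (Fˣ × Fˣ) × (Fˣ × Fˣ),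
      P.ψ (a * (s z.1 + s z.2)) * P.ψ (b * (t z.1 + t z.2)) =
      ∑ z : (Fˣ × Fˣ) × (Fˣ × Fˣ), P.ψ (a * (s z.1 + s z.2)) *
        (if t z.1 + t z.2 = 0 then (Fintype.card F : ℤ) else 0) := by
    intro a
    rw [Finset.sum_comm]
    refine Finset.sum_congr rfl (fun z _ => ?_)
    rw [← Finset.mul_sum, P.sum_eq]
  simp only [e1]
  rw [Finset.sum_comm]
  have e2 : ∀ z : (Fˣ × Fˣ) × (Fˣ × Fˣ), ∑ a : F, P.ψ (a * (s z.1 + s z.2)) *
        (if t z.1 + t z.2 = 0 then (Fintype.card F : ℤ) else 0) =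
      if (s z.1 + s z.2 = 0 ∧ t z.1 + t z.2 = 0) then (Fintype.card F : ℤ) ^ 2 else 0 := by
    intro z
    rw [← Finset.sum_mul, P.sum_eq]
    split_ifs with h1 h2 h3 h3 h4
    all_goals first | (exfalso; tauto) | ring1
  simp only [e2]
  rw [← Finset.sum_filter, Finset.sum_const, nsmul_eq_mul]
  have hc : (Finset.univ.filter (fun z : (Fˣ × Fˣ) × (Fˣ × Fˣ) =>
      s z.1 + s z.2 = 0 ∧ t z.1 + t z.2 = 0)).card ≤ 3 * (Fintype.card Fˣ) ^ 2 := by
    have hsub : (Finset.univ.filter (fun z : (Fˣ × Fˣ) × (Fˣ × Fˣ) =>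
      s z.1 + s z.2 = 0 ∧ t z.1 + t z.2 = 0)) ⊆
      (Finset.univ.image (fun p : Fˣ × Fˣ => ((p.1, p.1), (p.2, p.2)))) ∪
      ((Finset.univ.image (fun p : Fˣ × Fˣ => (p, p))) ∪
      (Finset.univ.image (fun p : Fˣ × Fˣ => (p, (p.2, p.1))))) := by
      intro z hz
      have h := (Finset.mem_filter.1 hz).2
      simp only [Finset.mem_union, Finset.mem_image, Finset.mem_univ, true_and]
      rcases sol_cases z h.1 h.2 with h | h | h
      · left
        exact ⟨(z.1.1, z.2.1), Prod.ext (Prod.ext rfl h.1) (Prod.ext rfl h.2)⟩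
      · right; left
        exact ⟨z.1, Prod.ext rfl h.symm⟩
      · right; right
        exact ⟨z.1, Prod.ext rfl h.symm⟩
    have hp : Fintype.card (Fˣ × Fˣ) = (Fintype.card Fˣ) ^ 2 := by
      rw [Fintype.card_prod, sq]
    refine (Finset.card_le_card hsub).trans ((Finset.card_union_le _ _).trans ?_)
    have i1 := Finset.card_image_le (s := (Finset.univ : Finset (Fˣ × Fˣ)))
      (f := fun p : Fˣ × Fˣ => ((p.1, p.1), (p.2, p.2)))
    have i2 := Finset.card_image_le (s := (Finset.univ : Finset (Fˣ × Fˣ)))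
      (f := fun p : Fˣ × Fˣ => (p, p))
    have i3 := Finset.card_image_le (s := (Finset.univ : Finset (Fˣ × Fˣ)))
      (f := fun p : Fˣ × Fˣ => (p, (p.2, p.1)))
    have i4 := Finset.card_union_le (Finset.univ.image (fun p : Fˣ × Fˣ => (p, p)))
      (Finset.univ.image (fun p : Fˣ × Fˣ => (p, (p.2, p.1))))
    rw [Finset.card_univ, hp] at i1 i2 i3
    omega
  have hc' : ((Finset.univ.filter (fun z : (Fˣ × Fˣ) × (Fˣ × Fˣ) =>
      s z.1 + s z.2 = 0 ∧ t z.1 + t z.2 = 0)).card : ℤ) ≤ 3 * (Fintype.card Fˣ : ℤ) ^ 2 := by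
    exact_mod_cast hc
  nlinarith [sq_nonneg (Fintype.card F : ℤ)]

theorem K_bound {a b : F} (ha : a ≠ 0) (hb : b ≠ 0) :
    P.K a b ^ 4 ≤ 3 * (Fintype.card F : ℤ) ^ 3 := by
  have h1 := P.fourth_moment
  have h2 : (Fintype.card Fˣ : ℤ) * P.K a b ^ 4 ≤ ∑ c : F, ∑ d : F, P.K c d ^ 4 := by
    have h3 : ∀ c : Fˣ, P.K a b = P.K (c : F) (a * b / c) := fun c =>
      P.K_eq ha c.ne_zero (by field_simp)
    calc (Fintype.card Fˣ : ℤ) * P.K a b ^ 4 = ∑ _c : Fˣ, P.K a b ^ 4 := by simp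
      _ = ∑ c : Fˣ, P.K (c : F) (a * b / c) ^ 4 :=
          Finset.sum_congr rfl (fun c _ => by rw [← h3 c])
      _ ≤ ∑ c : Fˣ, ∑ d : F, P.K (c : F) d ^ 4 := by
          refine Finset.sum_le_sum (fun c _ => ?_)
          exact Finset.single_le_sum (f := fun d => P.K (c : F) d ^ 4)
            (fun d _ => by positivity) (Finset.mem_univ _)
      _ ≤ ∑ c : F, ∑ d : F, P.K c d ^ 4 := by
          have := Finset.sum_map (Finset.univ : Finset Fˣ) ⟨fun c : Fˣ => (c : F), Units.val_injective⟩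
            (fun c => ∑ d : F, P.K c d ^ 4)
          simp only [Function.Embedding.coeFn_mk] at this
          rw [← this]
          exact Finset.sum_le_sum_of_subset_of_nonneg (Finset.subset_univ _)
            (fun c _ _ => Finset.sum_nonneg (fun d _ => by positivity))
  have h4 : (Fintype.card Fˣ : ℤ) ≤ Fintype.card F := by
    rw [Fintype.card_units]; omega
  have h5 : (0 : ℤ) < Fintype.card Fˣ := by exact_mod_cast Fintype.card_pos
  have h6 : (Fintype.card Fˣ : ℤ) * P.K a b ^ 4 ≤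
      (Fintype.card Fˣ : ℤ) * (3 * (Fintype.card F : ℤ) ^ 2 * (Fintype.card Fˣ : ℤ)) := by
    calc _ ≤ _ := h2
      _ ≤ _ := h1
      _ = _ := by ring
  have h7 := le_of_mul_le_mul_left h6 h5
  calc P.K a b ^ 4 ≤ 3 * (Fintype.card F : ℤ) ^ 2 * (Fintype.card Fˣ : ℤ) := h7
    _ ≤ 3 * (Fintype.card F : ℤ) ^ 2 * (Fintype.card F : ℤ) := by gcongr
    _ = _ := by ring

/-- for large fields the sum is at most half of the order -/
theorem K_half {a b : F} (ha : a ≠ 0) (hb : b ≠ 0) (hq : 64 ≤ Fintype.card F) :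
    2 * |P.K a b| ≤ Fintype.card F := by
  by_contra h
  push Not at h
  have h1 := P.K_bound ha hb
  set q : ℤ := (Fintype.card F : ℤ) with hqd
  have hq' : (64 : ℤ) ≤ q := by rw [hqd]; exact_mod_cast hq
  have h2 : q ^ 4 < (2 * |P.K a b|) ^ 4 := pow_lt_pow_left₀ h (by linarith) (by norm_num)
  have h3 : (2 * |P.K a b|) ^ 4 = 16 * P.K a b ^ 4 := by
    rw [mul_pow, Even.pow_abs (by decide)]; norm_num
  have h4 : (0 : ℤ) < q ^ 3 := by positivity
  have h5 : q ^ 4 = q * q ^ 3 := by ring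
  nlinarith

end Psi
end Pool.Agent.X126.Kloo
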