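import Mathlib

/-! Polarity graph of the generalized quadrangle W(q), q = 2^(2e+1): field part. -/

namespace Pool.Agent.X126.GQField

variable {F : Type*} [Field F]

/-- the (symmetric) relation between triples -/
def Inc (σ : F ≃+* F) (u v : F × F × F) : Prop :=
  u.2.1 + v.2.2 = u.1 * σ v.1 ∧ u.2.2 + v.2.1 = σ u.1 * v.1

theorem Inc.symm {σ : F ≃+* F} {u v : F × F × F} (h : Inc σ u v) : Inc σ v u := by
  obtain ⟨h1, h2⟩ := h
  exact ⟨by linear_combination h2, by linear_combination h1⟩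

theorem Inc.eq {σ : F ≃+* F} {u v w : F × F × F} (h : Inc σ u v) (h' : Inc σ u w)
    (e : v.1 = w.1) : v = w := by
  obtain ⟨h1, h2⟩ := h
  obtain ⟨h3, h4⟩ := h'
  rw [e] at h1 h2
  refine Prod.ext e (Prod.ext ?_ ?_)
  · linear_combination h2 - h4
  · linear_combination h1 - h3

theorem no4 {σ : F ≃+* F} {u0 u1 u2 u3 : F × F × F} (h01 : Inc σ u0 u1) (h12 : Inc σ u1 u2)
    (h23 : Inc σ u2 u3) (h30 : Inc σ u3 u0) (n02 : u0 ≠ u2) (n13 : u1 ≠ u3) : False := by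
  have e : (u0.1 - u2.1) * (σ u1.1 - σ u3.1) = 0 := by
    obtain ⟨a1, a2⟩ := h01
    obtain ⟨b1, b2⟩ := h12
    obtain ⟨c1, c2⟩ := h23
    obtain ⟨d1, d2⟩ := h30
    linear_combination -a1 + b2 - c1 + d2
  rcases mul_eq_zero.1 e with h | h
  · exact n02 (h01.symm.eq h12 (sub_eq_zero.1 h))
  · exact n13 (h12.symm.eq h23 (σ.injective (sub_eq_zero.1 h)))

theorem no6 {σ : F ≃+* F} (hσ : ∀ x, σ (σ x) = x ^ 2) {u0 u1 u2 u3 u4 u5 : F × F × F}
    (h01 : Inc σ u0 u1) (h12 : Inc σ u1 u2)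
    (h23 : Inc σ u2 u3) (h34 : Inc σ u3 u4) (h45 : Inc σ u4 u5) (h50 : Inc σ u5 u0)
    (n02 : u0 ≠ u2) (n04 : u0 ≠ u4) (n15 : u1 ≠ u5) : False := by
  have e1 : (u0.1 - u2.1) * (σ u1.1 - σ u5.1) + (u2.1 - u4.1) * (σ u3.1 - σ u5.1) = 0 := by
    obtain ⟨a1, a2⟩ := h01
    obtain ⟨b1, b2⟩ := h12
    obtain ⟨c1, c2⟩ := h23
    obtain ⟨d1, d2⟩ := h34
    obtain ⟨f1, f2⟩ := h45
    obtain ⟨g1, g2⟩ := h50
    linear_combination -a1 + b2 - c1 + d2 - f1 + g2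
  have e2 : (σ u0.1 - σ u2.1) * (u1.1 - u5.1) + (σ u2.1 - σ u4.1) * (u3.1 - u5.1) = 0 := by
    obtain ⟨a1, a2⟩ := h01
    obtain ⟨b1, b2⟩ := h12
    obtain ⟨c1, c2⟩ := h23
    obtain ⟨d1, d2⟩ := h34
    obtain ⟨f1, f2⟩ := h45
    obtain ⟨g1, g2⟩ := h50
    linear_combination -a2 + b1 - c2 + d1 - f2 + g1
  have e3 := congrArg σ e2
  simp only [map_add, map_mul, map_sub, hσ, map_zero] at e3
  have e4 : (u0.1 - u2.1) * (σ u1.1 - σ u5.1) * (u0.1 - u4.1) = 0 := by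
    linear_combination e3 - (u2.1 + u4.1) * e1
  rcases mul_eq_zero.1 e4 with h | h
  · rcases mul_eq_zero.1 h with h | h
    · exact n02 (h01.symm.eq h12 (sub_eq_zero.1 h))
    · exact n15 (h01.eq h50.symm (σ.injective (sub_eq_zero.1 h)))
  · exact n04 (h50.eq h45.symm (sub_eq_zero.1 h))

/-- the neighbour with given first coordinate -/
def nb (σ : F ≃+* F) (u : F × F × F) (a : F) : F × F × F :=
  (a, σ u.1 * a - u.2.2, u.1 * σ a - u.2.1)

theorem inc_nb (σ : F ≃+* F) (u : F × F × F) (a : F) : Inc σ u (nb σ u a) := by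
  constructor <;> simp [nb]

/-- the two equations for a path of length five -/
def Sol (E1 E2 X Y S T : F) : Prop := X * S + Y * T = E1 ∧ X ^ 2 * S + Y ^ 2 * T = E2

section Char
variable [CharP F 2]

theorem two0 : (2 : F) = 0 := CharTwo.two_eq_zero

theorem sol_exists {E1 E2 X Y : F} (hX : X ≠ 0) (hY : Y ≠ 0) (hW : X + Y ≠ 0) :
    Sol E1 E2 X Y ((E1 * Y + E2) / (X * (X + Y))) ((E1 * X + E2) / (Y * (X + Y))) := by
  constructor
  · field_simp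
    linear_combination E2 * (two0 (F := F))
  · field_simp
    linear_combination (E1 * X * Y) * (two0 (F := F))

omit [CharP F 2] in
theorem L1 {E1 E2 X Y S T Y' T' : F} (h : Sol E1 E2 X Y S T) (h' : Sol E1 E2 X Y' S T')
    (hY : Y ≠ 0) (hT : T ≠ 0) : Y = Y' := by
  obtain ⟨h1, h2⟩ := h
  obtain ⟨h3, h4⟩ := h'
  have e : (Y - Y') * (Y * T) = 0 := by linear_combination h2 - h4 - Y' * (h1 - h3)
  rcases mul_eq_zero.1 e with h | h
  · exact sub_eq_zero.1 h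
  · exact absurd h (mul_ne_zero hY hT)

theorem L2 {E1 E2 X Y S T X' Y' T' : F} (h : Sol E1 E2 X Y S T) (h' : Sol E1 E2 X' Y' S T')
    (hW : X + Y = X' + Y') (hY : Y ≠ 0) (hT : S + T ≠ 0) : Y = Y' := by
  obtain ⟨h1, h2⟩ := h
  obtain ⟨h3, h4⟩ := h'
  have hX : X' = X + Y - Y' := by linear_combination -hW
  subst hX
  have e : (Y - Y') * (Y * (S + T)) = 0 := by
    linear_combination h2 - h4 - Y' * (h1 - h3) +
      (S * (-X * Y' - Y * Y' + Y' ^ 2 + X * Y + Y ^ 2 - Y * Y')) * (two0 (F := F))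
  rcases mul_eq_zero.1 e with h | h
  · exact sub_eq_zero.1 h
  · exact absurd h (mul_ne_zero hY hT)

omit [CharP F 2] in
theorem Sol.swap {E1 E2 X Y S T : F} (h : Sol E1 E2 X Y S T) : Sol E1 E2 Y X T S :=
  ⟨by linear_combination h.1, by linear_combination h.2⟩

theorem L3 {E1 E2 X Y S T X' Y' S' : F} (h : Sol E1 E2 X Y S T) (h' : Sol E1 E2 X' Y' S' T)
    (hW : X + Y = X' + Y') (hX : X ≠ 0) (hT : S + T ≠ 0) : X = X' :=
  L2 h.swap h'.swap (by linear_combination hW) hX (by rwa [add_comm])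

theorem L4 {E1 E2 X Y S T X' Y' : F} (h : Sol E1 E2 X Y S T) (h' : Sol E1 E2 X' Y' S T)
    (hS : S ≠ 0) (hT : T ≠ 0) (hST : S + T ≠ 0) : X = X' ∧ Y = Y' := by
  obtain ⟨h1, h2⟩ := h
  obtain ⟨h3, h4⟩ := h'
  have e : (Y - Y') ^ 2 * (T * (S + T)) = 0 := by
    linear_combination S * (h2 - h4) - ((X + X') * S + (Y - Y') * T) * (h1 - h3) +
      (-(Y * Y' * T * S) - 2 * Y * Y' * T ^ 2 + Y * T * S * X + Y ^ 2 * T ^ 2 - Y' * T * S * X +
        Y' ^ 2 * T * S + Y' ^ 2 * T ^ 2) * (two0 (F := F))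
  have e2 : Y = Y' := by
    rcases mul_eq_zero.1 e with h | h
    · exact sub_eq_zero.1 (pow_eq_zero_iff (two_ne_zero) |>.1 h)
    · exact absurd h (mul_ne_zero hT hST)
  subst e2
  have e3 : (X - X') * S = 0 := by linear_combination h1 - h3
  rcases mul_eq_zero.1 e3 with h | h
  · exact ⟨sub_eq_zero.1 h, rfl⟩
  · exact absurd h hS

theorem L5 {E1 E2 X Y S T Y' S' : F} (h : Sol E1 E2 X Y S T) (h' : Sol E1 E2 X Y' S' T)
    (hT : T ≠ 0) : Y' = Y ∨ Y' = X + Y := by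
  obtain ⟨h1, h2⟩ := h
  obtain ⟨h3, h4⟩ := h'
  have e : (Y' - Y) * ((Y' - (X + Y)) * T) = 0 := by
    linear_combination -(h2 - h4) + X * (h1 - h3) - (Y' - Y) * Y * T * (two0 (F := F))
  rcases mul_eq_zero.1 e with h | h
  · exact Or.inl (sub_eq_zero.1 h)
  · rcases mul_eq_zero.1 h with h | h
    · exact Or.inr (sub_eq_zero.1 h)
    · exact absurd h hT

omit [CharP F 2] in
theorem L6 {E1 E2 X Y T X' Y' T' : F} (hE : ¬ (E1 = 0 ∧ E2 = 0)) (h : Sol E1 E2 X Y 0 T)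
    (h' : Sol E1 E2 X' Y' 0 T') : Y = Y' := by
  obtain ⟨h1, h2⟩ := h
  obtain ⟨h3, h4⟩ := h'
  have e : (Y - Y') * E1 = 0 := by linear_combination Y' * h3 - Y * h1 + h2 - h4
  rcases mul_eq_zero.1 e with h | h
  · exact sub_eq_zero.1 h
  · exact absurd ⟨h, by linear_combination -h2 + Y * h1 + Y * h⟩ hE

omit [CharP F 2] in
theorem L7 {E1 E2 X Y S X' Y' S' : F} (hE : ¬ (E1 = 0 ∧ E2 = 0)) (h : Sol E1 E2 X Y S 0)
    (h' : Sol E1 E2 X' Y' S' 0) : X = X' := L6 hE h.swap h'.swap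

theorem L8 {E1 E2 X Y S X' Y' S' : F} (hE : ¬ (E1 = 0 ∧ E2 = 0)) (h : Sol E1 E2 X Y S S)
    (h' : Sol E1 E2 X' Y' S' S') : X + Y = X' + Y' := by
  obtain ⟨h1, h2⟩ := h
  obtain ⟨h3, h4⟩ := h'
  have f1 : (X + Y) * E1 = E2 := by
    linear_combination h2 - (X + Y) * h1 + X * Y * S * (two0 (F := F))
  have f2 : (X' + Y') * E1 = E2 := by
    linear_combination h4 - (X' + Y') * h3 + X' * Y' * S' * (two0 (F := F))
  have e : ((X + Y) - (X' + Y')) * E1 = 0 := by linear_combination f1 - f2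
  rcases mul_eq_zero.1 e with h | h
  · exact sub_eq_zero.1 h
  · exact absurd ⟨h, by rw [← f1, h, mul_zero]⟩ hE

/-- the path of length five -/
theorem walk (σ : F ≃+* F) (hσ : ∀ x, σ (σ x) = x ^ 2) (u v : F × F × F) (a1 a2 a3 a4 : F)
    (h : Sol (u.2.1 + v.2.2 + u.1 * σ v.1) (σ (u.2.2 + v.2.1 + σ u.1 * v.1))
      (u.1 + a2) (a2 + a4) (σ a1 + σ v.1) (σ a3 + σ v.1)) :
    Inc σ (nb σ (nb σ u a1) a2) (nb σ (nb σ v a4) a3) := by
  obtain ⟨h1, h2⟩ := h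
  constructor
  · simp only [nb]
    linear_combination h1 +
      (a4 * σ a3 - u.1 * σ a1 - a2 * σ a3 - a4 * σ v.1 - u.1 * σ v.1 + (-(a2 * σ v.1) +
        u.1 * σ v.1 + u.2.1 - a4 * σ a3 + v.2.2)) * (two0 (F := F))
  · apply σ.injective
    simp only [nb, map_add, map_mul, map_sub, hσ] at h2 ⊢
    linear_combination h2 +
      (-(σ a1 * a2 * u.1) - σ a1 * u.1 ^ 2 - a2 * u.1 * σ v.1 - a2 * a4 * σ a3 -
        a2 * a4 * σ v.1 - a2 ^ 2 * σ a3 - a2 ^ 2 * σ v.1 + σ u.2.2 - a4 ^ 2 * σ v.1 +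
        σ v.2.1) * (two0 (F := F))

end Char
end Pool.Agent.X126.GQField
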