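import Mathlib
import Pool.Agent.X126.GQField

set_option linter.unusedSectionVars false

namespace Pool.Agent.X126.GQCount
open Pool.Agent.X126.GQField

variable {F : Type*} [Field F] [DecidableEq F]

theorem inj_fst (D : Finset (F × F)) (G : Finset F) (hD : ∀ p ∈ D, p.1 ∈ G)
    (B : F × F → Prop) [DecidablePred B]
    (h : ∀ p ∈ D, ∀ p' ∈ D, B p → B p' → p.1 = p'.1 → p.2 = p'.2) :
    (D.filter B).card ≤ G.card := by
  apply Finset.card_le_card_of_injOn Prod.fst
  · intro p hp
    exact hD p (Finset.mem_filter.1 hp).1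
  · intro p hp p' hp' e
    have h1 := Finset.mem_filter.1 (Finset.mem_coe.1 hp)
    have h2 := Finset.mem_filter.1 (Finset.mem_coe.1 hp')
    exact Prod.ext e (h p h1.1 p' h2.1 h1.2 h2.2 e)

theorem inj_snd (D : Finset (F × F)) (G : Finset F) (hD : ∀ p ∈ D, p.2 ∈ G)
    (B : F × F → Prop) [DecidablePred B]
    (h : ∀ p ∈ D, ∀ p' ∈ D, B p → B p' → p.2 = p'.2 → p.1 = p'.1) :
    (D.filter B).card ≤ G.card := by
  apply Finset.card_le_card_of_injOn Prod.snd
  · intro p hp
    exact hD p (Finset.mem_filter.1 hp).1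
  · intro p hp p' hp' e
    have h1 := Finset.mem_filter.1 (Finset.mem_coe.1 hp)
    have h2 := Finset.mem_filter.1 (Finset.mem_coe.1 hp')
    exact Prod.ext (h p h1.1 p' h2.1 h1.2 h2.2 e) e

theorem two_fst (D : Finset (F × F)) (G : Finset F) (hD : ∀ p ∈ D, p.1 ∈ G)
    (B : F × F → Prop) [DecidablePred B] (g : F × F → F)
    (h : ∀ p ∈ D, ∀ p' ∈ D, B p → B p' → p.1 = p'.1 → p'.2 = p.2 ∨ p'.2 = g p) :
    (D.filter B).card ≤ 2 * G.card := by
  apply Finset.card_le_mul_card_image_of_maps_to (f := Prod.fst) (t := G)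
  · intro p hp
    exact hD p (Finset.mem_filter.1 hp).1
  · intro b _
    by_cases he : ((D.filter B).filter (fun p => p.1 = b)).Nonempty
    · obtain ⟨p, hp⟩ := he
      have hp1 := Finset.mem_filter.1 hp
      have hp2 := Finset.mem_filter.1 hp1.1
      have hs : (D.filter B).filter (fun p => p.1 = b) ⊆ {(b, p.2), (b, g p)} := by
        intro p' hp'
        have h1 := Finset.mem_filter.1 hp'
        have h2 := Finset.mem_filter.1 h1.1
        rcases h p hp2.1 p' h2.1 hp2.2 h2.2 (hp1.2.trans h1.2.symm) with e | e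
        · simp only [Finset.mem_insert, Finset.mem_singleton]
          exact Or.inl (Prod.ext h1.2 e)
        · simp only [Finset.mem_insert, Finset.mem_singleton]
          exact Or.inr (Prod.ext h1.2 e)
      exact (Finset.card_le_card hs).trans (Finset.card_le_two)
    · rw [Finset.not_nonempty_iff_eq_empty] at he
      rw [he]; simp

variable [CharP F 2]

theorem add_ne {x y : F} (h : x ≠ y) : x + y ≠ 0 := by
  intro e
  exact h (CharTwo.add_eq_zero.1 e)

theorem many (σ : F ≃+* F) (a0 a5 E1 E2 : F) (hE : ¬ (E1 = 0 ∧ E2 = 0)) (H : Finset F)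
    (hH : 30 ≤ H.card) :
    ∃ P : Finset (F × F), H.card ^ 2 ≤ 2 * P.card ∧ ∀ q ∈ P, ∃ a2 ∈ H, ∃ a4 ∈ H,
      Sol E1 E2 (a0 + a2) (a2 + a4) (σ q.1 + σ a5) (σ q.2 + σ a5) ∧
      (a0 ≠ q.1 ∧ a0 ≠ a2 ∧ a0 ≠ q.2 ∧ a0 ≠ a4) ∧
      (q.1 ≠ a2 ∧ q.1 ≠ q.2 ∧ q.1 ≠ a4 ∧ q.1 ≠ a5) ∧
      (a2 ≠ q.2 ∧ a2 ≠ a4 ∧ a2 ≠ a5) ∧ (q.2 ≠ a4 ∧ q.2 ≠ a5) ∧ a4 ≠ a5 := by
  classical
  set G := H.filter (fun x => x ≠ a0 ∧ x ≠ a5) with hG
  have hg : H.card ≤ G.card + 2 := by
    have : H ⊆ G ∪ {a0, a5} := by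
      intro x hx
      by_cases h : x ≠ a0 ∧ x ≠ a5
      · exact Finset.mem_union_left _ (Finset.mem_filter.2 ⟨hx, h⟩)
      · apply Finset.mem_union_right
        simp only [Finset.mem_insert, Finset.mem_singleton]
        tauto
    calc H.card ≤ _ := Finset.card_le_card this
      _ ≤ _ := Finset.card_union_le _ _
      _ ≤ _ := by gcongr; exact Finset.card_le_two
  set D := G.offDiag with hD
  have hDc : D.card = G.card * G.card - G.card := Finset.offDiag_card G
  set S : F × F → F := fun p =>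
    (E1 * (p.1 + p.2) + E2) / ((a0 + p.1) * ((a0 + p.1) + (p.1 + p.2))) with hSdef
  set T : F × F → F := fun p =>
    (E1 * (a0 + p.1) + E2) / ((p.1 + p.2) * ((a0 + p.1) + (p.1 + p.2))) with hTdef
  set b1 : F × F → F := fun p => σ.symm (S p + σ a5) with hb1
  set b3 : F × F → F := fun p => σ.symm (T p + σ a5) with hb3
  have hm : ∀ p ∈ D, p.1 ∈ G ∧ p.2 ∈ G ∧ p.1 ≠ p.2 := by
    intro p hp
    exact Finset.mem_offDiag.1 hp
  have hW : ∀ p : F × F, (a0 + p.1) + (p.1 + p.2) = a0 + p.2 := by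
    intro p
    linear_combination p.1 * (two0 (F := F))
  have hX : ∀ p ∈ D, a0 + p.1 ≠ 0 := fun p hp =>
    add_ne (Ne.symm (Finset.mem_filter.1 (hm p hp).1).2.1)
  have hY : ∀ p ∈ D, p.1 + p.2 ≠ 0 := fun p hp => add_ne (hm p hp).2.2
  have hXY : ∀ p ∈ D, (a0 + p.1) + (p.1 + p.2) ≠ 0 := fun p hp => by
    rw [hW]
    exact add_ne (Ne.symm (Finset.mem_filter.1 (hm p hp).2.1).2.1)
  have hsol : ∀ p ∈ D, Sol E1 E2 (a0 + p.1) (p.1 + p.2) (S p) (T p) := fun p hp =>
    sol_exists (hX p hp) (hY p hp) (hXY p hp)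
  have hs1 : ∀ p, σ (b1 p) + σ a5 = S p := by
    intro p
    simp only [hb1, RingEquiv.apply_symm_apply]
    linear_combination (σ a5) * (two0 (F := F))
  have hs3 : ∀ p, σ (b3 p) + σ a5 = T p := by
    intro p
    simp only [hb3, RingEquiv.apply_symm_apply]
    linear_combination (σ a5) * (two0 (F := F))
  set N : F × F → Prop := fun p => S p ≠ 0 ∧ T p ≠ 0 ∧ S p ≠ T p with hN
  have c1 : (D.filter (fun p => S p = 0)).card ≤ G.card := by
    apply inj_fst D G (fun p hp => (hm p hp).1)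
    intro p hp p' hp' h h' e
    have s1 := hsol p hp
    have s2 := hsol p' hp'
    rw [h] at s1
    rw [h'] at s2
    have := L6 hE s1 s2
    rw [e] at this
    exact add_left_cancel this
  have c2 : (D.filter (fun p => T p = 0)).card ≤ G.card := by
    apply inj_snd D G (fun p hp => (hm p hp).2.1)
    intro p hp p' hp' h h' e
    have s1 := hsol p hp
    have s2 := hsol p' hp'
    rw [h] at s1
    rw [h'] at s2
    exact add_left_cancel (L7 hE s1 s2)
  have c3 : (D.filter (fun p => S p = T p)).card ≤ G.card := by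
    apply inj_fst D G (fun p hp => (hm p hp).1)
    intro p hp p' hp' h h' e
    have s1 := hsol p hp
    have s2 := hsol p' hp'
    rw [h] at s1
    rw [h'] at s2
    have := L8 hE s1 s2
    rw [hW, hW] at this
    exact add_left_cancel this
  have key1 : ∀ p ∈ D, ∀ p' ∈ D, N p → N p' → S p = S p' → p.1 = p'.1 → p.2 = p'.2 := by
    intro p hp p' hp' h h' e f
    have s1 := hsol p hp
    have s2 := hsol p' hp'
    rw [← e, ← f] at s2
    have := L1 s1 s2 (hY p hp) h.2.1
    exact add_left_cancel this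
  have key2 : ∀ p ∈ D, ∀ p' ∈ D, N p → N p' → S p = S p' → p.2 = p'.2 → p.1 = p'.1 := by
    intro p hp p' hp' h h' e f
    have s1 := hsol p hp
    have s2 := hsol p' hp'
    rw [← e] at s2
    have := L2 s1 s2 (by rw [hW, hW, f]) (hY p hp) (add_ne h.2.2)
    rw [f] at this
    exact add_right_cancel this
  have key3 : ∀ p ∈ D, ∀ p' ∈ D, N p → N p' → T p = T p' → p.2 = p'.2 → p.1 = p'.1 := by
    intro p hp p' hp' h h' e f
    have s1 := hsol p hp
    have s2 := hsol p' hp'
    rw [← e] at s2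
    have := L3 s1 s2 (by rw [hW, hW, f]) (hX p hp) (add_ne h.2.2)
    exact add_left_cancel this
  have eqS : ∀ p p', b1 p = b1 p' → S p = S p' := by
    intro p p' h
    rw [← hs1 p, ← hs1 p', h]
  have eqT : ∀ p p', b3 p = b3 p' → T p = T p' := by
    intro p p' h
    rw [← hs3 p, ← hs3 p', h]
  have c4 : (D.filter (fun p => N p ∧ b1 p = a0)).card ≤ G.card := by
    apply inj_fst D G (fun p hp => (hm p hp).1)
    intro p hp p' hp' h h' e
    exact key1 p hp p' hp' h.1 h'.1 (eqS _ _ (h.2.trans h'.2.symm)) e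
  have c5 : (D.filter (fun p => N p ∧ b3 p = a0)).card ≤ G.card := by
    apply inj_snd D G (fun p hp => (hm p hp).2.1)
    intro p hp p' hp' h h' e
    exact key3 p hp p' hp' h.1 h'.1 (eqT _ _ (h.2.trans h'.2.symm)) e
  have c6 : (D.filter (fun p => N p ∧ b1 p = p.1)).card ≤ G.card := by
    apply inj_fst D G (fun p hp => (hm p hp).1)
    intro p hp p' hp' h h' e
    exact key1 p hp p' hp' h.1 h'.1 (eqS _ _ (h.2.trans (e.trans h'.2.symm))) e
  have c7 : (D.filter (fun p => N p ∧ b1 p = p.2)).card ≤ G.card := by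
    apply inj_snd D G (fun p hp => (hm p hp).2.1)
    intro p hp p' hp' h h' e
    exact key2 p hp p' hp' h.1 h'.1 (eqS _ _ (h.2.trans (e.trans h'.2.symm))) e
  have c9 : (D.filter (fun p => N p ∧ b3 p = p.2)).card ≤ G.card := by
    apply inj_snd D G (fun p hp => (hm p hp).2.1)
    intro p hp p' hp' h h' e
    exact key3 p hp p' hp' h.1 h'.1 (eqT _ _ (h.2.trans (e.trans h'.2.symm))) e
  have c8 : (D.filter (fun p => N p ∧ b3 p = p.1)).card ≤ 2 * G.card := by
    apply two_fst D G (fun p hp => (hm p hp).1) _ (fun p => a0 + p.1 + p.2)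
    intro p hp p' hp' h h' e
    have eT := eqT _ _ (h.2.trans (e.trans h'.2.symm))
    have s1 := hsol p hp
    have s2 := hsol p' hp'
    rw [← eT, ← e] at s2
    rcases L5 s1 s2 h.1.2.1 with k | k
    · exact Or.inl (add_left_cancel k)
    · right
      linear_combination k
  set U := (D.filter (fun p => S p = 0)) ∪ (D.filter (fun p => T p = 0)) ∪
    (D.filter (fun p => S p = T p)) ∪ (D.filter (fun p => N p ∧ b1 p = a0)) ∪
    (D.filter (fun p => N p ∧ b3 p = a0)) ∪ (D.filter (fun p => N p ∧ b1 p = p.1)) ∪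
    (D.filter (fun p => N p ∧ b1 p = p.2)) ∪ (D.filter (fun p => N p ∧ b3 p = p.2)) ∪
    (D.filter (fun p => N p ∧ b3 p = p.1)) with hU
  have hUc : U.card ≤ 10 * G.card := by
    rw [hU]
    refine (Finset.card_union_le _ _).trans ?_
    refine (add_le_add_left (Finset.card_union_le _ _) _).trans ?_
    refine (add_le_add_left (add_le_add_left (Finset.card_union_le _ _) _) _).trans ?_
    refine (add_le_add_left (add_le_add_left (add_le_add_left
      (Finset.card_union_le _ _) _) _) _).trans ?_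
    refine (add_le_add_left (add_le_add_left (add_le_add_left (add_le_add_left
      (Finset.card_union_le _ _) _) _) _) _).trans ?_
    refine (add_le_add_left (add_le_add_left (add_le_add_left (add_le_add_left (add_le_add_left
      (Finset.card_union_le _ _) _) _) _) _) _).trans ?_
    refine (add_le_add_left (add_le_add_left (add_le_add_left (add_le_add_left (add_le_add_left
      (add_le_add_left (Finset.card_union_le _ _) _) _) _) _) _) _).trans ?_
    refine (add_le_add_left (add_le_add_left (add_le_add_left (add_le_add_left (add_le_add_left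
      (add_le_add_left (add_le_add_left (Finset.card_union_le _ _) _) _) _) _) _) _) _).trans ?_
    omega
  have hgood : ∀ p ∈ D \ U, p ∈ D ∧ N p ∧ b1 p ≠ a0 ∧ b3 p ≠ a0 ∧ b1 p ≠ p.1 ∧ b1 p ≠ p.2 ∧
      b3 p ≠ p.2 ∧ b3 p ≠ p.1 := by
    intro p hp
    have h1 := Finset.mem_sdiff.1 hp
    have h2 := h1.2
    simp only [hU, Finset.mem_union, Finset.mem_filter, h1.1, true_and, not_or] at h2
    obtain ⟨⟨⟨⟨⟨⟨⟨⟨k1, k2⟩, k3⟩, k4⟩, k5⟩, k6⟩, k7⟩, k9⟩, k8⟩ := h2
    have kN : N p := ⟨k1, k2, k3⟩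
    exact ⟨h1.1, kN, fun h => k4 ⟨kN, h⟩, fun h => k5 ⟨kN, h⟩, fun h => k6 ⟨kN, h⟩,
      fun h => k7 ⟨kN, h⟩, fun h => k9 ⟨kN, h⟩, fun h => k8 ⟨kN, h⟩⟩
  refine ⟨(D \ U).image (fun p => (b1 p, b3 p)), ?_, ?_⟩
  · rw [Finset.card_image_of_injOn]
    · have h1 : D.card ≤ (D \ U).card + U.card := by
        rw [← Nat.sub_le_iff_le_add]
        exact Finset.le_card_sdiff U D
      have h2 : G.card * G.card ≤ (D \ U).card + 11 * G.card := by
        have := Nat.le_mul_self G.card
        omega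
      have h3 : G.card ≤ H.card := Finset.card_filter_le _ _
      obtain ⟨g, hg'⟩ : ∃ g, G.card = g + 28 := ⟨G.card - 28, by omega⟩
      rw [hg'] at h2 hg
      have h4 : H.card ^ 2 ≤ (g + 30) ^ 2 := Nat.pow_le_pow_left (by omega) 2
      nlinarith
    · intro p hp p' hp' e
      have g1 := hgood p (Finset.mem_coe.1 hp)
      have g2 := hgood p' (Finset.mem_coe.1 hp')
      simp only [Prod.mk.injEq] at e
      have s1 := hsol p g1.1
      have s2 := hsol p' g2.1
      rw [← eqS _ _ e.1, ← eqT _ _ e.2] at s2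
      obtain ⟨r1, r2⟩ := L4 s1 s2 g1.2.1.1 g1.2.1.2.1 (add_ne g1.2.1.2.2)
      have r3 := add_left_cancel r1
      rw [r3] at r2
      exact Prod.ext r3 (add_left_cancel r2)
  · intro q hq
    obtain ⟨p, hp, rfl⟩ := Finset.mem_image.1 hq
    obtain ⟨gD, gN, g1, g2, g3, g4, g5, g6⟩ := hgood p hp
    have m1 := Finset.mem_filter.1 (hm p gD).1
    have m2 := Finset.mem_filter.1 (hm p gD).2.1
    refine ⟨p.1, m1.1, p.2, m2.1, ?_, ?_, ?_, ?_, ?_, ?_⟩
    · simp only [hs1, hs3]
      exact hsol p gD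
    · exact ⟨g1.symm, m1.2.1.symm, g2.symm, m2.2.1.symm⟩
    · refine ⟨g3, ?_, g4, ?_⟩
      · intro h
        apply gN.2.2
        simp only at h
        rw [← hs1, ← hs3, h]
      · intro h
        apply gN.1
        simp only at h
        rw [← hs1, h]
        exact CharTwo.add_self_eq_zero _
    · exact ⟨g6.symm, (hm p gD).2.2, m1.2.2⟩
    · refine ⟨g5, ?_⟩
      intro h
      apply gN.2.1
      simp only at h
      rw [← hs3, h]
      exact CharTwo.add_self_eq_zero _
    · exact m2.2.2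

end Pool.Agent.X126.GQCount
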