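import Mathlib
import Pool.Agent.X126.GQCount

set_option linter.unusedSectionVars false

namespace Pool.Agent.X126.GQSat
open Pool.Agent.X126.GQField Pool.Agent.X126.GQCount

/-- A finite family of dense sets of pairs is hit by few pairs. -/
theorem hit {Ω A : Type*} [Fintype Ω] [Fintype A] [DecidableEq A] (Good : Ω → Finset A)
    (K r : ℕ) (hK : 0 < K) (hA : 0 < Fintype.card A)
    (hd : ∀ ω, Fintype.card A ≤ K * (Good ω).card)
    (hr : Fintype.card Ω * (K - 1) ^ r < K ^ r) :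
    ∃ f : Fin r → A, ∀ ω, ∃ j, f j ∈ Good ω := by
  classical
  by_contra hcon
  push Not at hcon
  set B : Ω → Finset (Fin r → A) := fun ω => Fintype.piFinset (fun _ => (Good ω)ᶜ) with hB
  have hall : (Finset.univ : Finset (Fin r → A)) ⊆ Finset.univ.biUnion B := by
    intro f _
    obtain ⟨ω, hω⟩ := hcon f
    refine Finset.mem_biUnion.2 ⟨ω, Finset.mem_univ _, ?_⟩
    simp only [hB, Fintype.mem_piFinset, Finset.mem_compl]
    exact hω
  have h1 : Fintype.card A ^ r ≤ ∑ ω, (B ω).card := by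
    have := (Finset.card_le_card hall).trans Finset.card_biUnion_le
    simpa using this
  have h2 : ∀ ω, K ^ r * (B ω).card ≤ (K - 1) ^ r * Fintype.card A ^ r := by
    intro ω
    have e : (B ω).card = ((Good ω)ᶜ).card ^ r := by
      simp [hB]
    rw [e, ← mul_pow, ← mul_pow]
    apply Nat.pow_le_pow_left
    rw [Finset.card_compl]
    have := hd ω
    obtain ⟨k, rfl⟩ : ∃ k, K = k + 1 := ⟨K - 1, by omega⟩
    have h3 : (Good ω).card ≤ Fintype.card A := Finset.card_le_univ _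
    obtain ⟨c, hc⟩ := Nat.exists_eq_add_of_le h3
    rw [hc] at this ⊢
    simp only [Nat.add_sub_cancel_left, Nat.add_sub_cancel]
    nlinarith
  have h4 : K ^ r * Fintype.card A ^ r ≤ Fintype.card Ω * ((K - 1) ^ r * Fintype.card A ^ r) := by
    calc K ^ r * Fintype.card A ^ r ≤ K ^ r * ∑ ω, (B ω).card := by gcongr
      _ = ∑ ω, K ^ r * (B ω).card := by rw [Finset.mul_sum]
      _ ≤ ∑ _ω : Ω, (K - 1) ^ r * Fintype.card A ^ r := Finset.sum_le_sum (fun ω _ => h2 ω)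
      _ = _ := by simp
  have h5 : 0 < Fintype.card A ^ r := pow_pos hA r
  have h6 : K ^ r ≤ Fintype.card Ω * (K - 1) ^ r := by
    apply Nat.le_of_mul_le_mul_right _ h5
    linarith
  omega

theorem pow_bound (K t : ℕ) (hK : 0 < K) : 2 ^ t * (K - 1) ^ (K * t) ≤ K ^ (K * t) := by
  obtain ⟨k, rfl⟩ : ∃ k, K = k + 1 := ⟨K - 1, by omega⟩
  simp only [Nat.add_sub_cancel]
  rw [pow_mul, pow_mul, ← mul_pow]
  apply Nat.pow_le_pow_left
  rcases Nat.eq_zero_or_pos k with rfl | hk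
  · simp
  · -- (k+1)^(k+1) ≥ 2 k^(k+1)
    have h : (k + 1) * 1 + k ≤ 0 ∨ True := Or.inr trivial
    have h1 : k ^ (k + 1) + (k + 1) * k ^ k ≤ (k + 1) ^ (k + 1) := by
      rw [add_pow k 1 (k + 1), Finset.sum_range_succ, Finset.sum_range_succ]
      simp only [one_pow, mul_one, Nat.choose_self, Nat.cast_one, Nat.sub_self,
        Nat.choose_succ_self_right, Nat.cast_add]
      nlinarith [Nat.zero_le (∑ x ∈ Finset.range k, k ^ x * (k + 1).choose x)]
    have h2 : k ^ (k + 1) = k * k ^ k := by ring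
    nlinarith [Nat.zero_le (k ^ k)]

/-- a path of length five with interior in a set -/
def Path5 {V : Type*} (R : V → V → Prop) (A : Set V) (u v : V) : Prop :=
  ∃ x1 ∈ A, ∃ x2 ∈ A, ∃ x3 ∈ A, ∃ x4 ∈ A,
    R u x1 ∧ R x1 x2 ∧ R x2 x3 ∧ R x3 x4 ∧ R x4 v ∧
    (u ≠ x1 ∧ u ≠ x2 ∧ u ≠ x3 ∧ u ≠ x4) ∧ (x1 ≠ x2 ∧ x1 ≠ x3 ∧ x1 ≠ x4 ∧ x1 ≠ v) ∧
    (x2 ≠ x3 ∧ x2 ≠ x4 ∧ x2 ≠ v) ∧ (x3 ≠ x4 ∧ x3 ≠ v) ∧ x4 ≠ v

section
variable {F : Type*} [Field F] [DecidableEq F] [CharP F 2] [Fintype F]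

theorem good_set (σ : F ≃+* F) (hσ : ∀ x, σ (σ x) = x ^ 2) (H : Finset F)
    (hH : 30 ≤ H.card) (u v : F × F × F) (huv : ¬ Inc σ u v) :
    ∃ P : Finset (F × F), H.card ^ 2 ≤ 2 * P.card ∧ ∀ q ∈ P,
      ∀ A : Set (F × F × F), (∀ w : F × F × F, w.1 ∈ H ∨ w.1 = q.1 ∨ w.1 = q.2 → w ∈ A) →
        Path5 (Inc σ) A u v := by
  have hE : ¬ (u.2.1 + v.2.2 + u.1 * σ v.1 = 0 ∧ σ (u.2.2 + v.2.1 + σ u.1 * v.1) = 0) := by
    rintro ⟨h1, h2⟩
    apply huv
    constructor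
    · exact CharTwo.add_eq_zero.1 h1
    · exact CharTwo.add_eq_zero.1 (σ.injective (by rw [h2, map_zero]))
  obtain ⟨P, hP1, hP2⟩ := many σ u.1 v.1 _ _ hE H hH
  refine ⟨P, hP1, fun q hq A hA => ?_⟩
  obtain ⟨a2, h2, a4, h4, hs, ⟨d1, d2, d3, d4⟩, ⟨d5, d6, d7, d8⟩, ⟨d9, d10, d11⟩, ⟨d12, d13⟩,
    d14⟩ := hP2 q hq
  have hw := walk σ hσ u v q.1 a2 q.2 a4 hs
  have ne : ∀ x y : F × F × F, x.1 ≠ y.1 → x ≠ y := fun x y h e => h (by rw [e])
  refine ⟨nb σ u q.1, hA _ (Or.inr (Or.inl rfl)), nb σ (nb σ u q.1) a2, hA _ (Or.inl h2),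
    nb σ (nb σ v a4) q.2, hA _ (Or.inr (Or.inr rfl)), nb σ v a4, hA _ (Or.inl h4),
    inc_nb _ _ _, inc_nb _ _ _, hw, (inc_nb _ _ _).symm, (inc_nb _ _ _).symm,
    ⟨ne _ _ d1, ne _ _ d2, ne _ _ d3, ne _ _ d4⟩, ⟨ne _ _ d5, ne _ _ d6, ne _ _ d7, ne _ _ d8⟩,
    ⟨ne _ _ d9, ne _ _ d10, ne _ _ d11⟩, ⟨ne _ _ d12, ne _ _ d13⟩, ne _ _ d14⟩

/-- the small universal set -/
theorem small_set (σ : F ≃+* F) (hσ : ∀ x, σ (σ x) = x ^ 2) (m : ℕ)
    (hq : Fintype.card F = 2 ^ m) (hm : 31 ≤ m) :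
    ∃ A : Finset (F × F × F), A.card ≤ 2 ^ (3 * (m - 2)) ∧
      ∀ u v, ¬ Inc σ u v → Path5 (Inc σ) (A : Set (F × F × F)) u v := by
  classical
  obtain ⟨H, hHs⟩ : ∃ H : Finset F, H.card = 2 ^ (m - 7) := by
    obtain ⟨H, _, hH⟩ := Finset.exists_subset_card_eq (s := (Finset.univ : Finset F))
      (n := 2 ^ (m - 7)) (by
        rw [Finset.card_univ, hq]; exact Nat.pow_le_pow_right (by norm_num) (by omega))
    exact ⟨H, hH⟩
  have h30 : 30 ≤ H.card := by
    rw [hHs]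
    calc 30 ≤ 2 ^ 5 := by norm_num
      _ ≤ _ := Nat.pow_le_pow_right (by norm_num) (by omega)
  let Ω := {p : (F × F × F) × (F × F × F) // ¬ Inc σ p.1 p.2}
  choose P hP1 hP2 using fun ω : Ω => good_set σ hσ H h30 ω.1.1 ω.1.2 ω.2
  set K : ℕ := 2 ^ 15 with hKdef
  have hqm : Fintype.card (F × F) = 2 ^ (2 * m) := by
    rw [Fintype.card_prod, hq, ← pow_add]; congr 1; omega
  obtain ⟨f, hf⟩ := hit P K (K * (6 * m + 1)) (by positivity) (by rw [hqm]; positivity)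
    (by
      intro ω
      rw [hqm]
      have h1 := hP1 ω
      rw [hHs, ← pow_mul] at h1
      have h2 : 2 ^ (2 * m) = 2 ^ 14 * 2 ^ ((m - 7) * 2) := by
        rw [← pow_add]; congr 1; omega
      rw [h2, hKdef]
      have h3 : (2 : ℕ) ^ 15 = 2 ^ 14 * 2 := by norm_num
      rw [h3, mul_assoc]
      exact Nat.mul_le_mul_left _ h1)
    (by
      have h1 : Fintype.card Ω ≤ 2 ^ (6 * m) := by
        calc Fintype.card Ω ≤ Fintype.card ((F × F × F) × (F × F × F)) :=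
              Fintype.card_subtype_le _
          _ = _ := by
              simp only [Fintype.card_prod, hq, ← pow_add]
              congr 1; omega
      have h2 := pow_bound K (6 * m + 1) (by positivity)
      have h3 : 0 < (K - 1) ^ (K * (6 * m + 1)) := pow_pos (by norm_num [hKdef]) _
      calc Fintype.card Ω * (K - 1) ^ (K * (6 * m + 1))
          ≤ 2 ^ (6 * m) * (K - 1) ^ (K * (6 * m + 1)) := Nat.mul_le_mul_right _ h1
        _ < 2 ^ (6 * m + 1) * (K - 1) ^ (K * (6 * m + 1)) :=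
            Nat.mul_lt_mul_of_pos_right (Nat.pow_lt_pow_right (by norm_num) (by omega)) h3
        _ ≤ _ := h2)
  set R : Finset F := Finset.univ.image (fun j => (f j).1) ∪ Finset.univ.image (fun j => (f j).2)
    with hR
  refine ⟨(H ∪ R) ×ˢ Finset.univ, ?_, ?_⟩
  · have hRc : R.card ≤ 2 ^ (m - 7) := by
      have h1 : R.card ≤ K * (6 * m + 1) + K * (6 * m + 1) := by
        rw [hR]
        refine (Finset.card_union_le _ _).trans (add_le_add ?_ ?_)
        · refine Finset.card_image_le.trans ?_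
          simp
        · refine Finset.card_image_le.trans ?_
          simp
      have h2 : 6 * m + 1 ≤ 2 ^ (m - 23) := by
        clear_value K
        obtain ⟨k, rfl⟩ : ∃ k, m = k + 31 := ⟨m - 31, by omega⟩
        have : ∀ k : ℕ, 6 * (k + 31) + 1 ≤ 2 ^ (k + 8) := by
          intro k
          induction k with
          | zero => norm_num
          | succ k ih => rw [show k + 1 + 8 = (k + 8) + 1 by ring, pow_succ]; omega
        have h := this k
        rwa [show k + 31 - 23 = k + 8 by omega]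
      have h3 : 2 ^ (m - 7) = 2 ^ 16 * 2 ^ (m - 23) := by
        rw [← pow_add]; congr 1; omega
      rw [h3]
      have h4 : K = 2 ^ 15 := rfl
      have h5 : (2 : ℕ) ^ 16 = 2 ^ 15 + 2 ^ 15 := by norm_num
      rw [h5, ← h4]
      calc R.card ≤ _ := h1
        _ = (K + K) * (6 * m + 1) := by ring
        _ ≤ _ := Nat.mul_le_mul_left _ h2
    rw [Finset.card_product, Finset.card_univ, Fintype.card_prod, hq]
    calc (H ∪ R).card * (2 ^ m * 2 ^ m) ≤ (2 ^ (m - 7) + 2 ^ (m - 7)) * (2 ^ m * 2 ^ m) := by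
          apply Nat.mul_le_mul_right
          refine (Finset.card_union_le _ _).trans (add_le_add hHs.le hRc)
      _ = 2 ^ (3 * (m - 2)) := by
          rw [← two_mul, ← pow_succ', ← pow_add, ← pow_add]
          congr 1; omega
  · intro u v huv
    obtain ⟨j, hj⟩ := hf ⟨(u, v), huv⟩
    apply hP2 ⟨(u, v), huv⟩ _ hj
    intro w hw
    simp only [Finset.coe_product, Set.mem_prod, Finset.mem_coe, Finset.mem_union, hR,
      Finset.mem_image, Finset.mem_univ, true_and, Finset.coe_univ, Set.mem_univ, and_true]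
    rcases hw with h | h | h
    · exact Or.inl h
    · exact Or.inr (Or.inl ⟨j, h.symm⟩)
    · exact Or.inr (Or.inr ⟨j, h.symm⟩)

end

end Pool.Agent.X126.GQSat
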