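import Mathlib
import Pool.Agent.X126.GQSat

namespace Pool.Agent.X126.TwoStage
open Pool.Agent.X126.GQSat

theorem hit' {Ω A : Type*} [Fintype Ω] [Fintype A] [DecidableEq A] (Good : Ω → Finset A)
    (K t : ℕ) (hK : 1 < K) (hA : 0 < Fintype.card A)
    (hd : ∀ ω, Fintype.card A ≤ K * (Good ω).card)
    (hΩ : Fintype.card Ω < 2 ^ t) :
    ∃ f : Fin (K * t) → A, ∀ ω, ∃ j, f j ∈ Good ω := by
  apply hit Good K (K * t) (by omega) hA hd
  have h := pow_bound K t (by omega)
  have h3 : 0 < (K - 1) ^ (K * t) := pow_pos (by omega) _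
  calc Fintype.card Ω * (K - 1) ^ (K * t) < 2 ^ t * (K - 1) ^ (K * t) :=
        Nat.mul_lt_mul_of_pos_right hΩ h3
    _ ≤ _ := h

theorem two_stage {Ω F : Type*} [Fintype Ω] [Fintype F] [DecidableEq F] (Rel : Ω → F → F → Prop)
    (t : ℕ) (hΩ : Fintype.card Ω < 2 ^ t) (ht : 0 < t)
    (hq : 32 * (16 * t * (32 * t)) ≤ Fintype.card F)
    (Z : Ω → Finset F) (hZ1 : ∀ ω, ∀ x ∈ Z ω, ∃ y, Rel ω x y)
    (hZ : ∀ ω, Fintype.card F ≤ 16 * (Z ω).card)
    (huniq : ∀ ω x x' y, Rel ω x y → Rel ω x' y → x = x') :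
    ∃ A : Finset F, A.card ≤ 16 * t * (32 * t) + (Fintype.card F / (16 * t) + 1) * t ∧
      ∀ ω, ∃ x ∈ A, ∃ y ∈ A, Rel ω x y := by
  classical
  have hF : 0 < Fintype.card F := by
    have : 0 < 32 * (16 * t * (32 * t)) := by positivity
    omega
  have stage1 : ∀ k : ℕ, k ≤ 16 * t → ∃ X : Finset F, X.card ≤ k * (32 * t) ∧
      ∀ ω, k ≤ (X ∩ Z ω).card := by
    intro k
    induction k with
    | zero => intro _; exact ⟨∅, by simp, by simp⟩
    | succ k ih =>
      intro hk
      obtain ⟨X, hX1, hX2⟩ := ih (by omega)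
      have hX3 : X.card ≤ 16 * t * (32 * t) := hX1.trans (Nat.mul_le_mul_right _ (by omega))
      obtain ⟨f, hf⟩ := hit' (fun ω => Z ω \ X) 32 t (by norm_num) hF (by
        intro ω
        have h1 := Finset.le_card_sdiff X (Z ω)
        have h2 := hZ ω
        omega) hΩ
      refine ⟨X ∪ Finset.univ.image f, ?_, ?_⟩
      · refine (Finset.card_union_le _ _).trans ?_
        have : (Finset.univ.image f).card ≤ 32 * t := by
          refine Finset.card_image_le.trans ?_
          simp
        exact (add_le_add hX1 this).trans (le_of_eq (by ring))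
      · intro ω
        obtain ⟨j, hj⟩ := hf ω
        have hj' := Finset.mem_sdiff.1 hj
        have hs : insert (f j) (X ∩ Z ω) ⊆ (X ∪ Finset.univ.image f) ∩ Z ω := by
          intro x hx
          rcases Finset.mem_insert.1 hx with rfl | hx
          · exact Finset.mem_inter.2 ⟨Finset.mem_union_right _
              (Finset.mem_image_of_mem _ (Finset.mem_univ _)), hj'.1⟩
          · exact Finset.mem_inter.2 ⟨Finset.mem_union_left _ (Finset.mem_inter.1 hx).1,
              (Finset.mem_inter.1 hx).2⟩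
        have hc := Finset.card_le_card hs
        rw [Finset.card_insert_of_notMem (fun h => hj'.2 (Finset.mem_inter.1 h).1)] at hc
        have := hX2 ω
        omega
  obtain ⟨X, hX1, hX2⟩ := stage1 (16 * t) le_rfl
  set L := 16 * t with hL
  have hL0 : 0 < L := by omega
  have hgood : ∀ ω, L ≤ (Finset.univ.filter (fun y => ∃ x ∈ X, Rel ω x y)).card := by
    intro ω
    refine (hX2 ω).trans ?_
    have hex : ∀ x : F, x ∈ X ∩ Z ω → ∃ y, Rel ω x y := fun x hx =>
      hZ1 ω x (Finset.mem_inter.1 hx).2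
    choose! g hg using hex
    apply Finset.card_le_card_of_injOn g
    · intro x hx
      have hx' : x ∈ X ∩ Z ω := Finset.mem_coe.1 hx
      simp only [Finset.coe_filter, Finset.mem_univ, true_and, Set.mem_ofPred_eq]
      exact ⟨x, (Finset.mem_inter.1 hx').1, hg x hx'⟩
    · intro x hx x' hx' e
      have h1 := hg x (Finset.mem_coe.1 hx)
      have h2 := hg x' (Finset.mem_coe.1 hx')
      rw [← e] at h2
      exact huniq ω x x' _ h1 h2
  have hLF : L ≤ Fintype.card F := by
    have h1 : L * 1 ≤ L * (32 * t) := Nat.mul_le_mul_left _ (by omega)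
    omega
  obtain ⟨f, hf⟩ := hit' (fun ω => Finset.univ.filter (fun y => ∃ x ∈ X, Rel ω x y))
    (Fintype.card F / L + 1) t (by
      have := Nat.div_pos hLF hL0
      omega) hF (by
      intro ω
      have h1 := Nat.lt_mul_div_succ (Fintype.card F) hL0
      rw [mul_comm] at h1
      exact h1.le.trans (Nat.mul_le_mul_left _ (hgood ω))) hΩ
  refine ⟨X ∪ Finset.univ.image f, ?_, ?_⟩
  · refine (Finset.card_union_le _ _).trans (add_le_add hX1 ?_)
    refine Finset.card_image_le.trans ?_
    simp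
  · intro ω
    obtain ⟨j, hj⟩ := hf ω
    obtain ⟨x, hx, hr⟩ := (Finset.mem_filter.1 hj).2
    exact ⟨x, Finset.mem_union_left _ hx, f j, Finset.mem_union_right _
      (Finset.mem_image_of_mem _ (Finset.mem_univ _)), hr⟩

end Pool.Agent.X126.TwoStage
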