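import Mathlib
import Pool.Agent.X126.Kloo
import Pool.Agent.X126.TwoStage

set_option linter.unusedSectionVars false

namespace Pool.Agent.X126.TriFree
open Pool.Agent.X126.Kloo

variable {F : Type*} [Field F] [Fintype F] [DecidableEq F] [CharP F 2] (P : Psi F)

/-- the vertices -/
def W : Type _ := {r : F // P.ψ r = -1} × F

/-- the adjacency relation -/
def R (u v : W P) : Prop := (u.2 + v.2) * u.1.1 * v.1.1 = 1

theorem ne0 {r : F} (h : P.ψ r = -1) : r ≠ 0 := by
  rintro rfl
  rw [P.zero] at h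
  norm_num at h

theorem R.symm {u v : W P} (h : R P u v) : R P v u := by
  unfold R at *
  linear_combination h

theorem R.irrefl (u : W P) : ¬ R P u u := by
  intro h
  unfold R at h
  rw [CharTwo.add_self_eq_zero] at h
  simp at h

theorem R.eq {u v w : W P} (h : R P u v) (h' : R P u w) (e : v.1.1 = w.1.1) : v = w := by
  unfold R at *
  have hu := ne0 P u.1.2
  have hv := ne0 P v.1.2
  rw [← e] at h'
  have h1 : (v.2 - w.2) * (u.1.1 * v.1.1) = 0 := by linear_combination h - h'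
  have h2 := (mul_eq_zero.1 h1).resolve_right (mul_ne_zero hu hv)
  exact Prod.ext (Subtype.ext e) (sub_eq_zero.1 h2)

theorem no3 {u v w : W P} (h1 : R P u v) (h2 : R P v w) (h3 : R P w u) : False := by
  unfold R at *
  have e : u.1.1 + v.1.1 + w.1.1 = 0 := by
    linear_combination -w.1.1 * h1 - u.1.1 * h2 - v.1.1 * h3 +
      (u.1.1 * v.1.1 * w.1.1 * (u.2 + v.2 + w.2)) * (two0 (F := F))
  have h := P.add (u.1.1 + v.1.1) w.1.1
  rw [e, P.zero, P.add, u.1.2, v.1.2, w.1.2] at h
  norm_num at h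

theorem no4 {u0 u1 u2 u3 : W P} (h01 : R P u0 u1) (h12 : R P u1 u2) (h23 : R P u2 u3)
    (h30 : R P u3 u0) (n02 : u0 ≠ u2) (n13 : u1 ≠ u3) : False := by
  have h01' := h01
  have h12' := h12
  have h23' := h23
  unfold R at h01 h12 h23 h30
  have a0 := ne0 P u0.1.2
  have a1 := ne0 P u1.1.2
  have a2 := ne0 P u2.1.2
  have a3 := ne0 P u3.1.2
  have e : (u0.1.1 - u2.1.1) * (u1.1.1 - u3.1.1) = 0 := by
    linear_combination u2.1.1 * u3.1.1 * h01 - u0.1.1 * u3.1.1 * h12 +
      u0.1.1 * u1.1.1 * h23 - u1.1.1 * u2.1.1 * h30 +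
      (u0.1.1 * u1.1.1 - u0.1.1 * u3.1.1 - u2.1.1 * u1.1.1 + u2.1.1 * u3.1.1) *
        (two0 (F := F))
  rcases mul_eq_zero.1 e with h | h
  · exact n02 (R.eq P (R.symm P h01') h12' (sub_eq_zero.1 h))
  · exact n13 (R.eq P (R.symm P h12') h23' (sub_eq_zero.1 h))

/-- relation between the first coordinates of the two middle vertices of a path -/
def Rel (u v : W P) (x y : F) : Prop :=
  P.ψ x = -1 ∧ P.ψ y = -1 ∧ (u.2 + v.2) * x * y + y / u.1.1 + x / v.1.1 = 1

theorem path3 {u v : W P} {x y : F} (h : Rel P u v x y) :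
    ∃ a b : W P, a.1.1 = x ∧ b.1.1 = y ∧ R P u a ∧ R P a b ∧ R P b v := by
  obtain ⟨hx, hy, h⟩ := h
  have hx0 := ne0 P hx
  have hy0 := ne0 P hy
  have hu0 := ne0 P u.1.2
  have hv0 := ne0 P v.1.2
  refine ⟨(⟨x, hx⟩, u.2 + 1 / (u.1.1 * x)), (⟨y, hy⟩, v.2 + 1 / (v.1.1 * y)), rfl, rfl,
    ?_, ?_, ?_⟩
  · unfold R
    simp only
    field_simp
    linear_combination (u.1.1 * x * u.2) * (two0 (F := F))
  · unfold R
    simp only
    field_simp at h ⊢
    linear_combination h
  · unfold R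
    simp only
    field_simp
    linear_combination (v.1.1 * y * v.2) * (two0 (F := F))

theorem uniq {u v : W P} (huv : ¬ R P u v) {x x' y : F} (h : Rel P u v x y)
    (h' : Rel P u v x' y) : x = x' := by
  obtain ⟨hx, hy, h⟩ := h
  obtain ⟨hx', _, h'⟩ := h'
  have hu0 := ne0 P u.1.2
  have hv0 := ne0 P v.1.2
  have e : (x - x') * ((u.2 + v.2) * y + 1 / v.1.1) = 0 := by linear_combination h - h'
  rcases mul_eq_zero.1 e with k | k
  · exact sub_eq_zero.1 k
  · exfalso
    have e1 : y / u.1.1 = 1 := by linear_combination h - x * k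
    have e2 : y = u.1.1 := by
      rw [div_eq_one_iff_eq hu0] at e1
      exact e1
    rw [e2] at k
    apply huv
    unfold R
    field_simp at k
    linear_combination k - two0 (F := F)

theorem units_sum (f : F → ℤ) : ∑ z : Fˣ, f (z : F) = ∑ x : F, f x - f 0 := by
  have h1 := Finset.sum_map (Finset.univ : Finset Fˣ)
    ⟨fun c : Fˣ => (c : F), Units.val_injective⟩ f
  simp only [Function.Embedding.coeFn_mk] at h1
  rw [← h1]
  have h2 : (Finset.univ : Finset Fˣ).map ⟨fun c : Fˣ => (c : F), Units.val_injective⟩ =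
      Finset.univ.erase (0 : F) := by
    ext x
    simp only [Finset.mem_map, Finset.mem_univ, true_and, Function.Embedding.coeFn_mk,
      Finset.mem_erase, and_true]
    constructor
    · rintro ⟨z, rfl⟩
      exact z.ne_zero
    · intro h
      exact ⟨Units.mk0 x h, rfl⟩
  rw [h2, ← Finset.add_sum_erase _ _ (Finset.mem_univ (0 : F))]
  ring

theorem sum_units_psi : ∑ z : Fˣ, P.ψ (z : F) = -1 := by
  have h := units_sum (F := F) P.ψ
  have h2 := P.sum_zero (c := 1) one_ne_zero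
  simp only [mul_one] at h2
  rw [h, h2, P.zero]; norm_num

theorem sum_units_inv {e : F} (he : e ≠ 0) : ∑ z : Fˣ, P.ψ (e * ((z⁻¹ : Fˣ) : F)) = -1 := by
  rw [← sum_units_psi P]
  apply Fintype.sum_equiv ((Equiv.inv Fˣ).trans (Equiv.mulLeft (Units.mk0 e he)))
  intro z
  rfl

/-- indicator identity -/
theorem ind4 {α : Type*} [Fintype α] (f g : α → ℤ) (hf : ∀ z, f z = 1 ∨ f z = -1)
    (hg : ∀ z, g z = 1 ∨ g z = -1) :
    4 * ((Finset.univ.filter (fun z => f z = -1 ∧ g z = -1)).card : ℤ) =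
      ∑ z, (1 - f z) * (1 - g z) := by
  rw [Finset.card_filter]
  push_cast
  rw [Finset.mul_sum]
  refine Finset.sum_congr rfl (fun z _ => ?_)
  rcases hf z with h | h <;> rcases hg z with h' | h' <;> rw [h, h'] <;> norm_num

theorem count (u v : W P) (huv : ¬ R P u v) (hne : u ≠ v) (hq : 64 ≤ Fintype.card F) :
    ∃ Z : Finset F, (∀ x ∈ Z, ∃ y, Rel P u v x y) ∧ Fintype.card F ≤ 16 * Z.card := by
  have hu0 := ne0 P u.1.2
  have hv0 := ne0 P v.1.2
  set β := u.2 + v.2 with hβ
  by_cases hb : β = 0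
  · -- linear case
    have hr : u.1.1 ≠ v.1.1 := by
      intro e
      exact hne (Prod.ext (Subtype.ext e) (CharTwo.add_eq_zero.1 hb))
    set κ := u.1.1 / v.1.1 with hκ
    have hκ0 : κ ≠ 0 := div_ne_zero hu0 hv0
    have hκ1 : 1 + κ ≠ 0 := by
      intro h
      have h1 : (1 : F) = κ := CharTwo.add_eq_zero.1 h
      rw [hκ, eq_comm, div_eq_one_iff_eq hv0] at h1
      exact hr h1
    refine ⟨Finset.univ.filter (fun x => P.ψ x = -1 ∧ P.ψ (u.1.1 + κ * x) = -1), ?_, ?_⟩
    · intro x hx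
      obtain ⟨h1, h2⟩ := (Finset.mem_filter.1 hx).2
      refine ⟨u.1.1 + κ * x, h1, h2, ?_⟩
      rw [← hβ, hb, hκ]
      field_simp
      linear_combination x * two0 (F := F)
    · have h := ind4 (fun x : F => P.ψ x) (fun x => P.ψ (u.1.1 + κ * x)) (fun x => P.pm x)
        (fun x => P.pm _)
      have h2 : ∑ x : F, (1 - P.ψ x) * (1 - P.ψ (u.1.1 + κ * x)) = Fintype.card F := by
        have e : ∀ x : F, (1 - P.ψ x) * (1 - P.ψ (u.1.1 + κ * x)) =
            1 - P.ψ (x * 1) + P.ψ (x * κ) - P.ψ (x * (1 + κ)) := by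
          intro x
          rw [P.add, u.1.2, mul_comm κ x, mul_add, P.add (x * 1), mul_one]
          ring
        simp only [e, Finset.sum_sub_distrib, Finset.sum_add_distrib]
        rw [P.sum_zero one_ne_zero, P.sum_zero hκ0, P.sum_zero hκ1]
        simp
      rw [h2] at h
      have h3 : 4 * (Finset.univ.filter (fun x => P.ψ x = -1 ∧
        P.ψ (u.1.1 + κ * x) = -1)).card = Fintype.card F := by exact_mod_cast h
      omega
  · set c := 1 / (β * u.1.1) with hc
    set c' := 1 / (β * v.1.1) with hc'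
    have hadj : β * u.1.1 * v.1.1 + 1 ≠ 0 := by
      intro h
      apply huv
      unfold R
      rw [← hβ]
      exact CharTwo.add_eq_zero.1 h
    set e := (β * u.1.1 * v.1.1 + 1) / (β ^ 2 * u.1.1 * v.1.1) with he
    have he0 : e ≠ 0 := div_ne_zero hadj (mul_ne_zero (mul_ne_zero (pow_ne_zero 2 hb) hu0) hv0)
    set T : Finset Fˣ := Finset.univ.filter (fun z : Fˣ => P.ψ ((z : F) + c) = -1 ∧
      P.ψ (c' + e * ((z⁻¹ : Fˣ) : F)) = -1) with hT
    refine ⟨T.image (fun z : Fˣ => (z : F) + c), ?_, ?_⟩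
    · intro x hx
      obtain ⟨z, hz, rfl⟩ := Finset.mem_image.1 hx
      obtain ⟨h1, h2⟩ := (Finset.mem_filter.1 hz).2
      refine ⟨c' + e * ((z⁻¹ : Fˣ) : F), h1, h2, ?_⟩
      rw [← hβ]
      have hz0 : (z : F) ≠ 0 := z.ne_zero
      rw [Units.val_inv_eq_inv_val]
      have e1 : β * ((z : F) + c) * (c' + e * (z : F)⁻¹) = β * (z : F) * c' + β * e + β * c * c' +
          β * c * e * (z : F)⁻¹ := by
        field_simp
        ring
      have e2 : (c' + e * (z : F)⁻¹) / u.1.1 = β * c * c' + β * c * e * (z : F)⁻¹ := by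
        rw [hc]; field_simp
      have e3 : ((z : F) + c) / v.1.1 = β * c' * (z : F) + β * c * c' := by
        rw [hc']; field_simp
      have e4 : β * e + β * c * c' = 1 := by
        rw [he, hc, hc']; field_simp
        linear_combination two0 (F := F)
      rw [e1, e2, e3]
      linear_combination e4 + (β * c * c' + β * c' * (z : F) + β * c * e * (z : F)⁻¹) *
        two0 (F := F)
    · rw [Finset.card_image_of_injective _ (fun a b h => Units.ext (add_right_cancel h))]
      have h := ind4 (fun z : Fˣ => P.ψ ((z : F) + c)) (fun z => P.ψ (c' + e * ((z⁻¹ : Fˣ) : F)))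
        (fun x => P.pm _) (fun x => P.pm _)
      have h2 : ∑ z : Fˣ, (1 - P.ψ ((z : F) + c)) * (1 - P.ψ (c' + e * ((z⁻¹ : Fˣ) : F))) =
          (Fintype.card F : ℤ) - 1 + P.ψ c + P.ψ c' + P.ψ c * P.ψ c' * P.K 1 e := by
        have ee : ∀ z : Fˣ, (1 - P.ψ ((z : F) + c)) * (1 - P.ψ (c' + e * ((z⁻¹ : Fˣ) : F))) =
            1 - P.ψ c * P.ψ (z : F) - P.ψ c' * P.ψ (e * ((z⁻¹ : Fˣ) : F)) +
              P.ψ c * P.ψ c' * P.ψ (1 * (z : F) + e * ((z⁻¹ : Fˣ) : F)) := by
          intro z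
          rw [P.add, P.add, P.add, one_mul]
          ring
        simp only [ee, Finset.sum_sub_distrib, Finset.sum_add_distrib, ← Finset.mul_sum]
        rw [sum_units_psi, sum_units_inv P he0]
        have h3 : (∑ _z : Fˣ, (1 : ℤ)) = (Fintype.card F : ℤ) - 1 := by
          rw [units_sum (F := F) (fun _ => 1)]; simp
        rw [h3]
        have h4 : ∑ z : Fˣ, P.ψ (1 * (z : F) + e * ((z⁻¹ : Fˣ) : F)) = P.K 1 e := rfl
        rw [h4]
        ring
      rw [h2] at h
      have hK := P.K_half (a := 1) (b := e) one_ne_zero he0 hq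
      have hT4 : 4 * (T.card : ℤ) ≥ (Fintype.card F : ℤ) - 3 - |P.K 1 e| := by
        rw [h]
        rcases P.pm c with k | k <;> rcases P.pm c' with k' | k' <;> rw [k, k'] <;>
          nlinarith [neg_abs_le (P.K 1 e), le_abs_self (P.K 1 e)]
      have hq' : (64 : ℤ) ≤ Fintype.card F := by exact_mod_cast hq
      have : (Fintype.card F : ℤ) ≤ 16 * T.card := by linarith
      exact_mod_cast this

end Pool.Agent.X126.TriFree
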