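import Pool.Agent.X126.RicB

/-!
# The example
-/

set_option autoImplicit false

open Finset Matrix

namespace Pool.Agent.X126.Ric

/-- vertices at distances 0, 1, 2, 3, 4 from the root -/
abbrev VT : Type := Unit ⊕ Fin 3 ⊕ (Fin 3 × Fin 13) ⊕ ((Fin 3 × Fin 13) × Fin 8) ⊕
  (((Fin 3 × Fin 13) × Fin 8) × Fin 5)

def rt : VT := Sum.inl ()

def parT : VT → VT
  | Sum.inl _ => Sum.inl ()
  | Sum.inr (Sum.inl _) => Sum.inl ()
  | Sum.inr (Sum.inr (Sum.inl p)) => Sum.inr (Sum.inl p.1)
  | Sum.inr (Sum.inr (Sum.inr (Sum.inl p))) => Sum.inr (Sum.inr (Sum.inl p.1))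
  | Sum.inr (Sum.inr (Sum.inr (Sum.inr p))) => Sum.inr (Sum.inr (Sum.inr (Sum.inl p.1)))

def levT : VT → ℕ
  | Sum.inl _ => 0
  | Sum.inr (Sum.inl _) => 1
  | Sum.inr (Sum.inr (Sum.inl _)) => 2
  | Sum.inr (Sum.inr (Sum.inr (Sum.inl _))) => 3
  | Sum.inr (Sum.inr (Sum.inr (Sum.inr _))) => 4

lemma hT : ∀ x, x ≠ rt → levT (parT x) + 1 = levT x := by
  rintro (x | x | x | x | x) hx
  · exact absurd rfl hx
  all_goals rfl

/-- number of children by level -/
def kT : ℕ → ℝ
  | 0 => 3
  | 1 => 13
  | 2 => 8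
  | 3 => 5
  | _ => 0

lemma sum_fst {A : Type} [Fintype A] [DecidableEq A] (k : ℕ) (z : A) (c : ℝ) :
    ∑ p : A × Fin k, (if p.1 = z then c else 0) = k * c := by
  rw [Fintype.sum_prod_type_right]
  have : ∀ y : Fin k, ∑ x : A, (if (x, y).1 = z then c else 0) = c := by
    intro y
    change ∑ x : A, (if x = z then c else 0) = c
    rw [Finset.sum_ite_eq', if_pos (Finset.mem_univ _)]
  rw [Finset.sum_congr rfl (fun y _ => this y), Finset.sum_const, Finset.card_univ,
    Fintype.card_fin, nsmul_eq_mul]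

lemma cs_T (w : ℕ → ℝ) (z : VT) :
    cs rt parT (fun y => w (levT y)) z = kT (levT z) * w (levT z + 1) := by
  unfold cs
  rcases z with z | z | z | z | z
  · simp [rt, parT, levT, kT]
  · simp [rt, parT, levT, kT, sum_fst]
  · simp [rt, parT, levT, kT, sum_fst]
  · simp [rt, parT, levT, kT, sum_fst]
  · simp [rt, parT, levT, kT]

lemma cs_one (z : VT) : cs rt parT (fun _ => 1) z = kT (levT z) := by
  have := cs_T (fun _ => 1) z
  rw [mul_one] at this
  exact this

/-- the tree -/
def GT : SimpleGraph VT := pg rt parT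

lemma isTree_GT : GT.IsTree := isTree hT rfl

open Classical in
lemma degree_GT : GT.degree rt = 3 := by
  have h := degree_eq hT rt
  have h2 : ∑ y : VT, (if y ≠ rt ∧ parT y = rt then (1 : ℝ) else 0) = 3 := cs_one rt
  rw [if_pos rfl, h2, zero_add] at h
  exact_mod_cast h

/-- edge weights by level -/
def wf : ℕ → ℝ
  | 1 => 10000000
  | 2 => 7991201
  | 3 => 2157244
  | 4 => 239065
  | _ => 0

open Classical in
lemma lower_T : 1.003944 ≤ lamMax (ricci GT) := by
  apply le_lamMax_pg hT ⟨Sum.inr (Sum.inl 0), by simp [rt]⟩ (fun y => wf (levT y))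
  · rintro (x | x | x | x | x) hx
    · exact absurd rfl hx
    all_goals simp [levT, wf]
  · rintro (x | x | x | x | x) hx
    · exact absurd rfl hx
    all_goals
      unfold act dinv
      simp only [cs_T, cs_one]
      simp [parT, levT, rt, kT, wf]
      norm_num

/-- parents in the tree with the additional leaf `none` -/
def parO : Option VT → Option VT
  | none => some rt
  | some x => some (parT x)

def levO : Option VT → ℕ
  | none => 1
  | some x => levT x

lemma hO : ∀ x, x ≠ some rt → levO (parO x) + 1 = levO x := by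
  rintro (_ | x) hx
  · rfl
  · exact hT x (fun h => hx (by rw [h]))

lemma attach_adj {V : Type} {G : SimpleGraph V} {v : V} {a b : Option V} :
    (attach G v).Adj a b ↔ (∃ x y, a = some x ∧ b = some y ∧ G.Adj x y) ∨
      (a = none ∧ b = some v) ∨ (a = some v ∧ b = none) := Iff.rfl

lemma GT_adj {x y : VT} : GT.Adj x y ↔ (x ≠ rt ∧ parT x = y) ∨ (y ≠ rt ∧ parT y = x) :=
  adj_iff hT

lemma attach_eq : attach GT rt = pg (some rt) parO := by
  ext a b
  rw [adj_iff hO, attach_adj]
  constructor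
  · rintro (⟨x, y, rfl, rfl, h2⟩ | ⟨rfl, rfl⟩ | ⟨rfl, rfl⟩)
    · rcases GT_adj.1 h2 with ⟨h3, h4⟩ | ⟨h3, h4⟩
      · exact Or.inl ⟨fun h5 => h3 (Option.some.inj h5), congrArg some h4⟩
      · exact Or.inr ⟨fun h5 => h3 (Option.some.inj h5), congrArg some h4⟩
    · exact Or.inl ⟨fun h => by simp at h, rfl⟩
    · exact Or.inr ⟨fun h => by simp at h, rfl⟩
  · rintro (⟨h3, h4⟩ | ⟨h3, h4⟩)
    · rcases a with _ | a
      · exact Or.inr (Or.inl ⟨rfl, h4.symm⟩)
      · rcases b with _ | b
        · simp [parO] at h4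
        · exact Or.inl ⟨a, b, rfl, rfl, GT_adj.2 (Or.inl ⟨fun h5 => h3 (congrArg some h5),
            Option.some.inj h4⟩)⟩
    · rcases b with _ | b
      · exact Or.inr (Or.inr ⟨h4.symm, rfl⟩)
      · rcases a with _ | a
        · simp [parO] at h4
        · exact Or.inl ⟨a, b, rfl, rfl, GT_adj.2 (Or.inr ⟨fun h5 => h3 (congrArg some h5),
            Option.some.inj h4⟩)⟩

lemma cs_O (w : ℕ → ℝ) (c : ℝ) (W : Option VT → ℝ) (h1 : W none = c)
    (h2 : ∀ y, W (some y) = w (levT y)) (z : VT) :
    cs (some rt) parO W (some z) = (if z = rt then c else 0) + kT (levT z) * w (levT z + 1) := by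
  have A : (if (none : Option VT) ≠ some rt ∧ parO none = some z then W none else 0) =
      (if z = rt then c else 0) := by
    rw [h1]
    by_cases hz : z = rt
    · rw [if_pos hz, if_pos ⟨by simp, by rw [hz]; rfl⟩]
    · rw [if_neg hz, if_neg]
      rintro ⟨-, h⟩
      exact hz (Option.some.inj h).symm
  have C := cs_T w z
  unfold cs at C ⊢
  rw [Fintype.sum_option, A, ← C, add_right_inj]
  apply Finset.sum_congr rfl
  intro y _
  rw [h2]
  by_cases hy : y ≠ rt ∧ parT y = z
  · rw [if_pos hy, if_pos ⟨fun h => hy.1 (Option.some.inj h), congrArg some hy.2⟩]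
  · rw [if_neg hy, if_neg]
    rintro ⟨h3, h4⟩
    exact hy ⟨fun h => h3 (congrArg some h), Option.some.inj h4⟩

lemma cs_O_none (W : Option VT → ℝ) : cs (some rt) parO W none = 0 := by
  unfold cs
  apply Finset.sum_eq_zero
  intro y _
  rw [if_neg]
  rintro ⟨-, h⟩
  rcases y with _ | y <;> simp [parO] at h

/-- edge weights by level -/
def wg : ℕ → ℝ
  | 1 => 10000000
  | 2 => 7992660
  | 3 => 2157694
  | 4 => 239117
  | _ => 0

def WO : Option VT → ℝ
  | none => 3327514
  | some y => wg (levT y)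

lemma cs_O_one (z : VT) : cs (some rt) parO (fun _ => 1) (some z) =
    (if z = rt then 1 else 0) + kT (levT z) := by
  have := cs_O (fun _ => 1) 1 (fun _ => 1) rfl (fun _ => rfl) z
  rw [mul_one] at this
  exact this

lemma cs_O_WO (z : VT) : cs (some rt) parO WO (some z) =
    (if z = rt then 3327514 else 0) + kT (levT z) * wg (levT z + 1) :=
  cs_O wg 3327514 WO rfl (fun _ => rfl) z

open Classical in
lemma upper_O : lamMax (ricci (pg (some rt) parO)) ≤ 1.003937 := by
  apply lamMax_pg_le hO ⟨none, by simp⟩ WO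
  · rintro (_ | x | x | x | x | x) hx
    · simp [WO]
    · exact absurd rfl hx
    all_goals simp [levT, wg, WO]
  · rintro (_ | x | x | x | x | x) hx
    · unfold act dinv
      simp only [cs_O_none, parO, cs_O_one, cs_O_WO]
      simp [levT, rt, kT, wg, WO]
      norm_num
    · exact absurd rfl hx
    all_goals
      unfold act dinv
      simp only [parO, cs_O_one, cs_O_WO]
      simp [parT, levT, rt, kT, wg, WO]
      norm_num

open Classical in
theorem main : lamMax (ricci (attach GT rt)) < lamMax (ricci GT) := by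
  rw [attach_eq]
  have h1 := upper_O
  have h2 := lower_T
  norm_num at h1 h2 ⊢
  linarith

end Pool.Agent.X126.Ric
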