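import Pool.Agent.X126.TsftA

set_option autoImplicit false

open Filter Topology

namespace Pool.Agent.X126.Tsft

noncomputable section

variable {S : Type} [Fintype S] [DecidableEq S] (A : Matrix S S ℕ)

/-- complex version -/
def Ac : Matrix S S ℂ := A.map (fun n : ℕ => (n : ℂ))

/-- maximal row sum -/
def U (k : ℕ) : ℕ := Finset.univ.sup (R A k)

theorem Ac_pow (k : ℕ) : (Ac A) ^ k = (A ^ k).map (fun n : ℕ => (n : ℂ)) := by
  have h := map_pow ((Nat.castRingHom ℂ).mapMatrix (m := S)) A k
  exact h.symm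

attribute [local instance] Matrix.linftyOpNormedAddCommGroup Matrix.linftyOpNormedRing
  Matrix.linftyOpNormedAlgebra

theorem norm_Ac (k : ℕ) : ‖(Ac A) ^ k‖ = (U A k : ℝ) := by
  rw [Ac_pow, Matrix.linfty_opNorm_def]
  have h : (Finset.univ.sup fun i => ∑ j, ‖((A ^ k).map (fun n : ℕ => (n : ℂ))) i j‖₊) =
      ((U A k : ℕ) : NNReal) := by
    unfold U R
    rw [Nat.cast_finsetSup]
    congr 1
    funext i
    push_cast
    refine Finset.sum_congr rfl fun j _ => ?_
    simp
  rw [h]
  simp

theorem gelfand (h1 : ∀ k, 1 ≤ U A k) :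
    Tendsto (fun n : ℕ => Real.log (U A n) / n) atTop
      (𝓝 (Real.log (spectralRadius ℂ (Ac A)).toReal)) ∧
      0 ≤ Real.log (spectralRadius ℂ (Ac A)).toReal := by
  have hg := spectrum.pow_norm_pow_one_div_tendsto_nhds_spectralRadius (Ac A)
  have hne : spectralRadius ℂ (Ac A) ≠ ⊤ := by
    rcases isEmpty_or_nonempty S with hS | hS
    · exfalso
      have := h1 0
      unfold U at this
      simp at this
    · exact ne_top_of_le_ne_top ENNReal.coe_ne_top (spectrum.spectralRadius_le_nnnorm (Ac A))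
  have h2 := (ENNReal.tendsto_toReal hne).comp hg
  have h3 : Tendsto (fun n : ℕ => (U A n : ℝ) ^ (1 / n : ℝ)) atTop
      (𝓝 (spectralRadius ℂ (Ac A)).toReal) := by
    refine h2.congr fun n => ?_
    simp only [Function.comp]
    rw [ENNReal.toReal_ofReal (by positivity), norm_Ac]
  have h4 : 1 ≤ (spectralRadius ℂ (Ac A)).toReal := by
    refine ge_of_tendsto' h3 fun n => ?_
    refine Real.one_le_rpow ?_ (by positivity)
    exact_mod_cast h1 n
  refine ⟨?_, Real.log_nonneg h4⟩
  have h5 := (Real.continuousAt_log (by linarith : (spectralRadius ℂ (Ac A)).toReal ≠ 0)).tendsto.comp h3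
  refine h5.congr fun n => ?_
  simp only [Function.comp]
  have : (0:ℝ) < U A n := by exact_mod_cast h1 n
  rw [Real.log_rpow this]
  ring

theorem U_pos (x : ℤ → S) (hx : ∀ i, A (x i) (x (i + 1)) = 1) (k : ℕ) : 1 ≤ U A k := by
  have h : ∀ i : ℤ, 1 ≤ R A k (x i) := by
    induction k with
    | zero => intro i; rw [R_zero]
    | succ k ih =>
      intro i
      rw [R_succ]
      have h1 := Finset.single_le_sum (f := fun s' => A (x i) s' * R A k s')
        (fun _ _ => Nat.zero_le _) (Finset.mem_univ (x (i + 1)))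
      simp only [hx i, one_mul] at h1
      exact (ih (i + 1)).trans h1
  exact (h 0).trans (Finset.le_sup (f := R A k) (Finset.mem_univ (x 0)))

/-- maximal number of alive nodes -/
def m (n : ℕ) : ℕ := Finset.univ.sup (fun s => c A n (some s))

theorem U_le_m (h01 : ∀ i j, A i j = 0 ∨ A i j = 1) (n : ℕ) : U A n ≤ m A (n + 1) := by
  unfold U
  refine Finset.sup_le fun s _ => ?_
  refine le_trans ?_ (Finset.le_sup (f := fun s => c A (n + 1) (some s)) (Finset.mem_univ s))
  simp only [c_eq A h01]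
  exact Finset.single_le_sum (f := fun k => R A k s) (fun _ _ => Nat.zero_le _)
    (Finset.mem_range.2 (Nat.lt_succ_self n))

theorem m_le (h01 : ∀ i j, A i j = 0 ∨ A i j = 1) (n : ℕ) :
    m A n ≤ ∑ k ∈ Finset.range n, U A k := by
  unfold m
  refine Finset.sup_le fun s _ => ?_
  rw [c_eq A h01]
  exact Finset.sum_le_sum fun k _ => Finset.le_sup (f := R A k) (Finset.mem_univ s)

/-- A purely analytic fact. -/
theorem growth (u : ℕ → ℕ) (v : ℕ → ℕ) (l : ℝ) (hl : 0 ≤ l) (hu1 : ∀ k, 1 ≤ u k)
    (hu : Tendsto (fun n : ℕ => Real.log (u n) / n) atTop (𝓝 l))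
    (h1 : ∀ n, u n ≤ v (n + 1)) (h2 : ∀ n, v n ≤ ∑ k ∈ Finset.range n, u k) :
    Tendsto (fun n : ℕ => Real.log (v n) / n) atTop (𝓝 l) := by
  rw [Metric.tendsto_atTop] at hu ⊢
  intro ε hε
  obtain ⟨K, hK⟩ := hu (ε / 4) (by linarith)
  -- upper bound
  set C : ℝ := ∑ k ∈ Finset.range (K + 1), (u k : ℝ) with hC
  have hC0 : 0 ≤ C := Finset.sum_nonneg fun _ _ => Nat.cast_nonneg _
  have hupk : ∀ k, K + 1 ≤ k → (u k : ℝ) ≤ Real.exp ((l + ε / 4) * k) := by
    intro k hk
    have h3 := hK k (by omega)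
    rw [Real.dist_eq, abs_lt] at h3
    have hk0 : (0 : ℝ) < k := by exact_mod_cast (by omega : 0 < k)
    have h4 : Real.log (u k) / k ≤ l + ε / 4 := by linarith [h3.2]
    rw [div_le_iff₀ hk0] at h4
    have h5 : (0 : ℝ) < u k := by exact_mod_cast hu1 k
    rw [← Real.exp_log h5]
    exact Real.exp_le_exp.2 h4
  have hup : ∀ n, K + 1 ≤ n → (v n : ℝ) ≤ (C + n) * Real.exp ((l + ε / 4) * n) := by
    intro n hn
    have h3 : (v n : ℝ) ≤ ∑ k ∈ Finset.range n, (u k : ℝ) := by exact_mod_cast h2 n
    refine h3.trans ?_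
    have h4 : ∑ k ∈ Finset.range n, (u k : ℝ) = C + ∑ k ∈ Finset.Ico (K + 1) n, (u k : ℝ) := by
      rw [hC, Finset.sum_range_add_sum_Ico _ hn]
    rw [h4]
    have h5 : (1 : ℝ) ≤ Real.exp ((l + ε / 4) * n) := by
      rw [Real.one_le_exp_iff]; positivity
    have h6 : ∑ k ∈ Finset.Ico (K + 1) n, (u k : ℝ) ≤ n * Real.exp ((l + ε / 4) * n) := by
      have h7 : ∀ k ∈ Finset.Ico (K + 1) n, (u k : ℝ) ≤ Real.exp ((l + ε / 4) * n) := by
        intro k hk
        rw [Finset.mem_Ico] at hk
        refine (hupk k hk.1).trans (Real.exp_le_exp.2 ?_)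
        have : (k : ℝ) ≤ n := by exact_mod_cast hk.2.le
        exact mul_le_mul_of_nonneg_left this (by positivity)
      refine (Finset.sum_le_card_nsmul _ _ _ h7).trans ?_
      rw [nsmul_eq_mul]
      refine mul_le_mul_of_nonneg_right ?_ (Real.exp_pos _).le
      have : (Finset.Ico (K + 1) n).card ≤ n := by simp
      exact_mod_cast this
    nlinarith
  -- logs
  have hlog : Tendsto (fun n : ℕ => Real.log (C + n) / n) atTop (𝓝 0) := by
    have h3 : Tendsto (fun x : ℝ => Real.log x / (x - C)) atTop (𝓝 0) := by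
      have h4 : Tendsto (fun x : ℝ => Real.log x / x) atTop (𝓝 0) := by
        simpa using (Real.tendsto_pow_log_div_mul_add_atTop 1 0 1 one_ne_zero)
      have h5 : Tendsto (fun x : ℝ => x / (x - C)) atTop (𝓝 1) := by
        have h6 : Tendsto (fun x : ℝ => 1 + C / (x - C)) atTop (𝓝 (1 + 0)) := by
          refine tendsto_const_nhds.add ?_
          exact tendsto_const_nhds.div_atTop (tendsto_atTop_add_const_right _ _ tendsto_id)
        rw [add_zero] at h6
        refine h6.congr' ?_
        filter_upwards [eventually_gt_atTop C] with x hx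
        have : x - C ≠ 0 := by linarith
        field_simp
        ring
      have h7 := h4.mul h5
      rw [zero_mul] at h7
      refine h7.congr' ?_
      filter_upwards [eventually_gt_atTop C, eventually_gt_atTop 0] with x hx hx0
      have : x - C ≠ 0 := by linarith
      field_simp
    have h8 : Tendsto (fun n : ℕ => C + (n : ℝ)) atTop atTop :=
      tendsto_atTop_add_const_left _ _ tendsto_natCast_atTop_atTop
    refine (h3.comp h8).congr fun n => ?_
    simp only [Function.comp, add_sub_cancel_left]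
  rw [Metric.tendsto_atTop] at hlog
  obtain ⟨K2, hK2⟩ := hlog (ε / 4) (by linarith)
  -- lower bound constant
  obtain ⟨K3, hK3⟩ := exists_nat_gt ((l + 1) * 4 / ε)
  refine ⟨max (K + 2) (max K2 (K3 + 1)), fun n hn => ?_⟩
  have hn1 : K + 2 ≤ n := (le_max_left _ _).trans hn
  have hn2 : K2 ≤ n := ((le_max_left _ _).trans (le_max_right _ _)).trans hn
  have hn3 : K3 + 1 ≤ n := ((le_max_right _ _).trans (le_max_right _ _)).trans hn
  have hn0 : (0 : ℝ) < n := by exact_mod_cast (by omega : 0 < n)
  have hvpos : (1 : ℝ) ≤ v n := by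
    have h3 := h1 (n - 1)
    rw [Nat.sub_add_cancel (by omega)] at h3
    exact_mod_cast (hu1 _).trans h3
  rw [Real.dist_eq, abs_lt]
  constructor
  · -- lower
    have h3 := h1 (n - 1)
    rw [Nat.sub_add_cancel (by omega)] at h3
    have h4 := hK (n - 1) (by omega)
    rw [Real.dist_eq, abs_lt] at h4
    have hn10 : (0 : ℝ) < ((n - 1 : ℕ) : ℝ) := by exact_mod_cast (by omega : 0 < n - 1)
    have h5 : (l - ε / 4) * ((n - 1 : ℕ) : ℝ) < Real.log (u (n - 1)) := by
      rw [← lt_div_iff₀ hn10]; linarith [h4.1]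
    have h6 : Real.log (u (n - 1)) ≤ Real.log (v n) := by
      refine Real.log_le_log ?_ (by exact_mod_cast h3)
      exact_mod_cast hu1 (n - 1)
    have h7 : ((n - 1 : ℕ) : ℝ) = n - 1 := by
      rw [Nat.cast_sub (by omega)]; simp
    rw [h7] at h5
    have h8 : (l + 1) * 4 / ε < n := by
      have : (K3 : ℝ) + 1 ≤ n := by exact_mod_cast hn3
      linarith
    rw [div_lt_iff₀ hε] at h8
    have h9 : (l - ε) < Real.log (v n) / n := by
      rw [lt_div_iff₀ hn0]
      nlinarith
    linarith
  · have h3 := hup n (by omega)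
    have h4 := hK2 n hn2
    rw [Real.dist_eq, sub_zero, abs_lt] at h4
    have h5 : (0:ℝ) < C + n := by linarith
    have h6 : Real.log (v n) ≤ Real.log (C + n) + (l + ε / 4) * n := by
      refine (Real.log_le_log (by linarith) h3).trans (le_of_eq ?_)
      rw [Real.log_mul h5.ne' (Real.exp_pos _).ne', Real.log_exp]
    have h7 : Real.log (v n) / n ≤ Real.log (C + n) / n + (l + ε / 4) := by
      rw [div_add' _ _ _ hn0.ne']
      exact div_le_div_of_nonneg_right h6 hn0.le
    linarith [h4.2]

theorem card_low (n : ℕ) (s : S) : 2 ^ c A n (some s) ≤ (blocks (shiftOf (Forb A)) n).ncard := by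
  rw [← D_card, blocks_eq]
  exact Set.ncard_le_ncard (Set.subset_iUnion _ _) (Set.toFinite _)

theorem card_up (n : ℕ) :
    (blocks (shiftOf (Forb A)) n).ncard ≤ (Fintype.card S + 1) * 2 ^ m A n := by
  rw [blocks_eq]
  have h1 : (⋃ a : Option S, D A n a).ncard ≤ ∑ a : Option S, (D A n a).ncard := by
    have h := Finset.set_ncard_biUnion_le (Finset.univ : Finset (Option S)) (fun a => D A n a)
    simpa using h
  refine h1.trans ?_
  have h2 : ∀ a ∈ (Finset.univ : Finset (Option S)), (D A n a).ncard ≤ 2 ^ m A n := by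
    intro a _
    rw [D_card]
    refine Nat.pow_le_pow_right (by norm_num) ?_
    rcases a with _ | s
    · rw [c_none]; exact Nat.zero_le _
    · exact Finset.le_sup (f := fun s => c A n (some s)) (Finset.mem_univ s)
  refine (Finset.sum_le_card_nsmul _ _ _ h2).trans ?_
  rw [Finset.card_univ, Fintype.card_option, smul_eq_mul]

theorem card_low' [Nonempty S] (n : ℕ) : 2 ^ m A n ≤ (blocks (shiftOf (Forb A)) n).ncard := by
  obtain ⟨s, -, hs⟩ := Finset.exists_mem_eq_sup (Finset.univ : Finset S) Finset.univ_nonempty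
    (fun s => c A n (some s))
  have : m A n = c A n (some s) := hs
  rw [this]
  exact card_low A n s

end

end Pool.Agent.X126.Tsft
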