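import Mathlib

set_option autoImplicit false

open Finset Filter Topology

namespace Pool.Agent.X126.Ach

noncomputable section

/-- partial greedy approximation -/
theorem approx (u : ℕ → ℝ) (δ : ℝ) (hu : ∀ j, 0 < u j) (hδ : ∀ j, u j ≤ δ) (hs : ¬ Summable u)
    (a : ℝ) (ha : 0 ≤ a) : ∃ J, |a - ∑ j ∈ range J, u j| ≤ δ := by
  have hdiv : Tendsto (fun J => ∑ j ∈ range J, u j) atTop atTop := by
    rcases (not_summable_iff_tendsto_nat_atTop_of_nonneg (fun j => (hu j).le)).1 hs with h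
    exact h
  have hex : ∃ J, a < ∑ j ∈ range J, u j := (hdiv.eventually_gt_atTop a).exists
  classical
  set J := Nat.find hex with hJ
  have h1 : a < ∑ j ∈ range J, u j := Nat.find_spec hex
  have hJ0 : J ≠ 0 := by
    intro h
    rw [h] at h1
    simp at h1
    linarith
  obtain ⟨K, hK⟩ := Nat.exists_eq_succ_of_ne_zero hJ0
  refine ⟨K, ?_⟩
  have h2 : ¬ a < ∑ j ∈ range K, u j := Nat.find_min hex (by omega)
  rw [hK, sum_range_succ] at h1
  push Not at h2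
  rw [abs_of_nonneg (by linarith)]
  linarith [hδ K]

theorem not_summable_aux (m r : ℕ) (hm : 0 < m) : ¬ Summable fun j : ℕ => (1 : ℝ) / (2 * ((j : ℝ) + m) + r) := by
  intro h
  have h1 : Summable fun j : ℕ => (1 : ℝ) / ((j : ℝ) + 1) := by
    refine Summable.of_nonneg_of_le (fun j => by positivity) (fun j => ?_)
      (h.mul_left ((2 * (m : ℝ) + r + 2)))
    have hm' : (1 : ℝ) ≤ m := by exact_mod_cast hm
    have hj : (0 : ℝ) ≤ j := Nat.cast_nonneg j
    have hr : (0 : ℝ) ≤ r := Nat.cast_nonneg r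
    rw [mul_one_div, div_le_div_iff₀ (by positivity) (by positivity)]
    nlinarith
  have h2 := (summable_nat_add_iff 1 (f := fun n : ℕ => (1 : ℝ) / n)).1 (by
    refine h1.congr fun j => ?_
    push_cast; rfl)
  exact Real.not_summable_one_div_natCast h2

/-- `Z` and `D` -/
def Zf (n : ℕ) (s : ℝ × ℝ) : ℝ := 3 * n * s.1 - 2 * Real.sqrt n * s.2
def Df (n : ℕ) (s : ℝ × ℝ) : ℝ := n * s.1 - Real.sqrt n * s.2

/-- the terms of the series -/
def v (n : ℕ) : ℝ × ℝ := ((-1) ^ n / (n : ℝ), (-1) ^ n / Real.sqrt n)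

theorem rho (t : ℝ) (h0 : 0 < t) (h1 : t ≤ 1) :
    t / 2 ≤ 1 + t - Real.sqrt (1 + t) ∧ 1 + t - Real.sqrt (1 + t) ≤ 5 * t / 8 := by
  constructor
  · have : Real.sqrt (1 + t) ≤ 1 + t / 2 := by
      rw [Real.sqrt_le_left (by linarith)]
      nlinarith
    linarith
  · have : 1 + 3 * t / 8 ≤ Real.sqrt (1 + t) := by
      apply Real.le_sqrt_of_sq_le
      nlinarith
    linarith

/-- One step. `s` is the signed choice. -/
theorem onestep (n : ℕ) (hn : 1 ≤ n) (R : ℝ) (hR : 0 ≤ R) (hRn : 56 * R ≤ n) (p : ℝ × ℝ) (s : ℝ)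
    (hZ : |Zf n p| ≤ R) (hD : |Df n p| ≤ 5 / 4 * R) :
    |Df (n + 1) (p.1 + s / ((n + 1 : ℕ) : ℝ), p.2 + s / Real.sqrt ((n + 1 : ℕ) : ℝ))| ≤ 5 / 4 * R ∧
    |Zf (n + 1) (p.1 + s / ((n + 1 : ℕ) : ℝ), p.2 + s / Real.sqrt ((n + 1 : ℕ) : ℝ)) - Zf n p - s| ≤
      1 / 8 := by
  have hn' : (1 : ℝ) ≤ n := by exact_mod_cast hn
  have hn0 : (0 : ℝ) < n := by linarith
  set t : ℝ := 1 / n with ht
  have ht0 : 0 < t := by positivity
  have ht1 : t ≤ 1 := by rw [ht, div_le_one hn0]; exact hn'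
  have htn : (n : ℝ) * t = 1 := by rw [ht]; field_simp
  obtain ⟨hr1, hr2⟩ := rho t ht0 ht1
  set q := Real.sqrt n with hq
  have hq0 : 0 < q := Real.sqrt_pos.2 hn0
  set ρ := Real.sqrt (1 + t) with hρ
  have hqq : Real.sqrt ((n + 1 : ℕ) : ℝ) = q * ρ := by
    rw [hq, hρ, ← Real.sqrt_mul hn0.le]
    congr 1
    push_cast
    rw [mul_add, htn]; ring
  have hρ0 : 0 < ρ := Real.sqrt_pos.2 (by linarith)
  have hn1 : ((n + 1 : ℕ) : ℝ) = n * (1 + t) := by
    push_cast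
    rw [mul_add, htn]; ring
  have hn10 : (0:ℝ) < ((n + 1 : ℕ) : ℝ) := by positivity
  set τ := 1 + t - ρ with hτ
  set Z := Zf n p with hZd
  set D := Df n p with hDd
  have hZe : Z = 3 * n * p.1 - 2 * q * p.2 := rfl
  have hDe : D = n * p.1 - q * p.2 := rfl
  have e1 : (n : ℝ) * p.1 = Z - 2 * D := by rw [hZe, hDe]; ring
  have e2 : q * p.2 = Z - 3 * D := by rw [hZe, hDe]; ring
  have f1 : ((n + 1 : ℕ) : ℝ) * (s / ((n + 1 : ℕ) : ℝ)) = s := by field_simp
  have f2 : q * ρ * (s / (q * ρ)) = s := by field_simp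
  have hD' : Df (n + 1) (p.1 + s / ((n + 1 : ℕ) : ℝ), p.2 + s / Real.sqrt ((n + 1 : ℕ) : ℝ)) =
      D * (1 + t - 3 * τ) + τ * Z := by
    have : Df (n + 1) (p.1 + s / ((n + 1 : ℕ) : ℝ), p.2 + s / Real.sqrt ((n + 1 : ℕ) : ℝ)) =
        ((n + 1 : ℕ) : ℝ) * (p.1 + s / ((n + 1 : ℕ) : ℝ)) -
        Real.sqrt ((n + 1 : ℕ) : ℝ) * (p.2 + s / Real.sqrt ((n + 1 : ℕ) : ℝ)) := rfl
    rw [this, mul_add, f1, hqq, mul_add, f2, hn1]
    have : (n : ℝ) * (1 + t) * p.1 + s - (q * ρ * p.2 + s) =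
        (1 + t) * (n * p.1) - ρ * (q * p.2) := by ring
    rw [this, e1, e2, hτ]
    ring
  have hZ' : Zf (n + 1) (p.1 + s / ((n + 1 : ℕ) : ℝ), p.2 + s / Real.sqrt ((n + 1 : ℕ) : ℝ)) - Z - s =
      (t + 2 * τ) * Z - 6 * τ * D := by
    have : Zf (n + 1) (p.1 + s / ((n + 1 : ℕ) : ℝ), p.2 + s / Real.sqrt ((n + 1 : ℕ) : ℝ)) =
        3 * ((n + 1 : ℕ) : ℝ) * (p.1 + s / ((n + 1 : ℕ) : ℝ)) -
        2 * Real.sqrt ((n + 1 : ℕ) : ℝ) * (p.2 + s / Real.sqrt ((n + 1 : ℕ) : ℝ)) := rfl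
    have h0 : 3 * ((n + 1 : ℕ) : ℝ) * (p.1 + s / ((n + 1 : ℕ) : ℝ)) =
        3 * (((n + 1 : ℕ) : ℝ) * p.1) + 3 * s := by
      rw [mul_assoc, mul_add, f1]; ring
    rw [this, h0, hqq]
    have h3 : 2 * (q * ρ) * (p.2 + s / (q * ρ)) = 2 * ρ * (q * p.2) + 2 * s := by
      rw [mul_add]
      have : 2 * (q * ρ) * (s / (q * ρ)) = 2 * (q * ρ * (s / (q * ρ))) := by ring
      rw [this, f2]; ring
    rw [mul_assoc 2 (q * ρ) (p.2 + s / (q * ρ))] at h3
    rw [mul_assoc 2 (q * ρ) (p.2 + s / (q * ρ)), h3, hn1]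
    have : 3 * ((n : ℝ) * (1 + t) * p.1) + 3 * s = 3 * (1 + t) * (n * p.1) + 3 * s := by ring
    rw [this, e1, e2, hτ]
    ring
  rw [hD', hZ']
  rw [abs_le] at hZ hD
  constructor
  · rw [abs_le]
    have g1 : 0 ≤ 1 + t - 3 * τ := by linarith
    have g2 : 1 + t - 3 * τ ≤ 1 - t / 2 := by linarith
    have hτ0 : 0 ≤ τ := by linarith
    constructor
    · nlinarith
    · nlinarith
  · have htR : t * R ≤ 1 / 56 := by
      have : t * (56 * R) ≤ t * n := mul_le_mul_of_nonneg_left hRn ht0.le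
      linarith
    have hτ0 : 0 ≤ τ := by linarith
    rw [abs_le]
    constructor
    · nlinarith [mul_nonneg ht0.le hR]
    · nlinarith [mul_nonneg ht0.le hR]

/-- the rule -/
def rule (n : ℕ) (p : ℝ × ℝ) : ℝ :=
  if Even (n + 1) then (if 0 < Zf n p then 1 else 0) else (if Zf n p < 0 then 1 else 0)

theorem rule_01 (n : ℕ) (p : ℝ × ℝ) : rule n p = 0 ∨ rule n p = 1 := by
  unfold rule
  split_ifs <;> simp

/-- remainder, given a prefix of choices -/
def st (pre : ℕ → ℝ) (N : ℕ) (x : ℝ × ℝ) : ℕ → ℝ × ℝ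
  | 0 => x
  | n + 1 => st pre N x n - (if n < N then pre (n + 1) else rule n (st pre N x n)) • v (n + 1)

/-- choices -/
def eps (pre : ℕ → ℝ) (N : ℕ) (x : ℝ × ℝ) : ℕ → ℝ
  | 0 => 0
  | n + 1 => if n < N then pre (n + 1) else rule n (st pre N x n)

theorem st_eq (pre : ℕ → ℝ) (N : ℕ) (x : ℝ × ℝ) (n : ℕ) :
    ∑ k ∈ Icc 1 n, eps pre N x k • v k = x - st pre N x n := by
  induction n with
  | zero => simp [st]
  | succ n ih =>
    rw [sum_Icc_succ_top (by omega), ih]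
    simp only [eps, st]
    abel

theorem step_form (pre : ℕ → ℝ) (N : ℕ) (x : ℝ × ℝ) (n : ℕ) (hn : N ≤ n) :
    st pre N x (n + 1) = ((st pre N x n).1 + (-(rule n (st pre N x n) * (-1) ^ (n + 1))) / ((n + 1 : ℕ) : ℝ),
      (st pre N x n).2 + (-(rule n (st pre N x n) * (-1) ^ (n + 1))) / Real.sqrt ((n + 1 : ℕ) : ℝ)) := by
  simp only [st]
  rw [if_neg (by omega)]
  unfold v
  ext
  · simp only [Prod.fst_sub, Prod.smul_fst, smul_eq_mul]
    ring
  · simp only [Prod.snd_sub, Prod.smul_snd, smul_eq_mul]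
    ring

theorem invariant (pre : ℕ → ℝ) (N : ℕ) (hN : Even N) (hN1 : 1 ≤ N) (x : ℝ × ℝ) (R : ℝ) (hR : 3 ≤ R)
    (hRN : 56 * R ≤ N) (hZ : |Zf N (st pre N x N)| ≤ R - 1) (hD : |Df N (st pre N x N)| ≤ 5 / 4 * R)
    (k : ℕ) : (|Zf (N + 2 * k) (st pre N x (N + 2 * k))| ≤ R - 1 ∧
      |Df (N + 2 * k) (st pre N x (N + 2 * k))| ≤ 5 / 4 * R) ∧
      (|Zf (N + 2 * k + 1) (st pre N x (N + 2 * k + 1))| ≤ R ∧
      |Df (N + 2 * k + 1) (st pre N x (N + 2 * k + 1))| ≤ 5 / 4 * R) := by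
  have key : ∀ n, N ≤ n → Even n → |Zf n (st pre N x n)| ≤ R - 1 → |Df n (st pre N x n)| ≤ 5 / 4 * R →
      (|Zf (n + 1) (st pre N x (n + 1))| ≤ R ∧ |Df (n + 1) (st pre N x (n + 1))| ≤ 5 / 4 * R) ∧
      (|Zf (n + 2) (st pre N x (n + 2))| ≤ R - 1 ∧ |Df (n + 2) (st pre N x (n + 2))| ≤ 5 / 4 * R) := by
    intro n hn hev hZn hDn
    have hnR : 56 * R ≤ n := by
      have : (N : ℝ) ≤ n := by exact_mod_cast hn
      linarith
    have hodd : ¬ Even (n + 1) := by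
      rw [Nat.even_add_one]; simpa using hev
    have hev2 : Even (n + 1 + 1) := by
      rw [Nat.even_add_one]; exact hodd
    have hZn' : |Zf n (st pre N x n)| ≤ R := by linarith
    have h1 := onestep n (by omega) R (by linarith) hnR (st pre N x n)
      (-(rule n (st pre N x n) * (-1) ^ (n + 1))) hZn' hDn
    rw [← step_form pre N x n hn] at h1
    have hp1 : (-1 : ℝ) ^ (n + 1) = -1 := (Nat.not_even_iff_odd.1 hodd).neg_one_pow
    have hp2 : (-1 : ℝ) ^ (n + 1 + 1) = 1 := hev2.neg_one_pow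
    rw [hp1] at h1
    set z0 := Zf n (st pre N x n) with hz0
    set z1 := Zf (n + 1) (st pre N x (n + 1)) with hz1
    have hr0 : rule n (st pre N x n) = if z0 < 0 then 1 else 0 := by
      unfold rule; rw [if_neg hodd]
    rw [hr0] at h1
    have hz1b : |z1| ≤ R := by
      have h2 := h1.2
      rw [abs_le] at h2 hZn ⊢
      split_ifs at h2 with h3
      · constructor <;> linarith
      · push Not at h3
        constructor <;> linarith
    have h3 := onestep (n + 1) (by omega) R (by linarith) (by push_cast; linarith)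
      (st pre N x (n + 1)) (-(rule (n + 1) (st pre N x (n + 1)) * (-1) ^ (n + 1 + 1))) hz1b h1.1
    rw [← step_form pre N x (n + 1) (by omega), hp2] at h3
    have hr1 : rule (n + 1) (st pre N x (n + 1)) = if 0 < z1 then 1 else 0 := by
      unfold rule; rw [if_pos hev2]
    rw [hr1] at h3
    refine ⟨⟨hz1b, h1.1⟩, ?_, h3.1⟩
    have h4 := h3.2
    have h2 := h1.2
    rw [abs_le] at h2 hZn h4 ⊢
    split_ifs at h2 h4 with h5 h6
    all_goals
      first
        | (constructor <;> linarith)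
        | (push Not at *; constructor <;> linarith)
  induction k with
  | zero =>
    have h := key N le_rfl hN hZ hD
    exact ⟨⟨hZ, hD⟩, h.1⟩
  | succ k ih =>
    have hev : Even (N + 2 * k) := hN.add (even_two_mul k)
    have h := key (N + 2 * k) (by omega) hev ih.1.1 ih.1.2
    have h2 := h.2
    rw [show N + 2 * k + 2 = N + 2 * (k + 1) by ring] at h2
    have hev2 : Even (N + 2 * (k + 1)) := hN.add (even_two_mul _)
    exact ⟨h2, (key (N + 2 * (k + 1)) (by omega) hev2 h2.1 h2.2).1⟩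

theorem bounded_all (pre : ℕ → ℝ) (N : ℕ) (hN : Even N) (hN1 : 1 ≤ N) (x : ℝ × ℝ) (R : ℝ) (hR : 3 ≤ R)
    (hRN : 56 * R ≤ N) (hZ : |Zf N (st pre N x N)| ≤ R - 1) (hD : |Df N (st pre N x N)| ≤ 5 / 4 * R)
    (n : ℕ) (hn : N ≤ n) : |Zf n (st pre N x n)| ≤ R ∧ |Df n (st pre N x n)| ≤ 5 / 4 * R := by
  obtain ⟨m, rfl⟩ := Nat.exists_eq_add_of_le hn
  rcases Nat.even_or_odd' m with ⟨k, rfl | rfl⟩
  · have := (invariant pre N hN hN1 x R hR hRN hZ hD k).1
    exact ⟨by linarith [this.1], this.2⟩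
  · have := (invariant pre N hN hN1 x R hR hRN hZ hD k).2
    rw [show N + (2 * k + 1) = N + 2 * k + 1 by ring]
    exact this

theorem tendsto_st (pre : ℕ → ℝ) (N : ℕ) (hN : Even N) (hN1 : 1 ≤ N) (x : ℝ × ℝ) (R : ℝ) (hR : 3 ≤ R)
    (hRN : 56 * R ≤ N) (hZ : |Zf N (st pre N x N)| ≤ R - 1) (hD : |Df N (st pre N x N)| ≤ 5 / 4 * R) :
    Tendsto (st pre N x) atTop (𝓝 0) := by
  have hb := bounded_all pre N hN hN1 x R hR hRN hZ hD
  have h1 : Tendsto (fun n => (st pre N x n).1) atTop (𝓝 0) := by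
    have hlim : Tendsto (fun n : ℕ => (4 * R) / (n : ℝ)) atTop (𝓝 0) :=
      tendsto_const_div_atTop_nhds_zero_nat _
    refine squeeze_zero_norm' ?_ hlim
    filter_upwards [eventually_ge_atTop N] with n hn
    have hn0 : (0 : ℝ) < n := by exact_mod_cast (by omega : 0 < n)
    obtain ⟨h2, h3⟩ := hb n hn
    rw [Real.norm_eq_abs, le_div_iff₀ hn0]
    have e : (n : ℝ) * (st pre N x n).1 = Zf n (st pre N x n) - 2 * Df n (st pre N x n) := by
      unfold Zf Df; ring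
    have : |(st pre N x n).1| * n = |(n : ℝ) * (st pre N x n).1| := by
      rw [abs_mul, abs_of_pos hn0, mul_comm]
    rw [this, e]
    rw [abs_le] at h2 h3 ⊢
    constructor <;> linarith
  have h2 : Tendsto (fun n => (st pre N x n).2) atTop (𝓝 0) := by
    have hlim : Tendsto (fun n : ℕ => (5 * R) / Real.sqrt (n : ℝ)) atTop (𝓝 0) :=
      tendsto_const_nhds.div_atTop (Real.tendsto_sqrt_atTop.comp tendsto_natCast_atTop_atTop)
    refine squeeze_zero_norm' ?_ hlim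
    filter_upwards [eventually_ge_atTop N] with n hn
    have hn0 : (0 : ℝ) < n := by exact_mod_cast (by omega : 0 < n)
    have hq0 : 0 < Real.sqrt n := Real.sqrt_pos.2 hn0
    obtain ⟨h2, h3⟩ := hb n hn
    rw [Real.norm_eq_abs, le_div_iff₀ hq0]
    have e : Real.sqrt n * (st pre N x n).2 = Zf n (st pre N x n) - 3 * Df n (st pre N x n) := by
      unfold Zf Df; ring
    have : |(st pre N x n).2| * Real.sqrt n = |Real.sqrt n * (st pre N x n).2| := by
      rw [abs_mul, abs_of_pos hq0, mul_comm]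
    rw [this, e]
    rw [abs_le] at h2 h3 ⊢
    constructor <;> linarith
  exact h1.prodMk_nhds h2

end

end Pool.Agent.X126.Ach
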