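import Mathlib

set_option autoImplicit false

open Finset

namespace Pool.Agent.X126.Buo

/-- number of common high levels -/
def L (m t j : ℕ) : ℕ := ((range m).filter (fun b => t / 2 ^ b = j / 2 ^ b)).card

theorem L_le (m t j : ℕ) : L m t j ≤ m := by
  unfold L
  exact (card_filter_le _ _).trans (by simp)

theorem div_mono_eq {t j b c : ℕ} (hbc : b ≤ c) (h : t / 2 ^ b = j / 2 ^ b) :
    t / 2 ^ c = j / 2 ^ c := by
  obtain ⟨e, rfl⟩ := Nat.exists_eq_add_of_le hbc
  rw [pow_add, ← Nat.div_div_eq_div_mul, ← Nat.div_div_eq_div_mul, h]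

theorem le_L_iff {m t j s : ℕ} (hs : 1 ≤ s) (hsm : s ≤ m) :
    s ≤ L m t j ↔ t / 2 ^ (m - s) = j / 2 ^ (m - s) := by
  constructor
  · intro h
    by_contra hne
    have h1 : (range m).filter (fun b => t / 2 ^ b = j / 2 ^ b) ⊆ Ico (m - s + 1) m := by
      intro b hb
      rw [mem_filter, mem_range] at hb
      rw [mem_Ico]
      refine ⟨?_, hb.1⟩
      by_contra hlt
      exact hne (div_mono_eq (by omega) hb.2)
    have h2 := card_le_card h1
    rw [Nat.card_Ico] at h2
    unfold L at h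
    omega
  · intro h
    have h1 : Ico (m - s) m ⊆ (range m).filter (fun b => t / 2 ^ b = j / 2 ^ b) := by
      intro b hb
      rw [mem_Ico] at hb
      rw [mem_filter, mem_range]
      exact ⟨hb.2, div_mono_eq hb.1 h⟩
    have h2 := card_le_card h1
    rw [Nat.card_Ico] at h2
    unfold L
    omega

theorem L_self (m j : ℕ) : L m j j = m := by
  unfold L
  simp

/-- the block of coordinates -/
def J (m : ℕ) : Finset ℕ := Ico (2 ^ m) (2 ^ (m + 1))

theorem L_zero_of_lt {m t j : ℕ} (ht : t < 2 ^ m) (hj : j ∈ J m) : L m t j = 0 := by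
  unfold L
  rw [card_eq_zero, filter_eq_empty_iff]
  intro b hb he
  rw [mem_range] at hb
  unfold J at hj
  rw [mem_Ico] at hj
  have h1 : t / 2 ^ b < 2 ^ (m - b) := by
    rw [Nat.div_lt_iff_lt_mul (by positivity), ← pow_add]
    rwa [Nat.sub_add_cancel hb.le]
  have h2 : 2 ^ (m - b) ≤ j / 2 ^ b := by
    rw [Nat.le_div_iff_mul_le (by positivity), ← pow_add, Nat.sub_add_cancel hb.le]
    exact hj.1
  omega

theorem L_zero_of_ge {m t j : ℕ} (ht : 2 ^ (m + 1) ≤ t) (hj : j ∈ J m) : L m t j = 0 := by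
  unfold L
  rw [card_eq_zero, filter_eq_empty_iff]
  intro b hb he
  rw [mem_range] at hb
  unfold J at hj
  rw [mem_Ico] at hj
  have h1 : j / 2 ^ b < 2 ^ (m + 1 - b) := by
    rw [Nat.div_lt_iff_lt_mul (by positivity), ← pow_add]
    rw [Nat.sub_add_cancel (by omega)]
    exact hj.2
  have h2 : 2 ^ (m + 1 - b) ≤ t / 2 ^ b := by
    rw [Nat.le_div_iff_mul_le (by positivity), ← pow_add, Nat.sub_add_cancel (by omega)]
    exact ht
  omega

theorem card_cell (m e q : ℕ) : ((J m).filter (fun j => j / 2 ^ e = q)).card ≤ 2 ^ e := by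
  have h : ((J m).filter (fun j => j / 2 ^ e = q)).card ≤ (range (2 ^ e)).card := by
    refine card_le_card_of_injOn (fun j => j % 2 ^ e) ?_ ?_
    · intro j _
      simp only [coe_range, Set.mem_Iio]
      exact Nat.mod_lt _ (by positivity)
    · intro j hj j' hj' h
      simp only [coe_filter, Set.mem_ofPred_eq] at hj hj'
      have h1 := Nat.div_add_mod j (2 ^ e)
      have h2 := Nat.div_add_mod j' (2 ^ e)
      simp only at h
      rw [hj.2] at h1
      rw [hj'.2] at h2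
      omega
  simpa using h

/-- the count of large drops -/
theorem count (m t t' r : ℕ) (hr : 1 ≤ r) :
    ((J m).filter (fun j => L m t' j + r ≤ L m t j)).card ≤
      ∑ c ∈ (range m).filter (fun c => r ≤ c + 1 ∧ t / 2 ^ c ≠ t' / 2 ^ c), 2 ^ (c + 1 - r) := by
  have h1 : (J m).filter (fun j => L m t' j + r ≤ L m t j) ⊆
      ((range m).filter (fun c => r ≤ c + 1 ∧ t / 2 ^ c ≠ t' / 2 ^ c)).biUnion
        (fun c => (J m).filter (fun j => j / 2 ^ (c + 1 - r) = t / 2 ^ (c + 1 - r))) := by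
    intro j hj
    rw [mem_filter] at hj
    have ha := L_le m t j
    set a' := L m t' j with ha'
    rw [mem_biUnion]
    refine ⟨m - a' - 1, ?_, ?_⟩
    · rw [mem_filter, mem_range]
      refine ⟨by omega, by omega, ?_⟩
      have e1 : t / 2 ^ (m - a' - 1) = j / 2 ^ (m - a' - 1) := by
        have := (le_L_iff (m := m) (t := t) (j := j) (s := a' + 1) (by omega) (by omega)).1 (by omega)
        rwa [show m - (a' + 1) = m - a' - 1 by omega] at this
      have e2 : ¬ (t' / 2 ^ (m - a' - 1) = j / 2 ^ (m - a' - 1)) := by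
        intro h
        have := (le_L_iff (m := m) (t := t') (j := j) (s := a' + 1) (by omega) (by omega)).2
          (by rwa [show m - (a' + 1) = m - a' - 1 by omega])
        omega
      intro h
      exact e2 (h ▸ e1)
    · rw [mem_filter]
      refine ⟨hj.1, ?_⟩
      have := (le_L_iff (m := m) (t := t) (j := j) (s := a' + r) (by omega) (by omega)).1 hj.2
      rw [show m - (a' + r) = m - a' - 1 + 1 - r by omega] at this
      exact this.symm
  refine (card_le_card h1).trans (card_biUnion_le.trans ?_)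
  exact sum_le_sum fun c _ => card_cell _ _ _

/-- the constant -/
noncomputable def C (N : ℕ) : ℝ := ∑' r : ℕ, (r : ℝ) ^ N * (1 / 2) ^ r

theorem C_summable (N : ℕ) : Summable fun r : ℕ => (r : ℝ) ^ N * (1 / 2 : ℝ) ^ r :=
  summable_pow_mul_geometric_of_norm_lt_one N (by norm_num)

theorem C_nonneg (N : ℕ) : 0 ≤ C N := tsum_nonneg fun _ => by positivity

theorem partial_C (N m : ℕ) : ∑ r ∈ Icc 1 m, (r : ℝ) ^ N * (1 / 2 : ℝ) ^ r ≤ C N :=
  (C_summable N).sum_le_tsum _ fun _ _ => by positivity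

/-- truncated time -/
def cl (m t : ℕ) : ℕ := min t (2 ^ (m + 1))

/-- potential -/
noncomputable def A (N m t : ℕ) : ℝ := 4 * C N * ∑ c ∈ range m, (2 : ℝ) ^ c * ((cl m t / 2 ^ c : ℕ) : ℝ)

theorem count' (m t t' r : ℕ) (hr : 1 ≤ r) (htt : (t ≤ t' ∧ t < 2 ^ (m + 1)) ∨ (t' ≤ t ∧ t' < 2 ^ (m + 1))) :
    (((J m).filter (fun j => L m t' j + r ≤ L m t j)).card : ℝ) ≤
      2 * (1 / 2) ^ r * ∑ c ∈ range m, (2 : ℝ) ^ c *
        |((cl m t' / 2 ^ c : ℕ) : ℝ) - ((cl m t / 2 ^ c : ℕ) : ℝ)| := by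
  have h1 : (((J m).filter (fun j => L m t' j + r ≤ L m t j)).card : ℝ) ≤
      ∑ c ∈ (range m).filter (fun c => r ≤ c + 1 ∧ t / 2 ^ c ≠ t' / 2 ^ c), (2 : ℝ) ^ (c + 1 - r) := by
    exact_mod_cast count m t t' r hr
  refine h1.trans ?_
  rw [mul_sum]
  have h2 : ∀ c ∈ (range m).filter (fun c => r ≤ c + 1 ∧ t / 2 ^ c ≠ t' / 2 ^ c),
      (2 : ℝ) ^ (c + 1 - r) ≤ 2 * (1 / 2) ^ r * ((2 : ℝ) ^ c *
        |((cl m t' / 2 ^ c : ℕ) : ℝ) - ((cl m t / 2 ^ c : ℕ) : ℝ)|) := by
    intro c hc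
    rw [mem_filter, mem_range] at hc
    obtain ⟨hcm, hrc, hne⟩ := hc
    have e1 : (2 : ℝ) ^ (c + 1 - r) = 2 * (1 / 2) ^ r * 2 ^ c := by
      have : (2 : ℝ) ^ (c + 1 - r) * 2 ^ r = 2 ^ (c + 1) := by
        rw [← pow_add, Nat.sub_add_cancel hrc]
      have h3 : (2 : ℝ) ^ r * (1 / 2) ^ r = 1 := by rw [← mul_pow]; norm_num
      calc (2 : ℝ) ^ (c + 1 - r) = 2 ^ (c + 1 - r) * (2 ^ r * (1 / 2) ^ r) := by rw [h3, mul_one]
        _ = (2 ^ (c + 1 - r) * 2 ^ r) * (1 / 2) ^ r := by ring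
        _ = _ := by rw [this, pow_succ]; ring
    rw [e1]
    have hpow : ∀ u : ℕ, u < 2 ^ (m + 1) → u / 2 ^ c < 2 ^ (m + 1) / 2 ^ c := by
      intro u hu
      rw [Nat.pow_div (by omega) (by norm_num), Nat.div_lt_iff_lt_mul (by positivity), ← pow_add,
        Nat.sub_add_cancel (by omega)]
      exact hu
    have e2 : (1 : ℝ) ≤ |((cl m t' / 2 ^ c : ℕ) : ℝ) - ((cl m t / 2 ^ c : ℕ) : ℝ)| := by
      rcases htt with ⟨htt, ht⟩ | ⟨htt, ht⟩
      · have h4 : cl m t / 2 ^ c + 1 ≤ cl m t' / 2 ^ c := by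
          have e3 : cl m t = t := min_eq_left ht.le
          rw [e3]
          rcases lt_or_ge t' (2 ^ (m + 1)) with h5 | h5
          · have e4 : cl m t' = t' := min_eq_left h5.le
            rw [e4]
            have := Nat.div_le_div_right (c := 2 ^ c) htt
            omega
          · have e4 : cl m t' = 2 ^ (m + 1) := min_eq_right h5
            rw [e4]
            have := hpow t ht
            omega
        have h5 : ((cl m t / 2 ^ c : ℕ) : ℝ) + 1 ≤ ((cl m t' / 2 ^ c : ℕ) : ℝ) := by exact_mod_cast h4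
        rw [abs_of_nonneg (by linarith)]
        linarith
      · have h4 : cl m t' / 2 ^ c + 1 ≤ cl m t / 2 ^ c := by
          have e3 : cl m t' = t' := min_eq_left ht.le
          rw [e3]
          rcases lt_or_ge t (2 ^ (m + 1)) with h5 | h5
          · have e4 : cl m t = t := min_eq_left h5.le
            rw [e4]
            have := Nat.div_le_div_right (c := 2 ^ c) htt
            omega
          · have e4 : cl m t = 2 ^ (m + 1) := min_eq_right h5
            rw [e4]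
            have := hpow t' ht
            omega
        have h5 : ((cl m t' / 2 ^ c : ℕ) : ℝ) + 1 ≤ ((cl m t / 2 ^ c : ℕ) : ℝ) := by exact_mod_cast h4
        rw [abs_of_nonpos (by linarith)]
        linarith
    have h6 : (0 : ℝ) ≤ 2 * (1 / 2) ^ r * 2 ^ c := by positivity
    nlinarith
  refine (sum_le_sum h2).trans ?_
  exact sum_le_sum_of_subset_of_nonneg (filter_subset _ _) fun _ _ _ => by positivity

theorem pow_bound (p : ℝ) (hp : 0 < p) (N : ℕ) (hN : p ≤ N) (m u v : ℕ) (hu : u ≤ m) (hv : v ≤ m) :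
    |(u : ℝ) - v| ^ p ≤ ∑ r ∈ Icc 1 m, (r : ℝ) ^ N *
      ((if v + r ≤ u then 1 else 0) + (if u + r ≤ v then 1 else 0)) := by
  have hpow : ∀ r : ℕ, 1 ≤ r → (r : ℝ) ^ p ≤ (r : ℝ) ^ N := by
    intro r hr
    rw [← Real.rpow_natCast]
    exact Real.rpow_le_rpow_of_exponent_le (by exact_mod_cast hr) hN
  rcases lt_trichotomy u v with h | h | h
  · have h1 := Finset.single_le_sum (f := fun r : ℕ => (r : ℝ) ^ N *
      ((if v + r ≤ u then 1 else 0) + (if u + r ≤ v then 1 else 0))) (s := Icc 1 m)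
      (fun r _ => by positivity) (a := v - u) (by rw [mem_Icc]; omega)
    refine le_trans ?_ h1
    have e1 : |(u : ℝ) - v| = ((v - u : ℕ) : ℝ) := by
      rw [Nat.cast_sub h.le, abs_sub_comm, abs_of_nonneg]
      have : (u : ℝ) ≤ v := by exact_mod_cast h.le
      linarith
    rw [e1, if_neg (by omega), if_pos (by omega)]
    have := hpow (v - u) (by omega)
    linarith
  · subst h
    rw [sub_self, abs_zero, Real.zero_rpow hp.ne']
    exact sum_nonneg fun r _ => by positivity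
  · have h1 := Finset.single_le_sum (f := fun r : ℕ => (r : ℝ) ^ N *
      ((if v + r ≤ u then 1 else 0) + (if u + r ≤ v then 1 else 0))) (s := Icc 1 m)
      (fun r _ => by positivity) (a := u - v) (by rw [mem_Icc]; omega)
    refine le_trans ?_ h1
    have e1 : |(u : ℝ) - v| = ((u - v : ℕ) : ℝ) := by
      rw [Nat.cast_sub h.le, abs_of_nonneg]
      have : (v : ℝ) ≤ u := by exact_mod_cast h.le
      linarith
    rw [e1, if_pos (by omega), if_neg (by omega)]
    have := hpow (u - v) (by omega)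
    linarith

theorem cost (p : ℝ) (hp : 0 < p) (N : ℕ) (hN : p ≤ N) (m t t' : ℕ) (htt : t ≤ t') :
    ∑ j ∈ J m, |(L m t j : ℝ) - L m t' j| ^ p ≤ A N m t' - A N m t := by
  have hcl : ∀ c, ((cl m t / 2 ^ c : ℕ) : ℝ) ≤ ((cl m t' / 2 ^ c : ℕ) : ℝ) := by
    intro c
    exact_mod_cast Nat.div_le_div_right (min_le_min_right _ htt)
  have hA : A N m t' - A N m t = 4 * C N * ∑ c ∈ range m, (2 : ℝ) ^ c *
      |((cl m t' / 2 ^ c : ℕ) : ℝ) - ((cl m t / 2 ^ c : ℕ) : ℝ)| := by
    unfold A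
    rw [← mul_sub, ← sum_sub_distrib]
    congr 1
    refine sum_congr rfl fun c _ => ?_
    rw [abs_of_nonneg (by linarith [hcl c]), mul_sub]
  set Sg : ℝ := ∑ c ∈ range m, (2 : ℝ) ^ c *
      |((cl m t' / 2 ^ c : ℕ) : ℝ) - ((cl m t / 2 ^ c : ℕ) : ℝ)| with hSg
  have hSg0 : 0 ≤ Sg := sum_nonneg fun _ _ => by positivity
  rcases lt_or_ge t (2 ^ (m + 1)) with ht | ht
  · have h1 : ∑ j ∈ J m, |(L m t j : ℝ) - L m t' j| ^ p ≤
        ∑ j ∈ J m, ∑ r ∈ Icc 1 m, (r : ℝ) ^ N *
      ((if L m t' j + r ≤ L m t j then 1 else 0) + (if L m t j + r ≤ L m t' j then 1 else 0)) :=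
      sum_le_sum fun j _ => pow_bound p hp N hN m _ _ (L_le _ _ _) (L_le _ _ _)
    refine h1.trans ?_
    rw [sum_comm]
    have h2 : ∀ r ∈ Icc 1 m, ∑ j ∈ J m, (r : ℝ) ^ N *
      ((if L m t' j + r ≤ L m t j then 1 else 0) + (if L m t j + r ≤ L m t' j then 1 else 0)) ≤
        ((r : ℝ) ^ N * (1 / 2) ^ r) * (4 * Sg) := by
      intro r hr
      rw [mem_Icc] at hr
      rw [← mul_sum, sum_add_distrib]
      have a1 := count' m t t' r hr.1 (Or.inl ⟨htt, ht⟩)
      have a2 := count' m t' t r hr.1 (Or.inr ⟨htt, ht⟩)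
      have a3 : ∑ c ∈ range m, (2 : ℝ) ^ c *
          |((cl m t / 2 ^ c : ℕ) : ℝ) - ((cl m t' / 2 ^ c : ℕ) : ℝ)| = Sg := by
        rw [hSg]
        refine sum_congr rfl fun c _ => ?_
        rw [abs_sub_comm]
      rw [a3] at a2
      rw [← hSg] at a1
      have b1 : ∑ j ∈ J m, (if L m t' j + r ≤ L m t j then (1:ℝ) else 0) =
          (((J m).filter (fun j => L m t' j + r ≤ L m t j)).card : ℝ) := by
        rw [sum_boole]
      have b2 : ∑ j ∈ J m, (if L m t j + r ≤ L m t' j then (1:ℝ) else 0) =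
          (((J m).filter (fun j => L m t j + r ≤ L m t' j)).card : ℝ) := by
        rw [sum_boole]
      rw [b1, b2]
      have b3 : (0 : ℝ) ≤ (r : ℝ) ^ N := by positivity
      calc (r : ℝ) ^ N * ((((J m).filter (fun j => L m t' j + r ≤ L m t j)).card : ℝ) +
            (((J m).filter (fun j => L m t j + r ≤ L m t' j)).card : ℝ))
          ≤ (r : ℝ) ^ N * (2 * (1 / 2) ^ r * Sg + 2 * (1 / 2) ^ r * Sg) :=
            mul_le_mul_of_nonneg_left (add_le_add a1 a2) b3
        _ = _ := by ring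
    refine (sum_le_sum h2).trans ?_
    rw [← sum_mul, hA]
    have h3 := partial_C N m
    nlinarith
  · have h1 : ∀ j ∈ J m, |(L m t j : ℝ) - L m t' j| ^ p = 0 := by
      intro j hj
      rw [L_zero_of_ge ht hj, L_zero_of_ge (ht.trans htt) hj, sub_self, abs_zero,
        Real.zero_rpow hp.ne']
    rw [sum_eq_zero h1, hA]
    have := C_nonneg N
    positivity

theorem A_le (N m t : ℕ) : A N m t ≤ 8 * C N * (m * 2 ^ m) := by
  unfold A
  have h1 : ∀ c ∈ range m, (2 : ℝ) ^ c * ((cl m t / 2 ^ c : ℕ) : ℝ) ≤ 2 ^ (m + 1) := by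
    intro c _
    have h2 : 2 ^ c * (cl m t / 2 ^ c) ≤ 2 ^ (m + 1) :=
      (Nat.mul_div_le _ _).trans (min_le_right _ _)
    exact_mod_cast h2
  have h2 := sum_le_card_nsmul _ _ _ h1
  rw [card_range, nsmul_eq_mul, pow_succ] at h2
  have := C_nonneg N
  nlinarith

theorem A_nonneg (N m t : ℕ) : 0 ≤ A N m t := by
  unfold A
  have := C_nonneg N
  positivity

end Pool.Agent.X126.Buo
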