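import Pool.Agent.X126.PreDefs

set_option autoImplicit false

open Polynomial

namespace Pool.Agent.X126.Pre

variable {V : Type} [Fintype V] [DecidableEq V] (G : SimpleGraph V) [DecidableRel G.Adj]

/-- balls, computably -/
def B : ℕ → V → Finset V
  | 0, x => {x}
  | k + 1, x => B k x ∪ Finset.univ.filter (fun z => ∃ y ∈ B k x, G.Adj y z)

theorem mem_B_iff (k : ℕ) (x z : V) : z ∈ B G k x ↔ ∃ p : G.Walk x z, p.length ≤ k := by
  induction k generalizing z with
  | zero =>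
    rw [B, Finset.mem_singleton]
    constructor
    · rintro rfl
      exact ⟨.nil, le_rfl⟩
    · rintro ⟨p, hp⟩
      exact (SimpleGraph.Walk.eq_of_length_eq_zero (Nat.le_zero.1 hp)).symm
  | succ k ih =>
    rw [B, Finset.mem_union, Finset.mem_filter]
    constructor
    · rintro (h | ⟨-, y, hy, hyz⟩)
      · obtain ⟨p, hp⟩ := (ih z).1 h
        exact ⟨p, by omega⟩
      · obtain ⟨p, hp⟩ := (ih y).1 hy
        exact ⟨p.concat hyz, by rw [SimpleGraph.Walk.length_concat]; omega⟩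
    · rintro ⟨p, hp⟩
      rcases Nat.lt_or_ge k p.length with h | h
      · right
        have hne : ¬ p.Nil := by
          intro hnil
          rw [SimpleGraph.Walk.nil_iff_length_eq] at hnil
          omega
        refine ⟨Finset.mem_univ _, p.penultimate, (ih _).2 ⟨p.dropLast, ?_⟩, p.adj_penultimate hne⟩
        have := p.length_dropLast_add_one hne
        omega
      · left
        exact (ih z).2 ⟨p, h⟩

theorem connected_of_B (k : ℕ) [Nonempty V] (h : ∀ x, B G k x = Finset.univ) : G.Connected := by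
  refine { preconnected := fun x y => ?_, nonempty := inferInstance }
  obtain ⟨p, -⟩ := (mem_B_iff G k x y).1 (by rw [h]; exact Finset.mem_univ _)
  exact ⟨p⟩

theorem dist_le_iff (hc : G.Connected) (k : ℕ) (x y : V) : G.dist x y ≤ k ↔ y ∈ B G k x := by
  rw [mem_B_iff]
  constructor
  · intro h
    obtain ⟨p, hp⟩ := hc.exists_walk_length_eq_dist x y
    exact ⟨p, by omega⟩
  · rintro ⟨p, hp⟩
    exact (SimpleGraph.dist_le p).trans hp

theorem dist_eq_iff (hc : G.Connected) (k : ℕ) (x y : V) :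
    G.dist x y = k + 1 ↔ y ∈ B G (k + 1) x ∧ y ∉ B G k x := by
  rw [← dist_le_iff G hc, ← dist_le_iff G hc]
  omega

theorem adj_cast : G.adjMatrix ℝ = (G.adjMatrix ℤ).map (Int.castRingHom ℝ) := by
  ext i j
  simp only [SimpleGraph.adjMatrix_apply, Matrix.map_apply]
  split_ifs <;> simp

theorem adj_pow_cast (k : ℕ) : (G.adjMatrix ℝ) ^ k = ((G.adjMatrix ℤ) ^ k).map (Int.castRingHom ℝ) := by
  rw [adj_cast]
  exact (map_pow (Int.castRingHom ℝ).mapMatrix (G.adjMatrix ℤ) k).symm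

theorem trace_cast (k : ℕ) : Matrix.trace ((G.adjMatrix ℝ) ^ k) = ((Matrix.trace ((G.adjMatrix ℤ) ^ k) : ℤ) : ℝ) := by
  rw [adj_pow_cast]
  unfold Matrix.trace
  push_cast
  rfl

/-- polynomial from coefficients -/
noncomputable def P (m : ℕ) (a : Fin m → ℝ) : ℝ[X] := ∑ i, C (a i) * X ^ (i : ℕ)

theorem form_P (m : ℕ) (a b : Fin m → ℝ) :
    form G (P m a) (P m b) = (∑ i, ∑ j, a i * b j * Matrix.trace ((G.adjMatrix ℝ) ^ ((i : ℕ) + (j : ℕ)))) /
      (Fintype.card V : ℝ) := by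
  unfold form P
  congr 1
  simp only [map_sum, map_mul, aeval_C, map_pow, aeval_X]
  rw [Finset.sum_mul_sum]
  simp only [Matrix.trace_sum]
  refine Finset.sum_congr rfl fun i _ => Finset.sum_congr rfl fun j _ => ?_
  have h : (algebraMap ℝ (Matrix V V ℝ)) (a i) * G.adjMatrix ℝ ^ (i : ℕ) *
      ((algebraMap ℝ (Matrix V V ℝ)) (b j) * G.adjMatrix ℝ ^ (j : ℕ)) =
      (a i * b j) • (G.adjMatrix ℝ ^ ((i : ℕ) + (j : ℕ))) := by
    rw [Algebra.algebraMap_eq_smul_one, Algebra.algebraMap_eq_smul_one, smul_one_mul, smul_one_mul,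
      smul_mul_smul_comm, pow_add]
  rw [h, Matrix.trace_smul, smul_eq_mul]

theorem mem_spec_of_vec (lam : ℝ) (v : V → ℝ) (hv : v ≠ 0) (h : (G.adjMatrix ℝ).mulVec v = lam • v) :
    lam ∈ spectrum ℝ (G.adjMatrix ℝ) := by
  rw [spectrum.mem_iff]
  intro hu
  rw [Matrix.isUnit_iff_isUnit_det] at hu
  have h1 : ((algebraMap ℝ (Matrix V V ℝ)) lam - G.adjMatrix ℝ).mulVec v = 0 := by
    rw [Matrix.sub_mulVec, h, Algebra.algebraMap_eq_smul_one, Matrix.smul_mulVec, Matrix.one_mulVec,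
      sub_self]
  exact hv (Matrix.eq_zero_of_mulVec_eq_zero hu.ne_zero h1)

theorem spec_sub [Nonempty V] (q : ℝ[X]) (hq : aeval (G.adjMatrix ℝ) q = 0) (lam : ℝ)
    (h : lam ∈ spectrum ℝ (G.adjMatrix ℝ)) : q.eval lam = 0 := by
  have h1 := spectrum.subset_polynomial_aeval (G.adjMatrix ℝ) q ⟨lam, h, rfl⟩
  rw [hq, spectrum.zero_eq] at h1
  exact h1

theorem adj_nat_cast (l : ℕ) (x y : V) : (((G.adjMatrix ℕ ^ l) x y : ℕ) : ℤ) = (G.adjMatrix ℤ ^ l) x y := by
  have h : G.adjMatrix ℤ = (G.adjMatrix ℕ).map (Nat.castRingHom ℤ) := by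
    ext i j
    simp only [SimpleGraph.adjMatrix_apply, Matrix.map_apply]
    split_ifs <;> simp
  have h2 : (G.adjMatrix ℤ) ^ l = ((G.adjMatrix ℕ) ^ l).map (Nat.castRingHom ℤ) := by
    rw [h]
    exact (map_pow (Nat.castRingHom ℤ).mapMatrix (G.adjMatrix ℕ) l).symm
  rw [h2]
  rfl

/-- product of matrices given as functions -/
def mulF {n : ℕ} (a b : Fin n → Fin n → ℤ) : Fin n → Fin n → ℤ := fun i j => ∑ k, a i k * b k j

/-- trace of a function matrix -/
def trF {n : ℕ} (a : Fin n → Fin n → ℤ) : ℤ := ∑ k, a k k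

theorem of_mul {n : ℕ} (a b : Fin n → Fin n → ℤ) : Matrix.of a * Matrix.of b = Matrix.of (mulF a b) := by
  ext i j
  rw [Matrix.mul_apply]
  rfl

theorem of_trace {n : ℕ} (a : Fin n → Fin n → ℤ) : Matrix.trace (Matrix.of a) = trF a := rfl

end Pool.Agent.X126.Pre
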