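import Pool.Agent.X126.PurA

/-!
# Permutation patterns: tables of values of the Möbius function, chains
-/

set_option autoImplicit false

namespace Pool.Agent.X126.Pur

/-- The Möbius function of the pattern poset. -/
noncomputable def mu (σ π : List ℕ) : ℤ :=
  if σ = π then 1 else
    - ∑ᶠ τ : {τ : List ℕ // IsPerm τ ∧ Le σ τ ∧ Lt τ π}, mu σ τ.1
termination_by π.length
decreasing_by exact τ.2.2.2.2

/-- index set of the recursion for `σ = 1` -/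
def F (π : List ℕ) : Finset (List ℕ) :=
  (dn π).toFinset.filter (fun ρ => ρ ≠ [] ∧ ρ.length < π.length)

lemma le_one {τ : List ℕ} : Le [0] τ ↔ τ ≠ [] := by
  constructor
  · rintro h rfl
    have := h.length_le
    simp at this
  · intro h
    obtain ⟨a, t, rfl⟩ := List.exists_cons_of_ne_nil h
    refine ⟨[a], by simp, rfl, ?_⟩
    intro i j hi hj
    simp only [List.length_cons, List.length_nil, zero_add, Nat.lt_one_iff] at hi hj
    subst hi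
    subst hj
    simp

lemma mem_F {π : List ℕ} (hπ : IsPerm π) (τ : List ℕ) :
    τ ∈ F π ↔ IsPerm τ ∧ Le [0] τ ∧ Lt τ π := by
  unfold F Lt
  rw [Finset.mem_filter, List.mem_toFinset, mem_dn hπ.nodup, le_one]
  tauto

lemma mu_one {π : List ℕ} (hπ : IsPerm π) (h : [0] ≠ π) :
    mu [0] π = - ∑ τ ∈ F π, mu [0] τ := by
  rw [mu, if_neg h]
  congr 1
  have h1 : {τ : List ℕ | IsPerm τ ∧ Le [0] τ ∧ Lt τ π} = ↑(F π) := by
    ext τ
    rw [Finset.mem_coe, mem_F hπ]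
    rfl
  have h2 := finsum_set_coe_eq_finsum_mem (f := fun τ => mu [0] τ)
    {τ : List ℕ | IsPerm τ ∧ Le [0] τ ∧ Lt τ π}
  rw [h1, finsum_mem_coe_finset] at h2
  rw [← h2]
  have h3 : ∀ S : Set (List ℕ), S = ↑(F π) →
      ∑ᶠ τ : S, mu [0] τ.1 = ∑ᶠ τ : (↑(F π) : Set (List ℕ)), mu [0] τ.1 := by
    rintro S rfl
    rfl
  exact h3 _ h1

/-- look up in a table -/
def look (T : List (List ℕ × ℤ)) (ρ : List ℕ) : ℤ :=
  ((T.find? (fun p => decide (p.1 = ρ))).map Prod.snd).getD 0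

lemma look_mem {T : List (List ℕ × ℤ)} {ρ : List ℕ} (h : ρ ∈ T.map Prod.fst) :
    ∃ q ∈ T, q.1 = ρ ∧ look T ρ = q.2 := by
  have h1 : (T.find? (fun p => decide (p.1 = ρ))).isSome := by
    rw [List.find?_isSome]
    rw [List.mem_map] at h
    obtain ⟨q, hq, rfl⟩ := h
    exact ⟨q, hq, by simp⟩
  obtain ⟨q, hq⟩ := Option.isSome_iff_exists.1 h1
  refine ⟨q, List.mem_of_find?_eq_some hq, by simpa using List.find?_some hq, ?_⟩
  unfold look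
  rw [hq]
  rfl

/-- a correct table -/
def Ok (T : List (List ℕ × ℤ)) : Prop :=
  ∀ p ∈ T, (IsPerm p.1 ∧ p.1 ≠ []) ∧ ((p.1 = [0] ∧ p.2 = 1) ∨ (p.1 ≠ [0] ∧
    (∀ ρ ∈ F p.1, ρ ∈ T.map Prod.fst) ∧ p.2 = -∑ ρ ∈ F p.1, look T ρ))

instance (T : List (List ℕ × ℤ)) : Decidable (Ok T) := by unfold Ok; infer_instance

lemma table {T : List (List ℕ × ℤ)} (h : Ok T) : ∀ n : ℕ, ∀ p ∈ T, p.1.length ≤ n →
    mu [0] p.1 = p.2 := by
  intro n
  induction n with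
  | zero =>
    intro p hp hl
    exact absurd (List.length_eq_zero_iff.1 (Nat.le_zero.1 hl)) (h p hp).1.2
  | succ n ih =>
    intro p hp hl
    rcases h p hp with ⟨⟨h1, -⟩, ⟨h2, h3⟩ | ⟨h2, h3, h4⟩⟩
    · rw [h2, h3, mu, if_pos rfl]
    · rw [mu_one h1 (Ne.symm h2), h4]
      congr 1
      apply Finset.sum_congr rfl
      intro ρ hρ
      obtain ⟨q, hq, hq1, hq2⟩ := look_mem (h3 ρ hρ)
      rw [hq2, ← ih q hq, hq1]
      rw [hq1]
      have := ((mem_F h1 ρ).1 hρ).2.2.2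
      omega

/-- comparable elements -/
def Comp (a b : List ℕ) : Prop := Lt a b ∨ Lt b a

/-- a finite chain of elements of `Z` -/
def IsChn (Z : Set (List ℕ)) (c : Finset (List ℕ)) : Prop :=
  (∀ a ∈ c, a ∈ Z) ∧ ∀ a ∈ c, ∀ b ∈ c, a ≠ b → Comp a b

/-- a maximal chain (facet of the order complex) -/
def IsFacet (Z : Set (List ℕ)) (c : Finset (List ℕ)) : Prop :=
  IsChn Z c ∧ ∀ d, IsChn Z d → c ⊆ d → c = d

/-- decidable comparison -/
def LtB (a b : List ℕ) : Prop := a ∈ dn b ∧ a.length < b.length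

instance (a b : List ℕ) : Decidable (LtB a b) := by unfold LtB; infer_instance

lemma ltB_iff {a b : List ℕ} (ha : IsPerm a) (hb : IsPerm b) : LtB a b ↔ Lt a b := by
  unfold LtB Lt
  rw [mem_dn hb.nodup]
  tauto

lemma facet {S c : Finset (List ℕ)} (hS : ∀ z ∈ S, IsPerm z) (h1 : c ⊆ S)
    (h2 : ∀ a ∈ c, ∀ b ∈ c, a ≠ b → LtB a b ∨ LtB b a)
    (h3 : ∀ z ∈ S, z ∉ c → ∃ a ∈ c, ¬ (LtB z a ∨ LtB a z)) : IsFacet (↑S) c := by
  refine ⟨⟨fun a ha => h1 ha, fun a ha b hb hab => ?_⟩, ?_⟩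
  · have := h2 a ha b hb hab
    rwa [ltB_iff (hS a (h1 ha)) (hS b (h1 hb)), ltB_iff (hS b (h1 hb)) (hS a (h1 ha))] at this
  · rintro d ⟨hd1, hd2⟩ hcd
    apply Finset.Subset.antisymm hcd
    intro z hz
    by_contra hzc
    obtain ⟨a, ha, hza⟩ := h3 z (hd1 z hz) hzc
    rw [ltB_iff (hS z (hd1 z hz)) (hS a (h1 ha)), ltB_iff (hS a (h1 ha)) (hS z (hd1 z hz))] at hza
    apply hza
    apply hd2 z hz a (hcd ha)
    rintro rfl
    exact hzc ha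

lemma lt_one {τ : List ℕ} : Lt [0] τ ↔ 1 < τ.length := by
  unfold Lt
  rw [le_one]
  constructor
  · rintro ⟨-, h⟩
    simpa using h
  · intro h
    refine ⟨?_, by simpa using h⟩
    rintro rfl
    simp at h

/-- elements of the open interval on which `mu` satisfies a condition -/
lemma interval_eq {T : List (List ℕ × ℤ)} (h : Ok T) {π : List ℕ} (hπ : IsPerm π)
    (hk : ∀ ρ ∈ F π, ρ ∈ T.map Prod.fst) (Q : ℤ → Prop) [DecidablePred Q] :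
    {τ : List ℕ | IsPerm τ ∧ Lt [0] τ ∧ Lt τ π ∧ Q (mu [0] τ)} =
      ↑((F π).filter (fun τ => 1 < τ.length ∧ Q (look T τ))) := by
  ext τ
  rw [Finset.mem_coe, Finset.mem_filter, mem_F hπ]
  constructor
  · rintro ⟨h1, h2, h3, h4⟩
    have hF := (mem_F hπ τ).2 ⟨h1, h2.1, h3⟩
    refine ⟨⟨h1, h2.1, h3⟩, lt_one.1 h2, ?_⟩
    obtain ⟨q, hq, hq1, hq2⟩ := look_mem (hk τ hF)
    rw [hq2, ← table h _ q hq le_rfl, hq1]
    exact h4
  · rintro ⟨⟨h1, h2, h3⟩, h4, h5⟩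
    have hF := (mem_F hπ τ).2 ⟨h1, h2, h3⟩
    refine ⟨h1, lt_one.2 h4, h3, ?_⟩
    obtain ⟨q, hq, hq1, hq2⟩ := look_mem (hk τ hF)
    rw [hq2, ← table h _ q hq le_rfl, hq1] at h5
    exact h5

def T1 : List (List ℕ × ℤ) := [([0], 1), ([0, 1], -1), ([1, 0], -1), ([0, 1, 2], 0),
  ([0, 2, 1], 1), ([1, 0, 2], 1), ([1, 2, 0], 1), ([2, 1, 0], 0), ([0, 2, 1, 3], -1),
  ([0, 2, 3, 1], -1), ([0, 3, 2, 1], 0), ([2, 1, 3, 0], -1)]

def T2 : List (List ℕ × ℤ) := [([0], 1), ([0, 1], -1), ([1, 0], -1), ([0, 1, 2], 0),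
  ([0, 2, 1], 1), ([1, 0, 2], 1), ([1, 2, 0], 1), ([0, 1, 2, 3], 0), ([0, 1, 3, 2], 0),
  ([0, 2, 1, 3], -1), ([0, 2, 3, 1], -1), ([1, 0, 2, 3], 0), ([1, 0, 3, 2], -1),
  ([0, 1, 3, 4, 2], 0), ([0, 2, 1, 3, 4], 0), ([0, 2, 1, 4, 3], 1), ([1, 0, 3, 4, 2], 0)]

lemma ok1 : Ok T1 := by decide +kernel

lemma ok2 : Ok T2 := by decide +kernel

def P1 : List ℕ := [0, 3, 2, 4, 1]

def P2 : List ℕ := [0, 2, 1, 4, 5, 3]

lemma k1 : ∀ ρ ∈ F P1, ρ ∈ T1.map Prod.fst := by decide +kernel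

lemma k2 : ∀ ρ ∈ F P2, ρ ∈ T2.map Prod.fst := by decide +kernel

lemma p1 : IsPerm P1 := by decide +kernel

lemma p2 : IsPerm P2 := by decide +kernel

/-- The zero complex of `[1, 14352]` has facets of different dimensions. -/
theorem ex1 :
    IsFacet {τ : List ℕ | IsPerm τ ∧ Lt [0] τ ∧ Lt τ [0, 3, 2, 4, 1] ∧ mu [0] τ = 0}
      {[0, 1, 2]} ∧
    IsFacet {τ : List ℕ | IsPerm τ ∧ Lt [0] τ ∧ Lt τ [0, 3, 2, 4, 1] ∧ mu [0] τ = 0}
      {[2, 1, 0], [0, 3, 2, 1]} := by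
  have h := interval_eq ok1 p1 k1 (fun z => z = 0)
  change {τ : List ℕ | IsPerm τ ∧ Lt [0] τ ∧ Lt τ [0, 3, 2, 4, 1] ∧ mu [0] τ = 0} = _ at h
  rw [h]
  constructor
  · apply facet <;> decide +kernel
  · apply facet <;> decide +kernel

/-- The nonzero complex of `[1, 132564]` has facets of different dimensions. -/
theorem ex2 :
    IsFacet {τ : List ℕ | IsPerm τ ∧ Lt [0] τ ∧ Lt τ [0, 2, 1, 4, 5, 3] ∧ mu [0] τ ≠ 0}
      {[0, 1], [0, 2, 1], [0, 2, 3, 1]} ∧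
    IsFacet {τ : List ℕ | IsPerm τ ∧ Lt [0] τ ∧ Lt τ [0, 2, 1, 4, 5, 3] ∧ mu [0] τ ≠ 0}
      {[1, 0], [1, 0, 2], [1, 0, 3, 2], [0, 2, 1, 4, 3]} := by
  have h := interval_eq ok2 p2 k2 (fun z => z ≠ 0)
  change {τ : List ℕ | IsPerm τ ∧ Lt [0] τ ∧ Lt τ [0, 2, 1, 4, 5, 3] ∧ mu [0] τ ≠ 0} = _ at h
  rw [h]
  constructor
  · apply facet <;> decide +kernel
  · apply facet <;> decide +kernel

lemma le_ex1 : Le [0] [0, 3, 2, 4, 1] := le_one.2 (by simp)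

lemma le_ex2 : Le [0] [0, 2, 1, 4, 5, 3] := le_one.2 (by simp)

end Pool.Agent.X126.Pur
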