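import Pool.Agent.X126.AvA

set_option autoImplicit false

open Classical

namespace Pool.Agent.X126.Av

instance {m : ℕ} (d : Fin m → ℕ) : CompactSpace (Wedge d) :=
  inferInstanceAs (CompactSpace (Quot (WRel d)))

/-- positive or negative part -/
def pt (b : Bool) (r : ℝ) : ℝ := if b then max r 0 else max (-r) 0

theorem pt_nonneg (b : Bool) (r : ℝ) : 0 ≤ pt b r := by
  unfold pt; split_ifs <;> exact le_max_right _ _

theorem pt_sub (r : ℝ) : pt true r - pt false r = r := by
  unfold pt
  simp only [if_true, Bool.false_eq_true, if_false]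
  rcases le_total 0 r with h | h
  · rw [max_eq_left h, max_eq_right (by linarith)]; ring
  · rw [max_eq_right h, max_eq_left (by linarith)]; ring

theorem pt_add (r : ℝ) : pt true r + pt false r = |r| := by
  unfold pt
  simp only [if_true, Bool.false_eq_true, if_false]
  rcases le_total 0 r with h | h
  · rw [max_eq_left h, max_eq_right (by linarith), abs_of_nonneg h]; ring
  · rw [max_eq_right h, max_eq_left (by linarith), abs_of_nonpos h]; ring

theorem pt_cont (b : Bool) : Continuous (pt b) := by
  cases b
  · have : pt false = fun r => max (-r) 0 := by funext r; simp [pt]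
    rw [this]; fun_prop
  · have : pt true = fun r => max r 0 := by funext r; simp [pt]
    rw [this]; fun_prop

variable {m : ℕ} (d : Fin m → ℕ) (D : ℕ)

/-- vertices -/
abbrev Vx (m D : ℕ) : Type := Option (Fin m × Fin (D + 1) × Bool)

/-- coordinates extended by zero -/
noncomputable def co {n : ℕ} (D : ℕ) (y : EuclideanSpace ℝ (Fin (n + 1))) (j : Fin (D + 1)) : ℝ :=
  if h : (j : ℕ) < n + 1 then y ⟨j, h⟩ else 0

/-- ell one norm -/
noncomputable def nn {n : ℕ} (D : ℕ) (y : EuclideanSpace ℝ (Fin (n + 1))) : ℝ :=
  ∑ j : Fin (D + 1), |co D y j|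

/-- the map on a sphere -/
noncomputable def th (i : Fin m) (y : EuclideanSpace ℝ (Fin (d i + 1))) : Vx m D → ℝ
  | none => pt true (co D y 0) / nn D y
  | some (i', j, b) => if i' = i ∧ ¬ (j = 0 ∧ b = true) then pt b (co D y j) / nn D y else 0

theorem co_cont {n : ℕ} (j : Fin (D + 1)) : Continuous fun y : EuclideanSpace ℝ (Fin (n + 1)) => co D y j := by
  unfold co
  split_ifs
  · fun_prop
  · exact continuous_const

theorem nn_cont {n : ℕ} : Continuous (nn D : EuclideanSpace ℝ (Fin (n + 1)) → ℝ) := by
  unfold nn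
  exact continuous_finset_sum _ fun j _ => (co_cont D j).abs

theorem nn_pos {n : ℕ} (hn : n ≤ D) (y : Sph n) : 0 < nn D y.1 := by
  have h0 : 0 ≤ nn D y.1 := Finset.sum_nonneg fun _ _ => abs_nonneg _
  refine lt_of_le_of_ne h0 fun h => ?_
  have h1 : ∀ j : Fin (D + 1), co D y.1 j = 0 := by
    intro j
    have := (Finset.sum_eq_zero_iff_of_nonneg (fun j _ => abs_nonneg (co D y.1 j))).1 h.symm j
      (Finset.mem_univ _)
    exact abs_eq_zero.1 this
  have h2 : y.1 = 0 := by
    ext k
    have h3 := h1 ⟨k, by omega⟩
    unfold co at h3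
    rw [dif_pos k.2] at h3
    exact h3
  have h4 := y.2
  rw [h2] at h4
  simp at h4

theorem th_cont (i : Fin m) (hi : d i ≤ D) : Continuous fun y : Sph (d i) => th d D i y.1 := by
  refine continuous_pi fun v => ?_
  have hb : ∀ (b : Bool) (j : Fin (D + 1)), Continuous fun y : Sph (d i) =>
      pt b (co D y.1 j) / nn D y.1 := fun b j =>
    ((pt_cont b).comp ((co_cont D j).comp continuous_subtype_val)).div
      ((nn_cont D).comp continuous_subtype_val) (fun y => (nn_pos D hi y).ne')
  rcases v with _ | ⟨i', j, b⟩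
  · exact hb true 0
  · simp only [th]
    split_ifs
    · exact hb b j
    · exact continuous_const

theorem th_nonneg (i : Fin m) (y : EuclideanSpace ℝ (Fin (d i + 1))) (v : Vx m D) :
    0 ≤ th d D i y v := by
  have hn : 0 ≤ nn D y := Finset.sum_nonneg fun _ _ => abs_nonneg _
  rcases v with _ | ⟨i', j, b⟩
  · exact div_nonneg (pt_nonneg _ _) hn
  · simp only [th]
    split_ifs
    · exact div_nonneg (pt_nonneg _ _) hn
    · exact le_rfl

theorem th_sum (i : Fin m) (hi : d i ≤ D) (y : Sph (d i)) : ∑ v, th d D i y.1 v = 1 := by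
  have hn := nn_pos D hi y
  rw [Fintype.sum_option, Fintype.sum_prod_type]
  rw [Finset.sum_eq_single i]
  · rw [Fintype.sum_prod_type]
    simp only [th, true_and]
    rw [Fin.sum_univ_succ]
    have h1 : ∀ j : Fin D, ∑ b : Bool, (if ¬ (j.succ = 0 ∧ b = true) then
        pt b (co D y.1 j.succ) / nn D y.1 else 0) = |co D y.1 j.succ| / nn D y.1 := by
      intro j
      rw [Fintype.sum_bool, if_pos (by simp), if_pos (by simp), ← add_div, pt_add]
    rw [Finset.sum_congr rfl (fun j _ => h1 j)]
    rw [Fintype.sum_bool, if_neg (by simp), if_pos (by simp), zero_add, ← add_assoc, ← add_div,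
      pt_add, ← Finset.sum_div, ← add_div]
    rw [div_eq_one_iff_eq hn.ne']
    unfold nn
    rw [Fin.sum_univ_succ]
  · intro i' _ hne
    refine Finset.sum_eq_zero fun q _ => ?_
    simp [th, hne]
  · intro h; exact absurd (Finset.mem_univ _) h

/-- the vertex of the cross polytope -/
def io (i : Fin m) (j : Fin (D + 1)) (b : Bool) : Vx m D :=
  if j = 0 ∧ b = true then none else some (i, j, b)

theorem th_io (i : Fin m) (y : EuclideanSpace ℝ (Fin (d i + 1))) (j : Fin (D + 1)) (b : Bool) :
    th d D i y (io D i j b) = pt b (co D y j) / nn D y := by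
  unfold io
  split_ifs with h
  · rw [h.1, h.2]; rfl
  · simp [th, h]

theorem io_inj (i : Fin m) {j j' : Fin (D + 1)} {b b' : Bool} (h : io D i j b = io D i j' b') :
    j = j' ∧ b = b' := by
  unfold io at h
  split_ifs at h with h1 h2 h2
  · exact ⟨h1.1.trans h2.1.symm, h1.2.trans h2.2.symm⟩
  · simp only [Option.some.injEq, Prod.mk.injEq, true_and] at h
    exact h

/-- facets -/
def fac : Option (Fin m × (Fin (D + 1) → Bool)) → Finset (Vx m D)
  | none => {none}
  | some (i, ε) => (Finset.univ.filter fun j : Fin (D + 1) => (j : ℕ) < d i + 1).image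
      fun j => io D i j (ε j)

/-- the realised cross polytope complex -/
def KK : Set (Vx m D → ℝ) :=
  {y | y ∈ stdSimplex ℝ (Vx m D) ∧ ∃ q, ∀ x, y x ≠ 0 → x ∈ fac d D q}

theorem delta_mem : (Pi.single none 1 : Vx m D → ℝ) ∈ KK d D := by
  refine ⟨single_mem_stdSimplex ℝ none, none, fun x hx => ?_⟩
  simp only [fac, Finset.mem_singleton]
  by_contra hne
  exact hx (Pi.single_eq_of_ne hne _)

theorem th_mem (i : Fin m) (hi : d i ≤ D) (y : Sph (d i)) : th d D i y.1 ∈ KK d D := by
  refine ⟨⟨fun v => th_nonneg d D i y.1 v, th_sum d D i hi y⟩,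
    some (i, fun j => decide (0 ≤ co D y.1 j)), ?_⟩
  have key : ∀ j b, pt b (co D y.1 j) ≠ 0 → (j : ℕ) < d i + 1 ∧ decide (0 ≤ co D y.1 j) = b := by
    intro j b h
    constructor
    · by_contra hcon
      apply h
      have : co D y.1 j = 0 := by unfold co; rw [dif_neg hcon]
      rw [this]; unfold pt; simp
    · cases b
      · rw [decide_eq_false_iff_not]
        intro h0
        apply h
        unfold pt
        simp only [Bool.false_eq_true, if_false]
        exact max_eq_right (by linarith)
      · rw [decide_eq_true_iff]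
        by_contra hcon
        apply h
        unfold pt
        simp only [if_true]
        exact max_eq_right (by linarith)
  intro x hx
  simp only [fac, Finset.mem_image, Finset.mem_filter, Finset.mem_univ, true_and]
  rcases x with _ | ⟨i', j, b⟩
  · simp only [th] at hx
    have h1 : pt true (co D y.1 0) ≠ 0 := fun h => hx (by rw [h, zero_div])
    obtain ⟨h2, h3⟩ := key 0 true h1
    exact ⟨0, h2, by rw [h3]; simp [io]⟩
  · simp only [th] at hx
    by_cases h : i' = i ∧ ¬ (j = 0 ∧ b = true)
    · rw [if_pos h] at hx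
      have h1 : pt b (co D y.1 j) ≠ 0 := fun h => hx (by rw [h, zero_div])
      obtain ⟨h2, h3⟩ := key j b h1
      refine ⟨j, h2, ?_⟩
      rw [h3]
      unfold io
      rw [if_neg h.2, h.1]
    · rw [if_neg h] at hx
      exact absurd rfl hx

theorem co_single {n : ℕ} (j : Fin (D + 1)) : co D (EuclideanSpace.single (0 : Fin (n + 1)) (1:ℝ)) j =
    if j = 0 then 1 else 0 := by
  unfold co
  split_ifs with h1 h2 h2
  · subst h2
    simp
  · have : (⟨(j : ℕ), h1⟩ : Fin (n + 1)) ≠ 0 := by
      intro h
      apply h2
      have := congrArg Fin.val h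
      exact Fin.ext (by simpa using this)
    simp [this]
  · subst h2
    simp at h1
  · rfl

theorem nn_single {n : ℕ} : nn D (EuclideanSpace.single (0 : Fin (n + 1)) (1:ℝ)) = 1 := by
  unfold nn
  rw [Finset.sum_eq_single 0]
  · rw [co_single]; simp
  · intro j _ hj
    rw [co_single]; simp [hj]
  · intro h; exact absurd (Finset.mem_univ _) h

theorem th_base (i : Fin m) : th d D i (base (d i)).1 = Pi.single none 1 := by
  funext v
  unfold base
  rcases v with _ | ⟨i', j, b⟩
  · simp only [th, co_single, nn_single]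
    simp [pt]
  · simp only [th, co_single, nn_single]
    rw [Pi.single_eq_of_ne (by simp)]
    by_cases hj : j = 0
    · subst hj
      cases b
      · simp [pt]
      · simp
    · simp [hj, pt]

theorem eq_base {n : ℕ} (hn : n ≤ D) (y : Sph n) (h : ∀ j b, ¬ (j = 0 ∧ b = true) → pt b (co D y.1 j) = 0) :
    y = base n := by
  have h1 : ∀ k : Fin (n + 1), k ≠ 0 → y.1 k = 0 := by
    intro k hk
    have h2 : (⟨k, by omega⟩ : Fin (D + 1)) ≠ 0 := by
      intro h
      apply hk
      have := congrArg Fin.val h
      exact Fin.ext (by simpa using this)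
    have h3 := h ⟨k, by omega⟩ true (by simp [h2])
    have h4 := h ⟨k, by omega⟩ false (by simp)
    have h5 := pt_sub (co D y.1 ⟨k, by omega⟩)
    rw [h3, h4, sub_zero] at h5
    have h6 : co D y.1 ⟨(k : ℕ), by omega⟩ = y.1 k := by
      unfold co
      rw [dif_pos k.2]
    rw [← h6, ← h5]
  have h2 : 0 ≤ y.1 0 := by
    have h4 := h 0 false (by simp)
    have h6 : co D y.1 0 = y.1 0 := by
      unfold co
      rw [dif_pos (by simp)]
      rfl
    rw [h6] at h4
    unfold pt at h4
    simp only [Bool.false_eq_true, if_false] at h4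
    have := le_max_left (-(y.1 0)) 0
    linarith
  have h3 : y.1 0 = 1 := by
    have h4 := y.2
    rw [mem_sphere_zero_iff_norm, EuclideanSpace.norm_eq] at h4
    rw [Finset.sum_eq_single 0] at h4
    · rw [Real.sqrt_sq (norm_nonneg _), Real.norm_eq_abs, abs_of_nonneg h2] at h4
      exact h4
    · intro k _ hk
      rw [h1 k hk]; simp
    · intro h; exact absurd (Finset.mem_univ _) h
  apply Subtype.ext
  ext k
  by_cases hk : k = 0
  · subst hk
    rw [h3]; simp [base]
  · rw [h1 k hk]; simp [base, hk]

/-- the map on the disjoint union -/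
noncomputable def Th0 (hD : ∀ i, d i ≤ D) : (Unit ⊕ Σ i, Sph (d i)) → KK d D :=
  Sum.elim (fun _ => ⟨Pi.single none 1, delta_mem d D⟩)
    (fun p => ⟨th d D p.1 p.2.1, th_mem d D p.1 (hD p.1) p.2⟩)

theorem Th0_cont (hD : ∀ i, d i ≤ D) : Continuous (Th0 d D hD) := by
  refine Continuous.sumElim continuous_const ?_
  rw [continuous_sigma_iff]
  intro i
  exact (th_cont d D i (hD i)).subtype_mk _

/-- the map on the wedge -/
noncomputable def Th (hD : ∀ i, d i ≤ D) : Wedge d → KK d D :=
  Quot.lift (Th0 d D hD) (by
      rintro _ _ ⟨i⟩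
      apply Subtype.ext
      exact (th_base d D i).symm)

theorem Th_cont (hD : ∀ i, d i ≤ D) : Continuous (Th d D hD) :=
  continuous_quot_lift _ (Th0_cont d D hD)

theorem Th_inj (hD : ∀ i, d i ≤ D) : Function.Injective (Th d D hD) := by
  have hbase : ∀ (i : Fin m) (y : Sph (d i)), (∀ j b, ¬ (j = 0 ∧ b = true) →
      th d D i y.1 (some (i, j, b)) = 0) → (Quot.mk (WRel d) (.inl ()) : Wedge d) =
        Quot.mk (WRel d) (.inr ⟨i, y⟩) := by
    intro i y h
    have : y = base (d i) := by
      refine eq_base D (hD i) y fun j b hjb => ?_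
      have h1 := h j b hjb
      simp only [th, hjb, not_false_iff, and_self, if_true] at h1
      rcases div_eq_zero_iff.1 h1 with h2 | h2
      · exact h2
      · exact absurd h2 (nn_pos D (hD i) y).ne'
    rw [this]
    exact Quot.sound (WRel.glue i)
  rintro ⟨a⟩ ⟨a'⟩ h
  rcases a with ⟨⟩ | ⟨i, y⟩ <;> rcases a' with ⟨⟩ | ⟨i', y'⟩
  · rfl
  · refine hbase i' y' fun j b hjb => ?_
    have h1 := congrFun (congrArg Subtype.val h) (some (i', j, b))
    have h2 : (Pi.single none 1 : Vx m D → ℝ) (some (i', j, b)) = th d D i' y'.1 (some (i', j, b)) := h1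
    rw [← h2, Pi.single_eq_of_ne (by simp)]
  · refine (hbase i y fun j b hjb => ?_).symm
    have h1 := congrFun (congrArg Subtype.val h) (some (i, j, b))
    have h2 : th d D i y.1 (some (i, j, b)) = (Pi.single none 1 : Vx m D → ℝ) (some (i, j, b)) := h1
    rw [h2, Pi.single_eq_of_ne (by simp)]
  · have h0 : th d D i y.1 = th d D i' y'.1 := congrArg Subtype.val h
    by_cases hii : i = i'
    · subst hii
      have hn := nn_pos D (hD i) y
      have hn' := nn_pos D (hD i) y'
      have h1 : ∀ j, co D y.1 j / nn D y.1 = co D y'.1 j / nn D y'.1 := by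
        intro j
        have e1 := congrFun h0 (io D i j true)
        have e2 := congrFun h0 (io D i j false)
        rw [th_io, th_io] at e1 e2
        rw [← pt_sub (co D y.1 j), ← pt_sub (co D y'.1 j), sub_div, sub_div, e1, e2]
      have h2 : y.1 = (nn D y.1 / nn D y'.1) • y'.1 := by
        ext k
        have h3 := h1 ⟨k, by have := hD i; omega⟩
        unfold co at h3
        rw [dif_pos k.2, dif_pos k.2, div_eq_div_iff hn.ne' hn'.ne'] at h3
        rw [PiLp.smul_apply, smul_eq_mul]
        field_simp
        simp only [Fin.eta] at h3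
        linarith
      have h4 : nn D y.1 / nn D y'.1 = 1 := by
        have h5 := y.2
        rw [mem_sphere_zero_iff_norm, h2, norm_smul, mem_sphere_zero_iff_norm.1 y'.2, mul_one,
          Real.norm_eq_abs, abs_of_pos (by positivity)] at h5
        exact h5
      rw [h4, one_smul] at h2
      rw [Subtype.ext h2]
    · refine (hbase i y fun j b hjb => ?_).symm.trans (hbase i' y' fun j b hjb => ?_)
      · rw [h0]; simp [th, hii]
      · rw [← h0]; simp [th, Ne.symm hii]

theorem Th_surj (hD : ∀ i, d i ≤ D) : Function.Surjective (Th d D hD) := by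
  rintro ⟨z, ⟨hz0, hz1⟩, q, hq⟩
  rcases q with _ | ⟨i, ε⟩
  · refine ⟨Quot.mk _ (.inl ()), Subtype.ext ?_⟩
    show Pi.single none 1 = z
    simp only [fac, Finset.mem_singleton] at hq
    have h1 : ∀ x, x ≠ none → z x = 0 := by
      intro x hx
      by_contra h
      exact hx (hq x h)
    have h2 : z none = 1 := by
      rw [← hz1, Finset.sum_eq_single none (fun x _ hx => h1 x hx)
        (fun h => absurd (Finset.mem_univ _) h)]
    funext x
    by_cases hx : x = none
    · subst hx; rw [h2]; simp
    · rw [h1 x hx, Pi.single_eq_of_ne hx]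
  · -- the point of the sphere
    have hfac : ∀ x, z x ≠ 0 → ∃ j : Fin (D + 1), (j : ℕ) < d i + 1 ∧ io D i j (ε j) = x := by
      intro x hx
      have := hq x hx
      simpa [fac] using this
    set ζ : Fin (D + 1) → ℝ := fun j => if (j : ℕ) < d i + 1 then z (io D i j (ε j)) else 0 with hζ
    have hζ0 : ∀ j, 0 ≤ ζ j := by
      intro j
      simp only [hζ]
      split_ifs
      · exact hz0 _
      · exact le_rfl
    have hsum : ∑ j, ζ j = 1 := by
      rw [← hz1]
      have h1 : ∑ j, ζ j = ∑ j ∈ Finset.univ.filter (fun j : Fin (D + 1) => (j : ℕ) < d i + 1),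
          z (io D i j (ε j)) := by
        rw [Finset.sum_filter]
      rw [h1, ← Finset.sum_image (f := z) (g := fun j => io D i j (ε j))
        (fun j _ j' _ h => (io_inj D i h).1)]
      refine Finset.sum_subset (Finset.subset_univ _) fun x _ hx => ?_
      by_contra hne
      apply hx
      obtain ⟨j, hj, hje⟩ := hfac x hne
      exact Finset.mem_image.2 ⟨j, Finset.mem_filter.2 ⟨Finset.mem_univ _, hj⟩, hje⟩
    set w : EuclideanSpace ℝ (Fin (d i + 1)) := WithLp.toLp 2 (fun k =>
      if ε ⟨k, by have := hD i; omega⟩ then ζ ⟨k, by have := hD i; omega⟩ else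
        -ζ ⟨k, by have := hD i; omega⟩) with hw
    have hcow : ∀ j, co D w j = if ε j then ζ j else -ζ j := by
      intro j
      unfold co
      split_ifs with h1 h2 h2
      · simp [hw, h2]
      · simp [hw, h2]
      · simp only [hζ]; rw [if_neg h1]
      · simp only [hζ]; rw [if_neg h1, neg_zero]
    have habs : ∀ j, |co D w j| = ζ j := by
      intro j
      rw [hcow]
      split_ifs
      · exact abs_of_nonneg (hζ0 j)
      · rw [abs_neg]; exact abs_of_nonneg (hζ0 j)
    have hnnw : nn D w = 1 := by
      unfold nn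
      rw [Finset.sum_congr rfl (fun j _ => habs j), hsum]
    have hw0 : w ≠ 0 := by
      intro h
      have : nn D w = 0 := by
        rw [h]; unfold nn co; simp
      rw [hnnw] at this
      exact one_ne_zero this
    have hwn : 0 < ‖w‖ := norm_pos_iff.2 hw0
    set y : Sph (d i) := ⟨(‖w‖⁻¹ : ℝ) • w, by
      rw [mem_sphere_zero_iff_norm, norm_smul, norm_inv, norm_norm]
      exact inv_mul_cancel₀ hwn.ne'⟩ with hy
    have hcoy : ∀ j, co D y.1 j = ‖w‖⁻¹ * co D w j := by
      intro j
      simp only [hy]
      unfold co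
      split_ifs
      · rw [PiLp.smul_apply, smul_eq_mul]
      · simp
    have hnny : nn D y.1 = ‖w‖⁻¹ := by
      unfold nn
      have : ∀ j, |co D y.1 j| = ‖w‖⁻¹ * |co D w j| := by
        intro j
        rw [hcoy, abs_mul, abs_of_pos (by positivity)]
      rw [Finset.sum_congr rfl (fun j _ => this j), ← Finset.mul_sum]
      have h3 : ∑ j, |co D w j| = 1 := hnnw
      rw [h3, mul_one]
    have hpt : ∀ b j, pt b (co D y.1 j) / nn D y.1 = pt b (co D w j) := by
      intro b j
      rw [hcoy, hnny]
      have h3 : pt b (‖w‖⁻¹ * co D w j) = ‖w‖⁻¹ * pt b (co D w j) := by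
        have h4 : (0:ℝ) ≤ ‖w‖⁻¹ := by positivity
        unfold pt
        split_ifs
        · rw [mul_max_of_nonneg _ _ h4, mul_zero]
        · rw [mul_max_of_nonneg _ _ h4, mul_zero, mul_neg]
      rw [h3]
      field_simp
    have hval : ∀ j b, th d D i y.1 (io D i j b) = z (io D i j b) := by
      intro j b
      rw [th_io, hpt, hcow]
      by_cases hb : b = ε j
      · subst hb
        have h3 : pt (ε j) (if ε j = true then ζ j else -ζ j) = ζ j := by
          cases hε : ε j
          · simp [pt, hζ0 j]
          · simp [pt, hζ0 j]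
        rw [h3]
        simp only [hζ]
        split_ifs with h4
        · rfl
        · by_contra hne
          obtain ⟨j', hj', he⟩ := hfac _ (Ne.symm hne)
          have := (io_inj D i he).1
          rw [this] at hj'
          exact h4 hj'
      · have h3 : pt b (if ε j = true then ζ j else -ζ j) = 0 := by
          have := hζ0 j
          cases hε : ε j <;> cases b <;> simp_all [pt]
        rw [h3]
        by_contra hne
        obtain ⟨j', hj', he⟩ := hfac _ (Ne.symm hne)
        obtain ⟨h5, h6⟩ := io_inj D i he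
        apply hb
        rw [← h6, h5]
    refine ⟨Quot.mk _ (.inr ⟨i, y⟩), Subtype.ext ?_⟩
    show th d D i y.1 = z
    funext x
    rcases x with _ | ⟨i', j, b⟩
    · have := hval 0 true
      unfold io at this
      simpa using this
    · by_cases hc : i' = i ∧ ¬ (j = 0 ∧ b = true)
      · have := hval j b
        unfold io at this
        rw [if_neg hc.2] at this
        rw [hc.1]
        exact this
      · have h3 : th d D i y.1 (some (i', j, b)) = 0 := by
          simp only [th]; rw [if_neg hc]
        rw [h3]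
        by_contra hne
        obtain ⟨j', hj', he⟩ := hfac _ (Ne.symm hne)
        unfold io at he
        split_ifs at he with h4
        simp only [Option.some.injEq, Prod.mk.injEq] at he
        apply hc
        refine ⟨he.1.symm, ?_⟩
        rw [← he.2.1, ← he.2.2]
        exact h4

/-- The wedge is homeomorphic to the cross polytope complex. -/
noncomputable def homeo (hD : ∀ i, d i ≤ D) : Wedge d ≃ₜ KK d D :=
  Continuous.homeoOfEquivCompactToT2
    (f := Equiv.ofBijective (Th d D hD) ⟨Th_inj d D hD, Th_surj d D hD⟩) (Th_cont d D hD)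

end Pool.Agent.X126.Av
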