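import Mathlib

set_option autoImplicit false

open Complex

namespace Pool.Agent.X126.Snow

noncomputable section

def e (x : ℝ) : ℂ := Complex.exp (Complex.I * ((Real.pi * x : ℝ) : ℂ))

theorem norm_e (x : ℝ) : ‖e x‖ = 1 := by
  unfold e
  rw [mul_comm]
  exact Complex.norm_exp_ofReal_mul_I _

theorem e_cont : Continuous e := by
  unfold e; fun_prop

theorem norm_e_sub (x y : ℝ) : ‖e x - e y‖ = 2 * |Real.sin (Real.pi * (x - y) / 2)| := by
  have h : e x - e y = e y * (Complex.exp (Complex.I * ((Real.pi * (x - y) : ℝ) : ℂ)) - 1) := by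
    unfold e
    rw [mul_sub, mul_one, ← Complex.exp_add]
    congr 2
    push_cast
    ring
  rw [h, norm_mul, norm_e, one_mul, Complex.norm_exp_I_mul_ofReal_sub_one, Real.norm_eq_abs,
    abs_mul, abs_of_pos (by norm_num : (0:ℝ) < 2)]

theorem norm_e_sub_le_two (x y : ℝ) : ‖e x - e y‖ ≤ 2 := by
  rw [norm_e_sub]
  linarith [Real.abs_sin_le_one (Real.pi * (x - y) / 2)]

theorem norm_e_sub_le (x y : ℝ) : ‖e x - e y‖ ≤ Real.pi * |x - y| := by
  rw [norm_e_sub]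
  have h := Real.abs_sin_le_abs (x := Real.pi * (x - y) / 2)
  have h2 : |Real.pi * (x - y) / 2| = Real.pi * |x - y| / 2 := by
    rw [abs_div, abs_mul, abs_of_pos Real.pi_pos, abs_of_pos (by norm_num : (0:ℝ) < 2)]
  rw [h2] at h
  linarith

theorem le_norm_e_sub (x y : ℝ) (h : |x - y| ≤ 1) : 2 * |x - y| ≤ ‖e x - e y‖ := by
  rw [norm_e_sub]
  have hpi := Real.pi_pos
  have h2 : |Real.pi * (x - y) / 2| = Real.pi * |x - y| / 2 := by
    rw [abs_div, abs_mul, abs_of_pos Real.pi_pos, abs_of_pos (by norm_num : (0:ℝ) < 2)]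
  have h3 := Real.mul_abs_le_abs_sin (x := Real.pi * (x - y) / 2) (by
    rw [h2]; nlinarith)
  rw [h2] at h3
  have h4 : 2 / Real.pi * (Real.pi * |x - y| / 2) = |x - y| := by field_simp
  linarith

/-- lacunary series -/
def G (r : ℕ) (t : ℝ) : ℂ := ∑' l : ℕ, ((1 / 8 : ℝ) ^ l : ℝ) • e (64 ^ l * 2 ^ r * t)

theorem summable_geo : Summable fun l : ℕ => (1 / 8 : ℝ) ^ l :=
  summable_geometric_of_lt_one (by norm_num) (by norm_num)

theorem norm_term (r : ℕ) (t : ℝ) (l : ℕ) :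
    ‖((1 / 8 : ℝ) ^ l : ℝ) • e (64 ^ l * 2 ^ r * t)‖ ≤ (1 / 8 : ℝ) ^ l := by
  rw [norm_smul, norm_e, mul_one, Real.norm_eq_abs, abs_of_pos (by positivity)]

theorem summable_G (r : ℕ) (t : ℝ) :
    Summable fun l : ℕ => ((1 / 8 : ℝ) ^ l : ℝ) • e (64 ^ l * 2 ^ r * t) :=
  Summable.of_norm_bounded summable_geo (norm_term r t)

theorem G_cont (r : ℕ) : Continuous (G r) := by
  unfold G
  have h1 : ∀ l : ℕ, Continuous fun t : ℝ => ((1 / 8 : ℝ) ^ l : ℝ) • e (64 ^ l * 2 ^ r * t) := by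
    intro l
    have h : Continuous fun t : ℝ => (64 : ℝ) ^ l * 2 ^ r * t := by fun_prop
    exact (e_cont.comp h).const_smul ((1 / 8 : ℝ) ^ l)
  exact continuous_tsum h1 summable_geo (fun l t => norm_term r t l)

theorem G_sub (r j : ℕ) (s t : ℝ) (h1 : 1 / 2 ≤ 64 ^ j * 2 ^ r * |s - t|)
    (h2 : 64 ^ j * 2 ^ r * |s - t| ≤ 1) : (1 / 8 : ℝ) ^ j / 4 ≤ ‖G r s - G r t‖ := by
  set c : ℕ → ℂ := fun l => ((1 / 8 : ℝ) ^ l : ℝ) • e (64 ^ l * 2 ^ r * s) -
    ((1 / 8 : ℝ) ^ l : ℝ) • e (64 ^ l * 2 ^ r * t) with hc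
  have hsum : Summable c := (summable_G r s).sub (summable_G r t)
  have hG : G r s - G r t = ∑' l, c l := by
    unfold G
    exact ((summable_G r s).tsum_sub (summable_G r t)).symm
  have hcn : ∀ l, ‖c l‖ = (1 / 8 : ℝ) ^ l * ‖e (64 ^ l * 2 ^ r * s) - e (64 ^ l * 2 ^ r * t)‖ := by
    intro l
    simp only [hc]
    rw [← smul_sub, norm_smul, Real.norm_eq_abs, abs_of_pos (by positivity)]
  have habs : ∀ l : ℕ, |64 ^ l * 2 ^ r * s - 64 ^ l * 2 ^ r * t| = 64 ^ l * 2 ^ r * |s - t| := by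
    intro l
    rw [← mul_sub, abs_mul, abs_of_pos (by positivity)]
  have hsplit : ∑' l, c l = (∑ l ∈ Finset.range j, c l) + c j + ∑' l, c (l + (j + 1)) := by
    rw [← hsum.sum_add_tsum_nat_add (j + 1), Finset.sum_range_succ]
  have h8 : (8 : ℝ) ^ j * (1 / 8) ^ j = 1 := by rw [← mul_pow]; norm_num
  have h64 : (64 : ℝ) ^ j = 8 ^ j * 8 ^ j := by rw [← mul_pow]; norm_num
  -- the main term
  have hmain : (1 / 8 : ℝ) ^ j ≤ ‖c j‖ := by
    rw [hcn]
    have h3 := le_norm_e_sub (64 ^ j * 2 ^ r * s) (64 ^ j * 2 ^ r * t) (by rw [habs]; exact h2)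
    rw [habs] at h3
    have h4 : (1 : ℝ) ≤ ‖e (64 ^ j * 2 ^ r * s) - e (64 ^ j * 2 ^ r * t)‖ := by linarith
    have h5 : (0 : ℝ) < (1 / 8) ^ j := by positivity
    nlinarith
  -- the low terms
  have hlow : ‖∑ l ∈ Finset.range j, c l‖ ≤ Real.pi / 7 * (1 / 8) ^ j := by
    refine (norm_sum_le _ _).trans ?_
    have h3 : ∀ l ∈ Finset.range j, ‖c l‖ ≤ Real.pi * ((1 / 8) ^ j * (1 / 8) ^ j) * 8 ^ l := by
      intro l _
      rw [hcn]
      have h4 := norm_e_sub_le (64 ^ l * 2 ^ r * s) (64 ^ l * 2 ^ r * t)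
      rw [habs] at h4
      have h5 : (0 : ℝ) < (1 / 8) ^ l := by positivity
      have h6 : (64 : ℝ) ^ l = 8 ^ l * 8 ^ l := by rw [← mul_pow]; norm_num
      have h7 : (8 : ℝ) ^ l * (1 / 8) ^ l = 1 := by rw [← mul_pow]; norm_num
      have h9 : 2 ^ r * |s - t| ≤ (1 / 8) ^ j * (1 / 8) ^ j := by
        rw [h64] at h2
        have h10 : 0 < (1 / 8 : ℝ) ^ j * (1 / 8) ^ j := by positivity
        have h11 := mul_le_mul_of_nonneg_left h2 h10.le
        have h12 : (1 / 8 : ℝ) ^ j * (1 / 8) ^ j * (8 ^ j * 8 ^ j * 2 ^ r * |s - t|) =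
          (8 ^ j * (1 / 8) ^ j) * (8 ^ j * (1 / 8) ^ j) * (2 ^ r * |s - t|) := by ring
        rw [h12, h8] at h11
        linarith
      calc (1 / 8 : ℝ) ^ l * ‖e (64 ^ l * 2 ^ r * s) - e (64 ^ l * 2 ^ r * t)‖
          ≤ (1 / 8) ^ l * (Real.pi * (64 ^ l * 2 ^ r * |s - t|)) :=
            mul_le_mul_of_nonneg_left h4 h5.le
        _ = Real.pi * (2 ^ r * |s - t|) * 8 ^ l * (8 ^ l * (1 / 8) ^ l) := by rw [h6]; ring
        _ = Real.pi * (2 ^ r * |s - t|) * 8 ^ l := by rw [h7, mul_one]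
        _ ≤ Real.pi * ((1 / 8) ^ j * (1 / 8) ^ j) * 8 ^ l := by
          have := Real.pi_pos
          gcongr
    refine (Finset.sum_le_sum h3).trans ?_
    rw [← Finset.mul_sum, geom_sum_eq (by norm_num)]
    have h4 : Real.pi * ((1 / 8) ^ j * (1 / 8) ^ j) * ((8 ^ j - 1) / (8 - 1)) =
        Real.pi / 7 * (1 / 8) ^ j * (8 ^ j * (1 / 8) ^ j) -
        Real.pi / 7 * ((1 / 8) ^ j * (1 / 8) ^ j) := by ring
    rw [h4, h8, mul_one]
    have := Real.pi_pos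
    have : 0 ≤ Real.pi / 7 * ((1 / 8) ^ j * (1 / 8) ^ j) := by positivity
    linarith
  -- the high terms
  have hhigh : ‖∑' l, c (l + (j + 1))‖ ≤ 2 / 7 * (1 / 8) ^ j := by
    have hs : HasSum (fun l : ℕ => (2 * (1 / 8 : ℝ) ^ (j + 1)) * (1 / 8) ^ l)
        ((2 * (1 / 8 : ℝ) ^ (j + 1)) * (1 - 1 / 8)⁻¹) :=
      (hasSum_geometric_of_lt_one (by norm_num) (by norm_num)).mul_left _
    have h3 := tsum_of_norm_bounded hs (f := fun l => c (l + (j + 1))) (fun l => by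
      rw [hcn]
      have h4 := norm_e_sub_le_two (64 ^ (l + (j + 1)) * 2 ^ r * s) (64 ^ (l + (j + 1)) * 2 ^ r * t)
      have h5 : (0 : ℝ) < (1 / 8) ^ (l + (j + 1)) := by positivity
      calc _ ≤ (1 / 8 : ℝ) ^ (l + (j + 1)) * 2 := mul_le_mul_of_nonneg_left h4 h5.le
        _ = _ := by rw [pow_add]; ring)
    refine h3.trans (le_of_eq ?_)
    rw [pow_succ]; norm_num; ring
  rw [hG, hsplit]
  have htri : ‖c j‖ ≤ ‖(∑ l ∈ Finset.range j, c l) + c j + ∑' l, c (l + (j + 1))‖ +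
      ‖∑ l ∈ Finset.range j, c l‖ + ‖∑' l, c (l + (j + 1))‖ := by
    have : c j = ((∑ l ∈ Finset.range j, c l) + c j + ∑' l, c (l + (j + 1))) -
      (∑ l ∈ Finset.range j, c l) - ∑' l, c (l + (j + 1)) := by ring
    calc ‖c j‖ = _ := congrArg norm this
      _ ≤ _ := (norm_sub_le _ _).trans (add_le_add_left (norm_sub_le _ _) _)
  have hpi : Real.pi < 3.25 := by linarith [Real.pi_lt_d2]
  have h5 : (0 : ℝ) < (1 / 8) ^ j := by positivity
  nlinarith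

/-- the curve -/
def g (t : ℝ) : EuclideanSpace ℝ (Fin 12) :=
  WithLp.toLp 2 (fun i : Fin 12 => if (i : ℕ) % 2 = 0 then (G ((i : ℕ) / 2) t).re
    else (G ((i : ℕ) / 2) t).im)

theorem g_cont : Continuous g := by
  unfold g
  refine (PiLp.continuous_toLp 2 _).comp (continuous_pi fun i => ?_)
  split_ifs
  · exact Complex.continuous_re.comp (G_cont _)
  · exact Complex.continuous_im.comp (G_cont _)

theorem g_sub (r : ℕ) (hr : r < 6) (s t : ℝ) : ‖G r s - G r t‖ ^ 2 ≤ ‖g s - g t‖ ^ 2 := by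
  rw [EuclideanSpace.real_norm_sq_eq]
  have h1 : ({⟨2 * r, by omega⟩, ⟨2 * r + 1, by omega⟩} : Finset (Fin 12)) ⊆ Finset.univ :=
    Finset.subset_univ _
  have h2 := Finset.sum_le_sum_of_subset_of_nonneg (f := fun i => ((g s - g t) i) ^ 2) h1
    (fun i _ _ => sq_nonneg _)
  refine le_trans (le_of_eq ?_) h2
  rw [Finset.sum_pair (by intro h; have := congrArg Fin.val h; simp at this)]
  rw [← Complex.normSq_eq_norm_sq, Complex.normSq_apply]
  have e1 : (2 * r) % 2 = 0 := by omega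
  have e2 : (2 * r + 1) % 2 ≠ 0 := by omega
  have e3 : 2 * r / 2 = r := by omega
  have e4 : (2 * r + 1) / 2 = r := by omega
  simp only [g, PiLp.sub_apply, e1, e2, e3, e4, if_true, if_false, Complex.sub_re, Complex.sub_im]
  ring

/-- The inverse of the curve is better than Lipschitz. -/
theorem snow (s t : ℝ) (hs : s ∈ Set.Icc (0:ℝ) 1) (ht : t ∈ Set.Icc (0:ℝ) 1) :
    |s - t| ≤ 16 * ‖g s - g t‖ ^ 2 := by
  rcases eq_or_ne s t with h | h
  · rw [h]; simp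
  have hpos : 0 < |s - t| := abs_pos.2 (sub_ne_zero.2 h)
  have hle : |s - t| ≤ 1 := by
    rw [abs_le]; constructor <;> linarith [hs.1, hs.2, ht.1, ht.2]
  obtain ⟨k, hk1, hk2⟩ := exists_nat_pow_near_of_lt_one hpos hle (by norm_num : (0:ℝ) < 1 / 2)
    (by norm_num)
  have hk : 6 * (k / 6) + k % 6 = k := Nat.div_add_mod k 6
  set j := k / 6
  set r := k % 6
  have hr : r < 6 := Nat.mod_lt _ (by norm_num)
  have h64 : (64 : ℝ) ^ j * 2 ^ r = 2 ^ k := by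
    rw [← hk, pow_add, pow_mul]; norm_num
  have h2k : (2 : ℝ) ^ k * (1 / 2) ^ k = 1 := by rw [← mul_pow]; norm_num
  have h2kpos : (0 : ℝ) < 2 ^ k := by positivity
  have hlow : 1 / 2 ≤ 64 ^ j * 2 ^ r * |s - t| := by
    rw [h64]
    have : (2 : ℝ) ^ k * (1 / 2) ^ (k + 1) = 1 / 2 := by
      rw [pow_succ, ← mul_assoc, h2k]; norm_num
    nlinarith
  have hup : 64 ^ j * 2 ^ r * |s - t| ≤ 1 := by
    rw [h64, ← h2k]
    exact mul_le_mul_of_nonneg_left hk2 h2kpos.le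
  have h1 := G_sub r j s t hlow hup
  have h2 := g_sub r hr s t
  have h5 : (0 : ℝ) < (1 / 8) ^ j := by positivity
  have h6 : ((1 / 8 : ℝ) ^ j / 4) ^ 2 ≤ ‖G r s - G r t‖ ^ 2 :=
    pow_le_pow_left₀ (by positivity) h1 2
  have h7 : ((1 / 8 : ℝ) ^ j) ^ 2 * 64 ^ j = 1 := by
    rw [← pow_mul, mul_comm j 2, pow_mul, ← mul_pow]; norm_num
  have h8 : |s - t| ≤ ((1 / 8 : ℝ) ^ j) ^ 2 := by
    have h9 : (1 : ℝ) ≤ 2 ^ r := one_le_pow₀ (by norm_num)
    have h10 : (0 : ℝ) < 64 ^ j := by positivity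
    have h11 : 64 ^ j * |s - t| ≤ 1 := by
      have : 64 ^ j * |s - t| ≤ 64 ^ j * 2 ^ r * |s - t| := by
        have h12 : (0:ℝ) ≤ 64 ^ j * |s - t| := by positivity
        nlinarith
      linarith
    nlinarith [sq_nonneg ((1 / 8 : ℝ) ^ j)]
  nlinarith

end

end Pool.Agent.X126.Snow
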