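import Pool.Agent.X126.KupB

set_option autoImplicit false

namespace Pool.Agent.X126.Kup

noncomputable section

/-- the first bottom vertex of block `n` -/
def xn (n : ℕ) (hn : 1 ≤ n) : S := ⟨(1 / V n, 0), ⟨by norm_num, by norm_num,
  Or.inr ⟨n, by norm_num, by norm_num, V n, ⟨le_rfl, V_le_W hn, Or.inl (f_V n).symm⟩, by
    have := V_ge hn
    rw [m_mid le_rfl zero_le_one]
    field_simp⟩⟩⟩

theorem m_pos_of_ne (z : S) (ha : z ≠ a) (hb : z ≠ b) : 0 < m z.1.2 := by
  obtain ⟨⟨x, y⟩, h1, h2, h⟩ := z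
  simp only at h1 h2 ⊢
  have hx0 : m y = 0 → x = 0 := by
    intro hm
    rcases h with h | ⟨n, -, -, v, hv, hx⟩
    · exact h
    · simp only at hx
      have := adm_v hv
      rw [hm] at hx
      rcases mul_eq_zero.1 hx with h | h
      · exact h
      · linarith
  rcases lt_or_eq_of_le h1 with h1' | h1'
  · rcases lt_or_eq_of_le h2 with h2' | h2'
    · exact m_pos h1' h2'
    · exfalso
      subst h2'
      exact hb (Subtype.ext (by unfold b; simp [hx0 m_two]))
  · exfalso
    subst h1'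
    exact ha (Subtype.ext (by unfold a; simp [hx0 m_neg_one]))

theorem level (z : S) (ha : z ≠ a) (hb : z ≠ b) (v : ℝ) (hv : 0 < v)
    (h : z.1.1 / m z.1.2 = 1 / v) : ∃ n, Adm n v z.1.2 := by
  have hm := m_pos_of_ne z ha hb
  obtain ⟨⟨x, y⟩, h1, h2, h'⟩ := z
  simp only at h1 h2 h hm ⊢
  rcases h' with h' | ⟨n, -, -, v', hv', hx⟩
  · exfalso
    simp only at h'
    rw [h', zero_div] at h
    have : 0 < 1 / v := by positivity
    linarith
  · simp only at hx
    have hv2 := adm_v hv'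
    have : v' = v := by
      rw [← hx] at h
      have hx0 : x ≠ 0 := by
        rintro rfl
        rw [zero_mul] at hx
        linarith
      have : x / (x * v') = 1 / v' := by field_simp
      rw [this, one_div, one_div, inv_inj] at h
      exact h
    rw [← this]
    exact ⟨n, hv'⟩

theorem V_mono {n n' : ℕ} (h : n ≤ n') : V n ≤ V n' := by
  unfold V
  have : (n : ℝ) ≤ n' := by exact_mod_cast h
  nlinarith [(Nat.cast_nonneg n : (0:ℝ) ≤ n)]

theorem W_mono {n n' : ℕ} (h : n ≤ n') : W n ≤ W n' := by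
  unfold W
  have : (n : ℝ) ≤ n' := by exact_mod_cast h
  nlinarith [(Nat.cast_nonneg n : (0:ℝ) ≤ n)]

theorem W_lt_V {n n' : ℕ} (h : n < n') : W n < V n' - 1 / 2 := by
  unfold W V
  have : (n : ℝ) + 1 ≤ n' := by exact_mod_cast h
  nlinarith [(Nat.cast_nonneg n : (0:ℝ) ≤ n)]

theorem gap {n n' : ℕ} {y : ℝ} (h : Adm n' (V n - 1 / 2) y) : False := by
  rcases Nat.lt_or_ge n' n with h1 | h1
  · linarith [W_lt_V h1, h.2.1]
  · linarith [V_mono h1, h.1]

/-- good parameters -/
def Good (n : ℕ) (v : ℝ) : Prop := V n < v ∧ v < W n ∧ f v ≠ 0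

theorem good_y {n n' : ℕ} {v y : ℝ} (hg : Good n v) (h : Adm n' v y) : y = f v := by
  have hnn : n' = n := by
    rcases Nat.lt_trichotomy n' n with h1 | h1 | h1
    · linarith [W_lt_V h1, h.2.1, hg.1]
    · exact h1
    · linarith [W_lt_V h1, h.1, hg.2.1]
  subst hnn
  rcases h.2.2 with h1 | ⟨h1, -⟩ | ⟨h1, -⟩
  · exact h1
  · exact absurd h1 hg.2.2
  · linarith [hg.2.1]

theorem level_good (z : S) (ha : z ≠ a) (hb : z ≠ b) {n : ℕ} (hn : 1 ≤ n) {v : ℝ}
    (hg : Good n v) (h : z.1.1 / m z.1.2 = 1 / v) : z.1 = (1 / v, f v) := by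
  have hv0 : 0 < v := by linarith [V_ge hn, hg.1]
  obtain ⟨n', h'⟩ := level z ha hb v hv0 h
  have hy := good_y hg h'
  rw [hy, m_mid (f_nonneg v) (f_le v), div_one] at h
  exact Prod.ext h hy

/-- The crossing times along an arc through the first bottom vertex of block `n`. -/
theorem crossing {n : ℕ} (hn : 1 ≤ n) (q : ℝ → S) (hq : Continuous q) (q0 : q 0 = a)
    (q1 : q 1 = b) (hinj : Set.InjOn q (Set.Icc 0 1)) (t0 : ℝ) (ht0 : t0 ∈ Set.Icc (0:ℝ) 1)
    (hx : q t0 = xn n hn) :
    ∃ T : ℝ → ℝ, (∀ v, Good n v → T v ∈ Set.Icc (0:ℝ) 1 ∧ (q (T v)).1 = (1 / v, f v)) ∧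
      ∀ v v', Good n v → Good n v' → v < v' → T v < T v' := by
  have hV := V_ge hn
  have hne_a : ∀ t ∈ Set.Ioo (0:ℝ) 1, q t ≠ a := by
    intro t ht h
    rw [← q0] at h
    have := hinj ⟨ht.1.le, ht.2.le⟩ ⟨le_rfl, zero_le_one⟩ h
    linarith [ht.1]
  have hne_b : ∀ t ∈ Set.Ioo (0:ℝ) 1, q t ≠ b := by
    intro t ht h
    rw [← q1] at h
    have := hinj ⟨ht.1.le, ht.2.le⟩ ⟨zero_le_one, le_rfl⟩ h
    linarith [ht.2]
  have ht0' : t0 ∈ Set.Ioo (0:ℝ) 1 := by
    refine ⟨lt_of_le_of_ne ht0.1 ?_, lt_of_le_of_ne ht0.2 ?_⟩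
    · rintro rfl
      rw [q0] at hx
      have := congrArg (fun z : S => z.1.2) hx
      simp only [a, xn] at this
      norm_num at this
    · rintro rfl
      rw [q1] at hx
      have := congrArg (fun z : S => z.1.2) hx
      simp only [b, xn] at this
      norm_num at this
  set G : ℝ → ℝ := fun t => (q t).1.1 / m (q t).1.2 with hG
  have hGc : ContinuousOn G (Set.Ioo 0 1) := by
    refine ContinuousOn.div ?_ ?_ ?_
    · exact (continuous_fst.comp (continuous_subtype_val.comp hq)).continuousOn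
    · exact (m_cont.comp (continuous_snd.comp (continuous_subtype_val.comp hq))).continuousOn
    · intro t ht
      exact (m_pos_of_ne _ (hne_a t ht) (hne_b t ht)).ne'
  have hG0 : G t0 = 1 / V n := by
    simp only [hG, hx, xn]
    rw [m_mid le_rfl zero_le_one, div_one]
  -- a late time
  obtain ⟨t1, ht1, ht1y⟩ : ∃ t1, t1 ∈ Set.Ioo t0 1 ∧ 1 < (q t1).1.2 := by
    have hc : Continuous fun t => (q t).1.2 :=
      continuous_snd.comp (continuous_subtype_val.comp hq)
    have h1 : ∀ᶠ t in nhds (1:ℝ), 1 < (q t).1.2 := by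
      refine hc.continuousAt.eventually_mem (Ioi_mem_nhds ?_)
      show (1:ℝ) < (q 1).1.2
      rw [q1]
      show (1:ℝ) < 2
      norm_num
    have h2 : ∀ᶠ t in nhdsWithin (1:ℝ) (Set.Iio 1), t ∈ Set.Ioo t0 1 :=
      Ioo_mem_nhdsLT ht0'.2
    obtain ⟨t1, h3, h4⟩ := (h2.and (h1.filter_mono nhdsWithin_le_nhds)).exists
    exact ⟨t1, h3, h4⟩
  have ht1' : t1 ∈ Set.Ioo (0:ℝ) 1 := ⟨ht0'.1.trans ht1.1, ht1.2⟩
  have ivt : ∀ s ∈ Set.Ioo (0:ℝ) 1, t0 ≤ s → ∀ c, (G s ≤ c ∧ c ≤ G t0) ∨ (G t0 ≤ c ∧ c ≤ G s) →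
      ∃ t ∈ Set.Icc t0 s, G t = c := by
    intro s hs hts c hc
    have hcont : ContinuousOn G (Set.Icc t0 s) :=
      hGc.mono fun t ht => ⟨ht0'.1.trans_le ht.1, ht.2.trans_lt hs.2⟩
    rcases hc with hc | hc
    · exact intermediate_value_Icc' hts hcont hc
    · exact intermediate_value_Icc hts hcont hc
  have hG1 : G t1 ≤ 1 / W n := by
    have hm := m_pos_of_ne _ (hne_a t1 ht1') (hne_b t1 ht1')
    have hWpos : 0 < W n := by linarith [V_le_W hn]
    by_contra hcon
    push Not at hcon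
    obtain ⟨h1, h2, h3⟩ := (q t1).2
    rcases h3 with h3 | ⟨n', -, -, v, hv, hxv⟩
    · have : G t1 = 0 := by simp only [hG]; rw [h3, zero_div]
      rw [this] at hcon
      have : 0 < 1 / W n := by positivity
      linarith
    · have hv2 := adm_v hv
      have hvW : v = W n' := by
        rcases hv.2.2 with h4 | ⟨-, h4⟩ | ⟨h4, -⟩
        · linarith [f_le v]
        · linarith
        · exact h4
      have hGv : G t1 = 1 / v := by
        simp only [hG]
        rw [← hxv] at hm ⊢
        have hx0 : (q t1).1.1 ≠ 0 := by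
          intro h0
          rw [h0, zero_mul] at hm
          exact lt_irrefl _ hm
        field_simp
      rw [hGv, one_div_lt_one_div (by linarith) (by linarith)] at hcon
      have hnn : n' < n := by
        by_contra hge
        push Not at hge
        have := W_mono hge
        rw [← hvW] at this
        linarith
      have hlt := W_lt_V hnn
      rw [← hvW] at hlt
      obtain ⟨t, ht, hGt⟩ := ivt t1 ht1' ht1.1.le (1 / (V n - 1 / 2)) (Or.inr ⟨by
        rw [hG0]
        exact one_div_le_one_div_of_le (by linarith) (by linarith), by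
        rw [hGv]
        exact one_div_le_one_div_of_le (by linarith) (by linarith)⟩)
      have ht' : t ∈ Set.Ioo (0:ℝ) 1 := ⟨ht0'.1.trans_le ht.1, ht.2.trans_lt ht1.2⟩
      obtain ⟨n'', h5⟩ := level _ (hne_a t ht') (hne_b t ht') (V n - 1 / 2) (by linarith) hGt
      exact gap h5
  have hex : ∀ v, ∃ T : ℝ, Good n v → T ∈ Set.Icc t0 t1 ∧ G T = 1 / v := by
    intro v
    by_cases hg : Good n v
    · obtain ⟨t, ht, hGt⟩ := ivt t1 ht1' ht1.1.le (1 / v) (Or.inl ⟨hG1.trans
        (one_div_le_one_div_of_le (by linarith [hg.1]) hg.2.1.le), by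
          rw [hG0]; exact one_div_le_one_div_of_le (by linarith) hg.1.le⟩)
      exact ⟨t, fun _ => ⟨ht, hGt⟩⟩
    · exact ⟨0, fun h => absurd h hg⟩
  choose T hT using hex
  have hTI : ∀ v, Good n v → T v ∈ Set.Ioo (0:ℝ) 1 := by
    intro v hg
    exact ⟨ht0'.1.trans_le (hT v hg).1.1, (hT v hg).1.2.trans_lt ht1.2⟩
  have hTq : ∀ v, Good n v → (q (T v)).1 = (1 / v, f v) := by
    intro v hg
    exact level_good _ (hne_a _ (hTI v hg)) (hne_b _ (hTI v hg)) hn hg (hT v hg).2
  refine ⟨T, fun v hg => ⟨⟨(hTI v hg).1.le, (hTI v hg).2.le⟩, hTq v hg⟩, ?_⟩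
  intro v v' hg hg' hvv
  have hv0 : 0 < v := by linarith [hg.1]
  obtain ⟨t, ht, hGt⟩ := ivt (T v') (hTI v' hg') (hT v' hg').1.1 (1 / v) (Or.inl ⟨by
    rw [(hT v' hg').2]; exact one_div_le_one_div_of_le hv0 hvv.le, by
    rw [hG0]; exact one_div_le_one_div_of_le (by linarith) hg.1.le⟩)
  have ht' : t ∈ Set.Ioo (0:ℝ) 1 := ⟨ht0'.1.trans_le ht.1, ht.2.trans_lt (hTI v' hg').2⟩
  have h1 : (q t).1 = (1 / v, f v) :=
    level_good _ (hne_a _ ht') (hne_b _ ht') hn hg hGt
  have h2 : q t = q (T v) := Subtype.ext (h1.trans (hTq v hg).symm)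
  have h3 : t = T v := hinj ⟨ht'.1.le, ht'.2.le⟩ ⟨(hTI v hg).1.le, (hTI v hg).2.le⟩ h2
  refine lt_of_le_of_ne (h3 ▸ ht.2) ?_
  intro h4
  have h5 := (hT v hg).2
  rw [h4, (hT v' hg').2] at h5
  have h6 : 1 / v' < 1 / v := one_div_lt_one_div_of_lt hv0 hvv
  linarith

/-- The long arc of block `n`. -/
theorem long_arc {n : ℕ} (hn : 1 ≤ n) :
    ∃ p : Path a b, Function.Injective ⇑p ∧ xn n hn ∈ Set.range ⇑p := by
  have hVW := V_le_W hn
  have hV := V_ge hn
  have h0 := f_V n
  have hlo : ∀ s : unitInterval, V n - 1 ≤ V n - 1 + (s : ℝ) * (W n - V n + 2) := by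
    intro s; nlinarith [s.2.1]
  have hhi : ∀ s : unitInterval, V n - 1 + (s : ℝ) * (W n - V n + 2) ≤ W n + 1 := by
    intro s; nlinarith [s.2.2, s.2.1]
  obtain ⟨p, hp⟩ : ∃ p : Path a b, ∀ s : unitInterval,
      (p s).1 = cur (V n) (W n) (V n - 1 + (s : ℝ) * (W n - V n + 2)) := by
    have hcur : Continuous fun s : unitInterval =>
        cur (V n) (W n) (V n - 1 + (s : ℝ) * (W n - V n + 2)) := by
      have h1 : Continuous fun s : unitInterval => V n - 1 + (s : ℝ) * (W n - V n + 2) := by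
        fun_prop
      have h2 : Continuous (cv (V n) (W n)) := by
        unfold cv; fun_prop
      have h3 : Continuous (cy (V n) (W n)) := by
        unfold cy
        exact ((f_cont.comp h2).add (by fun_prop)).add (by fun_prop)
      have h4 : Continuous fun τ => cur (V n) (W n) τ := by
        unfold cur
        refine Continuous.prodMk (Continuous.div (m_cont.comp h3) h2 ?_) h3
        intro τ
        have : V n ≤ cv (V n) (W n) τ := cv_ge
        linarith
      exact h4.comp h1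
    refine ⟨⟨⟨fun s => ⟨_, cur_mem le_rfl hVW h0 (hlo s) (hhi s)⟩,
      hcur.subtype_mk _⟩, ?_, ?_⟩, fun s => rfl⟩
    · apply Subtype.ext
      show cur (V n) (W n) (V n - 1 + (((0 : unitInterval) : ℝ)) * (W n - V n + 2)) = (0, -1)
      rw [Set.Icc.coe_zero, zero_mul, add_zero]
      unfold cur
      rw [cy_low hVW (by linarith), h0]
      have : (0 : ℝ) + (V n - 1 - V n) = -1 := by ring
      rw [this, m_neg_one]; simp
    · apply Subtype.ext
      show cur (V n) (W n) (V n - 1 + (((1 : unitInterval) : ℝ)) * (W n - V n + 2)) = (0, 2)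
      rw [Set.Icc.coe_one, one_mul]
      have e : V n - 1 + (W n - V n + 2) = W n + 1 := by ring
      rw [e]
      unfold cur
      rw [cy_high hVW (by linarith), f_W]
      have : (1 : ℝ) + (W n + 1 - W n) = 2 := by ring
      rw [this, m_two]; simp
  refine ⟨p, ?_, ?_⟩
  · intro s s' hss
    have h1 : cur (V n) (W n) (V n - 1 + (s : ℝ) * (W n - V n + 2)) =
        cur (V n) (W n) (V n - 1 + (s' : ℝ) * (W n - V n + 2)) := by
      rw [← hp s, ← hp s', hss]
    have hpos : 0 < W n - V n + 2 := by linarith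
    have key : V n - 1 + (s : ℝ) * (W n - V n + 2) = V n - 1 + (s' : ℝ) * (W n - V n + 2) := by
      have a1 := hlo s
      have a2 := hhi s
      have b1 := hlo s'
      have b2 := hhi s'
      set τ := V n - 1 + (s : ℝ) * (W n - V n + 2)
      set τ' := V n - 1 + (s' : ℝ) * (W n - V n + 2)
      have hid : ∀ σ : ℝ, σ = cv (V n) (W n) σ + (min (σ - V n) 0 + max (σ - W n) 0) := by
        intro σ
        rcases le_total σ (V n) with h | h
        · rw [cv_low hVW h, min_eq_left (by linarith), max_eq_right (by linarith)]; ring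
        · rcases le_total σ (W n) with h' | h'
          · rw [cv_mid h h', min_eq_right (by linarith), max_eq_right (by linarith)]; ring
          · rw [cv_high hVW h', min_eq_right (by linarith), max_eq_left (by linarith)]; ring
      unfold cur at h1
      rw [Prod.mk.injEq] at h1
      obtain ⟨e1, e2⟩ := h1
      have hr := cy_range (n := n) le_rfl hVW h0 a1 a2
      by_cases hm : m (cy (V n) (W n) τ) = 0
      · -- a pole
        have hy : cy (V n) (W n) τ = -1 ∨ cy (V n) (W n) τ = 2 := by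
          by_contra hcon
          push Not at hcon
          have := m_pos (lt_of_le_of_ne hr.1 (Ne.symm hcon.1)) (lt_of_le_of_ne hr.2 hcon.2)
          linarith
        have low : ∀ σ, V n - 1 ≤ σ → σ ≤ W n + 1 → cy (V n) (W n) σ = -1 → σ = V n - 1 := by
          intro σ c1 c2 hσ
          rcases le_total σ (V n) with h | h
          · rw [cy_low hVW h, h0] at hσ; linarith
          · rcases le_total σ (W n) with h' | h'
            · rw [cy_mid h h'] at hσ; linarith [f_nonneg σ]
            · rw [cy_high hVW h', f_W] at hσ; linarith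
        have high : ∀ σ, V n - 1 ≤ σ → σ ≤ W n + 1 → cy (V n) (W n) σ = 2 → σ = W n + 1 := by
          intro σ c1 c2 hσ
          rcases le_total σ (V n) with h | h
          · rw [cy_low hVW h, h0] at hσ; linarith
          · rcases le_total σ (W n) with h' | h'
            · rw [cy_mid h h'] at hσ; linarith [f_le σ]
            · rw [cy_high hVW h', f_W] at hσ; linarith
        rcases hy with hy | hy
        · rw [low τ a1 a2 hy, low τ' b1 b2 (by rw [← e2, hy])]
        · rw [high τ a1 a2 hy, high τ' b1 b2 (by rw [← e2, hy])]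
      · have hvv : cv (V n) (W n) τ = cv (V n) (W n) τ' := by
          rw [← e2] at e1
          have g1 : V n ≤ cv (V n) (W n) τ := cv_ge
          have g2 : V n ≤ cv (V n) (W n) τ' := cv_ge
          have g1' : cv (V n) (W n) τ ≠ 0 := by linarith
          have g2' : cv (V n) (W n) τ' ≠ 0 := by linarith
          rw [div_eq_div_iff g1' g2'] at e1
          exact (mul_left_cancel₀ hm e1).symm
        have e3 : min (τ - V n) 0 + max (τ - W n) 0 = min (τ' - V n) 0 + max (τ' - W n) 0 := by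
          have e4 : f (cv (V n) (W n) τ) + min (τ - V n) 0 + max (τ - W n) 0 =
            f (cv (V n) (W n) τ') + min (τ' - V n) 0 + max (τ' - W n) 0 := e2
          rw [hvv] at e4
          linarith
        rw [hid τ, hid τ', hvv, e3]
    have : (s : ℝ) * (W n - V n + 2) = (s' : ℝ) * (W n - V n + 2) := by linarith
    exact Subtype.ext (mul_right_cancel₀ hpos.ne' this)
  · have hpos : 0 < W n - V n + 2 := by linarith
    refine ⟨⟨1 / (W n - V n + 2), by positivity, by
      rw [div_le_one hpos]; linarith⟩, ?_⟩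
    apply Subtype.ext
    rw [hp]
    show cur (V n) (W n) (V n - 1 + 1 / (W n - V n + 2) * (W n - V n + 2)) = (1 / V n, 0)
    rw [div_mul_cancel₀ _ hpos.ne']
    have e : V n - 1 + 1 = V n := by ring
    rw [e]
    unfold cur
    rw [cy_mid le_rfl hVW, cv_mid le_rfl hVW, h0, m_mid le_rfl zero_le_one]

/-- Partition index. -/
theorem exists_index {N : ℕ} (t : Fin (N + 1) → unitInterval) (h0 : t 0 = 0)
    (h1 : t (Fin.last N) = 1) (x : unitInterval) :
    ∃ i : Fin N, t i.castSucc ≤ x ∧ x ≤ t i.succ := by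
  by_contra hcon
  push Not at hcon
  have hlt : ∀ i : Fin (N + 1), i ≠ Fin.last N → t i ≤ x := by
    intro i
    induction i using Fin.induction with
    | zero => intro _; rw [h0]; exact x.2.1
    | succ i ih =>
      intro _
      have h2 := ih (by
        intro h
        have := congrArg Fin.val h
        simp at this
        omega)
      exact (hcon i h2).le
  have hN : N ≠ 0 := by
    rintro rfl
    rw [show (Fin.last 0) = 0 from rfl, h0] at h1
    exact zero_ne_one h1
  obtain ⟨M, rfl⟩ := Nat.exists_eq_succ_of_ne_zero hN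
  have h3 := hcon (Fin.last M) (hlt _ (by
    intro h
    have := congrArg Fin.val h
    simp at this))
  rw [Fin.succ_last, h1] at h3
  exact absurd h3 (not_lt.2 x.2.2)

theorem main : ¬ (∃ P : Set (Path a b),
          (∀ p ∈ P, Function.Injective ⇑p) ∧
          (∀ ε : ℝ, ε > 0 → ∃ n : ℕ, ∀ p ∈ P, ∃ t : Fin (n + 1) → unitInterval,
              t 0 = 0 ∧ t (Fin.last n) = 1 ∧ StrictMono t ∧
              ∀ i : Fin n, Metric.diam (⇑p '' Set.Icc (t i.castSucc) (t i.succ)) ≤ ε) ∧
          (⋃ p ∈ P, Set.range ⇑p) =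
            ⋃ (q : Path a b) (_ : Function.Injective ⇑q), Set.range ⇑q) := by
  rintro ⟨P, hPinj, hPu, hPcov⟩
  obtain ⟨N, hN⟩ := hPu (1 / 3) (by norm_num)
  have hn : 1 ≤ N + 2 := by omega
  obtain ⟨q, hqinj, hqx⟩ := long_arc hn
  have hmem : xn (N + 2) hn ∈ ⋃ p ∈ P, Set.range ⇑p := by
    rw [hPcov, Set.mem_iUnion₂]
    exact ⟨q, hqinj, hqx⟩
  rw [Set.mem_iUnion₂] at hmem
  obtain ⟨p, hp, s0, hs0⟩ := hmem
  obtain ⟨t, ht0, ht1, htm, htd⟩ := hN p hp
  have hpinj := hPinj p hp
  obtain ⟨T, hT, hTmono⟩ := crossing hn (fun s : ℝ => p (Set.projIcc 0 1 zero_le_one s))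
    (p.continuous.comp continuous_projIcc) (by simp) (by simp) (by
      intro s hs s' hs' hss
      have h1 := hpinj hss
      rw [Set.projIcc_of_mem _ hs, Set.projIcc_of_mem _ hs'] at h1
      exact congrArg Subtype.val h1) (s0 : ℝ) s0.2 (by
      show p (Set.projIcc 0 1 zero_le_one (s0 : ℝ)) = _
      rw [Set.projIcc_val]; exact hs0)
  -- the parameters
  set v : Fin (N + 1) → ℝ := fun k => 2 * ((((N + 2 : ℕ) : ℤ) ^ 2 + (k : ℕ) : ℤ) : ℝ) + 1 / 2 with hv
  set w : Fin (N + 1) → ℝ := fun k => 2 * ((((N + 2 : ℕ) : ℤ) ^ 2 + (k : ℕ) : ℤ) : ℝ) + 1 with hw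
  have hkN : ∀ k : Fin (N + 1), ((k : ℕ) : ℝ) ≤ N := by
    intro k
    have : (k : ℕ) ≤ N := by omega
    exact_mod_cast this
  have hvg : ∀ k, Good (N + 2) (v k) := by
    intro k
    refine ⟨?_, ?_, ?_⟩
    · simp only [hv, V]; push_cast
      nlinarith [(Nat.cast_nonneg (k : ℕ) : (0:ℝ) ≤ ((k : ℕ) : ℝ))]
    · simp only [hv, W]; push_cast
      nlinarith [hkN k]
    · rw [hv]; simp only; rw [f_half]; norm_num
  have hwg : ∀ k, Good (N + 2) (w k) := by
    intro k
    refine ⟨?_, ?_, ?_⟩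
    · simp only [hw, V]; push_cast
      nlinarith [(Nat.cast_nonneg (k : ℕ) : (0:ℝ) ≤ ((k : ℕ) : ℝ))]
    · simp only [hw, W]; push_cast
      nlinarith [hkN k]
    · rw [hw]; simp only; rw [f_odd]; norm_num
  have hfv : ∀ k, f (v k) = 1 / 2 := fun k => f_half _
  have hfw : ∀ k, f (w k) = 1 := fun k => f_odd _
  have hTv := fun k => hT (v k) (hvg k)
  have hTw := fun k => hT (w k) (hwg k)
  have hex : ∀ k : Fin (N + 1), ∃ i : Fin N, (t i.castSucc : ℝ) ≤ T (v k) ∧
      T (v k) ≤ (t i.succ : ℝ) := by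
    intro k
    obtain ⟨i, hi1, hi2⟩ := exists_index t ht0 ht1 ⟨T (v k), (hTv k).1⟩
    exact ⟨i, hi1, hi2⟩
  choose i hi1 hi2 using hex
  have hlate : ∀ k, (t (i k).succ : ℝ) < T (w k) := by
    intro k
    by_contra hcon
    push Not at hcon
    have hvw : T (v k) < T (w k) := hTmono _ _ (hvg k) (hwg k) (by simp only [hv, hw]; linarith)
    have hb : Bornology.IsBounded (⇑p '' Set.Icc (t (i k).castSucc) (t (i k).succ)) :=
      Metric.isBounded_of_compactSpace
    have h1 := Metric.dist_le_diam_of_mem hb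
      ⟨⟨T (v k), (hTv k).1⟩, ⟨hi1 k, hi2 k⟩, rfl⟩
      ⟨⟨T (w k), (hTw k).1⟩, ⟨(hi1 k).trans hvw.le, hcon⟩, rfl⟩
    have h2 := htd (i k)
    have e1 : (p ⟨T (v k), (hTv k).1⟩).1 = (1 / v k, f (v k)) := by
      have := (hTv k).2
      rwa [Set.projIcc_of_mem _ (hTv k).1] at this
    have e2 : (p ⟨T (w k), (hTw k).1⟩).1 = (1 / w k, f (w k)) := by
      have := (hTw k).2
      rwa [Set.projIcc_of_mem _ (hTw k).1] at this
    have h3 : (1:ℝ) / 2 ≤ dist (p ⟨T (v k), (hTv k).1⟩) (p ⟨T (w k), (hTw k).1⟩) := by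
      rw [Subtype.dist_eq, e1, e2, Prod.dist_eq]
      refine le_trans ?_ (le_max_right _ _)
      rw [hfv, hfw, Real.dist_eq]
      norm_num
    linarith
  have hmono : ∀ k k' : Fin (N + 1), k < k' → i k < i k' := by
    intro k k' hkk
    by_contra hcon
    push Not at hcon
    have h1 : T (w k) < T (v k') := hTmono _ _ (hwg k) (hvg k') (by
      simp only [hv, hw]
      have : ((k : ℕ) : ℝ) + 1 ≤ ((k' : ℕ) : ℝ) := by exact_mod_cast hkk
      push_cast
      linarith)
    have h2 : t (i k').succ ≤ t (i k).succ := htm.monotone (Fin.succ_le_succ_iff.2 hcon)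
    have h3 : (t (i k').succ : ℝ) ≤ (t (i k).succ : ℝ) := h2
    have h4 := hi2 k'
    have h5 := hlate k
    linarith
  have hinj : Function.Injective i := by
    have : StrictMono i := fun k k' h => hmono k k' h
    exact this.injective
  have := Fintype.card_le_of_injective i hinj
  simp at this

end

end Pool.Agent.X126.Kup
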