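import Pool.Agent.X126.AvDefs

set_option autoImplicit false

open Classical

namespace Pool.Agent.X126.Av

section Construction

variable {X : Type} [Fintype X] {M : ℕ} (F : ℕ → Finset X)

/-- arcs -/
def Ed : X ⊕ Option (Fin M) → X ⊕ Option (Fin M) → Prop
  | .inl _, .inl _ => False
  | .inl _, .inr none => True
  | .inl _, .inr (some _) => False
  | .inr none, _ => False
  | .inr (some s), .inl x => x ∈ F ((s : ℕ) + 1)
  | .inr (some _), .inr none => True
  | .inr (some s), .inr (some s') => (s' : ℕ) = (s : ℕ) + 1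

omit [Fintype X] in
theorem Ed_irrefl (v : X ⊕ Option (Fin M)) : ¬ Ed F v v := by
  rcases v with x | (_ | s) <;> simp [Ed]

omit [Fintype X] in
theorem Ed_conn : (SimpleGraph.fromRel (Ed (M := M) F)).Connected := by
  have h : ∀ v : X ⊕ Option (Fin M), (SimpleGraph.fromRel (Ed (M := M) F)).Reachable (.inr none) v := by
    intro v
    rcases v with x | (_ | s)
    · apply SimpleGraph.Adj.reachable
      rw [SimpleGraph.fromRel_adj]
      exact ⟨by simp, Or.inr trivial⟩
    · exact SimpleGraph.Reachable.refl _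
    · apply SimpleGraph.Adj.reachable
      rw [SimpleGraph.fromRel_adj]
      exact ⟨by simp, Or.inr trivial⟩
  exact { preconnected := fun x y => (h x).symm.trans (h y), nonempty := ⟨.inr none⟩ }

omit [Fintype X] in
theorem outdeg_inl (x : X) : outdeg (Ed (M := M) F) (.inl x) = 1 := by
  have : {w | Ed (M := M) F (.inl x) w} = {.inr none} := by
    ext w
    rcases w with x | (_ | s) <;> simp [Ed]
  unfold outdeg
  rw [this, Set.ncard_singleton]

omit [Fintype X] in
theorem outdeg_sink : outdeg (Ed (M := M) F) (.inr none) = 0 := by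
  have : {w | Ed (M := M) F (.inr none) w} = ∅ := by
    ext w
    rcases w with x | (_ | s) <;> simp [Ed]
  unfold outdeg
  rw [this, Set.ncard_empty]

theorem outdeg_clock (s : Fin M) : 0 < outdeg (Ed (M := M) F) (.inr (some s)) := by
  unfold outdeg
  rw [Set.ncard_pos]
  exact ⟨.inr none, trivial⟩

/-- initial configuration -/
noncomputable def c0 : X ⊕ Option (Fin M) → ℕ
  | .inl x => if x ∈ F 0 then 1 else 0
  | .inr none => 0
  | .inr (some s) => if (s : ℕ) = 0 then outdeg (Ed (M := M) F) (.inr (some s)) else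
      outdeg (Ed (M := M) F) (.inr (some s)) - 1

/-- the invariant -/
def Inv (t : ℕ) (c : X ⊕ Option (Fin M) → ℕ) : Prop :=
  (∀ x, c (.inl x) = if x ∈ F t then 1 else 0) ∧
  ∀ s : Fin M, c (.inr (some s)) = if (s : ℕ) < t then 0 else
    if (s : ℕ) = t then outdeg (Ed (M := M) F) (.inr (some s)) else
      outdeg (Ed (M := M) F) (.inr (some s)) - 1

/-- the firing set at time `t` -/
def Fs (t : ℕ) : Set (X ⊕ Option (Fin M)) :=
  {v | (∃ x ∈ F t, v = .inl x) ∨ ∃ s : Fin M, (s : ℕ) = t ∧ v = .inr (some s)}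

theorem fire_of_inv {t : ℕ} {c : X ⊕ Option (Fin M) → ℕ} (h : Inv F t c) :
    fire (Ed (M := M) F) c = Fs F t := by
  ext v
  rcases v with x | (_ | s)
  · simp only [fire, Set.mem_ofPred_eq, outdeg_inl, h.1, Fs]
    by_cases hx : x ∈ F t <;> simp [hx]
  · simp only [fire, Set.mem_ofPred_eq, outdeg_sink, Fs]
    simp
  · have h0 := outdeg_clock F s
    simp only [fire, Set.mem_ofPred_eq, h.2, Fs]
    rcases lt_trichotomy (s : ℕ) t with h1 | h1 | h1
    · simp [h1, h1.ne]; omega
    · simp [h1, h0]
    · have h2 : ¬ (s : ℕ) < t := by omega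
      have h3 : ¬ (s : ℕ) = t := by omega
      simp [h2, h3]

theorem inv_zero : Inv (M := M) F 0 (c0 F) := by
  constructor
  · intro x; rfl
  · intro s
    simp [c0]

theorem inv_succ (hF : ∀ t, M ≤ t → F t = ∅) {t : ℕ} {c : X ⊕ Option (Fin M) → ℕ}
    (h : Inv F t c) : Inv F (t + 1) (step (Ed (M := M) F) c) := by
  have hf := fire_of_inv F h
  constructor
  · intro x
    unfold step
    rw [hf, outdeg_inl, h.1]
    have h1 : {u | u ∈ Fs (M := M) F t ∧ Ed F u (.inl x)} =
        if h : t < M then (if x ∈ F (t + 1) then {.inr (some ⟨t, h⟩)} else ∅) else ∅ := by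
      ext u
      split_ifs with h2 h3
      · simp only [Set.mem_singleton_iff]
        constructor
        · rintro ⟨⟨y, hy, rfl⟩ | ⟨s, hs, rfl⟩, h4⟩
          · simp [Ed] at h4
          · congr 2; exact Fin.ext hs
        · rintro rfl
          exact ⟨Or.inr ⟨⟨t, h2⟩, rfl, rfl⟩, h3⟩
      · simp only [Set.mem_empty_iff_false, iff_false]
        rintro ⟨⟨y, hy, rfl⟩ | ⟨s, hs, rfl⟩, h4⟩
        · simp [Ed] at h4
        · apply h3
          rw [← hs]; exact h4
      · simp only [Set.mem_empty_iff_false, iff_false]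
        rintro ⟨⟨y, hy, rfl⟩ | ⟨s, hs, rfl⟩, h4⟩
        · simp [Ed] at h4
        · omega
    rw [h1]
    have h5 : (.inl x ∈ Fs (M := M) F t) ↔ x ∈ F t := by simp [Fs]
    by_cases h2 : t < M
    · rw [dif_pos h2]
      by_cases h3 : x ∈ F (t + 1) <;> by_cases h4 : x ∈ F t <;> simp [h3, h4, h5]
    · rw [dif_neg h2]
      have h6 : F t = ∅ := hF t (by omega)
      have h7 : F (t + 1) = ∅ := hF (t + 1) (by omega)
      simp [h6, h7]
  · intro s
    unfold step
    rw [hf, h.2]
    have h0 := outdeg_clock F s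
    have h1 : {u | u ∈ Fs (M := M) F t ∧ Ed F u (.inr (some s))} =
        if h : (s : ℕ) = t + 1 then {.inr (some ⟨t, by omega⟩)} else ∅ := by
      ext u
      split_ifs with h2
      · simp only [Set.mem_singleton_iff]
        constructor
        · rintro ⟨⟨y, hy, rfl⟩ | ⟨s', hs, rfl⟩, h4⟩
          · simp [Ed] at h4
          · congr 2; exact Fin.ext hs
        · rintro rfl
          exact ⟨Or.inr ⟨_, rfl, rfl⟩, h2⟩
      · simp only [Set.mem_empty_iff_false, iff_false]
        rintro ⟨⟨y, hy, rfl⟩ | ⟨s', hs, rfl⟩, h4⟩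
        · simp [Ed] at h4
        · apply h2
          rw [← hs]; exact h4
    rw [h1]
    have h5 : (.inr (some s) ∈ Fs (M := M) F t) ↔ (s : ℕ) = t := by simp [Fs]
    rcases lt_trichotomy (s : ℕ) t with h3 | h3 | h3
    · have a1 : ¬ (s : ℕ) = t := by omega
      have a2 : ¬ (s : ℕ) = t + 1 := by omega
      have a3 : (s : ℕ) < t + 1 := by omega
      simp [h3, a1, a2, a3]
    · have a2 : ¬ (s : ℕ) = t + 1 := by omega
      have a3 : (s : ℕ) < t + 1 := by omega
      have a4 : ¬ (s : ℕ) < t := by omega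
      simp only [h5, h3, if_true, lt_irrefl, if_false]
      simp
    · have a1 : ¬ (s : ℕ) = t := by omega
      have a4 : ¬ (s : ℕ) < t := by omega
      have a5 : ¬ (s : ℕ) < t + 1 := by omega
      by_cases a2 : (s : ℕ) = t + 1
      · simp only [h5, a1, a4, a5, a2, if_true, if_false, dif_pos, Set.ncard_singleton]
        simp
        omega
      · simp [h5, a1, a4, a5, a2]

theorem fire_config (hF : ∀ t, M ≤ t → F t = ∅) (t : ℕ) :
    fire (Ed (M := M) F) (config (Ed (M := M) F) (c0 F) t) = Fs F t := by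
  have h : Inv (M := M) F t (config (Ed (M := M) F) (c0 F) t) := by
    induction t with
    | zero => exact inv_zero F
    | succ t ih => exact inv_succ F hF ih
  exact fire_of_inv F h

/-- the geometric realisation of the complex with facets `F t` -/
def KX : Set (X → ℝ) := {y | y ∈ stdSimplex ℝ X ∧ ∃ t, t < M ∧ ∀ x, y x ≠ 0 → x ∈ F t}

theorem mem_real (hF : ∀ t, M ≤ t → F t = ∅) (z : X ⊕ Option (Fin M) → ℝ) :
    z ∈ realization (avalanche (Ed (M := M) F) (c0 F)) ↔
    z ∈ stdSimplex ℝ (X ⊕ Option (Fin M)) ∧ ∃ t, t < M ∧ ∀ v, z v ≠ 0 → v ∈ Fs F t := by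
  constructor
  · rintro ⟨h1, h2, t, ht⟩
    refine ⟨h1, t, ?_, ?_⟩
    · by_contra hcon
      obtain ⟨v, hv⟩ := h2
      have h3 := ht hv
      rw [fire_config F hF] at h3
      rcases h3 with ⟨x, hx, -⟩ | ⟨s, hs, -⟩
      · rw [hF t (by omega)] at hx
        simp at hx
      · have := s.2; omega
    · intro v hv
      rw [← fire_config F hF]
      exact ht (by simp [hv])
  · rintro ⟨h1, t, -, ht⟩
    refine ⟨h1, ?_, t, ?_⟩
    · by_contra hcon
      rw [Finset.not_nonempty_iff_eq_empty, Finset.filter_eq_empty_iff] at hcon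
      have h3 := h1.2
      rw [Finset.sum_eq_zero (fun v hv => by simpa using hcon hv)] at h3
      exact zero_ne_one h3
    · intro v hv
      rw [fire_config F hF]
      exact ht v (by simpa using hv)

variable (p : Fin M → X)

/-- inclusion -/
def inc (y : X → ℝ) : X ⊕ Option (Fin M) → ℝ
  | .inl x => y x
  | .inr _ => 0

/-- retraction -/
noncomputable def ret (z : X ⊕ Option (Fin M) → ℝ) : X → ℝ := fun x =>
  z (.inl x) + ∑ s : Fin M, if p s = x then z (.inr (some s)) else 0

theorem inc_mem (hF : ∀ t, M ≤ t → F t = ∅) {y : X → ℝ} (hy : y ∈ KX (M := M) F) :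
    inc (M := M) y ∈ realization (avalanche (Ed (M := M) F) (c0 F)) := by
  rw [mem_real F hF]
  obtain ⟨⟨h1, h2⟩, t, ht, h3⟩ := hy
  refine ⟨⟨?_, ?_⟩, t, ht, ?_⟩
  · rintro (x | o)
    · exact h1 x
    · exact le_rfl
  · rw [Fintype.sum_sum_type]
    simp only [inc, Finset.sum_const_zero, add_zero]
    exact h2
  · rintro (x | o) hv
    · exact Or.inl ⟨x, h3 x hv, rfl⟩
    · exact absurd rfl hv

theorem ret_mem (hF : ∀ t, M ≤ t → F t = ∅) (hp : ∀ s : Fin M, p s ∈ F s)
    {z : X ⊕ Option (Fin M) → ℝ}
    (hz : z ∈ realization (avalanche (Ed (M := M) F) (c0 F))) : 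
    ret p z ∈ KX (M := M) F ∧ ∀ t, t < M → (∀ v, z v ≠ 0 → v ∈ Fs (M := M) F t) →
      ∀ x, ret p z x ≠ 0 → x ∈ F t := by
  rw [mem_real F hF] at hz
  obtain ⟨⟨h1, h2⟩, t, ht, h3⟩ := hz
  have key : ∀ t, t < M → (∀ v, z v ≠ 0 → v ∈ Fs (M := M) F t) →
      ∀ x, ret p z x ≠ 0 → x ∈ F t := by
    intro t ht h3 x hx
    by_contra hxF
    apply hx
    have h4 : z (.inl x) = 0 := by
      by_contra hne
      rcases h3 _ hne with ⟨x', hx', he⟩ | ⟨s, -, he⟩
      · rw [Sum.inl.injEq] at he
        exact hxF (he ▸ hx')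
      · simp at he
    unfold ret
    rw [h4, zero_add]
    refine Finset.sum_eq_zero fun s _ => ?_
    split_ifs with h5
    · by_contra hne
      rcases h3 _ hne with ⟨x', hx', he⟩ | ⟨s', hs', he⟩
      · simp at he
      · simp only [Sum.inr.injEq, Option.some.injEq] at he
        apply hxF
        rw [← h5, ← hs', ← he]
        exact hp s
    · rfl
  refine ⟨⟨⟨?_, ?_⟩, t, ht, key t ht h3⟩, key⟩
  · intro x
    unfold ret
    refine add_nonneg (h1 _) (Finset.sum_nonneg fun s _ => ?_)
    split_ifs
    · exact h1 _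
    · exact le_rfl
  · unfold ret
    rw [Finset.sum_add_distrib, Finset.sum_comm]
    have h4 : ∀ s : Fin M, ∑ x : X, (if p s = x then z (.inr (some s)) else 0) =
        z (.inr (some s)) := by
      intro s
      rw [Finset.sum_ite_eq]
      simp
    rw [Finset.sum_congr rfl (fun s _ => h4 s)]
    rw [Fintype.sum_sum_type, Fintype.sum_option] at h2
    have h5 : z (.inr none) = 0 := by
      by_contra hne
      rcases h3 _ hne with ⟨x', hx', he⟩ | ⟨s', hs', he⟩
      · simp at he
      · simp at he
    rw [h5, zero_add] at h2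
    exact h2

theorem ret_inc (y : X → ℝ) : ret p (inc (M := M) y) = y := by
  funext x
  unfold ret
  simp [inc]

theorem inc_cont : Continuous (inc (X := X) (M := M)) := by
  refine continuous_pi fun v => ?_
  rcases v with x | o
  · exact continuous_apply x
  · exact continuous_const

theorem ret_cont : Continuous (ret p) := by
  refine continuous_pi fun x => ?_
  unfold ret
  refine (continuous_apply _).add (continuous_finset_sum _ fun s _ => ?_)
  split_ifs
  · exact continuous_apply _
  · exact continuous_const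

/-- The realisation of the avalanche complex is homotopy equivalent to `KX`. -/
theorem hequiv (hF : ∀ t, M ≤ t → F t = ∅) (hp : ∀ s : Fin M, p s ∈ F s) :
    Nonempty (ContinuousMap.HomotopyEquiv (KX (M := M) F)
      (realization (avalanche (Ed (M := M) F) (c0 F)))) := by
  set f : C(KX (M := M) F, realization (avalanche (Ed (M := M) F) (c0 F))) :=
    ⟨fun y => ⟨inc y.1, inc_mem F hF y.2⟩, (inc_cont.comp continuous_subtype_val).subtype_mk _⟩ with hf
  set g : C(realization (avalanche (Ed (M := M) F) (c0 F)), KX (M := M) F) :=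
    ⟨fun z => ⟨ret p z.1, (ret_mem F p hF hp z.2).1⟩,
      ((ret_cont p).comp continuous_subtype_val).subtype_mk _⟩ with hg
  refine ⟨⟨f, g, ?_, ?_⟩⟩
  · have : g.comp f = ContinuousMap.id _ := by
      ext y x
      exact congrFun (ret_inc p y.1) x
    rw [this]
  · have hmem : ∀ q : unitInterval × realization (avalanche (Ed (M := M) F) (c0 F)),
        (1 - (q.1 : ℝ)) • inc (M := M) (ret p q.2.1) + (q.1 : ℝ) • q.2.1 ∈
          realization (avalanche (Ed (M := M) F) (c0 F)) := by
      rintro ⟨s, z, hz⟩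
      have hr := ret_mem F p hF hp hz
      have hi := inc_mem F hF hr.1
      have hz' := hz
      rw [mem_real F hF] at hz hi ⊢
      obtain ⟨h1, t, ht, h2⟩ := hz
      refine ⟨?_, t, ht, ?_⟩
      · exact (convex_stdSimplex ℝ _) hi.1 h1 (by linarith [s.2.2]) s.2.1 (by ring)
      · intro v hv
        by_contra hcon
        have e1 : z v = 0 := by
          by_contra hne; exact hcon (h2 v hne)
        have e2 : inc (M := M) (ret p z) v = 0 := by
          rcases v with x | o
          · by_contra hne
            exact hcon (Or.inl ⟨x, hr.2 t ht h2 x hne, rfl⟩)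
          · rfl
        apply hv
        simp [e1, e2]
    refine ⟨⟨⟨fun q => ⟨_, hmem q⟩, ?_⟩, ?_, ?_⟩⟩
    · refine Continuous.subtype_mk ?_ _
      refine Continuous.add ?_ ?_
      · exact (continuous_const.sub (continuous_subtype_val.comp continuous_fst)).smul
          (inc_cont.comp ((ret_cont p).comp (continuous_subtype_val.comp continuous_snd)))
      · exact (continuous_subtype_val.comp continuous_fst).smul
          (continuous_subtype_val.comp continuous_snd)
    · intro z
      apply Subtype.ext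
      simp [hf, hg]
    · intro z
      apply Subtype.ext
      simp

end Construction

end Pool.Agent.X126.Av
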