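import Mathlib

set_option autoImplicit false

open Classical

namespace Pool.Agent.X126.Av

/-- Out-degree of a vertex of the digraph with arcs `E`. -/
noncomputable def outdeg {V : Type} (E : V → V → Prop) (v : V) : ℕ := Set.ncard {w | E v w}

/-- Firing set of a configuration: the non-sink vertices `v` with at least `d⁺(v)` grains. -/
def fire {V : Type} (E : V → V → Prop) (c : V → ℕ) : Set V :=
  {v | 0 < outdeg E v ∧ outdeg E v ≤ c v}

/-- One step of parallel firing: each firing vertex sends one grain along each outgoing arc. -/
noncomputable def step {V : Type} (E : V → V → Prop) (c : V → ℕ) : V → ℕ := fun v =>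
  c v - (if v ∈ fire E c then outdeg E v else 0) + Set.ncard {u | u ∈ fire E c ∧ E u v}

/-- The configuration at time `t`, starting from `c₀`. -/
noncomputable def config {V : Type} (E : V → V → Prop) (c₀ : V → ℕ) : ℕ → V → ℕ
  | 0 => c₀
  | t + 1 => step E (config E c₀ t)

/-- The avalanche complex, as a set of simplices: the nonempty subsets of the firing sets. -/
def avalanche {V : Type} (E : V → V → Prop) (c₀ : V → ℕ) : Set (Finset V) :=
  {s | s.Nonempty ∧ ∃ t, (s : Set V) ⊆ fire E (config E c₀ t)}

/-- Geometric realisation of a simplicial complex on a finite vertex set: the points of the standard simplex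
(barycentric coordinates) whose support is a simplex. -/
def realization {V : Type} [Fintype V] (K : Set (Finset V)) : Set (V → ℝ) :=
  {x | x ∈ stdSimplex ℝ V ∧ (Finset.univ.filter fun v => x v ≠ 0) ∈ K}

/-- The unit sphere `Sⁿ` of `ℝⁿ⁺¹`. -/
abbrev Sph (n : ℕ) : Type := Metric.sphere (0 : EuclideanSpace ℝ (Fin (n + 1))) 1

/-- The base point of the sphere. -/
noncomputable def base (n : ℕ) : Sph n :=
  ⟨EuclideanSpace.single 0 1, by simp⟩

/-- Identification of the base points of all spheres with one extra point. -/
inductive WRel {m : ℕ} (d : Fin m → ℕ) : (Unit ⊕ Σ i, Sph (d i)) → (Unit ⊕ Σ i, Sph (d i)) → Prop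
  | glue (i : Fin m) : WRel d (.inl ()) (.inr ⟨i, base (d i)⟩)

/-- The wedge of the spheres `S^(d i)`, `i < m` (a point when `m = 0`): the quotient of the disjoint union of a
point and the spheres in which the point and all base points are identified. -/
def Wedge {m : ℕ} (d : Fin m → ℕ) : Type := Quot (WRel d)

/-- The quotient topology. -/
instance {m : ℕ} (d : Fin m → ℕ) : TopologicalSpace (Wedge d) :=
  inferInstanceAs (TopologicalSpace (Quot (WRel d)))

end Pool.Agent.X126.Av
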