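import Pool.Agent.X126.IsoDefs

set_option autoImplicit false

open Topology

namespace Pool.Agent.X126.Iso

variable {d : ℕ}

def Agree (n : ℕ) (x y : Cfg d) : Prop := ∀ u, nrm u ≤ n → x u = y u

theorem nrm_add (u v : G d) : nrm (u + v) ≤ nrm u + nrm v := by
  unfold nrm
  refine Finset.sup_le fun i _ => ?_
  refine (Int.natAbs_add_le _ _).trans (add_le_add ?_ ?_)
  · exact Finset.le_sup (f := fun i => (u i).natAbs) (Finset.mem_univ i)
  · exact Finset.le_sup (f := fun i => (v i).natAbs) (Finset.mem_univ i)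

theorem le_nrm (u : G d) (i : Fin d) : (u i).natAbs ≤ nrm u :=
  Finset.le_sup (f := fun i => (u i).natAbs) (Finset.mem_univ i)

theorem nrm_zero : nrm (0 : G d) = 0 := by
  unfold nrm; simp

theorem finite_nrm (n : ℕ) : {u : G d | nrm u ≤ n}.Finite := by
  refine Set.Finite.subset (Set.finite_Icc (fun _ => -(n : ℤ)) (fun _ => (n : ℤ))) ?_
  intro u hu
  have h : ∀ i, (u i).natAbs ≤ n := fun i => (le_nrm u i).trans hu
  constructor
  · intro i; have := h i; show -(n : ℤ) ≤ u i; omega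
  · intro i; have := h i; show u i ≤ (n : ℤ); omega

theorem δ_le {n : ℕ} {x y : Cfg d} (h : Agree n x y) : δ x y ≤ (1 / 2) ^ (n + 1) := by
  unfold δ
  split_ifs with hxy
  · positivity
  · have hne : {k : ℕ | ∃ u, nrm u = k ∧ x u ≠ y u}.Nonempty := by
      obtain ⟨u, hu⟩ := Function.ne_iff.1 hxy
      exact ⟨nrm u, u, rfl, hu⟩
    obtain ⟨u, hu1, hu2⟩ := Nat.sInf_mem hne
    refine pow_le_pow_of_le_one (by norm_num) (by norm_num) ?_
    by_contra hcon
    exact hu2 (h u (by omega))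

theorem δ_nonneg (x y : Cfg d) : 0 ≤ δ x y := by
  unfold δ; split_ifs <;> positivity

theorem hausdorff_le {n : ℕ} {X Z : Set (Cfg d)} (hX : X.Nonempty) (hZ : Z.Nonempty)
    (h1 : ∀ x ∈ X, ∃ z ∈ Z, Agree n x z) (h2 : ∀ z ∈ Z, ∃ x ∈ X, Agree n x z) :
    hausdorff X Z ≤ (1 / 2) ^ (n + 1) := by
  unfold hausdorff
  refine max_le ?_ ?_
  · refine csSup_le (hX.image _) ?_
    rintro _ ⟨x, hx, rfl⟩
    obtain ⟨z, hz, hxz⟩ := h1 x hx
    have hb : BddBelow ((fun z => δ x z) '' Z) := by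
      refine ⟨0, ?_⟩
      rintro _ ⟨z, -, rfl⟩
      exact δ_nonneg _ _
    exact (csInf_le hb ⟨z, hz, rfl⟩).trans (δ_le hxz)
  · refine csSup_le (hZ.image _) ?_
    rintro _ ⟨z, hz, rfl⟩
    obtain ⟨x, hx, hxz⟩ := h2 z hz
    have hb : BddBelow ((fun x => δ x z) '' X) := by
      refine ⟨0, ?_⟩
      rintro _ ⟨x, -, rfl⟩
      exact δ_nonneg _ _
    exact (csInf_le hb ⟨x, hx, rfl⟩).trans (δ_le hxz)

theorem mem_closure_iff' (S : Set (Cfg d)) (z : Cfg d) :
    z ∈ closure S ↔ ∀ n, ∃ s ∈ S, Agree n z s := by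
  rw [mem_closure_iff]
  constructor
  · intro h n
    have hopen : IsOpen {w : Cfg d | Agree n z w} := by
      have : {w : Cfg d | Agree n z w} = ⋂ u ∈ {u : G d | nrm u ≤ n}, {w : Cfg d | w u = z u} := by
        ext w
        simp only [Agree, Set.mem_ofPred_eq, Set.mem_iInter]
        constructor
        · intro h u hu; exact (h u hu).symm
        · intro h u hu; exact (h u hu).symm
      rw [this]
      refine (finite_nrm n).isOpen_biInter fun u _ => ?_
      have h1 : IsOpen ((fun w : Cfg d => w u) ⁻¹' ({z u} : Set ℤ)) :=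
        (isOpen_discrete ({z u} : Set ℤ)).preimage (continuous_apply u)
      exact h1
    obtain ⟨w, hw1, hw2⟩ := h _ hopen (fun u _ => rfl)
    exact ⟨w, hw2, hw1⟩
  · intro h U hU hz
    rw [isOpen_pi_iff] at hU
    obtain ⟨I, V, hV, hsub⟩ := hU z hz
    obtain ⟨s, hs, hag⟩ := h (I.sup nrm)
    refine ⟨s, hsub ?_, hs⟩
    intro i hi
    rw [← hag i (Finset.le_sup (f := nrm) hi)]
    exact (hV i hi).2

/-- orbit closure -/
def Orb (y : Cfg d) : Set (Cfg d) := closure (Set.range fun u => sh u y)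

theorem sh_cont (u : G d) : Continuous (sh u : Cfg d → Cfg d) :=
  continuous_pi fun v => continuous_apply (u + v)

theorem sh_sh (u v : G d) (x : Cfg d) : sh u (sh v x) = sh (v + u) x := by
  funext w; simp only [sh]; rw [add_assoc]

theorem sh_zero (x : Cfg d) : sh 0 x = x := by
  funext w; simp [sh]

theorem orb_shift (y : Cfg d) (A : Finset ℤ) (hA : ∀ u, y u ∈ A) : IsShift (Orb y) := by
  have halph : ∀ x ∈ Orb y, ∀ u, x u ∈ A := by
    intro x hx u
    obtain ⟨s, ⟨v, rfl⟩, hs⟩ := (mem_closure_iff' _ _).1 hx (nrm u)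
    rw [hs u le_rfl]
    exact hA _
  refine ⟨⟨A, halph⟩, ?_, ?_⟩
  · refine IsCompact.of_isClosed_subset (isCompact_univ_pi fun _ : G d => (A.finite_toSet.isCompact))
      isClosed_closure ?_
    intro x hx u _
    exact halph x hx u
  · intro u x hx
    refine map_mem_closure (sh_cont u) hx ?_
    rintro _ ⟨v, rfl⟩
    exact ⟨v + u, (sh_sh u v y).symm⟩

theorem orb_trans (y : Cfg d) : Transitive (Orb y) :=
  ⟨y, subset_closure ⟨0, sh_zero y⟩, subset_rfl⟩

/-- windows appear in `X` -/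
def Adm (X : Set (Cfg d)) (m : ℕ) (y : Cfg d) : Prop := ∀ v, ∃ x ∈ X, ∀ u, nrm u ≤ m → y (v + u) = x u

theorem iso_window {X : Set (Cfg d)} (h : Isolated X) :
    ∃ m, ∀ y : Cfg d, Adm X m y → (∀ x ∈ X, ∃ v, ∀ u, nrm u ≤ m → y (v + u) = x u) → Orb y = X := by
  obtain ⟨⟨⟨⟨A, hA⟩, hc, hinv⟩, x0, hx0, -⟩, ε, hε, hiso⟩ := h
  obtain ⟨m, hm⟩ := exists_pow_lt_of_lt_one hε (by norm_num : (1 / 2 : ℝ) < 1)
  refine ⟨m, fun y hy hy2 => ?_⟩
  have hyA : ∀ u, y u ∈ A := by
    intro u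
    obtain ⟨x, hx, h⟩ := hy u
    have := h 0 (by rw [nrm_zero]; omega)
    rw [add_zero] at this
    rw [this]; exact hA x hx 0
  refine hiso _ (orb_shift y A hyA) (orb_trans y) ?_
  have h1 : hausdorff X (Orb y) ≤ (1 / 2) ^ (m + 1) := by
    refine hausdorff_le ⟨x0, hx0⟩ ⟨y, subset_closure ⟨0, sh_zero y⟩⟩ ?_ ?_
    · intro x hx
      obtain ⟨v, hv⟩ := hy2 x hx
      exact ⟨sh v y, subset_closure ⟨v, rfl⟩, fun u hu => (hv u hu).symm⟩
    · intro z hz
      obtain ⟨s, ⟨v, rfl⟩, hs⟩ := (mem_closure_iff' _ _).1 hz m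
      obtain ⟨x, hx, hxv⟩ := hy v
      exact ⟨x, hx, fun u hu => by rw [hs u hu, ← hxv u hu]; rfl⟩
  refine h1.trans_lt (lt_of_le_of_lt ?_ hm)
  exact pow_le_pow_of_le_one (by norm_num) (by norm_num) (Nat.le_succ m)

/-- lexicographic comparison -/
def Less (y' y : Cfg d) : Prop := ∃ v0 : G d, y' v0 < y v0 ∧ ∀ v, toLex v < toLex v0 → y' v = y v

theorem less_irrefl (y : Cfg d) : ¬ Less y y := by
  rintro ⟨v0, h, -⟩
  exact lt_irrefl _ h

theorem less_trans {a b c : Cfg d} (h1 : Less a b) (h2 : Less b c) : Less a c := by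
  obtain ⟨v1, h1, h1'⟩ := h1
  obtain ⟨v2, h2, h2'⟩ := h2
  rcases lt_trichotomy (toLex v1) (toLex v2) with h | h | h
  · refine ⟨v1, by rw [← h2' v1 h]; exact h1, fun v hv => ?_⟩
    rw [h1' v hv, h2' v (hv.trans h)]
  · have : v1 = v2 := toLex.injective h
    subst this
    exact ⟨v1, h1.trans h2, fun v hv => by rw [h1' v hv, h2' v hv]⟩
  · refine ⟨v2, by rw [h1' v2 h]; exact h2, fun v hv => ?_⟩
    rw [h1' v (hv.trans h), h2' v hv]

/-- the constrained set -/
def KK (X : Set (Cfg d)) (m : ℕ) (W : Set (G d)) (x0 : Cfg d) : Set (Cfg d) :=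
  {y | Adm X m y ∧ ∀ w ∈ W, y w = x0 w}

/-- unimprovable inside box `n` -/
def SS (X : Set (Cfg d)) (m : ℕ) (W : Set (G d)) (x0 : Cfg d) (n : ℕ) : Set (Cfg d) :=
  {y | y ∈ KK X m W x0 ∧ ∀ y' ∈ KK X m W x0, (∀ u, n < nrm u → y' u = y u) → ¬ Less y' y}

variable {X : Set (Cfg d)} {m : ℕ} {W : Set (G d)} {x0 : Cfg d}

theorem KK_closed : IsClosed (KK X m W x0) := by
  refine isClosed_of_closure_subset fun y hy => ?_
  rw [mem_closure_iff'] at hy
  refine ⟨fun v => ?_, fun w hw => ?_⟩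
  · obtain ⟨s, hs, hag⟩ := hy (nrm v + m)
    obtain ⟨x, hx, h⟩ := hs.1 v
    refine ⟨x, hx, fun u hu => ?_⟩
    rw [← h u hu]
    exact hag _ ((nrm_add v u).trans (by omega))
  · obtain ⟨s, hs, hag⟩ := hy (nrm w)
    rw [hag w le_rfl]
    exact hs.2 w hw

theorem SS_closed (n : ℕ) : IsClosed (SS X m W x0 n) := by
  refine isClosed_of_closure_subset fun y hy => ?_
  have hyK : y ∈ KK X m W x0 := by
    have : closure (SS X m W x0 n) ⊆ KK X m W x0 :=
      closure_minimal (fun z hz => hz.1) KK_closed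
    exact this hy
  refine ⟨hyK, fun y' hy' hmod hless => ?_⟩
  obtain ⟨v0, hv0, hv0'⟩ := hless
  have hv0n : nrm v0 ≤ n := by
    by_contra hcon
    rw [hmod v0 (by omega)] at hv0
    exact lt_irrefl _ hv0
  obtain ⟨s, hs, hag⟩ := (mem_closure_iff' _ _).1 hy (n + 2 * m)
  set z : Cfg d := fun u => if nrm u ≤ n then y' u else s u with hz
  have hzK : z ∈ KK X m W x0 := by
    refine ⟨fun v => ?_, fun w hw => ?_⟩
    · by_cases hc : ∀ u, nrm u ≤ m → nrm (v + u) ≤ n + 2 * m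
      · obtain ⟨x, hx, h⟩ := hy'.1 v
        refine ⟨x, hx, fun u hu => ?_⟩
        rw [← h u hu]
        simp only [hz]
        split_ifs with h1
        · rfl
        · rw [← hag _ (hc u hu), hmod _ (by omega)]
      · push Not at hc
        obtain ⟨u1, hu1, hu1'⟩ := hc
        obtain ⟨x, hx, h⟩ := hs.1.1 v
        refine ⟨x, hx, fun u hu => ?_⟩
        rw [← h u hu]
        simp only [hz]
        rw [if_neg]
        have e : v + u1 = (v + u) + (u1 + -u) := by abel
        have h1 : nrm (-u) ≤ m := by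
          have : nrm (-u) = nrm u := by unfold nrm; simp
          rw [this]; exact hu
        have h2 := nrm_add (v + u) (u1 + -u)
        have h3 := nrm_add u1 (-u)
        rw [← e] at h2
        omega
    · simp only [hz]
      split_ifs
      · exact hy'.2 w hw
      · exact hs.1.2 w hw
  refine hs.2 z hzK (fun u hu => by simp only [hz]; rw [if_neg (by omega)]) ⟨v0, ?_, fun v hv => ?_⟩
  · simp only [hz]
    rw [if_pos hv0n, ← hag v0 (by omega)]
    exact hv0
  · simp only [hz]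
    split_ifs with h1
    · rw [hv0' v hv, hag v (by omega)]
    · rfl

theorem SS_nonempty (A : Finset ℤ) (hA : ∀ x ∈ X, ∀ u, x u ∈ A) (hx0 : x0 ∈ KK X m W x0) (n : ℕ) :
    (SS X m W x0 n).Nonempty := by
  classical
  have hKA : ∀ y ∈ KK X m W x0, ∀ u, y u ∈ A := by
    intro y hy u
    obtain ⟨x, hx, h⟩ := hy.1 u
    have := h 0 (by rw [nrm_zero]; omega)
    rw [add_zero] at this
    rw [this]; exact hA x hx 0
  set F : Set (Cfg d) := {y | y ∈ KK X m W x0 ∧ ∀ u, n < nrm u → y u = x0 u} with hF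
  have hfin : F.Finite := by
    have hbox := finite_nrm (d := d) n
    have : Fintype {u : G d | nrm u ≤ n} := hbox.fintype
    refine Set.Finite.of_injOn (f := fun y : Cfg d => fun u : {u : G d | nrm u ≤ n} => y u)
      (t := Set.pi Set.univ fun _ => (A : Set ℤ)) ?_ ?_ (Set.Finite.pi fun _ => A.finite_toSet)
    · intro y hy u _
      exact hKA y hy.1 _
    · intro y hy y' hy' h
      funext u
      by_cases hu : nrm u ≤ n
      · exact congrFun h ⟨u, hu⟩
      · rw [hy.2 u (by omega), hy'.2 u (by omega)]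
  have : Finite F := hfin.to_subtype
  let r : F → F → Prop := fun a b => Less a.1 b.1
  have hir : Std.Irrefl r := ⟨fun a => less_irrefl a.1⟩
  have htr : IsTrans F r := ⟨fun a b c => less_trans⟩
  have hwf : WellFounded r := Finite.wellFounded_of_trans_of_irrefl r
  obtain ⟨y, -, hy⟩ := hwf.has_min Set.univ ⟨⟨x0, hx0, fun _ _ => rfl⟩, trivial⟩
  refine ⟨y.1, y.2.1, fun y' hy' hmod hless => ?_⟩
  exact hy ⟨y', hy', fun u hu => by rw [hmod u hu]; exact y.2.2 u hu⟩ trivial hless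

theorem exists_min (A : Finset ℤ) (hA : ∀ x ∈ X, ∀ u, x u ∈ A) (hx0 : x0 ∈ KK X m W x0) :
    ∃ y, ∀ n, y ∈ SS X m W x0 n := by
  have hcomp : IsCompact (SS X m W x0 0) := by
    refine IsCompact.of_isClosed_subset (isCompact_univ_pi fun _ : G d => (A.finite_toSet.isCompact))
      (SS_closed 0) ?_
    intro y hy u _
    obtain ⟨x, hx, h⟩ := hy.1.1 u
    have := h 0 (by rw [nrm_zero]; omega)
    rw [add_zero] at this
    rw [this]; exact hA x hx 0
  have hne := IsCompact.nonempty_iInter_of_sequence_nonempty_isCompact_isClosed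
    (fun n => SS X m W x0 n) (fun n y hy => ⟨hy.1, fun y' hy' hmod => hy.2 y' hy'
      (fun u hu => hmod u (by omega))⟩) (fun n => SS_nonempty A hA hx0 n) hcomp (fun n => SS_closed n)
  obtain ⟨y, hy⟩ := hne
  exact ⟨y, fun n => Set.mem_iInter.1 hy n⟩

end Pool.Agent.X126.Iso
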