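import Pool.Agent.X126.IsoA

set_option autoImplicit false

open Topology Filter

namespace Pool.Agent.X126.Iso

variable {d : ℕ} {X : Set (Cfg d)} {m : ℕ} {W : Set (G d)} {x0 : Cfg d}

theorem lex_cancel {v a b : G d} (h : toLex (v + a) < toLex (v + b)) : toLex a < toLex b := by
  obtain ⟨i, h1, h2⟩ := h
  refine ⟨i, fun j hj => ?_, ?_⟩
  · have := h1 j hj
    simpa using this
  · simpa using h2

/-- The cube `{0, …, n-1}^d`. -/
def cube (d n : ℕ) : Set (G d) := {j | ∀ i, 0 ≤ j i ∧ j i < n}

/-- The collar. -/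
def col (d n m : ℕ) : Set (G d) := {j | j ∈ cube d n ∧ ∃ i, j i < 2 * m ∨ (n : ℤ) ≤ j i + 2 * m}

theorem cube_finite (d n : ℕ) : (cube d n).Finite := by
  refine Set.Finite.subset (Set.finite_Icc (fun _ => 0) (fun _ => (n : ℤ))) ?_
  intro j hj
  exact ⟨fun i => (hj i).1, fun i => (hj i).2.le⟩

theorem nrm_cube {n : ℕ} {j : G d} (hj : j ∈ cube d n) : nrm j ≤ n := by
  unfold nrm
  refine Finset.sup_le fun i _ => ?_
  have := hj i
  omega

/-- The main replacement lemma (one direction). -/
theorem no_improve {y : Cfg d} (hy : ∀ n, y ∈ SS X m W x0 n) {n : ℕ} {v v' : G d}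
    (hv : ∀ j ∈ cube d n, v + j ∉ W)
    (hcol : ∀ j ∈ col d n m, y (v + j) = y (v' + j)) {j0 : G d} (hj0 : j0 ∈ cube d n)
    (hlt : y (v' + j0) < y (v + j0))
    (hmin : ∀ j ∈ cube d n, toLex j < toLex j0 → y (v + j) = y (v' + j)) : False := by
  classical
  set z : Cfg d := fun u => if u - v ∈ cube d n then y (v' + (u - v)) else y u with hz
  have hyK := (hy 0).1
  have hzK : z ∈ KK X m W x0 := by
    refine ⟨fun c => ?_, fun w hw => ?_⟩
    · by_cases hc : ∀ u, nrm u ≤ m → (c + u) - v ∈ cube d n
      · obtain ⟨x, hx, h⟩ := hyK.1 (v' + (c - v))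
        refine ⟨x, hx, fun u hu => ?_⟩
        rw [← h u hu]
        simp only [hz]
        rw [if_pos (hc u hu)]
        congr 1
        abel
      · push Not at hc
        obtain ⟨u1, hu1, hu1'⟩ := hc
        obtain ⟨x, hx, h⟩ := hyK.1 c
        refine ⟨x, hx, fun u hu => ?_⟩
        rw [← h u hu]
        simp only [hz]
        split_ifs with h1
        · have hcc : (c + u) - v ∈ col d n m := by
            refine ⟨h1, ?_⟩
            have : ∃ i, ¬ (0 ≤ ((c + u1) - v) i ∧ ((c + u1) - v) i < n) := by
              by_contra hcon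
              exact hu1' (not_exists_not.1 hcon)
            obtain ⟨i, hi⟩ := this
            refine ⟨i, ?_⟩
            have e1 := le_nrm u i
            have e2 := le_nrm u1 i
            have e3 := h1 i
            simp only [Pi.add_apply, Pi.sub_apply] at hi e3 ⊢
            omega
          rw [← hcol _ hcc]
          congr 1
          abel
        · rfl
    · simp only [hz]
      rw [if_neg]
      · exact hyK.2 w hw
      · intro hcon
        refine hv _ hcon ?_
        have : v + (w - v) = w := by abel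
        rw [this]; exact hw
  refine (hy (nrm v + n)).2 z hzK (fun u hu => ?_) ⟨v + j0, ?_, fun u hu => ?_⟩
  · simp only [hz]
    rw [if_neg]
    intro hcon
    have h1 := nrm_cube hcon
    have h2 := nrm_add v (u - v)
    have : v + (u - v) = u := by abel
    rw [this] at h2
    omega
  · simp only [hz]
    have : v + j0 - v = j0 := by abel
    rw [this, if_pos hj0]
    exact hlt
  · simp only [hz]
    split_ifs with h1
    · have : v + (u - v) = u := by abel
      rw [← hmin (u - v) h1 (lex_cancel (v := v) (by rw [this]; exact hu)), this]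
    · rfl

theorem collar {y : Cfg d} (hy : ∀ n, y ∈ SS X m W x0 n) {n : ℕ} {v v' : G d}
    (hv : ∀ j ∈ cube d n, v + j ∉ W) (hv' : ∀ j ∈ cube d n, v' + j ∉ W)
    (hcol : ∀ j ∈ col d n m, y (v + j) = y (v' + j)) : ∀ j ∈ cube d n, y (v + j) = y (v' + j) := by
  by_contra hcon
  push Not at hcon
  have hfin : {j | j ∈ cube d n ∧ y (v + j) ≠ y (v' + j)}.Finite :=
    (cube_finite d n).subset fun j hj => hj.1
  obtain ⟨j0, hj0, hmin⟩ := Set.exists_min_image _ (fun j : G d => toLex j) hfin
    (by obtain ⟨j, hj, hj'⟩ := hcon; exact ⟨j, hj, hj'⟩)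
  have hmin' : ∀ j ∈ cube d n, toLex j < toLex j0 → y (v + j) = y (v' + j) := by
    intro j hj hlt
    by_contra hne
    exact absurd (hmin j ⟨hj, hne⟩) (not_le.2 hlt)
  rcases lt_or_gt_of_ne hj0.2 with h | h
  · exact no_improve hy hv' (fun j hj => (hcol j hj).symm) hj0.1 h (fun j hj hl => (hmin' j hj hl).symm)
  · exact no_improve hy hv hcol hj0.1 h hmin'

end Pool.Agent.X126.Iso
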