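import Pool.Agent.X126.IsoB

set_option autoImplicit false

open Topology Filter

namespace Pool.Agent.X126.Iso

variable {d : ℕ} {X : Set (Cfg d)} {m : ℕ} {x0 : Cfg d}

/-- The embedding of the index set into `ℤ^d`. -/
def emb {d n : ℕ} (j : Fin d → Fin n) : G d := fun i => ((j i : ℕ) : ℤ)

theorem emb_cube {n : ℕ} (j : Fin d → Fin n) : emb j ∈ cube d n := by
  intro i
  have := (j i).2
  simp only [emb]
  omega

theorem exists_emb {n : ℕ} {g : G d} (hg : g ∈ cube d n) : ∃ j : Fin d → Fin n, emb j = g := by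
  refine ⟨fun i => ⟨(g i).toNat, ?_⟩, ?_⟩
  · have := hg i
    omega
  · funext i
    have := hg i
    simp only [emb]
    omega

theorem card_inner (n m : ℕ) :
    (Finset.univ.filter (fun j : Fin d → Fin n => ∀ i, 2 * m ≤ (j i : ℕ) ∧ (j i : ℕ) + 2 * m < n)).card
      = (n - 4 * m) ^ d := by
  classical
  have h1 : (Finset.univ.filter (fun j : Fin d → Fin n => ∀ i, 2 * m ≤ (j i : ℕ) ∧ (j i : ℕ) + 2 * m < n))
      = Fintype.piFinset (fun _ : Fin d => Finset.univ.filter
        (fun t : Fin n => 2 * m ≤ (t : ℕ) ∧ (t : ℕ) + 2 * m < n)) := by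
    ext j
    simp [Fintype.mem_piFinset]
  rw [h1, Fintype.card_piFinset, Finset.prod_const, Finset.card_univ, Fintype.card_fin]
  congr 1
  have h2 : ((Finset.univ.filter
        (fun t : Fin n => 2 * m ≤ (t : ℕ) ∧ (t : ℕ) + 2 * m < n)).map Fin.valEmbedding)
        = Finset.Ico (2 * m) (n - 2 * m) := by
    ext t
    simp only [Finset.mem_map, Finset.mem_filter, Finset.mem_univ, true_and, Fin.valEmbedding_apply,
      Finset.mem_Ico]
    constructor
    · rintro ⟨a, ha, rfl⟩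
      omega
    · intro h
      exact ⟨⟨t, by omega⟩, by simp only; omega, rfl⟩
  have h3 := congrArg Finset.card h2
  rw [Finset.card_map, Nat.card_Ico] at h3
  rw [h3]; omega

theorem card_colF (n m : ℕ) :
    (Finset.univ.filter (fun j : Fin d → Fin n => ¬ ∀ i, 2 * m ≤ (j i : ℕ) ∧ (j i : ℕ) + 2 * m < n)).card
      = n ^ d - (n - 4 * m) ^ d := by
  classical
  have h := Finset.card_filter_add_card_filter_not (s := (Finset.univ : Finset (Fin d → Fin n)))
    (fun j : Fin d → Fin n => ∀ i, 2 * m ≤ (j i : ℕ) ∧ (j i : ℕ) + 2 * m < n)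
  rw [card_inner, Finset.card_univ, Fintype.card_pi, Finset.prod_const, Finset.card_univ,
    Fintype.card_fin, Fintype.card_fin] at h
  omega

theorem count {W : Finset (G d)} {y : Cfg d} (A : Finset ℤ) (hA : ∀ u, y u ∈ A)
    (hy : ∀ n, y ∈ SS X m (W : Set (G d)) x0 n) (hX : Orb y = X) (n : ℕ) :
    (Ln n X).ncard ≤ W.card * n ^ d + A.card ^ (n ^ d - (n - 4 * m) ^ d) := by
  classical
  set S1 : Finset ((Fin d → Fin n) → ℤ) :=
    (W ×ˢ (Finset.univ : Finset (Fin d → Fin n))).image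
      (fun wj => fun j' => y (wj.1 - emb wj.2 + emb j')) with hS1
  set S2 : Set ((Fin d → Fin n) → ℤ) :=
    {p | ∃ v, (∀ j ∈ cube d n, v + j ∉ (W : Set (G d))) ∧ ∀ j, p j = y (v + emb j)} with hS2
  set CF := Finset.univ.filter
    (fun j : Fin d → Fin n => ¬ ∀ i, 2 * m ≤ (j i : ℕ) ∧ (j i : ℕ) + 2 * m < n) with hCF
  have hsub : Ln n X ⊆ (S1 : Set _) ∪ S2 := by
    rintro p ⟨x, hx, hp⟩
    rw [← hX] at hx
    obtain ⟨s, ⟨v, rfl⟩, hs⟩ := (mem_closure_iff' _ _).1 hx n
    have hp' : ∀ j, p j = y (v + emb j) := by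
      intro j
      rw [hp j]
      exact hs _ (nrm_cube (emb_cube j))
    by_cases hv : ∀ j ∈ cube d n, v + j ∉ (W : Set (G d))
    · exact Or.inr ⟨v, hv, hp'⟩
    · left
      push Not at hv
      obtain ⟨g, hg, hgW⟩ := hv
      obtain ⟨j, rfl⟩ := exists_emb hg
      simp only [hS1, Finset.coe_image, Set.mem_image, Finset.mem_coe, Finset.mem_product,
        Finset.mem_univ, and_true]
      refine ⟨(v + emb j, j), hgW, ?_⟩
      funext j'
      rw [hp' j']
      have e : v + emb j - emb j + emb j' = v + emb j' := by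
        rw [add_sub_cancel_right]
      exact congrArg y e
  have hS1card : S1.card ≤ W.card * n ^ d := by
    refine Finset.card_image_le.trans ?_
    rw [Finset.card_product, Finset.card_univ, Fintype.card_pi, Finset.prod_const, Finset.card_univ,
      Fintype.card_fin, Fintype.card_fin]
  set T : Finset (CF → ℤ) := Fintype.piFinset (fun _ : CF => A) with hT
  have hTcard : T.card = A.card ^ (n ^ d - (n - 4 * m) ^ d) := by
    rw [hT, Fintype.card_piFinset, Finset.prod_const, Finset.card_univ, Fintype.card_coe, hCF, card_colF]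
  have hmaps : ∀ p ∈ S2, (fun c : CF => p c.1) ∈ (T : Set (CF → ℤ)) := by
    rintro p ⟨v, -, hp⟩
    simp only [hT, Finset.mem_coe, Fintype.mem_piFinset]
    intro c
    rw [hp]; exact hA _
  have hinj : Set.InjOn (fun (p : (Fin d → Fin n) → ℤ) (c : CF) => p c.1) S2 := by
    rintro p ⟨v, hv, hp⟩ p' ⟨v', hv', hp'⟩ h
    funext j
    rw [hp, hp']
    refine collar hy hv hv' ?_ _ (emb_cube j)
    rintro g ⟨hg, i, hi⟩
    obtain ⟨c, rfl⟩ := exists_emb hg
    have hc : c ∈ CF := by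
      simp only [hCF, Finset.mem_filter, Finset.mem_univ, true_and, not_forall]
      refine ⟨i, ?_⟩
      simp only [emb] at hi
      omega
    have := congrFun h ⟨c, hc⟩
    simp only at this
    rw [hp, hp'] at this
    exact this
  have hS2card : S2.ncard ≤ T.card := by
    rw [← Set.ncard_coe_finset]
    exact Set.ncard_le_ncard_of_injOn _ hmaps hinj (Finset.finite_toSet T)
  have hS2fin : S2.Finite := Set.Finite.of_injOn (fun p hp => hmaps p hp) hinj (Finset.finite_toSet T)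
  calc (Ln n X).ncard ≤ ((S1 : Set _) ∪ S2).ncard :=
        Set.ncard_le_ncard hsub ((Finset.finite_toSet S1).union hS2fin)
    _ ≤ (S1 : Set ((Fin d → Fin n) → ℤ)).ncard + S2.ncard := Set.ncard_union_le _ _
    _ ≤ W.card * n ^ d + A.card ^ (n ^ d - (n - 4 * m) ^ d) := by
        rw [Set.ncard_coe_finset]
        exact add_le_add hS1card (hS2card.trans hTcard.le)

theorem main_bound (hX : Isolated X) :
    ∃ (w a m : ℕ), 1 ≤ a ∧ ∀ n, (Ln n X).ncard ≤ w * n ^ d + a ^ (n ^ d - (n - 4 * m) ^ d) := by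
  classical
  obtain ⟨m, hm⟩ := iso_window hX
  obtain ⟨⟨⟨⟨A, hA⟩, hc, hinv⟩, x0, hx0, hdense⟩, -⟩ := hX
  -- windows
  have hfin : ((fun x : Cfg d => fun u : {u : G d | nrm u ≤ m} => x u) '' X).Finite := by
    have : Fintype {u : G d | nrm u ≤ m} := (finite_nrm m).fintype
    refine Set.Finite.subset (s := Set.pi Set.univ fun _ => (A : Set ℤ))
      (Set.Finite.pi fun _ => A.finite_toSet) ?_
    rintro _ ⟨x, hx, rfl⟩ u _
    exact hA x hx u
  have hv : ∀ x ∈ X, ∃ v, ∀ u, nrm u ≤ m → x0 (v + u) = x u := by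
    intro x hx
    obtain ⟨s, ⟨v, rfl⟩, hs⟩ := (mem_closure_iff' _ _).1 (hdense hx) m
    exact ⟨v, fun u hu => (hs u hu).symm⟩
  choose! V hV using hv
  have hsel : ∀ q ∈ ((fun x : Cfg d => fun u : {u : G d | nrm u ≤ m} => x u) '' X),
      ∃ v : G d, ∀ u : {u : G d | nrm u ≤ m}, x0 (v + u) = q u := by
    rintro _ ⟨x, hx, rfl⟩
    exact ⟨V x, fun u => hV x hx u u.2⟩
  choose! V' hV' using hsel
  set W : Finset (G d) := hfin.toFinset.biUnion fun q =>
    (finite_nrm (d := d) m).toFinset.image fun u => V' q + u with hW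
  have hWmem : ∀ x ∈ X, ∃ v, ∀ u, nrm u ≤ m → v + u ∈ W ∧ x0 (v + u) = x u := by
    intro x hx
    set q := (fun u : {u : G d | nrm u ≤ m} => x u) with hq
    have hqm : q ∈ ((fun x : Cfg d => fun u : {u : G d | nrm u ≤ m} => x u) '' X) := ⟨x, hx, rfl⟩
    refine ⟨V' q, fun u hu => ⟨?_, ?_⟩⟩
    · simp only [hW, Finset.mem_biUnion, Finset.mem_image, Set.Finite.mem_toFinset]
      exact ⟨q, hqm, u, hu, rfl⟩
    · exact hV' q hqm ⟨u, hu⟩
  have hx0K : x0 ∈ KK X m (W : Set (G d)) x0 := by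
    refine ⟨fun v => ⟨sh v x0, hinv v x0 hx0, fun u _ => rfl⟩, fun w _ => rfl⟩
  obtain ⟨y, hy⟩ := exists_min A hA hx0K
  have hyK := (hy 0).1
  have horb : Orb y = X := by
    refine hm y hyK.1 fun x hx => ?_
    obtain ⟨v, hv⟩ := hWmem x hx
    refine ⟨v, fun u hu => ?_⟩
    rw [hyK.2 _ (hv u hu).1, (hv u hu).2]
  have hyA : ∀ u, y u ∈ A := by
    intro u
    obtain ⟨x, hx, h⟩ := hyK.1 u
    have := h 0 (by rw [nrm_zero]; omega)
    rw [add_zero] at this
    rw [this]; exact hA x hx 0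
  refine ⟨W.card, A.card, m, Finset.card_pos.2 ⟨_, hyA 0⟩, fun n => ?_⟩
  exact count A hyA hy horb n

theorem ratio_tendsto (m : ℕ) :
    Tendsto (fun n : ℕ => (((n ^ d - (n - 4 * m) ^ d : ℕ) : ℝ)) / (n : ℝ) ^ d) atTop (𝓝 0) := by
  have h1 : Tendsto (fun n : ℕ => 1 - (1 - (4 * m : ℝ) / n) ^ d) atTop (𝓝 (1 - (1 - 0) ^ d)) := by
    refine tendsto_const_nhds.sub ((tendsto_const_nhds.sub ?_).pow d)
    exact tendsto_const_div_atTop_nhds_zero_nat _
  rw [sub_zero, one_pow, sub_self] at h1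
  refine h1.congr' ?_
  filter_upwards [eventually_ge_atTop (4 * m + 1)] with n hn
  have hn0 : (n : ℝ) ≠ 0 := by
    have : 0 < n := by omega
    positivity
  rw [Nat.cast_sub (Nat.pow_le_pow_left (Nat.sub_le _ _) _), Nat.cast_pow, Nat.cast_pow,
    Nat.cast_sub (by omega), sub_div, div_self (pow_ne_zero _ hn0), ← div_pow]
  congr 2
  push_cast
  rw [sub_div, div_self hn0]

theorem log_tendsto (hd : 1 ≤ d) (w : ℕ) :
    Tendsto (fun n : ℕ => Real.log ((w : ℝ) * (n : ℝ) ^ d + 1) / (n : ℝ) ^ d) atTop (𝓝 0) := by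
  have hN : Tendsto (fun n : ℕ => (n : ℝ) ^ d) atTop atTop :=
    (tendsto_pow_atTop (by omega)).comp tendsto_natCast_atTop_atTop
  have key : Tendsto (fun t : ℝ => Real.log ((w : ℝ) * t + 1) / t) atTop (𝓝 0) := by
    rcases Nat.eq_zero_or_pos w with hw | hw
    · subst hw
      simp
    have hw' : (0 : ℝ) < w := by exact_mod_cast hw
    have hg : Tendsto (fun t : ℝ => (w : ℝ) * t + 1) atTop atTop :=
      tendsto_atTop_add_const_right _ _ (Tendsto.const_mul_atTop hw' tendsto_id)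
    have h1 : Tendsto (fun t : ℝ => Real.log t / t) atTop (𝓝 0) := by
      have := Real.isLittleO_log_id_atTop.tendsto_div_nhds_zero
      simpa using this
    have h2 := h1.comp hg
    have h3 : Tendsto (fun t : ℝ => ((w : ℝ) * t + 1) / t) atTop (𝓝 (w + 0)) := by
      have h4 : Tendsto (fun t : ℝ => (w : ℝ) + t⁻¹) atTop (𝓝 (w + 0)) :=
        tendsto_const_nhds.add tendsto_inv_atTop_zero
      refine h4.congr' ?_
      filter_upwards [eventually_gt_atTop 0] with t ht
      field_simp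
    have h5 := h2.mul h3
    rw [zero_mul] at h5
    refine h5.congr' ?_
    filter_upwards [eventually_gt_atTop 0] with t ht
    have : (w : ℝ) * t + 1 ≠ 0 := by positivity
    simp only [Function.comp]
    field_simp
  exact key.comp hN

theorem main (hd : 1 ≤ d) (hX : Isolated X) :
    Tendsto (fun n : ℕ => Real.log ((Ln n X).ncard) / (n : ℝ) ^ d) atTop (𝓝 0) := by
  obtain ⟨w, a, m, ha, hb⟩ := main_bound hX
  have hlim : Tendsto (fun n : ℕ => Real.log ((w : ℝ) * (n : ℝ) ^ d + 1) / (n : ℝ) ^ d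
      + (((n ^ d - (n - 4 * m) ^ d : ℕ) : ℝ)) / (n : ℝ) ^ d * Real.log a) atTop (𝓝 (0 + 0 * Real.log a)) :=
    (log_tendsto hd w).add ((ratio_tendsto m).mul_const _)
  rw [zero_mul, add_zero] at hlim
  refine tendsto_of_tendsto_of_tendsto_of_le_of_le tendsto_const_nhds hlim (fun n => ?_) (fun n => ?_)
  · exact div_nonneg (Real.log_natCast_nonneg _) (by positivity)
  · simp only
    set e := n ^ d - (n - 4 * m) ^ d with he
    rw [div_mul_eq_mul_div, ← add_div]
    refine div_le_div_of_nonneg_right ?_ (by positivity)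
    have ha' : (1 : ℝ) ≤ a := by exact_mod_cast ha
    have h1 : ((Ln n X).ncard : ℝ) ≤ ((w : ℝ) * (n : ℝ) ^ d + 1) * (a : ℝ) ^ e := by
      have h2 : ((Ln n X).ncard : ℝ) ≤ (w : ℝ) * (n : ℝ) ^ d + (a : ℝ) ^ e := by
        exact_mod_cast hb n
      have h3 : (1 : ℝ) ≤ (a : ℝ) ^ e := one_le_pow₀ ha'
      have h4 : (0 : ℝ) ≤ (w : ℝ) * (n : ℝ) ^ d := by positivity
      nlinarith
    rcases Nat.eq_zero_or_pos ((Ln n X).ncard) with h0 | h0
    · rw [h0, Nat.cast_zero, Real.log_zero]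
      have h4 : (0 : ℝ) ≤ (w : ℝ) * (n : ℝ) ^ d := by positivity
      exact add_nonneg (Real.log_nonneg (by linarith)) (mul_nonneg (by positivity) (Real.log_nonneg ha'))
    · have h0' : (0 : ℝ) < ((Ln n X).ncard : ℝ) := by exact_mod_cast h0
      refine (Real.log_le_log h0' h1).trans ?_
      rw [Real.log_mul (by positivity) (by positivity), Real.log_pow]

end Pool.Agent.X126.Iso
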