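import Mathlib

set_option autoImplicit false

open Topology

namespace Pool.Agent.X126.Iso

/-- The group `ℤ^d`. -/
abbrev G (d : ℕ) : Type := Fin d → ℤ

/-- Configurations: maps `ℤ^d → ℤ` (topological space with the product topology, `ℤ` being discrete; this is the
topology of the metric `δ` below). -/
abbrev Cfg (d : ℕ) : Type := G d → ℤ

/-- The sup norm on `ℤ^d`. -/
def nrm {d : ℕ} (u : G d) : ℕ := Finset.univ.sup fun i => (u i).natAbs

/-- The metric `δ(x, y) = 2^(-min {‖n‖ : x_n ≠ y_n})`, and `0` if `x = y`. -/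
noncomputable def δ {d : ℕ} (x y : Cfg d) : ℝ :=
  open Classical in if x = y then 0 else (1 / 2) ^ sInf {k : ℕ | ∃ u, nrm u = k ∧ x u ≠ y u}

/-- The shift action `(σ^u x)_v = x_{u+v}`. -/
def sh {d : ℕ} (u : G d) (x : Cfg d) : Cfg d := fun v => x (u + v)

/-- `X` is a `d`-dimensional shift: a compact shift-invariant set of configurations over a finite alphabet. -/
structure IsShift {d : ℕ} (X : Set (Cfg d)) : Prop where
  alph : ∃ A : Finset ℤ, ∀ x ∈ X, ∀ u, x u ∈ A
  cpt : IsCompact X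
  inv : ∀ u, ∀ x ∈ X, sh u x ∈ X

/-- `X` is transitive: some point of `X` has an orbit which is dense in `X`. -/
def Transitive {d : ℕ} (X : Set (Cfg d)) : Prop :=
  ∃ x ∈ X, X ⊆ closure (Set.range fun u => sh u x)

/-- The Hausdorff distance for `δ`. -/
noncomputable def hausdorff {d : ℕ} (X Z : Set (Cfg d)) : ℝ :=
  max (sSup ((fun x => sInf ((fun z => δ x z) '' Z)) '' X))
    (sSup ((fun z => sInf ((fun x => δ x z) '' X)) '' Z))

/-- `X` is isolated in the space `𝒯^d` of transitive shifts. -/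
def Isolated {d : ℕ} (X : Set (Cfg d)) : Prop :=
  (IsShift X ∧ Transitive X) ∧
    ∃ ε > 0, ∀ Y, IsShift Y → Transitive Y → hausdorff X Y < ε → Y = X

/-- The set `ℒ_n(X)` of patterns on `{0, …, n-1}^d` appearing in configurations of `X`. -/
def Ln {d : ℕ} (n : ℕ) (X : Set (Cfg d)) : Set ((Fin d → Fin n) → ℤ) :=
  {p | ∃ x ∈ X, ∀ j, p j = x (fun i => ((j i : ℕ) : ℤ))}

end Pool.Agent.X126.Iso
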