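import Mathlib

set_option autoImplicit false

namespace Pool.Agent.X126.Kup

noncomputable section

/-- height of the wave -/
def f (v : ℝ) : ℝ := (1 - Real.cos (Real.pi * v)) / 2

/-- pinching factor -/
def m (y : ℝ) : ℝ := min 1 (min (y + 1) (2 - y))

/-- left end of block `n` -/
def V (n : ℕ) : ℝ := 2 * (n : ℝ) ^ 2

/-- right end of block `n` -/
def W (n : ℕ) : ℝ := 2 * (n : ℝ) ^ 2 + 2 * (n : ℝ) - 1

/-- admissible pairs of block `n` -/
def Adm (n : ℕ) (v y : ℝ) : Prop :=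
  V n ≤ v ∧ v ≤ W n ∧ (y = f v ∨ (f v = 0 ∧ y ≤ 0) ∨ (v = W n ∧ 1 ≤ y))

/-- block `n` of the continuum -/
def K (n : ℕ) : Set (ℝ × ℝ) :=
  {p | -1 ≤ p.2 ∧ p.2 ≤ 2 ∧ ∃ v, Adm n v p.2 ∧ p.1 * v = m p.2}

/-- the continuum -/
def S : Set (ℝ × ℝ) := {p | -1 ≤ p.2 ∧ p.2 ≤ 2 ∧ (p.1 = 0 ∨ ∃ n, p ∈ K n)}

theorem f_cont : Continuous f := by unfold f; fun_prop
theorem m_cont : Continuous m := by unfold m; fun_prop

theorem f_nonneg (v : ℝ) : 0 ≤ f v := by
  unfold f; linarith [Real.cos_le_one (Real.pi * v)]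
theorem f_le (v : ℝ) : f v ≤ 1 := by
  unfold f; linarith [Real.neg_one_le_cos (Real.pi * v)]

theorem f_even (k : ℤ) : f (2 * (k : ℝ)) = 0 := by
  unfold f
  have h : Real.pi * (2 * (k : ℝ)) = (k : ℝ) * (2 * Real.pi) := by ring
  rw [h, Real.cos_int_mul_two_pi]; norm_num

theorem f_odd (k : ℤ) : f (2 * (k : ℝ) + 1) = 1 := by
  unfold f
  have h : Real.pi * (2 * (k : ℝ) + 1) = (k : ℝ) * (2 * Real.pi) + Real.pi := by ring
  rw [h, Real.cos_add_pi, Real.cos_int_mul_two_pi]; norm_num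

theorem f_half (k : ℤ) : f (2 * (k : ℝ) + 1 / 2) = 1 / 2 := by
  unfold f
  have h : Real.pi * (2 * (k : ℝ) + 1 / 2) = Real.pi / 2 + (k : ℝ) * (2 * Real.pi) := by ring
  rw [h, Real.cos_add_int_mul_two_pi, Real.cos_pi_div_two]; norm_num

theorem f_lip (u v : ℝ) : |f u - f v| ≤ 2 * |u - v| := by
  unfold f
  have h := Real.abs_cos_sub_cos_le (Real.pi * v) (Real.pi * u)
  have h2 : |Real.pi * v - Real.pi * u| = Real.pi * |u - v| := by
    rw [← mul_sub, abs_mul, abs_of_pos Real.pi_pos, abs_sub_comm]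
  have h3 : (1 - Real.cos (Real.pi * u)) / 2 - (1 - Real.cos (Real.pi * v)) / 2
      = (Real.cos (Real.pi * v) - Real.cos (Real.pi * u)) / 2 := by ring
  rw [h3, abs_div, abs_of_pos (by norm_num : (0:ℝ) < 2)]
  rw [h2] at h
  have h4 := Real.pi_le_four
  nlinarith [abs_nonneg (u - v)]

theorem m_lip (u v : ℝ) : |m u - m v| ≤ |u - v| := by
  unfold m
  have h1 : |(u + 1) - (v + 1)| = |u - v| := by congr 1; ring
  have h2 : |(2 - u) - (2 - v)| = |u - v| := by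
    rw [abs_sub_comm]; congr 1; ring
  refine (abs_min_sub_min_le_max _ _ _ _).trans (max_le (by simp) ?_)
  refine (abs_min_sub_min_le_max _ _ _ _).trans (max_le h1.le h2.le)

theorem m_nonneg {y : ℝ} (h1 : -1 ≤ y) (h2 : y ≤ 2) : 0 ≤ m y := by
  unfold m; refine le_min zero_le_one (le_min ?_ ?_) <;> linarith

theorem m_pos {y : ℝ} (h1 : -1 < y) (h2 : y < 2) : 0 < m y := by
  unfold m; refine lt_min zero_lt_one (lt_min ?_ ?_) <;> linarith

theorem m_le (y : ℝ) : m y ≤ 1 := min_le_left _ _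

theorem m_mid {y : ℝ} (h1 : 0 ≤ y) (h2 : y ≤ 1) : m y = 1 := by
  unfold m; rw [min_eq_left]; refine le_min ?_ ?_ <;> linarith

theorem m_neg_one : m (-1) = 0 := by unfold m; norm_num
theorem m_two : m 2 = 0 := by unfold m; norm_num

theorem block_pos {n : ℕ} (h : V n ≤ W n) : 1 ≤ n := by
  rcases Nat.eq_zero_or_pos n with rfl | h0
  · unfold V W at h; norm_num at h
  · exact h0

theorem V_ge {n : ℕ} (h : 1 ≤ n) : 2 ≤ V n := by
  unfold V
  have : (1 : ℝ) ≤ n := by exact_mod_cast h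
  nlinarith

theorem V_le_W {n : ℕ} (h : 1 ≤ n) : V n ≤ W n := by
  unfold V W
  have : (1 : ℝ) ≤ n := by exact_mod_cast h
  linarith

theorem adm_v {n : ℕ} {v y : ℝ} (h : Adm n v y) : 2 ≤ v :=
  (V_ge (block_pos (h.1.trans h.2.1))).trans h.1

theorem f_V (n : ℕ) : f (V n) = 0 := by
  have := f_even ((n : ℤ) ^ 2)
  unfold V; push_cast at this; exact this

theorem f_W (n : ℕ) : f (W n) = 1 := by
  have h := f_odd ((n : ℤ) ^ 2 + n - 1)
  have e : W n = 2 * (((n : ℤ) ^ 2 + n - 1 : ℤ) : ℝ) + 1 := by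
    unfold W; push_cast; ring
  rw [e]; exact h

theorem K_compact (n : ℕ) : IsCompact (K n) := by
  have hC : IsCompact {q : (ℝ × ℝ) × ℝ | (q ∈ (Set.Icc (0:ℝ) 1 ×ˢ Set.Icc (-1 : ℝ) 2) ×ˢ Set.Icc (V n) (W n)) ∧
      (q.1.2 = f q.2 ∨ (f q.2 = 0 ∧ q.1.2 ≤ 0) ∨ (q.2 = W n ∧ 1 ≤ q.1.2)) ∧ q.1.1 * q.2 = m q.1.2} := by
    refine ((isCompact_Icc.prod isCompact_Icc).prod isCompact_Icc).inter_right ?_
    refine IsClosed.inter ?_ ?_
    · refine IsClosed.union ?_ (IsClosed.union (IsClosed.inter ?_ ?_) (IsClosed.inter ?_ ?_))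
      · exact isClosed_eq (continuous_snd.comp continuous_fst) (f_cont.comp continuous_snd)
      · exact isClosed_eq (f_cont.comp continuous_snd) continuous_const
      · exact isClosed_le (continuous_snd.comp continuous_fst) continuous_const
      · exact isClosed_eq continuous_snd continuous_const
      · exact isClosed_le continuous_const (continuous_snd.comp continuous_fst)
    · exact isClosed_eq ((continuous_fst.comp continuous_fst).mul continuous_snd)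
        (m_cont.comp (continuous_snd.comp continuous_fst))
  have hK : K n = Prod.fst '' {q : (ℝ × ℝ) × ℝ | (q ∈ (Set.Icc (0:ℝ) 1 ×ˢ Set.Icc (-1 : ℝ) 2) ×ˢ Set.Icc (V n) (W n)) ∧
      (q.1.2 = f q.2 ∨ (f q.2 = 0 ∧ q.1.2 ≤ 0) ∨ (q.2 = W n ∧ 1 ≤ q.1.2)) ∧ q.1.1 * q.2 = m q.1.2} := by
    ext ⟨x, y⟩
    constructor
    · rintro ⟨h1, h2, v, hv, hx⟩
      simp only at h1 h2 hx hv
      refine ⟨((x, y), v), ⟨⟨⟨⟨?_, ?_⟩, h1, h2⟩, hv.1, hv.2.1⟩, hv.2.2, hx⟩, rfl⟩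
      · have h3 := m_nonneg h1 h2
        have h4 := adm_v hv
        show 0 ≤ x
        by_contra hneg
        push Not at hneg
        nlinarith
      · have h3 := m_le y
        have h4 := adm_v hv
        show x ≤ 1
        by_contra hneg
        push Not at hneg
        nlinarith
    · rintro ⟨⟨⟨x', y'⟩, v⟩, ⟨⟨⟨⟨hx0, hx1⟩, h1, h2⟩, hv1, hv2⟩, h3, h4⟩, h5⟩
      simp only [Prod.mk.injEq] at h5
      obtain ⟨rfl, rfl⟩ := h5
      exact ⟨h1, h2, v, ⟨hv1, hv2, h3⟩, h4⟩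
  rw [hK]
  exact hC.image continuous_fst

theorem K_x {n : ℕ} {p : ℝ × ℝ} (h : p ∈ K n) : 0 ≤ p.1 ∧ p.1 * (n : ℝ) ≤ 1 ∧ p.1 ≤ 1 := by
  obtain ⟨h1, h2, v, hv, hx⟩ := h
  have hv2 := adm_v hv
  have h3 := m_nonneg h1 h2
  have h4 := m_le p.2
  have hn := block_pos (hv.1.trans hv.2.1)
  have hn' : (1 : ℝ) ≤ n := by exact_mod_cast hn
  have h5 : 2 * (n : ℝ) ^ 2 ≤ v := hv.1
  have h0 : 0 ≤ p.1 := by
    by_contra hneg
    push Not at hneg
    nlinarith
  refine ⟨h0, ?_, ?_⟩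
  · have h6 : (n : ℝ) ≤ v := by nlinarith
    nlinarith
  · nlinarith

theorem S_closed : IsClosed S := by
  have hS : S = ⋂ N : ℕ, ({p : ℝ × ℝ | 0 ≤ p.1 ∧ p.1 * (N : ℝ) ≤ 1 ∧ -1 ≤ p.2 ∧ p.2 ≤ 2} ∪
      ⋃ n ∈ Finset.range (N + 1), K n) := by
    ext p
    simp only [Set.mem_iInter, Set.mem_union, Set.mem_iUnion, Finset.mem_range, exists_prop,
      Set.mem_setOf_eq]
    constructor
    · rintro ⟨h1, h2, h | ⟨n, hn⟩⟩ N
      · left; rw [h]; refine ⟨le_rfl, by simp, h1, h2⟩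
      · by_cases hnN : n < N + 1
        · right; exact ⟨n, hnN, hn⟩
        · left
          obtain ⟨h3, h4, h5⟩ := K_x hn
          refine ⟨h3, ?_, h1, h2⟩
          have : (N : ℝ) ≤ n := by
            have : N ≤ n := by omega
            exact_mod_cast this
          nlinarith
    · intro h
      have hyy : -1 ≤ p.2 ∧ p.2 ≤ 2 := by
        rcases h 0 with h0 | ⟨n, -, hn⟩
        · exact ⟨h0.2.2.1, h0.2.2.2⟩
        · exact ⟨hn.1, hn.2.1⟩
      refine ⟨hyy.1, hyy.2, ?_⟩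
      by_cases hx : p.1 = 0
      · left; exact hx
      · right
        obtain ⟨N, hN⟩ := exists_nat_gt (1 / |p.1|)
        rcases h N with h0 | ⟨n, -, hn⟩
        · exfalso
          have hpos : 0 < p.1 := lt_of_le_of_ne h0.1 (Ne.symm hx)
          rw [abs_of_pos hpos, div_lt_iff₀ hpos] at hN
          linarith [h0.2.1]
        · exact ⟨n, hn⟩
  rw [hS]
  refine isClosed_iInter fun N => IsClosed.union ?_ ?_
  · refine IsClosed.inter (isClosed_le continuous_const continuous_fst)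
      (IsClosed.inter (isClosed_le (continuous_fst.mul continuous_const) continuous_const)
      (IsClosed.inter (isClosed_le continuous_const continuous_snd)
      (isClosed_le continuous_snd continuous_const)))
  · exact Set.Finite.isClosed_biUnion (Finset.finite_toSet _) fun n _ => (K_compact n).isClosed

theorem S_compact : IsCompact S := by
  refine IsCompact.of_isClosed_subset ((isCompact_Icc (a := (0:ℝ)) (b := 1)).prod
    (isCompact_Icc (a := (-1:ℝ)) (b := 2))) S_closed ?_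
  rintro p ⟨h1, h2, h | ⟨n, hn⟩⟩
  · exact ⟨by rw [h]; simp, h1, h2⟩
  · exact ⟨⟨(K_x hn).1, (K_x hn).2.2⟩, h1, h2⟩

instance : CompactSpace S := isCompact_iff_compactSpace.1 S_compact

/-! Curves -/

def cv (V0 W0 τ : ℝ) : ℝ := max V0 (min τ W0)
def cy (V0 W0 τ : ℝ) : ℝ := f (cv V0 W0 τ) + min (τ - V0) 0 + max (τ - W0) 0
def cur (V0 W0 τ : ℝ) : ℝ × ℝ := (m (cy V0 W0 τ) / cv V0 W0 τ, cy V0 W0 τ)

theorem cv_low {V0 W0 τ : ℝ} (h : V0 ≤ W0) (h1 : τ ≤ V0) : cv V0 W0 τ = V0 := by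
  unfold cv; rw [min_eq_left (h1.trans h), max_eq_left h1]
theorem cv_mid {V0 W0 τ : ℝ} (h : V0 ≤ τ) (h1 : τ ≤ W0) : cv V0 W0 τ = τ := by
  unfold cv; rw [min_eq_left h1, max_eq_right h]
theorem cv_high {V0 W0 τ : ℝ} (h : V0 ≤ W0) (h1 : W0 ≤ τ) : cv V0 W0 τ = W0 := by
  unfold cv; rw [min_eq_right h1, max_eq_right h]
theorem cy_low {V0 W0 τ : ℝ} (h : V0 ≤ W0) (h1 : τ ≤ V0) : cy V0 W0 τ = f V0 + (τ - V0) := by
  unfold cy; rw [cv_low h h1, min_eq_left (by linarith), max_eq_right (by linarith)]; ring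
theorem cy_mid {V0 W0 τ : ℝ} (h : V0 ≤ τ) (h1 : τ ≤ W0) : cy V0 W0 τ = f τ := by
  unfold cy; rw [cv_mid h h1, min_eq_right (by linarith), max_eq_right (by linarith)]; ring
theorem cy_high {V0 W0 τ : ℝ} (h : V0 ≤ W0) (h1 : W0 ≤ τ) : cy V0 W0 τ = f W0 + (τ - W0) := by
  unfold cy; rw [cv_high h h1, min_eq_right (by linarith), max_eq_left (by linarith)]; ring

theorem cur_mem {n : ℕ} {V0 τ : ℝ} (h1 : V n ≤ V0) (h2 : V0 ≤ W n) (h3 : f V0 = 0)
    (h4 : V0 - 1 ≤ τ) (h5 : τ ≤ W n + 1) : cur V0 (W n) τ ∈ S := by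
  have hn : 1 ≤ n := block_pos (h1.trans h2)
  have hV := V_ge hn
  have key : -1 ≤ cy V0 (W n) τ ∧ cy V0 (W n) τ ≤ 2 ∧ Adm n (cv V0 (W n) τ) (cy V0 (W n) τ) := by
    rcases le_total τ V0 with h | h
    · rw [cy_low h2 h, cv_low h2 h, h3]
      exact ⟨by linarith, by linarith, h1, h2, Or.inr (Or.inl ⟨h3, by linarith⟩)⟩
    · rcases le_total τ (W n) with h' | h'
      · rw [cy_mid h h', cv_mid h h']
        exact ⟨by linarith [f_nonneg τ], by linarith [f_le τ], h1.trans h, h', Or.inl rfl⟩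
      · rw [cy_high h2 h', cv_high h2 h', f_W]
        exact ⟨by linarith, by linarith, h1.trans h2, le_rfl, Or.inr (Or.inr ⟨rfl, by linarith⟩)⟩
  refine ⟨key.1, key.2.1, Or.inr ⟨n, key.1, key.2.1, _, key.2.2, ?_⟩⟩
  have hv := adm_v key.2.2
  show m (cy V0 (W n) τ) / cv V0 (W n) τ * cv V0 (W n) τ = m (cy V0 (W n) τ)
  field_simp

theorem cy_range {n : ℕ} {V0 τ : ℝ} (h1 : V n ≤ V0) (h2 : V0 ≤ W n) (h3 : f V0 = 0)
    (h4 : V0 - 1 ≤ τ) (h5 : τ ≤ W n + 1) : -1 ≤ cy V0 (W n) τ ∧ cy V0 (W n) τ ≤ 2 :=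
  ⟨(cur_mem h1 h2 h3 h4 h5).1, (cur_mem h1 h2 h3 h4 h5).2.1⟩

theorem cv_ge {V0 W0 τ : ℝ} : V0 ≤ cv V0 W0 τ := le_max_left _ _

theorem cv_lip (V0 W0 s t : ℝ) : |cv V0 W0 s - cv V0 W0 t| ≤ |s - t| := by
  unfold cv
  refine (abs_max_sub_max_le_max _ _ _ _).trans (max_le (by simp) ?_)
  exact (abs_min_sub_min_le_max _ _ _ _).trans (max_le le_rfl (by simp))

theorem cy_lip (V0 W0 s t : ℝ) : |cy V0 W0 s - cy V0 W0 t| ≤ 4 * |s - t| := by
  have h1 := f_lip (cv V0 W0 s) (cv V0 W0 t)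
  have h2 := cv_lip V0 W0 s t
  have h3 : |min (s - V0) 0 - min (t - V0) 0| ≤ |s - t| := by
    refine (abs_min_sub_min_le_max _ _ _ _).trans (max_le (le_of_eq ?_) (by simp))
    congr 1; ring
  have h4 : |max (s - W0) 0 - max (t - W0) 0| ≤ |s - t| := by
    refine (abs_max_sub_max_le_max _ _ _ _).trans (max_le (le_of_eq ?_) (by simp))
    congr 1; ring
  unfold cy
  have e : f (cv V0 W0 s) + min (s - V0) 0 + max (s - W0) 0 -
      (f (cv V0 W0 t) + min (t - V0) 0 + max (t - W0) 0) =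
      (f (cv V0 W0 s) - f (cv V0 W0 t)) + (min (s - V0) 0 - min (t - V0) 0) +
      (max (s - W0) 0 - max (t - W0) 0) := by ring
  rw [e]
  refine (abs_add_three _ _ _).trans ?_
  linarith

theorem cur_lip {n : ℕ} {V0 s t : ℝ} (h1 : V n ≤ V0) (h2 : V0 ≤ W n) (h3 : f V0 = 0)
    (h4 : V0 - 1 ≤ s) (h5 : s ≤ W n + 1) (h4' : V0 - 1 ≤ t) (h5' : t ≤ W n + 1) :
    dist (cur V0 (W n) s) (cur V0 (W n) t) ≤ 5 * |s - t| := by
  have hn : 1 ≤ n := block_pos (h1.trans h2)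
  have hV := V_ge hn
  have hy := cy_lip V0 (W n) s t
  rw [Prod.dist_eq]
  refine max_le ?_ ?_
  · show |m (cy V0 (W n) s) / cv V0 (W n) s - m (cy V0 (W n) t) / cv V0 (W n) t| ≤ 5 * |s - t|
    set a := cv V0 (W n) s with ha
    set b := cv V0 (W n) t with hb
    have ha2 : 2 ≤ a := by rw [ha]; exact (hV.trans h1).trans cv_ge
    have hb2 : 2 ≤ b := by rw [hb]; exact (hV.trans h1).trans cv_ge
    have hm := m_lip (cy V0 (W n) s) (cy V0 (W n) t)
    have hr := cy_range h1 h2 h3 h4' h5'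
    have hm0 := m_nonneg hr.1 hr.2
    have hm1 := m_le (cy V0 (W n) t)
    have hab : |a - b| ≤ |s - t| := cv_lip _ _ _ _
    set p := m (cy V0 (W n) s)
    set q := m (cy V0 (W n) t)
    have e : p / a - q / b = (p - q) / a + q * (b - a) / (a * b) := by
      field_simp; ring
    rw [e]
    refine (abs_add_le _ _).trans ?_
    have e1 : |(p - q) / a| ≤ 4 * |s - t| := by
      rw [abs_div, abs_of_pos (by linarith : 0 < a)]
      rw [div_le_iff₀ (by linarith)]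
      nlinarith [abs_nonneg (s - t)]
    have e2 : |q * (b - a) / (a * b)| ≤ |s - t| := by
      have hab0 : 0 < a * b := by positivity
      rw [abs_div, abs_of_pos hab0, div_le_iff₀ hab0, abs_mul, abs_of_nonneg hm0,
        abs_sub_comm b a]
      have h6 : q * |a - b| ≤ 1 * |s - t| := by
        exact mul_le_mul hm1 hab (abs_nonneg _) zero_le_one
      have h7 : 1 ≤ a * b := by nlinarith
      nlinarith [abs_nonneg (s - t)]
    linarith
  · show |cy V0 (W n) s - cy V0 (W n) t| ≤ 5 * |s - t|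
    linarith [abs_nonneg (s - t)]

end

end Pool.Agent.X126.Kup
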