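import Pool.Agent.X126.KupA

set_option autoImplicit false

namespace Pool.Agent.X126.Kup

noncomputable section

/-- lower pole -/
def a : S := ⟨((0:ℝ), (-1:ℝ)), ⟨by norm_num, by norm_num, Or.inl rfl⟩⟩
/-- upper pole -/
def b : S := ⟨((0:ℝ), (2:ℝ)), ⟨by norm_num, by norm_num, Or.inl rfl⟩⟩

/-- A path from a Lipschitz map. -/
theorem mkPath {x y : S} (g : unitInterval → S) (L : ℝ) (h0 : g 0 = x) (h1 : g 1 = y)
    (hL : ∀ s t : unitInterval, dist (g s) (g t) ≤ L * |(s : ℝ) - t|) :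
    ∃ p : Path x y, ∀ s t : unitInterval, dist (p s) (p t) ≤ L * |(s : ℝ) - t| := by
  have hc : Continuous g := by
    have : LipschitzWith L.toNNReal g := by
      refine LipschitzWith.of_dist_le_mul fun s t => ?_
      refine (hL s t).trans ?_
      have : dist s t = |(s : ℝ) - t| := rfl
      rw [this]
      exact mul_le_mul_of_nonneg_right (Real.le_coe_toNNReal L) (abs_nonneg _)
    exact this.continuous
  exact ⟨⟨⟨g, hc⟩, h0, h1⟩, hL⟩

theorem reach_cur {n : ℕ} {V0 τe : ℝ} (z : S) (h1 : V n ≤ V0) (h2 : V0 ≤ W n) (h3 : f V0 = 0)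
    (h4 : V0 - 1 ≤ τe) (h5 : τe ≤ W n + 1) (h6 : τe ≤ V0 + 3)
    (hz : cur V0 (W n) τe = z.1) :
    ∃ p : Path a z, ∀ s t : unitInterval, dist (p s) (p t) ≤ 20 * |(s : ℝ) - t| := by
  have hlo : ∀ s : unitInterval, V0 - 1 ≤ V0 - 1 + (s : ℝ) * (τe - V0 + 1) := by
    intro s; nlinarith [s.2.1]
  have hhi : ∀ s : unitInterval, V0 - 1 + (s : ℝ) * (τe - V0 + 1) ≤ W n + 1 := by
    intro s; nlinarith [s.2.2, s.2.1]
  refine mkPath (fun s => ⟨cur V0 (W n) (V0 - 1 + (s : ℝ) * (τe - V0 + 1)),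
    cur_mem h1 h2 h3 (hlo s) (hhi s)⟩) 20 ?_ ?_ ?_
  · apply Subtype.ext
    simp only [Set.Icc.coe_zero, zero_mul, add_zero]
    unfold cur a
    rw [cy_low h2 (by linarith), h3]
    have : (0 : ℝ) + (V0 - 1 - V0) = -1 := by ring
    rw [this, m_neg_one]; simp
  · apply Subtype.ext
    simp only [Set.Icc.coe_one, one_mul]
    rw [← hz]; congr 1; ring
  · intro s t
    have := cur_lip h1 h2 h3 (hlo s) (hhi s) (hlo t) (hhi t)
    refine this.trans ?_
    have e : V0 - 1 + (s : ℝ) * (τe - V0 + 1) - (V0 - 1 + (t : ℝ) * (τe - V0 + 1)) =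
        ((s : ℝ) - t) * (τe - V0 + 1) := by ring
    rw [e, abs_mul, abs_of_nonneg (by linarith : 0 ≤ τe - V0 + 1)]
    nlinarith [abs_nonneg ((s : ℝ) - t)]

theorem reach (z : S) :
    ∃ p : Path a z, ∀ s t : unitInterval, dist (p s) (p t) ≤ 20 * |(s : ℝ) - t| := by
  obtain ⟨⟨x, y⟩, h1, h2, h⟩ := z
  rcases h with h | ⟨n, hn⟩
  · simp only at h h1 h2
    subst h
    have hlo : ∀ s : unitInterval, -1 ≤ -1 + (s : ℝ) * (y + 1) := by
      intro s; nlinarith [s.2.1]
    have hhi : ∀ s : unitInterval, -1 + (s : ℝ) * (y + 1) ≤ 2 := by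
      intro s; nlinarith [s.2.2, s.2.1]
    refine mkPath (fun s => ⟨((0:ℝ), -1 + (s : ℝ) * (y + 1)), ⟨hlo s, hhi s, Or.inl rfl⟩⟩) 20 ?_ ?_ ?_
    · apply Subtype.ext
      unfold a
      simp
    · apply Subtype.ext
      simp
    · intro s t
      have e : dist (⟨((0:ℝ), -1 + (s : ℝ) * (y + 1)), ⟨hlo s, hhi s, Or.inl rfl⟩⟩ : S)
          ⟨((0:ℝ), -1 + (t : ℝ) * (y + 1)), ⟨hlo t, hhi t, Or.inl rfl⟩⟩ =
          max |(0:ℝ) - 0| |(-1 + (s : ℝ) * (y + 1)) - (-1 + (t : ℝ) * (y + 1))| := rfl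
      rw [e]
      refine max_le (by simp) ?_
      have e2 : (-1 + (s : ℝ) * (y + 1)) - (-1 + (t : ℝ) * (y + 1)) = ((s : ℝ) - t) * (y + 1) := by
        ring
      rw [e2, abs_mul, abs_of_nonneg (by linarith : 0 ≤ y + 1)]
      nlinarith [abs_nonneg ((s : ℝ) - t)]
  · have hn' := hn
    obtain ⟨-, -, v, hv, hx⟩ := hn
    simp only at hx hv h1 h2
    have hv2 := adm_v hv
    have hVW : V n ≤ W n := hv.1.trans hv.2.1
    have hx' : x = m y / v := by
      rw [← hx]; field_simp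
    -- the even integer below v
    set k : ℤ := ⌊v / 2⌋ with hk
    have hk1 : (k : ℝ) ≤ v / 2 := Int.floor_le _
    have hk2 : v / 2 < k + 1 := Int.lt_floor_add_one _
    have hk3 : (n : ℤ) ^ 2 ≤ k := by
      rw [hk, Int.le_floor]
      have h9 : 2 * (n : ℝ) ^ 2 ≤ v := hv.1
      push_cast
      linarith
    have hk4 : V n ≤ 2 * (k : ℝ) := by
      have : ((n : ℤ) ^ 2 : ℤ) ≤ (k : ℝ) := by exact_mod_cast hk3
      push_cast at this
      unfold V; linarith
    rcases hv.2.2 with hy | ⟨hf, hy⟩ | ⟨hW, hy⟩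
    · refine reach_cur (n := n) (V0 := 2 * (k : ℝ)) (τe := v) _ hk4 (by linarith [hv.2.1])
        (f_even k) (by linarith) (by linarith [hv.2.1]) (by linarith) ?_
      show cur _ _ _ = (x, y)
      unfold cur
      rw [cy_mid (by linarith) hv.2.1, cv_mid (by linarith) hv.2.1, ← hy, hx']
    · refine reach_cur (n := n) (V0 := v) (τe := v + y) _ hv.1 hv.2.1
        hf (by linarith) (by linarith [hv.2.1]) (by linarith) ?_
      show cur _ _ _ = (x, y)
      unfold cur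
      rw [cy_low hv.2.1 (by linarith), cv_low hv.2.1 (by linarith), hf]
      have : (0 : ℝ) + (v + y - v) = y := by ring
      rw [this, hx']
    · refine reach_cur (n := n) (V0 := 2 * (k : ℝ)) (τe := W n + (y - 1)) _ hk4 (by linarith [hv.2.1])
        (f_even k) (by linarith) (by linarith [hv.2.1]) (by linarith) ?_
      show cur _ _ _ = (x, y)
      have hle : 2 * (k : ℝ) ≤ W n := by linarith [hv.2.1]
      unfold cur
      rw [cy_high hle (by linarith), cv_high hle (by linarith), f_W]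
      have : (1 : ℝ) + (W n + (y - 1) - W n) = y := by ring
      rw [this, hx', hW]

/-- Concatenation of Lipschitz paths. -/
theorem trans_lip {X : Type*} [MetricSpace X] {x y z : X} (p : Path x y) (q : Path y z) (L : ℝ)
    (hL : 0 ≤ L)
    (hp : ∀ s t : unitInterval, dist (p s) (p t) ≤ L * |(s : ℝ) - t|)
    (hq : ∀ s t : unitInterval, dist (q s) (q t) ≤ L * |(s : ℝ) - t|) (s t : unitInterval) :
    dist (p.trans q s) (p.trans q t) ≤ (2 * L) * |(s : ℝ) - t| := by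
  wlog hst : (s : ℝ) ≤ t with H
  · have := H p q L hL hp hq t s (le_of_not_ge hst)
    rwa [dist_comm, abs_sub_comm] at this
  rw [Path.trans_apply, Path.trans_apply]
  rw [abs_sub_comm, abs_of_nonneg (by linarith : (0 : ℝ) ≤ t - s)]
  split_ifs with h1 h2 h2
  · refine (hp _ _).trans (le_of_eq ?_)
    show L * |2 * (s : ℝ) - 2 * t| = _
    rw [abs_sub_comm, abs_of_nonneg (by linarith)]; ring
  · push Not at h2
    have e1 := hp ⟨2 * (s : ℝ), (unitInterval.mul_pos_mem_iff zero_lt_two).2 ⟨s.2.1, h1⟩⟩ 1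
    have e2 := hq 0 ⟨2 * (t : ℝ) - 1, unitInterval.two_mul_sub_one_mem_iff.2 ⟨h2.le, t.2.2⟩⟩
    rw [p.target] at e1
    rw [q.source] at e2
    refine (dist_triangle _ y _).trans ?_
    have e3 : |((⟨2 * (s : ℝ), (unitInterval.mul_pos_mem_iff zero_lt_two).2 ⟨s.2.1, h1⟩⟩ :
        unitInterval) : ℝ) - ((1 : unitInterval) : ℝ)| = 1 - 2 * s := by
      show |2 * (s : ℝ) - 1| = _
      rw [abs_sub_comm, abs_of_nonneg (by linarith)]
    have e4 : |((0 : unitInterval) : ℝ) - ((⟨2 * (t : ℝ) - 1,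
        unitInterval.two_mul_sub_one_mem_iff.2 ⟨h2.le, t.2.2⟩⟩ : unitInterval) : ℝ)| =
        2 * t - 1 := by
      show |(0 : ℝ) - (2 * (t : ℝ) - 1)| = _
      rw [abs_sub_comm, abs_of_nonneg (by linarith)]; ring
    rw [e3] at e1
    rw [e4] at e2
    calc _ ≤ L * (1 - 2 * s) + L * (2 * t - 1) := add_le_add e1 e2
      _ = _ := by ring
  · exfalso; linarith
  · refine (hq _ _).trans (le_of_eq ?_)
    show L * |2 * (s : ℝ) - 1 - (2 * t - 1)| = _
    rw [abs_sub_comm, abs_of_nonneg (by linarith)]; ring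

theorem symm_lip {X : Type*} [MetricSpace X] {x y : X} (p : Path x y) (L : ℝ)
    (hp : ∀ s t : unitInterval, dist (p s) (p t) ≤ L * |(s : ℝ) - t|) (s t : unitInterval) :
    dist (p.symm s) (p.symm t) ≤ L * |(s : ℝ) - t| := by
  rw [Path.symm_apply, Path.symm_apply]
  refine (hp _ _).trans (le_of_eq ?_)
  congr 1
  rw [unitInterval.coe_symm_eq, unitInterval.coe_symm_eq, abs_sub_comm]
  congr 1; ring

instance : PathConnectedSpace S where
  nonempty := ⟨a⟩
  joined x y := by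
    obtain ⟨p, -⟩ := reach x
    obtain ⟨q, -⟩ := reach y
    exact ⟨p.symm.trans q⟩

/-- Lipschitz families are uniform. -/
theorem uniform_of_lip {X : Type*} [MetricSpace X] {x y : X} (L : ℝ) (hL : 0 ≤ L) (ε : ℝ)
    (hε : 0 < ε) :
    ∃ n : ℕ, ∀ p : Path x y, (∀ s t : unitInterval, dist (p s) (p t) ≤ L * |(s : ℝ) - t|) →
      ∃ t : Fin (n + 1) → unitInterval,
              t 0 = 0 ∧ t (Fin.last n) = 1 ∧ StrictMono t ∧
              ∀ i : Fin n, Metric.diam (⇑p '' Set.Icc (t i.castSucc) (t i.succ)) ≤ ε := by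
  obtain ⟨n, hn⟩ := exists_nat_gt (L / ε)
  have hn0 : 0 < n := by
    have : (0 : ℝ) ≤ L / ε := by positivity
    exact_mod_cast this.trans_lt hn
  have hn' : (0 : ℝ) < n := by exact_mod_cast hn0
  refine ⟨n, fun p hp => ⟨fun i => ⟨(i : ℝ) / n, by positivity, ?_⟩, ?_, ?_, ?_, ?_⟩⟩
  · rw [div_le_one hn']
    have : (i : ℕ) ≤ n := by omega
    exact_mod_cast this
  · apply Subtype.ext; simp
  · apply Subtype.ext; simp [hn'.ne']
  · intro i j hij
    show (i : ℝ) / n < (j : ℝ) / n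
    have : (i : ℝ) < (j : ℝ) := by exact_mod_cast hij
    exact div_lt_div_of_pos_right this hn'
  · intro i
    refine Metric.diam_le_of_forall_dist_le hε.le ?_
    rintro _ ⟨s, hs, rfl⟩ _ ⟨t, ht, rfl⟩
    have h1 : ((i : ℕ) : ℝ) / n ≤ s := hs.1
    have h2 : (s : ℝ) ≤ (((i : ℕ) : ℝ) + 1) / n := by
      have := hs.2
      have h := (show (s : ℝ) ≤ ((i.succ : ℕ) : ℝ) / n from this)
      simpa using h
    have h3 : ((i : ℕ) : ℝ) / n ≤ t := ht.1
    have h4 : (t : ℝ) ≤ (((i : ℕ) : ℝ) + 1) / n := by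
      have h := (show (t : ℝ) ≤ ((i.succ : ℕ) : ℝ) / n from ht.2)
      simpa using h
    have h5 : |(s : ℝ) - t| ≤ 1 / n := by
      rw [abs_le]
      have : (((i : ℕ) : ℝ) + 1) / n = ((i : ℕ) : ℝ) / n + 1 / n := by ring
      constructor <;> linarith
    refine (hp s t).trans ?_
    rw [div_lt_iff₀ hε] at hn
    calc L * |(s : ℝ) - t| ≤ L * (1 / n) := mul_le_mul_of_nonneg_left h5 hL
      _ = L / n := by ring
      _ ≤ ε := by rw [div_le_iff₀ hn']; linarith

theorem hyp (u v : S) : ∃ P : Set (Path u v),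
          (∀ ε : ℝ, ε > 0 → ∃ n : ℕ, ∀ p ∈ P, ∃ t : Fin (n + 1) → unitInterval,
              t 0 = 0 ∧ t (Fin.last n) = 1 ∧ StrictMono t ∧
              ∀ i : Fin n, Metric.diam (⇑p '' Set.Icc (t i.castSucc) (t i.succ)) ≤ ε) ∧
          (⋃ p ∈ P, Set.range ⇑p) = Set.univ := by
  refine ⟨{p | ∀ s t : unitInterval, dist (p s) (p t) ≤ 80 * |(s : ℝ) - t|}, ?_, ?_⟩
  · intro ε hε
    obtain ⟨n, hn⟩ := uniform_of_lip (x := u) (y := v) 80 (by norm_num) ε hε
    exact ⟨n, fun p hp => hn p hp⟩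
  · rw [Set.eq_univ_iff_forall]
    intro z
    obtain ⟨pu, hu⟩ := reach u
    obtain ⟨pv, hv⟩ := reach v
    obtain ⟨pz, hz⟩ := reach z
    rw [Set.mem_iUnion₂]
    refine ⟨(pu.symm.trans pz).trans (pz.symm.trans pv), ?_, ?_⟩
    · intro s t
      have h1 := trans_lip _ _ 20 (by norm_num) (symm_lip pu 20 hu) hz
      have h2 := trans_lip _ _ 20 (by norm_num) (symm_lip pz 20 hz) hv
      have h3 := trans_lip _ _ (2 * 20) (by norm_num) h1 h2 s t
      refine h3.trans (le_of_eq ?_)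
      ring
    · rw [Path.trans_range]
      left
      rw [Path.trans_range]
      right
      exact ⟨1, pz.target⟩

end

end Pool.Agent.X126.Kup
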