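import Pool.Agent.X126.LadDefs

set_option autoImplicit false

open MeasureTheory Filter Topology

namespace Pool.Agent.X126.Lad

variable {P : Type} {T : SimpleGraph P}

open Classical in
/-- linear map version -/
noncomputable def opF (T : SimpleGraph P) (hT : ∀ p, {q | T.Adj p q}.Finite) :
    (P →₀ ℝ) →ₗ[ℝ] (P →₀ ℝ) :=
  Finsupp.linearCombination ℝ (fun p => ∑ q ∈ (hT p).toFinset, Finsupp.single q (1 : ℝ))

theorem adjOp_eq (hT : ∀ p, {q | T.Adj p q}.Finite) (f : P → ℝ) (p : P) :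
    adjOp T f p = ∑ q ∈ (hT p).toFinset, f q := by
  unfold adjOp
  rw [finsum_mem_eq_finite_toFinset_sum _ (hT p)]

theorem opF_apply (hT : ∀ p, {q | T.Adj p q}.Finite) (f : P →₀ ℝ) :
    (⇑(opF T hT f) : P → ℝ) = adjOp T f := by
  classical
  funext p
  rw [adjOp_eq hT]
  unfold opF
  rw [Finsupp.linearCombination_apply, Finsupp.sum, Finsupp.finsetSum_apply]
  simp only [Finsupp.smul_apply, Finsupp.finsetSum_apply, smul_eq_mul, Finsupp.single_apply]
  have h1 : ∀ a ∈ f.support, f a * (∑ q ∈ (hT a).toFinset, if q = p then (1 : ℝ) else 0)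
      = if a ∈ (hT p).toFinset then f a else 0 := by
    intro a _
    rw [Finset.sum_ite_eq']
    have h2 : p ∈ (hT a).toFinset ↔ a ∈ (hT p).toFinset := by
      simp only [Set.Finite.mem_toFinset, Set.mem_ofPred_eq]
      exact ⟨fun h => h.symm, fun h => h.symm⟩
    by_cases h : a ∈ (hT p).toFinset
    · rw [if_pos (h2.2 h), if_pos h, mul_one]
    · rw [if_neg (fun h' => h (h2.1 h')), if_neg h, mul_zero]
  rw [Finset.sum_congr rfl h1, ← Finset.sum_filter]
  symm
  refine Finset.sum_subset_zero_on_sdiff (fun a ha => ?_) (fun a ha => ?_) (fun a _ => rfl) |>.symm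
  · exact (Finset.mem_filter.1 ha).2
  · rw [Finset.mem_sdiff, Finset.mem_filter] at ha
    by_contra hne
    exact ha.2 ⟨Finsupp.mem_support_iff.2 hne, ha.1⟩

/-- pairing -/
noncomputable def pr (g : P → ℝ) : (P →₀ ℝ) →ₗ[ℝ] ℝ := Finsupp.linearCombination ℝ g

theorem pr_single (g : P → ℝ) (p : P) : pr g (Finsupp.single p 1) = g p := by
  simp [pr]

theorem pr_op (hT : ∀ p, {q | T.Adj p q}.Finite) (f : P →₀ ℝ) (g : P → ℝ) :
    pr g (opF T hT f) = pr (adjOp T g) f := by
  have : (pr g).comp (opF T hT) = pr (adjOp T g) := by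
    refine Finsupp.lhom_ext' fun p => LinearMap.ext_ring ?_
    simp only [LinearMap.comp_apply, Finsupp.lsingle_apply]
    rw [pr_single, adjOp_eq hT]
    unfold opF
    rw [Finsupp.linearCombination_single, one_smul, map_sum]
    exact Finset.sum_congr rfl fun q _ => pr_single g q
  rw [← this]; rfl

theorem pr_coe (f g : P →₀ ℝ) : pr g f = pr f g := by
  classical
  simp only [pr, Finsupp.linearCombination_apply, Finsupp.sum, smul_eq_mul]
  rw [Finset.sum_subset (s₂ := f.support ∪ g.support) Finset.subset_union_left,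
    Finset.sum_subset (s₁ := g.support) (s₂ := f.support ∪ g.support) Finset.subset_union_right]
  · exact Finset.sum_congr rfl fun x _ => mul_comm _ _
  · intro x _ hx; rw [Finsupp.notMem_support_iff.1 hx, zero_mul]
  · intro x _ hx; rw [Finsupp.notMem_support_iff.1 hx, zero_mul]

theorem pr_sq_le (f : P →₀ ℝ) (φ : P → ℝ) {C : ℝ} (hC : ∀ F : Finset P, ∑ p ∈ F, φ p ^ 2 ≤ C) :
    (pr φ f) ^ 2 ≤ (pr f f) * C := by
  simp only [pr, Finsupp.linearCombination_apply, Finsupp.sum, smul_eq_mul]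
  refine (Finset.sum_mul_sq_le_sq_mul_sq f.support f φ).trans ?_
  have : ∑ p ∈ f.support, f p ^ 2 = ∑ p ∈ f.support, f p * f p :=
    Finset.sum_congr rfl fun x _ => by ring
  rw [this]
  refine mul_le_mul_of_nonneg_left (hC _) (Finset.sum_nonneg fun x _ => mul_self_nonneg _)

/-- The atom lemma. -/
theorem atom (hT : ∀ p, {q | T.Adj p q}.Finite) (o : P) (φ : P → ℝ) (hφ : ∀ p, adjOp T φ p = 0)
    (hφo : φ o = 1) {C : ℝ} (hC : ∀ F : Finset P, ∑ p ∈ F, φ p ^ 2 ≤ C)
    (ν : Measure ℝ) [IsProbabilityMeasure ν] {D : ℝ} (hD : ν (Set.Icc (-D) D)ᶜ = 0)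
    (hm : ∀ n : ℕ, 1 ≤ n → ∫ x, x ^ n ∂ν
      = ((adjOp T)^[n] (⇑(Finsupp.single o (1 : ℝ)))) o) : 1 ≤ ν.real {0} * C := by
  classical
  -- enlarge D to be positive
  obtain ⟨E, hE, hED⟩ : ∃ E : ℝ, 0 < E ∧ ν (Set.Icc (-E) E)ᶜ = 0 := by
    refine ⟨max D 1, by positivity, ?_⟩
    refine measure_mono_null ?_ hD
    refine Set.compl_subset_compl.2 (Set.Icc_subset_Icc ?_ (le_max_left _ _))
    exact neg_le_neg (le_max_left _ _)
  set A := opF T hT with hA
  set B : (P →₀ ℝ) →ₗ[ℝ] (P →₀ ℝ) := LinearMap.id - (E ^ 2)⁻¹ • (A ∘ₗ A) with hB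
  set χ : P →₀ ℝ := Finsupp.single o 1 with hχ
  have hprB : ∀ f g : P →₀ ℝ, pr g (B f) = pr (B g) f := by
    intro f g
    have h1 : ∀ f g : P →₀ ℝ, pr g (A f) = pr (A g) f := by
      intro f g
      rw [hA, pr_op, opF_apply]
    simp only [hB, LinearMap.sub_apply, LinearMap.smul_apply, LinearMap.comp_apply, LinearMap.id_apply,
      map_sub, map_smul]
    rw [h1, h1]
    have h2 : pr (⇑(g - (E ^ 2)⁻¹ • A (A g))) f = pr g f - (E ^ 2)⁻¹ • pr (A (A g)) f := by
      rw [pr_coe, map_sub, map_smul, pr_coe g f, pr_coe (A (A g)) f]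
    rw [h2]
  have hprφ : ∀ f : P →₀ ℝ, pr φ (B f) = pr φ f := by
    intro f
    simp only [hB, LinearMap.sub_apply, LinearMap.smul_apply, LinearMap.comp_apply, LinearMap.id_apply,
      map_sub, map_smul]
    rw [hA, pr_op]
    have : adjOp T φ = 0 := funext hφ
    rw [this]
    simp [pr, Finsupp.linearCombination_apply]
  have hk1 : ∀ k : ℕ, pr φ ((B ^ k) χ) = 1 := by
    intro k
    induction k with
    | zero => simp only [pow_zero, Module.End.one_apply, hχ]; rw [pr_single, hφo]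
    | succ k ih => rw [pow_succ', Module.End.mul_apply, hprφ, ih]
  have hk2 : ∀ (k : ℕ) (g : P →₀ ℝ), pr ((B ^ k) g) χ = pr g ((B ^ k) χ) := by
    intro k
    induction k with
    | zero => intro g; simp
    | succ k ih =>
      intro g
      rw [pow_succ, Module.End.mul_apply, ih, Module.End.mul_apply]
      rw [← hprB]
      congr 1
      rw [← Module.End.mul_apply, ← Module.End.mul_apply, ← pow_succ, ← pow_succ']
  have hk3 : ∀ k : ℕ, 1 ≤ ((B ^ (k + k)) χ) o * C := by
    intro k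
    have h1 := pr_sq_le ((B ^ k) χ) φ hC
    rw [hk1 k] at h1
    have h2 := hk2 k ((B ^ k) χ)
    rw [← h2, hχ, pr_single, ← hχ, ← Module.End.mul_apply, ← pow_add] at h1
    linarith
  -- moments
  have hAn : ∀ n : ℕ, ⇑((A ^ n) χ) = (adjOp T)^[n] χ := by
    intro n
    induction n with
    | zero => rfl
    | succ n ih => rw [pow_succ', Module.End.mul_apply, hA, opF_apply, ← hA, ih, Function.iterate_succ_apply']
  have hint : ∀ q : Polynomial ℝ, ∫ x, q.eval x ∂ν = ((Polynomial.aeval A q) χ) o := by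
    intro q
    have hbd : ∀ n : ℕ, Integrable (fun x : ℝ => x ^ n) ν := by
      intro n
      refine Integrable.of_bound (C := E ^ n) (by fun_prop) ?_
      have : ∀ᵐ x ∂ν, x ∈ Set.Icc (-E) E := by
        rw [ae_iff]; exact hED
      filter_upwards [this] with x hx
      rw [norm_pow]
      exact pow_le_pow_left₀ (norm_nonneg _) (abs_le.2 hx) n
    have hmn : ∀ n : ℕ, ∫ x, x ^ n ∂ν = ((A ^ n) χ) o := by
      intro n
      rcases Nat.eq_zero_or_pos n with h | h
      · subst h
        simp [hχ]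
      · rw [hm n h, hAn]
    induction q using Polynomial.induction_on' with
    | add p q hp hq =>
      simp only [Polynomial.eval_add, map_add, LinearMap.add_apply, Finsupp.add_apply]
      rw [integral_add, hp, hq]
      · have : (fun x => p.eval x) = fun x => ∑ i ∈ p.support, p.coeff i * x ^ i := by
          funext x; rw [Polynomial.eval_eq_sum]; rfl
        rw [this]
        exact integrable_finsetSum _ fun i _ => (hbd i).const_mul _
      · have : (fun x => q.eval x) = fun x => ∑ i ∈ q.support, q.coeff i * x ^ i := by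
          funext x; rw [Polynomial.eval_eq_sum]; rfl
        rw [this]
        exact integrable_finsetSum _ fun i _ => (hbd i).const_mul _
    | monomial n a =>
      simp only [Polynomial.eval_monomial, Polynomial.aeval_monomial]
      rw [integral_const_mul, hmn]
      simp [Algebra.algebraMap_eq_smul_one]
  have hB2 : ∀ n : ℕ, ∫ x, (1 - (E ^ 2)⁻¹ * x ^ 2) ^ n ∂ν = ((B ^ n) χ) o := by
    intro n
    have h1 := hint ((1 - Polynomial.C (E ^ 2)⁻¹ * Polynomial.X ^ 2) ^ n)
    have h2 : (Polynomial.aeval A) ((1 - Polynomial.C (E ^ 2)⁻¹ * Polynomial.X ^ 2) ^ n) = B ^ n := by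
      rw [map_pow]
      congr 1
      simp only [map_sub, map_one, map_mul, map_pow, Polynomial.aeval_C, Polynomial.aeval_X, hB]
      rw [pow_two]
      ext1
      rfl
    rw [h2] at h1
    rw [← h1]
    simp
  have hlim : Tendsto (fun k : ℕ => ∫ x, (1 - (E ^ 2)⁻¹ * x ^ 2) ^ (k + k) ∂ν) atTop
      (𝓝 (∫ x, Set.indicator {(0 : ℝ)} (fun _ => (1 : ℝ)) x ∂ν)) := by
    have hae : ∀ᵐ x ∂ν, x ∈ Set.Icc (-E) E := by
      rw [ae_iff]; exact hED
    refine tendsto_integral_of_dominated_convergence (fun _ => 1) (fun k => by fun_prop)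
      (integrable_const _) (fun k => ?_) ?_
    · filter_upwards [hae] with x hx
      have h1 : 0 ≤ 1 - (E ^ 2)⁻¹ * x ^ 2 := by
        have : x ^ 2 ≤ E ^ 2 := sq_le_sq' hx.1 hx.2
        have h3 : (E ^ 2)⁻¹ * x ^ 2 ≤ (E ^ 2)⁻¹ * E ^ 2 := by gcongr
        rw [inv_mul_cancel₀ (by positivity)] at h3
        linarith
      have h2 : 1 - (E ^ 2)⁻¹ * x ^ 2 ≤ 1 := by
        have : 0 ≤ (E ^ 2)⁻¹ * x ^ 2 := by positivity
        linarith
      rw [Real.norm_of_nonneg (pow_nonneg h1 _)]
      exact pow_le_one₀ h1 h2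
    · filter_upwards [hae] with x hx
      have hx2 : x ^ 2 ≤ E ^ 2 := sq_le_sq' hx.1 hx.2
      have h1 : 0 ≤ 1 - (E ^ 2)⁻¹ * x ^ 2 := by
        have h3 : (E ^ 2)⁻¹ * x ^ 2 ≤ (E ^ 2)⁻¹ * E ^ 2 := by gcongr
        rw [inv_mul_cancel₀ (by positivity)] at h3
        linarith
      by_cases hx0 : x = 0
      · subst hx0
        simp
      · rw [Set.indicator_of_notMem (by simpa using hx0)]
        have h2 : 1 - (E ^ 2)⁻¹ * x ^ 2 < 1 := by
          have : 0 < (E ^ 2)⁻¹ * x ^ 2 := by positivity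
          linarith
        have h3 := tendsto_pow_atTop_nhds_zero_of_lt_one h1 h2
        exact h3.comp (tendsto_atTop_mono (fun k => Nat.le_add_left k k) tendsto_id)
  rw [integral_indicator_const _ (measurableSet_singleton 0), smul_eq_mul, mul_one] at hlim
  have hlim2 := hlim.mul_const C
  refine ge_of_tendsto' hlim2 fun k => ?_
  rw [hB2]
  exact hk3 k

end Pool.Agent.X126.Lad
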