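import Pool.Agent.X126.LadA

set_option autoImplicit false

open MeasureTheory Filter Topology

namespace Pool.Agent.X126.Lad

abbrev C := ℤ × Bool

inductive K | bad | root | S | B1 | A2 | B2 | A3 | B3 | T1 | T0
  deriving DecidableEq

structure Info where
  k : K
  s : ℤ
  a : ℝ

noncomputable def nxt (i : Info) (x y : C) : Info :=
  match i.k with
  | K.bad => ⟨K.bad, 0, 0⟩
  | K.root => if y = (x.1 + 1, x.2) then ⟨K.S, 1, i.a⟩ else
      if y = (x.1 - 1, x.2) then ⟨K.S, -1, i.a⟩ else ⟨K.bad, 0, 0⟩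
  | K.S => if y = (x.1, !x.2) then ⟨K.B1, i.s, -(2 / 3) * i.a⟩ else
      if y = (x.1 + i.s, x.2) then ⟨K.A2, i.s, -(1 / 3) * i.a⟩ else ⟨K.bad, 0, 0⟩
  | K.B1 => if y = (x.1 + i.s, x.2) then ⟨K.S, i.s, i.a⟩ else ⟨K.bad, 0, 0⟩
  | K.A2 => if y = (x.1, !x.2) then ⟨K.B2, i.s, i.a⟩ else
      if y = (x.1 + i.s, x.2) then ⟨K.A3, i.s, i.a⟩ else ⟨K.bad, 0, 0⟩
  | K.B2 => if y = (x.1 - i.s, x.2) then ⟨K.T0, i.s, -i.a⟩ else ⟨K.bad, 0, 0⟩
  | K.A3 => if y = (x.1, !x.2) then ⟨K.B3, i.s, -i.a⟩ else ⟨K.bad, 0, 0⟩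
  | K.B3 => if y = (x.1 + i.s, x.2) then ⟨K.S, i.s, i.a⟩ else
      if y = (x.1 - i.s, x.2) then ⟨K.T1, i.s, i.a⟩ else ⟨K.bad, 0, 0⟩
  | K.T1 => if y = (x.1 - i.s, x.2) then ⟨K.T0, i.s, -i.a⟩ else ⟨K.bad, 0, 0⟩
  | K.T0 => ⟨K.bad, 0, 0⟩

noncomputable def info : List C → Info
  | [] => ⟨K.bad, 0, 0⟩
  | [_] => ⟨K.root, 1, 1⟩
  | y :: x :: l => nxt (info (x :: l)) x y

def ev : K → Bool
  | K.root | K.B1 | K.A2 | K.B3 | K.T0 => true
  | _ => false

def od : K → Bool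
  | K.S | K.B2 | K.A3 | K.T1 => true
  | _ => false

noncomputable def phi (i : Info) : ℝ := if ev i.k then i.a else 0

noncomputable def wt : K → ℝ
  | K.bad => 0 | K.root => 5 | K.S => 2 | K.B1 => 3 | K.A2 => 6 | K.B2 => 1 | K.A3 => 4
  | K.B3 => 4 | K.T1 => 1 | K.T0 => 1

noncomputable def en (i : Info) : ℝ := wt i.k * i.a ^ 2

theorem en_nonneg (i : Info) : 0 ≤ en i := by
  unfold en
  refine mul_nonneg ?_ (sq_nonneg _)
  cases i.k <;> simp [wt]

theorem sum_ite2 (F : Finset C) (c1 c2 : C) (e1 e2 : ℝ) (h1 : 0 ≤ e1) (h2 : 0 ≤ e2) :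
    ∑ y ∈ F, (if y = c1 then e1 else if y = c2 then e2 else 0) ≤ e1 + e2 := by
  have h : ∀ y ∈ F, (if y = c1 then e1 else if y = c2 then e2 else 0)
      ≤ (if y = c1 then e1 else 0) + (if y = c2 then e2 else 0) := by
    intro y _
    split_ifs <;> linarith
  refine (Finset.sum_le_sum h).trans ?_
  rw [Finset.sum_add_distrib, Finset.sum_ite_eq', Finset.sum_ite_eq']
  split_ifs <;> linarith

theorem sum_ite1 (F : Finset C) (c1 : C) (e1 : ℝ) (h1 : 0 ≤ e1) :
    ∑ y ∈ F, (if y = c1 then e1 else 0) ≤ e1 := by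
  rw [Finset.sum_ite_eq']
  split_ifs <;> linarith

theorem en_sum (F : Finset C) (i : Info) (x : C) :
    phi i ^ 2 + ∑ y ∈ F, en (nxt i x y) ≤ en i := by
  obtain ⟨k, s, a⟩ := i
  cases k
  · simp [phi, nxt, en, wt, ev]
  · have h := sum_ite2 F (x.1 + 1, x.2) (x.1 - 1, x.2) (2 * a ^ 2) (2 * a ^ 2) (by positivity) (by positivity)
    have e : ∀ y, en (nxt ⟨K.root, s, a⟩ x y) = if y = (x.1 + 1, x.2) then 2 * a ^ 2 else
        if y = (x.1 - 1, x.2) then 2 * a ^ 2 else 0 := by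
      intro y; simp only [nxt]; split_ifs <;> simp [en, wt]
    rw [Finset.sum_congr rfl (fun y _ => e y)]
    have hp : phi ⟨K.root, s, a⟩ = a := by simp [phi, ev]
    have he : en ⟨K.root, s, a⟩ = 5 * a ^ 2 := rfl
    rw [hp, he]
    linarith
  · have h := sum_ite2 F (x.1, !x.2) (x.1 + s, x.2) (3 * (-(2 / 3) * a) ^ 2) (6 * (-(1 / 3) * a) ^ 2)
      (by positivity) (by positivity)
    have e : ∀ y, en (nxt ⟨K.S, s, a⟩ x y) = if y = (x.1, !x.2) then 3 * (-(2 / 3) * a) ^ 2 else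
        if y = (x.1 + s, x.2) then 6 * (-(1 / 3) * a) ^ 2 else 0 := by
      intro y; simp only [nxt]; split_ifs <;> simp [en, wt]
    rw [Finset.sum_congr rfl (fun y _ => e y)]
    have hp : phi ⟨K.S, s, a⟩ = 0 := by simp [phi, ev]
    have he : en ⟨K.S, s, a⟩ = 2 * a ^ 2 := rfl
    rw [hp, he]
    linarith
  · have h := sum_ite1 F (x.1 + s, x.2) (2 * a ^ 2) (by positivity)
    have e : ∀ y, en (nxt ⟨K.B1, s, a⟩ x y) = if y = (x.1 + s, x.2) then 2 * a ^ 2 else 0 := by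
      intro y; simp only [nxt]; split_ifs <;> simp [en, wt]
    rw [Finset.sum_congr rfl (fun y _ => e y)]
    have hp : phi ⟨K.B1, s, a⟩ = a := by simp [phi, ev]
    have he : en ⟨K.B1, s, a⟩ = 3 * a ^ 2 := rfl
    rw [hp, he]
    linarith
  · have h := sum_ite2 F (x.1, !x.2) (x.1 + s, x.2) (1 * a ^ 2) (4 * a ^ 2) (by positivity) (by positivity)
    have e : ∀ y, en (nxt ⟨K.A2, s, a⟩ x y) = if y = (x.1, !x.2) then 1 * a ^ 2 else
        if y = (x.1 + s, x.2) then 4 * a ^ 2 else 0 := by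
      intro y; simp only [nxt]; split_ifs <;> simp [en, wt]
    rw [Finset.sum_congr rfl (fun y _ => e y)]
    have hp : phi ⟨K.A2, s, a⟩ = a := by simp [phi, ev]
    have he : en ⟨K.A2, s, a⟩ = 6 * a ^ 2 := rfl
    rw [hp, he]
    linarith
  · have h := sum_ite1 F (x.1 - s, x.2) (1 * (-a) ^ 2) (by positivity)
    have e : ∀ y, en (nxt ⟨K.B2, s, a⟩ x y) = if y = (x.1 - s, x.2) then 1 * (-a) ^ 2 else 0 := by
      intro y; simp only [nxt]; split_ifs <;> simp [en, wt]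
    rw [Finset.sum_congr rfl (fun y _ => e y)]
    have hp : phi ⟨K.B2, s, a⟩ = 0 := by simp [phi, ev]
    have he : en ⟨K.B2, s, a⟩ = 1 * a ^ 2 := rfl
    rw [hp, he]
    linarith
  · have h := sum_ite1 F (x.1, !x.2) (4 * (-a) ^ 2) (by positivity)
    have e : ∀ y, en (nxt ⟨K.A3, s, a⟩ x y) = if y = (x.1, !x.2) then 4 * (-a) ^ 2 else 0 := by
      intro y; simp only [nxt]; split_ifs <;> simp [en, wt]
    rw [Finset.sum_congr rfl (fun y _ => e y)]
    have hp : phi ⟨K.A3, s, a⟩ = 0 := by simp [phi, ev]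
    have he : en ⟨K.A3, s, a⟩ = 4 * a ^ 2 := rfl
    rw [hp, he]
    linarith
  · have h := sum_ite2 F (x.1 + s, x.2) (x.1 - s, x.2) (2 * a ^ 2) (1 * a ^ 2) (by positivity) (by positivity)
    have e : ∀ y, en (nxt ⟨K.B3, s, a⟩ x y) = if y = (x.1 + s, x.2) then 2 * a ^ 2 else
        if y = (x.1 - s, x.2) then 1 * a ^ 2 else 0 := by
      intro y; simp only [nxt]; split_ifs <;> simp [en, wt]
    rw [Finset.sum_congr rfl (fun y _ => e y)]
    have hp : phi ⟨K.B3, s, a⟩ = a := by simp [phi, ev]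
    have he : en ⟨K.B3, s, a⟩ = 4 * a ^ 2 := rfl
    rw [hp, he]
    linarith
  · have h := sum_ite1 F (x.1 - s, x.2) (1 * (-a) ^ 2) (by positivity)
    have e : ∀ y, en (nxt ⟨K.T1, s, a⟩ x y) = if y = (x.1 - s, x.2) then 1 * (-a) ^ 2 else 0 := by
      intro y; simp only [nxt]; split_ifs <;> simp [en, wt]
    rw [Finset.sum_congr rfl (fun y _ => e y)]
    have hp : phi ⟨K.T1, s, a⟩ = 0 := by simp [phi, ev]
    have he : en ⟨K.T1, s, a⟩ = 1 * a ^ 2 := rfl
    rw [hp, he]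
    linarith
  · simp [phi, nxt, en, wt, ev]

def N3 (x : C) : Finset C := {(x.1 + 1, x.2), (x.1 - 1, x.2), (x.1, !x.2)}

theorem mem_N3 (x y : C) : y ∈ N3 x ↔ ladder.Adj y x := by
  obtain ⟨x1, x2⟩ := x
  obtain ⟨y1, y2⟩ := y
  simp only [N3, Finset.mem_insert, Finset.mem_singleton, Prod.mk.injEq, ladder]
  constructor
  · rintro (⟨h1, h2⟩ | ⟨h1, h2⟩ | ⟨h1, h2⟩)
    · exact Or.inr ⟨h2, Or.inr h1⟩
    · exact Or.inr ⟨h2, Or.inl (by omega)⟩
    · refine Or.inl ⟨h1, ?_⟩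
      subst h2; simp
  · rintro (⟨h1, h2⟩ | ⟨h1, h2 | h2⟩)
    · refine Or.inr (Or.inr ⟨h1, ?_⟩)
      cases x2 <;> cases y2 <;> simp_all
    · exact Or.inr (Or.inl ⟨by omega, h1⟩)
    · exact Or.inl ⟨h2, h1⟩

theorem sum_N3 (F : C → ℝ) (x : C) {s : ℤ} (hs : s = 1 ∨ s = -1) :
    ∑ y ∈ N3 x, F y = F (x.1 + s, x.2) + F (x.1 - s, x.2) + F (x.1, !x.2) := by
  unfold N3
  rw [Finset.sum_insert, Finset.sum_insert, Finset.sum_singleton]
  · rcases hs with h | h
    · subst h; ring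
    · subst h
      rw [sub_neg_eq_add, ← sub_eq_add_neg]; ring
  · simp
  · simp only [Finset.mem_insert, Finset.mem_singleton, Prod.mk.injEq]
    omega

/-- geometry of an `S` state -/
def SG (u : C) (s : ℤ) (x : C) (l : List C) : Prop :=
  (s = 1 ∨ s = -1) ∧ 0 < s * (x.1 - u.1) ∧ (∀ y ∈ l, s * (y.1 - u.1) < s * (x.1 - u.1)) ∧
    ((x.1 - s, !x.2) ∈ l ∨ (x.1 - s, !x.2) = u) ∧ (x.1 - s, x.2) ∈ l

def Geo (u : C) (i : Info) (l : List C) : Prop :=
  match i.k with
  | K.bad => True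
  | K.root => l = [(u.1, !u.2)]
  | K.S => ∃ x l', l = x :: l' ∧ SG u i.s x l'
  | K.B1 => ∃ x l', l = (x.1, !x.2) :: x :: l' ∧ SG u i.s x l'
  | K.A2 => ∃ x l', l = (x.1 + i.s, x.2) :: x :: l' ∧ SG u i.s x l'
  | K.B2 => ∃ x l', l = (x.1 + i.s, !x.2) :: (x.1 + i.s, x.2) :: x :: l' ∧ SG u i.s x l'
  | K.A3 => ∃ x l', l = (x.1 + i.s + i.s, x.2) :: (x.1 + i.s, x.2) :: x :: l' ∧ SG u i.s x l'
  | K.B3 => ∃ x l', l = (x.1 + i.s + i.s, !x.2) :: (x.1 + i.s + i.s, x.2) :: (x.1 + i.s, x.2) :: x :: l' ∧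
      SG u i.s x l'
  | K.T1 => ∃ x l', l = (x.1 + i.s, !x.2) :: (x.1 + i.s + i.s, !x.2) :: (x.1 + i.s + i.s, x.2) ::
      (x.1 + i.s, x.2) :: x :: l' ∧ SG u i.s x l'
  | K.T0 => ∃ x l', (l = (x.1, !x.2) :: (x.1 + i.s, !x.2) :: (x.1 + i.s, x.2) :: x :: l' ∨
      l = (x.1, !x.2) :: (x.1 + i.s, !x.2) :: (x.1 + i.s + i.s, !x.2) :: (x.1 + i.s + i.s, x.2) ::
      (x.1 + i.s, x.2) :: x :: l') ∧ SG u i.s x l'

theorem SG_step {u : C} {s : ℤ} {x : C} {l : List C} (h : SG u s x l) :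
    SG u s (x.1 + s, !x.2) ((x.1, !x.2) :: x :: l) := by
  obtain ⟨hs, h1, h2, h3, h4⟩ := h
  have hss : s * s = 1 := by rcases hs with h | h <;> subst h <;> norm_num
  have e1 : s * (x.1 + s - u.1) = s * (x.1 - u.1) + 1 := by linear_combination hss
  refine ⟨hs, ?_, ?_, ?_, ?_⟩
  · simp only [e1]; omega
  · intro y hy
    simp only [e1]
    simp only [List.mem_cons] at hy
    rcases hy with rfl | rfl | hy
    · simp only; omega
    · omega
    · have := h2 y hy; omega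
  · left
    simp only [Bool.not_not, add_sub_cancel_right]
    simp
  · simp

theorem SG_step3 {u : C} {s : ℤ} {x : C} {l : List C} (h : SG u s x l) :
    SG u s (x.1 + s + s + s, !x.2) ((x.1 + s + s, !x.2) :: (x.1 + s + s, x.2) :: (x.1 + s, x.2) :: x :: l) := by
  obtain ⟨hs, h1, h2, h3, h4⟩ := h
  have hss : s * s = 1 := by rcases hs with h | h <;> subst h <;> norm_num
  have e1 : s * (x.1 + s - u.1) = s * (x.1 - u.1) + 1 := by linear_combination hss
  have e2 : s * (x.1 + s + s - u.1) = s * (x.1 - u.1) + 2 := by linear_combination 2 * hss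
  have e3 : s * (x.1 + s + s + s - u.1) = s * (x.1 - u.1) + 3 := by linear_combination 3 * hss
  refine ⟨hs, ?_, ?_, ?_, ?_⟩
  · simp only [e3]; omega
  · intro y hy
    simp only [e3]
    simp only [List.mem_cons] at hy
    rcases hy with rfl | rfl | rfl | rfl | hy
    · simp only [e2]; omega
    · simp only [e2]; omega
    · simp only [e1]; omega
    · omega
    · have := h2 y hy; omega
  · left
    simp only [Bool.not_not, add_sub_cancel_right]
    simp
  · simp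

/-- a valid path -/
def Valid (u : C) (l : List C) : Prop := l ∈ Paths (del ladder u) (u.1, !u.2)

theorem v_ne (u : C) : ((u.1, !u.2) : C) ≠ u := by
  obtain ⟨u1, u2⟩ := u
  simp

theorem valid_cons {u x y : C} {l : List C} :
    Valid u (y :: x :: l) ↔ Valid u (x :: l) ∧ (del ladder u).Adj y x ∧ y ∉ x :: l := by
  unfold Valid Paths
  simp only [Set.mem_ofPred_eq, List.getLast?_cons_cons, List.isChain_cons_cons, List.nodup_cons]
  tauto

theorem valid_single {u x : C} (h : Valid u [x]) : x = (u.1, !u.2) := by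
  have := h.1
  simpa using this

theorem geo_nxt {u : C} {i : Info} {x y : C} {l : List C} (h : Geo u i (x :: l)) :
    Geo u (nxt i x y) (y :: x :: l) := by
  obtain ⟨k, s, a⟩ := i
  cases k
  · trivial
  · simp only [nxt]
    split_ifs with h1 h2
    · simp only [Geo, List.cons.injEq] at h
      obtain ⟨rfl, rfl⟩ := h
      subst h1
      refine ⟨_, _, rfl, ?_⟩
      refine ⟨Or.inl rfl, by simp, by simp, by simp, by simp⟩
    · simp only [Geo, List.cons.injEq] at h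
      obtain ⟨rfl, rfl⟩ := h
      subst h2
      refine ⟨_, _, rfl, ?_⟩
      refine ⟨Or.inr rfl, by simp, by simp, by simp, by simp⟩
    · trivial
  · simp only [nxt]
    split_ifs with h1 h2
    · obtain ⟨x', l', h, hs⟩ := h
      simp only [List.cons.injEq] at h
      obtain ⟨rfl, rfl⟩ := h
      subst h1
      exact ⟨_, _, rfl, hs⟩
    · obtain ⟨x', l', h, hs⟩ := h
      simp only [List.cons.injEq] at h
      obtain ⟨rfl, rfl⟩ := h
      subst h2
      exact ⟨_, _, rfl, hs⟩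
    · trivial
  · simp only [nxt]
    split_ifs with h1
    · obtain ⟨x', l', h, hs⟩ := h
      simp only [List.cons.injEq] at h
      obtain ⟨rfl, rfl⟩ := h
      subst h1
      exact ⟨_, _, rfl, SG_step hs⟩
    · trivial
  · simp only [nxt]
    split_ifs with h1 h2
    · obtain ⟨x', l', h, hs⟩ := h
      simp only [List.cons.injEq] at h
      obtain ⟨rfl, rfl⟩ := h
      subst h1
      exact ⟨_, _, rfl, hs⟩
    · obtain ⟨x', l', h, hs⟩ := h
      simp only [List.cons.injEq] at h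
      obtain ⟨rfl, rfl⟩ := h
      subst h2
      exact ⟨_, _, rfl, hs⟩
    · trivial
  · simp only [nxt]
    split_ifs with h1
    · obtain ⟨x', l', h, hs⟩ := h
      simp only [List.cons.injEq] at h
      obtain ⟨rfl, rfl⟩ := h
      subst h1
      refine ⟨x', l', Or.inl ?_, hs⟩
      simp only [add_sub_cancel_right]
    · trivial
  · simp only [nxt]
    split_ifs with h1
    · obtain ⟨x', l', h, hs⟩ := h
      simp only [List.cons.injEq] at h
      obtain ⟨rfl, rfl⟩ := h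
      subst h1
      exact ⟨_, _, rfl, hs⟩
    · trivial
  · simp only [nxt]
    split_ifs with h1 h2
    · obtain ⟨x', l', h, hs⟩ := h
      simp only [List.cons.injEq] at h
      obtain ⟨rfl, rfl⟩ := h
      subst h1
      exact ⟨_, _, rfl, SG_step3 hs⟩
    · obtain ⟨x', l', h, hs⟩ := h
      simp only [List.cons.injEq] at h
      obtain ⟨rfl, rfl⟩ := h
      subst h2
      refine ⟨x', l', ?_, hs⟩
      simp only [add_sub_cancel_right]
    · trivial
  · simp only [nxt]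
    split_ifs with h1
    · obtain ⟨x', l', h, hs⟩ := h
      simp only [List.cons.injEq] at h
      obtain ⟨rfl, rfl⟩ := h
      subst h1
      refine ⟨x', l', Or.inr ?_, hs⟩
      simp only [add_sub_cancel_right]
    · trivial
  · trivial

theorem geo_info {u : C} : ∀ l : List C, Valid u l → Geo u (info l) l := by
  intro l
  induction l with
  | nil => intro _; trivial
  | cons x l ih =>
    intro h
    cases l with
    | nil =>
      have := valid_single h
      subst this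
      exact rfl
    | cons y l =>
      exact geo_nxt (ih (valid_cons.1 h).1)

end Pool.Agent.X126.Lad
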