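import Pool.Agent.X126.LadB

set_option autoImplicit false

open MeasureTheory Filter Topology

namespace Pool.Agent.X126.Lad

theorem mem_N3' (x y : C) {s : ℤ} (hs : s = 1 ∨ s = -1) :
    y ∈ N3 x ↔ y = (x.1 + s, x.2) ∨ y = (x.1 - s, x.2) ∨ y = (x.1, !x.2) := by
  unfold N3
  simp only [Finset.mem_insert, Finset.mem_singleton]
  rcases hs with h | h
  · subst h; rfl
  · subst h
    rw [sub_neg_eq_add, ← sub_eq_add_neg]
    tauto

theorem lemN {u : C} {i : Info} {x y : C} {l : List C} (h : Geo u i (x :: l)) (he : ev i.k = true)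
    (hy : y ∈ N3 x) (hyl : y ∉ x :: l) (hyu : y ≠ u) : (nxt i x y).k ≠ K.bad := by
  obtain ⟨k, s, a⟩ := i
  cases k
  · simp [ev] at he
  · simp only [Geo, List.cons.injEq] at h
    obtain ⟨rfl, rfl⟩ := h
    rw [mem_N3' _ _ (Or.inl rfl)] at hy
    simp only [nxt]
    rcases hy with rfl | rfl | rfl
    · simp
    · simp only
      rw [if_neg, if_pos trivial]
      · simp
      · simp only [Prod.mk.injEq, not_and]; omega
    · exfalso; apply hyu; simp
  · simp [ev] at he
  · obtain ⟨x', l', h, hs, h1, h2, h3, h4⟩ := h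
    have hs0 : s = 1 ∨ s = -1 := hs
    simp only [List.cons.injEq] at h
    obtain ⟨rfl, rfl⟩ := h
    rw [mem_N3' _ _ hs] at hy
    simp only [nxt]
    rcases hy with rfl | rfl | rfl
    · simp
    · exfalso
      rcases h3 with h3 | h3
      · exact hyl (by simp [h3])
      · exact hyu h3
    · exfalso; apply hyl; simp
  · obtain ⟨x', l', h, hs, h1, h2, h3, h4⟩ := h
    have hs0 : s = 1 ∨ s = -1 := hs
    simp only [List.cons.injEq] at h
    obtain ⟨rfl, rfl⟩ := h
    rw [mem_N3' _ _ hs] at hy
    simp only [nxt]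
    rcases hy with rfl | rfl | rfl
    · simp only
      rw [if_neg, if_pos trivial]
      · simp
      · simp
    · exfalso; apply hyl; simp
    · simp
  · simp [ev] at he
  · simp [ev] at he
  · obtain ⟨x', l', h, hs, h1, h2, h3, h4⟩ := h
    have hs0 : s = 1 ∨ s = -1 := hs
    simp only [List.cons.injEq] at h
    obtain ⟨rfl, rfl⟩ := h
    rw [mem_N3' _ _ hs] at hy
    simp only [nxt]
    rcases hy with rfl | rfl | rfl
    · simp
    · simp only
      rw [if_neg, if_pos trivial]
      · simp
      · simp only [Prod.mk.injEq, not_and]; omega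
    · exfalso; apply hyl; simp
  · simp [ev] at he
  · obtain ⟨x', l', h, hs, h1, h2, h3, h4⟩ := h
    have hs0 : s = 1 ∨ s = -1 := hs
    simp only [List.cons.injEq] at h
    rw [mem_N3' _ _ hs] at hy
    exfalso
    rcases h with ⟨rfl, rfl⟩ | ⟨rfl, rfl⟩
    · rcases hy with rfl | rfl | rfl
      · apply hyl; simp
      · rcases h3 with h3 | h3
        · exact hyl (by simp [h3])
        · exact hyu h3
      · apply hyl; simp
    · rcases hy with rfl | rfl | rfl
      · apply hyl; simp
      · rcases h3 with h3 | h3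
        · exact hyl (by simp [h3])
        · exact hyu h3
      · apply hyl; simp

theorem SG_free {u : C} {s : ℤ} {x : C} {l : List C} (h : SG u s x l) (b : Bool) (t : ℤ) (ht : 0 ≤ t)
    (hb : t = 0 → b = !x.2) : ((x.1 + t * s, b) : C) ∉ x :: l ∧ ((x.1 + t * s, b) : C) ≠ u := by
  obtain ⟨hs, h1, h2, h3, h4⟩ := h
  have hss : s * s = 1 := by rcases hs with h | h <;> subst h <;> norm_num
  have e1 : s * (x.1 + t * s - u.1) = s * (x.1 - u.1) + t := by linear_combination t * hss
  constructor
  · intro hm
    rw [List.mem_cons] at hm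
    rcases hm with hm | hm
    · have h5 : t * s = 0 := by
        have := congrArg Prod.fst hm
        simp only at this
        omega
      have h6 : t = 0 := by
        rcases hs with h | h <;> subst h <;> omega
      have h7 := congrArg Prod.snd hm
      simp only at h7
      rw [hb h6] at h7
      simp at h7
    · have := h2 _ hm
      simp only [e1] at this
      omega
  · intro hm
    have := congrArg Prod.fst hm
    simp only at this
    have h6 : s * (x.1 + t * s - u.1) = 0 := by rw [this]; ring
    rw [e1] at h6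
    omega

theorem lemV {u : C} {i : Info} {x : C} {l : List C} (h : Geo u i (x :: l)) (ho : od i.k = true) :
    ∑ y ∈ N3 x, (if y ∉ x :: l ∧ y ≠ u then phi (nxt i x y) else 0) = -i.a := by
  classical
  obtain ⟨k, s, a⟩ := i
  cases k
  · simp [od] at ho
  · simp [od] at ho
  · obtain ⟨x', l', h, hSG⟩ := h
    have hs : s = 1 ∨ s = -1 := hSG.1
    change SG u s _ _ at hSG
    simp only [List.cons.injEq] at h
    obtain ⟨rfl, rfl⟩ := h
    rw [sum_N3 _ _ hs]
    have f1 := SG_free hSG x.2 1 (by norm_num) (by norm_num)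
    have f2 := SG_free hSG (!x.2) 0 (by norm_num) (fun _ => rfl)
    rw [one_mul] at f1
    rw [zero_mul, add_zero] at f2
    rw [if_pos f1, if_pos f2]
    have n1 : ¬ ((x.1 + s, x.2) : C) = (x.1, !x.2) := by simp
    have n2 : ¬ ((x.1 - s, x.2) : C) = (x.1, !x.2) := by simp
    have n3 : ¬ ((x.1 - s, x.2) : C) = (x.1 + s, x.2) := by
      simp only [Prod.mk.injEq, and_true]; omega
    simp only [nxt, if_neg n1, if_neg n2, if_neg n3, phi, ev, if_pos]
    simp
    ring
  · simp [od] at ho
  · simp [od] at ho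
  · obtain ⟨x', l', h, hSG⟩ := h
    have hs : s = 1 ∨ s = -1 := hSG.1
    change SG u s _ _ at hSG
    simp only [List.cons.injEq] at h
    obtain ⟨rfl, rfl⟩ := h
    rw [sum_N3 _ _ hs]
    have f2 := SG_free hSG (!x'.2) 0 (by norm_num) (fun _ => rfl)
    rw [zero_mul, add_zero] at f2
    have n1 : ¬ ((x'.1 + s + s, !x'.2) : C) = (x'.1 + s - s, !x'.2) := by
      simp only [Prod.mk.injEq, and_true]; omega
    have n2 : ¬ ((x'.1 + s, !!x'.2) : C) = (x'.1 + s - s, !x'.2) := by simp
    have f3 : ((x'.1 + s - s, !x'.2) : C) ∉ (x'.1 + s, !x'.2) :: (x'.1 + s, x'.2) :: x' :: l' ∧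
        ((x'.1 + s - s, !x'.2) : C) ≠ u := by
      rw [add_sub_cancel_right]
      refine ⟨?_, f2.2⟩
      rw [List.mem_cons, List.mem_cons]
      rintro (h | h | h)
      · have := congrArg Prod.fst h; simp only at this; omega
      · have := congrArg Prod.fst h; simp only at this; omega
      · exact f2.1 h
    simp only [nxt]
    rw [if_neg n1, if_neg n2, if_pos trivial, if_pos f3]
    simp [phi, ev]
  · obtain ⟨x', l', h, hSG⟩ := h
    have hs : s = 1 ∨ s = -1 := hSG.1
    change SG u s _ _ at hSG
    simp only [List.cons.injEq] at h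
    obtain ⟨rfl, rfl⟩ := h
    rw [sum_N3 _ _ hs]
    have f2 := SG_free hSG (!x'.2) 2 (by norm_num) (by norm_num)
    have e2 : x'.1 + 2 * s = x'.1 + s + s := by ring
    rw [e2] at f2
    have n1 : ¬ ((x'.1 + s + s + s, x'.2) : C) = (x'.1 + s + s, !x'.2) := by simp
    have n2 : ¬ ((x'.1 + s + s - s, x'.2) : C) = (x'.1 + s + s, !x'.2) := by simp
    have f3 : ((x'.1 + s + s, !x'.2) : C) ∉ (x'.1 + s + s, x'.2) :: (x'.1 + s, x'.2) :: x' :: l' ∧
        ((x'.1 + s + s, !x'.2) : C) ≠ u := by
      refine ⟨?_, f2.2⟩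
      rw [List.mem_cons, List.mem_cons]
      rintro (h | h | h)
      · have := congrArg Prod.snd h; simp at this
      · have := congrArg Prod.fst h; simp only at this; omega
      · exact f2.1 h
    simp only [nxt]
    rw [if_neg n1, if_neg n2, if_pos trivial, if_pos f3]
    simp [phi, ev]
  · simp [od] at ho
  · obtain ⟨x', l', h, hSG⟩ := h
    have hs : s = 1 ∨ s = -1 := hSG.1
    change SG u s _ _ at hSG
    simp only [List.cons.injEq] at h
    obtain ⟨rfl, rfl⟩ := h
    rw [sum_N3 _ _ hs]
    have f2 := SG_free hSG (!x'.2) 0 (by norm_num) (fun _ => rfl)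
    rw [zero_mul, add_zero] at f2
    have n1 : ¬ ((x'.1 + s + s, !x'.2) : C) = (x'.1 + s - s, !x'.2) := by
      simp only [Prod.mk.injEq, and_true]; omega
    have n2 : ¬ ((x'.1 + s, !!x'.2) : C) = (x'.1 + s - s, !x'.2) := by simp
    have f3 : ((x'.1 + s - s, !x'.2) : C) ∉ (x'.1 + s, !x'.2) :: (x'.1 + s + s, !x'.2) ::
        (x'.1 + s + s, x'.2) :: (x'.1 + s, x'.2) :: x' :: l' ∧
        ((x'.1 + s - s, !x'.2) : C) ≠ u := by
      rw [add_sub_cancel_right]
      refine ⟨?_, f2.2⟩
      rw [List.mem_cons, List.mem_cons, List.mem_cons, List.mem_cons]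
      rintro (h | h | h | h | h)
      · have := congrArg Prod.fst h; simp only at this; omega
      · have := congrArg Prod.fst h; simp only at this; omega
      · have := congrArg Prod.fst h; simp only at this; omega
      · have := congrArg Prod.fst h; simp only at this; omega
      · exact f2.1 h
    simp only [nxt]
    rw [if_neg n1, if_neg n2, if_pos trivial, if_pos f3]
    simp [phi, ev]
  · simp [od] at ho

theorem phi_nxt_of_ev {i : Info} (h : ev i.k = true ∨ i.k = K.bad) (x y : C) : phi (nxt i x y) = 0 := by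
  obtain ⟨k, s, a⟩ := i
  cases k <;> simp only [ev] at h <;> simp only [nxt] <;> (try split_ifs) <;> simp_all [phi, ev]

theorem nxt_of_ev {i : Info} (h : ev i.k = true) (x y : C) (hb : (nxt i x y).k ≠ K.bad) :
    od (nxt i x y).k = true ∧ (nxt i x y).a = i.a := by
  obtain ⟨k, s, a⟩ := i
  cases k <;> simp only [ev] at h <;> simp only [nxt] at hb ⊢ <;> (try split_ifs at hb ⊢) <;>
    simp_all [od]

theorem nxt_of_od {i : Info} (h : ev i.k = false) (x y : C) :
    ev (nxt i x y).k = true ∨ (nxt i x y).k = K.bad := by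
  obtain ⟨k, s, a⟩ := i
  cases k <;> simp only [ev] at h <;> simp only [nxt] <;> (try split_ifs) <;> simp_all [ev]

/-- The eigenvector equation. -/
theorem eig {u x : C} {l : List C} (h : Valid u (x :: l)) :
    (if l = [] then 0 else phi (info l)) +
      ∑ y ∈ N3 x, (if y ∉ x :: l ∧ y ≠ u then phi (info (y :: x :: l)) else 0) = 0 := by
  cases l with
  | nil =>
    rw [if_pos rfl, zero_add]
    refine Finset.sum_eq_zero fun y _ => ?_
    split_ifs
    · exact phi_nxt_of_ev (Or.inl rfl) x y
    · rfl
  | cons x' l' =>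
    rw [if_neg (by simp)]
    have hv := valid_cons.1 h
    have hgeo' := geo_info _ hv.1
    have hgeo := geo_info _ h
    by_cases he : ev (info (x' :: l')).k = true
    · have hb := lemN hgeo' he ((mem_N3 _ _).2 hv.2.1.1) hv.2.2 hv.2.1.2.1
      obtain ⟨ho, ha⟩ := nxt_of_ev he x' x hb
      have h1 := lemV hgeo ho
      have h2 : phi (info (x' :: l')) = (info (x' :: l')).a := by simp [phi, he]
      rw [h2]
      have h3 : (info (x :: x' :: l')).a = (info (x' :: l')).a := ha
      rw [h3] at h1
      have h4 : ∀ y, phi (info (y :: x :: x' :: l')) = phi (nxt (info (x :: x' :: l')) x y) := fun _ => rfl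
      simp only [h4]
      rw [h1]; ring
    · have he' : ev (info (x' :: l')).k = false := by simpa using he
      have h2 : phi (info (x' :: l')) = 0 := by simp [phi, he']
      rw [h2, zero_add]
      refine Finset.sum_eq_zero fun y _ => ?_
      split_ifs
      · exact phi_nxt_of_ev (nxt_of_od he' x' x) x y
      · rfl

end Pool.Agent.X126.Lad
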