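import Pool.Agent.X126.LadC

set_option autoImplicit false

open MeasureTheory Filter Topology

namespace Pool.Agent.X126.Lad

open Classical in
/-- explicit neighbour lists -/
noncomputable def nbl (u x : C) (l : List C) : Finset (List C) :=
  ((N3 x).filter (fun y => y ∉ x :: l ∧ y ≠ u)).image (fun y => y :: x :: l) ∪
    (if l = [] then ∅ else {l})

theorem head_ne {u x : C} {l : List C} (h : Valid u (x :: l)) : x ≠ u := by
  cases l with
  | nil => rw [valid_single h]; exact v_ne u
  | cons y l => exact (valid_cons.1 h).2.1.2.1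

theorem image_nb {u : C} (p : Paths (del ladder u) (u.1, !u.2)) {x : C} {l : List C} (hp : p.1 = x :: l) :
    Subtype.val '' {q | (pathTree (del ladder u) (u.1, !u.2)).Adj p q} = (nbl u x l : Set (List C)) := by
  classical
  have hv : Valid u (x :: l) := by
    have := p.2
    rw [hp] at this
    exact this
  ext m
  simp only [Set.mem_image, Set.mem_ofPred_eq, nbl, Finset.coe_union, Finset.coe_image, Set.mem_union,
    Finset.coe_filter]
  constructor
  · rintro ⟨q, hq, rfl⟩
    rcases hq with ⟨y, hy⟩ | ⟨y, hy⟩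
    · left
      have hq2 : Valid u (y :: x :: l) := by
        have := q.2
        rw [hy, hp] at this
        exact this
      have h3 := valid_cons.1 hq2
      exact ⟨y, ⟨(mem_N3 _ _).2 h3.2.1.1, h3.2.2, h3.2.1.2.1⟩, by rw [hy, hp]⟩
    · right
      rw [hp] at hy
      simp only [List.cons.injEq] at hy
      have hne : l ≠ [] := by
        rw [hy.2]
        intro h0
        have := q.2.1
        rw [h0] at this
        simp at this
      rw [if_neg hne, hy.2]
      simp
  · rintro (⟨y, ⟨h1, h2, h3⟩, rfl⟩ | h)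
    · have hq : Valid u (y :: x :: l) := by
        refine valid_cons.2 ⟨hv, ⟨(mem_N3 _ _).1 h1, h3, head_ne hv⟩, h2⟩
      exact ⟨⟨_, hq⟩, Or.inl ⟨y, by rw [hp]⟩, rfl⟩
    · split_ifs at h with h0
      · simp at h
      · simp only [Finset.coe_singleton, Set.mem_singleton_iff] at h
        subst h
        cases m with
        | nil => exact absurd rfl h0
        | cons y m =>
          exact ⟨⟨_, (valid_cons.1 hv).1⟩, Or.inr ⟨x, hp⟩, rfl⟩

theorem path_ne_nil {u : C} (p : Paths (del ladder u) (u.1, !u.2)) : ∃ x l, p.1 = x :: l := by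
  have h := p.2.1
  cases hp : p.1 with
  | nil => rw [hp] at h; simp at h
  | cons x l => exact ⟨x, l, rfl⟩

theorem nb_finite (u : C) (p : Paths (del ladder u) (u.1, !u.2)) :
    {q | (pathTree (del ladder u) (u.1, !u.2)).Adj p q}.Finite := by
  obtain ⟨x, l, hp⟩ := path_ne_nil p
  refine Set.Finite.of_finite_image (f := Subtype.val) ?_ (Subtype.val_injective.injOn)
  rw [image_nb p hp]
  exact Finset.finite_toSet _

theorem adj_sum {u : C} (F : List C → ℝ) (p : Paths (del ladder u) (u.1, !u.2)) {x : C} {l : List C}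
    (hp : p.1 = x :: l) :
    adjOp (pathTree (del ladder u) (u.1, !u.2)) (fun q => F q.1) p =
      (if l = [] then 0 else F l) + ∑ y ∈ N3 x, (if y ∉ x :: l ∧ y ≠ u then F (y :: x :: l) else 0) := by
  classical
  unfold adjOp
  rw [← finsum_mem_image (f := F) (g := Subtype.val) (Subtype.val_injective.injOn), image_nb p hp,
    finsum_mem_coe_finset]
  unfold nbl
  rw [Finset.sum_union, add_comm, Finset.sum_image, Finset.sum_filter]
  · congr 1
    split_ifs
    · simp
    · simp
  · intro a _ b _ h
    simpa using h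
  · rw [Finset.disjoint_left]
    intro m hm hm2
    rw [Finset.mem_image] at hm
    obtain ⟨y, -, rfl⟩ := hm
    split_ifs at hm2 with h0
    · simp at hm2
    · rw [Finset.mem_singleton] at hm2
      have := congrArg List.length hm2
      simp only [List.length_cons] at this
      omega

theorem eig' (u : C) (p : Paths (del ladder u) (u.1, !u.2)) :
    adjOp (pathTree (del ladder u) (u.1, !u.2)) (fun q => phi (info q.1)) p = 0 := by
  obtain ⟨x, l, hp⟩ := path_ne_nil p
  rw [adj_sum (fun m => phi (info m)) p hp]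
  refine eig ?_
  have := p.2
  rw [hp] at this
  exact this

open Classical in
noncomputable def Lv (u : C) : ℕ → Finset (List C)
  | 0 => {[(u.1, !u.2)]}
  | n + 1 => (Lv u n).biUnion fun l => (N3 l.headI).image (fun y => y :: l)

theorem Lv_length (u : C) : ∀ n, ∀ l ∈ Lv u n, l.length = n + 1 := by
  intro n
  induction n with
  | zero => intro l hl; simp only [Lv, Finset.mem_singleton] at hl; subst hl; rfl
  | succ n ih =>
    intro l hl
    simp only [Lv, Finset.mem_biUnion, Finset.mem_image] at hl
    obtain ⟨m, hm, y, -, rfl⟩ := hl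
    rw [List.length_cons, ih m hm]

theorem mem_Lv (u : C) : ∀ l : List C, Valid u l → l ∈ Lv u (l.length - 1) := by
  intro l
  induction l with
  | nil => intro h; have := h.1; simp at this
  | cons x l ih =>
    intro h
    cases l with
    | nil => rw [valid_single h]; simp [Lv]
    | cons y l =>
      have hv := valid_cons.1 h
      have h1 := ih hv.1
      simp only [List.length_cons, Nat.add_sub_cancel] at h1 ⊢
      simp only [Lv, Finset.mem_biUnion, Finset.mem_image]
      refine ⟨_, h1, x, ?_, rfl⟩
      exact (mem_N3 _ _).2 hv.2.1.1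

theorem energy (u : C) : ∀ N, ∑ n ∈ Finset.range N, ∑ l ∈ Lv u n, phi (info l) ^ 2
    + ∑ l ∈ Lv u N, en (info l) ≤ 5 := by
  classical
  intro N
  induction N with
  | zero => simp [Lv, info, en, wt]
  | succ N ih =>
    rw [Finset.sum_range_succ]
    have h1 : ∑ l ∈ Lv u (N + 1), en (info l) ≤
        ∑ l ∈ Lv u N, ∑ y ∈ N3 l.headI, en (info (y :: l)) := by
      simp only [Lv]
      rw [Finset.sum_biUnion]
      · refine Finset.sum_le_sum fun l _ => ?_
        rw [Finset.sum_image]
        intro a _ b _ h
        simpa using h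
      · intro l _ l' _ hne
        simp only [Function.onFun]
        rw [Finset.disjoint_left]
        intro m hm hm'
        rw [Finset.mem_image] at hm hm'
        obtain ⟨y, -, rfl⟩ := hm
        obtain ⟨y', -, h⟩ := hm'
        simp only [List.cons.injEq] at h
        exact hne h.2.symm
    have h2 : ∑ l ∈ Lv u N, phi (info l) ^ 2 + ∑ l ∈ Lv u N, ∑ y ∈ N3 l.headI, en (info (y :: l))
        ≤ ∑ l ∈ Lv u N, en (info l) := by
      rw [← Finset.sum_add_distrib]
      refine Finset.sum_le_sum fun l hl => ?_
      have hlen := Lv_length u N l hl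
      cases l with
      | nil => simp at hlen
      | cons x l =>
        exact en_sum (N3 x) (info (x :: l)) x
    linarith

theorem energy_le (u : C) (F : Finset (Paths (del ladder u) (u.1, !u.2))) :
    ∑ p ∈ F, phi (info p.1) ^ 2 ≤ 5 := by
  classical
  obtain ⟨N, hN⟩ : ∃ N, ∀ p ∈ F, p.1.length ≤ N :=
    ⟨F.sup fun p => p.1.length, fun p hp => Finset.le_sup (f := fun p => p.1.length) hp⟩
  have h1 : ∑ p ∈ F, phi (info p.1) ^ 2 = ∑ l ∈ F.image Subtype.val, phi (info l) ^ 2 := by
    rw [Finset.sum_image]
    intro a _ b _ h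
    exact Subtype.ext h
  have h2 : F.image Subtype.val ⊆ (Finset.range (N + 1)).biUnion (Lv u) := by
    intro l hl
    rw [Finset.mem_image] at hl
    obtain ⟨p, hp, rfl⟩ := hl
    rw [Finset.mem_biUnion]
    refine ⟨_, ?_, mem_Lv u p.1 p.2⟩
    have := hN p hp
    rw [Finset.mem_range]; omega
  rw [h1]
  refine (Finset.sum_le_sum_of_subset_of_nonneg h2 (fun _ _ _ => sq_nonneg _)).trans ?_
  rw [Finset.sum_biUnion]
  · have h3 := energy u (N + 1)
    have h4 : 0 ≤ ∑ l ∈ Lv u (N + 1), en (info l) := Finset.sum_nonneg fun _ _ => en_nonneg _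
    linarith
  · intro a _ b _ hne
    simp only [Function.onFun]
    rw [Finset.disjoint_left]
    intro m hm hm'
    have e1 := Lv_length u a m hm
    have e2 := Lv_length u b m hm'
    omega

theorem atom_ladder (u : C) (ν : Measure ℝ) (h : IsMatchingMeasure (del ladder u) (u.1, !u.2) ν) :
    1 / 5 ≤ ν.real {0} := by
  classical
  obtain ⟨hp, ⟨D, hD⟩, hm⟩ := h
  have h0 : phi (info (rootPath (del ladder u) (u.1, !u.2)).1) = 1 := by
    simp [rootPath, info, phi, ev]
  have h2 : ∀ n : ℕ, 1 ≤ n → ∫ x, x ^ n ∂ν =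
      ((adjOp (pathTree (del ladder u) (u.1, !u.2)))^[n]
        (⇑(Finsupp.single (rootPath (del ladder u) (u.1, !u.2)) (1 : ℝ))))
        (rootPath (del ladder u) (u.1, !u.2)) := by
    intro n hn
    have h3 := hm n hn
    unfold moment at h3
    rw [Finsupp.single_eq_set_indicator]
    exact h3
  have h1 := atom (nb_finite u) (rootPath (del ladder u) (u.1, !u.2)) (fun q => phi (info q.1)) (eig' u)
    h0 (energy_le u) ν hD h2
  linarith

theorem nbset (u : C) : {v | ladder.Adj u v} = (N3 u : Set C) := by
  ext v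
  rw [Finset.mem_coe, mem_N3]
  exact ⟨fun h => h.symm, fun h => h.symm⟩

theorem zeroPositive (u : C) : ZeroPositive ladder u := by
  intro ν hν
  have hadj : ladder.Adj u (u.1, !u.2) := by
    refine ((mem_N3 u (u.1, !u.2)).1 ?_).symm
    simp [N3]
  have h1 := atom_ladder u _ (hν _ hadj)
  rw [nbset, finsum_mem_coe_finset]
  refine Finset.sum_pos' (fun _ _ => measureReal_nonneg) ⟨(u.1, !u.2), by simp [N3], ?_⟩
  linarith

theorem ladder_connected : ladder.Connected := by
  have h0 : ∀ b : Bool, ladder.Reachable (0, false) (0, b) := by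
    intro b
    cases b
    · exact SimpleGraph.Reachable.refl _
    · exact SimpleGraph.Adj.reachable (Or.inl ⟨rfl, by simp⟩)
  have h1 : ∀ (n : ℤ) (b : Bool), ladder.Reachable (0, b) (n, b) := by
    intro n b
    induction n using Int.induction_on with
    | zero => exact SimpleGraph.Reachable.refl _
    | succ n ih =>
      exact ih.trans (SimpleGraph.Adj.reachable (Or.inr ⟨rfl, Or.inl rfl⟩))
    | pred n ih =>
      refine ih.trans (SimpleGraph.Adj.reachable (Or.inr ⟨rfl, Or.inr ?_⟩))
      simp only; omega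
  have h2 : ∀ x : C, ladder.Reachable (0, false) x := fun x => (h0 x.2).trans (h1 x.1 x.2)
  exact ⟨fun x y => (h2 x).symm.trans (h2 y)⟩

theorem ladder_transitive (a b : C) : ∃ e : ladder ≃g ladder, e a = b := by
  let f : C ≃ C :=
    { toFun := fun x => (x.1 + (b.1 - a.1), xor x.2 (xor a.2 b.2))
      invFun := fun x => (x.1 - (b.1 - a.1), xor x.2 (xor a.2 b.2))
      left_inv := by
        intro x
        obtain ⟨x1, x2⟩ := x
        simp
      right_inv := by
        intro x
        obtain ⟨x1, x2⟩ := x
        simp }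
  refine ⟨⟨f, ?_⟩, ?_⟩
  · intro x y
    simp only [f, ladder, Equiv.coe_fn_mk]
    constructor
    · rintro (⟨h1, h2⟩ | ⟨h1, h2⟩)
      · exact Or.inl ⟨by omega, fun h => h2 (by rw [h])⟩
      · refine Or.inr ⟨?_, by omega⟩
        revert h1
        cases x.2 <;> cases y.2 <;> cases a.2 <;> cases b.2 <;> simp
    · rintro (⟨h1, h2⟩ | ⟨h1, h2⟩)
      · refine Or.inl ⟨by omega, ?_⟩
        revert h2
        cases x.2 <;> cases y.2 <;> cases a.2 <;> cases b.2 <;> simp
      · refine Or.inr ⟨by rw [h1], by omega⟩
  · show (a.1 + (b.1 - a.1), xor a.2 (xor a.2 b.2)) = b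
    simp

theorem ladder_degree (v : C) : {w | ladder.Adj v w}.encard ≤ (3 : ℕ) := by
  rw [nbset, Set.encard_coe_eq_coe_finsetCard]
  exact_mod_cast Finset.card_le_three

end Pool.Agent.X126.Lad
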