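import Mathlib

set_option autoImplicit false

open MeasureTheory

namespace Pool.Agent.X126.Lad

/-- The set of finite paths of `G` starting at `o`, a path `o = v_0, v_1, …, v_n` being written as the list
`[v_n, …, v_1, v_0]` (last vertex first). -/
def Paths {V : Type} (G : SimpleGraph V) (o : V) : Set (List V) :=
  {l | l.getLast? = some o ∧ l.IsChain G.Adj ∧ l.Nodup}

/-- The path tree `T(G, o)`: two paths are adjacent when one arises from the other by removing its final
vertex. -/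
def pathTree {V : Type} (G : SimpleGraph V) (o : V) : SimpleGraph (Paths G o) where
  Adj p q := (∃ x, q.1 = x :: p.1) ∨ (∃ x, p.1 = x :: q.1)
  symm := ⟨fun _ _ h => h.symm⟩
  loopless := ⟨fun p h => by
    rcases h with ⟨x, hx⟩ | ⟨x, hx⟩ <;> exact absurd hx.symm (List.cons_ne_self x p.1)⟩

/-- The one-vertex path `o`. -/
def rootPath {V : Type} (G : SimpleGraph V) (o : V) : Paths G o :=
  ⟨[o], by simp [Paths]⟩

/-- The adjacency operator of a (locally finite) graph, acting on functions. -/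
noncomputable def adjOp {P : Type} (T : SimpleGraph P) (f : P → ℝ) : P → ℝ :=
  fun p => ∑ᶠ q ∈ {q | T.Adj p q}, f q

/-- The moment `⟨A^n χ_o, χ_o⟩`, i.e. the value at `o` of `A^n χ_o`, for the path tree of `G` at `o`
(`χ_o` is the indicator function of the one-vertex path `o`). -/
noncomputable def moment {V : Type} (G : SimpleGraph V) (o : V) (n : ℕ) : ℝ :=
  ((adjOp (pathTree G o))^[n] (Set.indicator {rootPath G o} fun _ => 1)) (rootPath G o)

/-- `ν` is the matching measure `ν_{G,o}`: the compactly supported probability measure on `ℝ` with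
`∫ x^n dν = ⟨A^n χ_o, χ_o⟩` for all `n ≥ 1`. -/
def IsMatchingMeasure {V : Type} (G : SimpleGraph V) (o : V) (ν : Measure ℝ) : Prop :=
  IsProbabilityMeasure ν ∧ (∃ D : ℝ, ν (Set.Icc (-D) D)ᶜ = 0) ∧
    ∀ n : ℕ, 1 ≤ n → ∫ x, x ^ n ∂ν = moment G o n

/-- The graph `G - u` (kept on the same vertex type: `u` loses all its edges; so for `v ≠ u` the component of
`v` is the component of `v` in `G - u`). -/
def del {V : Type} (G : SimpleGraph V) (u : V) : SimpleGraph V where
  Adj a b := G.Adj a b ∧ a ≠ u ∧ b ≠ u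
  symm := ⟨fun _ _ h => ⟨h.1.symm, h.2.2, h.2.1⟩⟩
  loopless := ⟨fun _ h => h.1.ne rfl⟩

/-- `u` is `0`-positive: `∑_{v ∼ u} ν_{G-u,v}({0}) > 0`. -/
def ZeroPositive {V : Type} (G : SimpleGraph V) (u : V) : Prop :=
  ∀ ν : V → Measure ℝ, (∀ v, G.Adj u v → IsMatchingMeasure (del G u) v (ν v)) →
    0 < ∑ᶠ v ∈ {v | G.Adj u v}, (ν v).real {0}

/-- The bi-infinite ladder `ℤ × K_2`. -/
def ladder : SimpleGraph (ℤ × Bool) where
  Adj x y := (x.1 = y.1 ∧ x.2 ≠ y.2) ∨ (x.2 = y.2 ∧ (y.1 = x.1 + 1 ∨ x.1 = y.1 + 1))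
  symm := ⟨fun x y h => by
    rcases h with ⟨h1, h2⟩ | ⟨h1, h2⟩
    · exact Or.inl ⟨h1.symm, h2.symm⟩
    · exact Or.inr ⟨h1.symm, h2.symm⟩⟩
  loopless := ⟨fun x h => by
    rcases h with ⟨_, h2⟩ | ⟨_, h2⟩
    · exact h2 rfl
    · omega⟩

end Pool.Agent.X126.Lad
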