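import Mathlib

set_option autoImplicit false

open Polynomial

namespace Pool.Agent.X126.Pre

variable {V : Type} [Fintype V] [DecidableEq V] (G : SimpleGraph V) [DecidableRel G.Adj]

/-- The bilinear form `⟨f, g⟩ = (1/n) tr(f(A) g(A))`, `A` the adjacency matrix and `n` the number of vertices. -/
noncomputable def form (f g : ℝ[X]) : ℝ :=
  Matrix.trace (aeval (G.adjMatrix ℝ) f * aeval (G.adjMatrix ℝ) g) / (Fintype.card V : ℝ)

/-- `p 0, …, p d` are the predistance polynomials of `G`, `lam` being the largest eigenvalue: `deg (p i) = i`,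
they are orthogonal for `form`, and `⟨p i, p i⟩ = (p i)(lam)`. -/
def IsPredistance (d : ℕ) (lam : ℝ) (p : ℕ → ℝ[X]) : Prop :=
  (∀ i ≤ d, (p i).degree = (i : WithBot ℕ)) ∧
  (∀ i ≤ d, ∀ j ≤ d, i ≠ j → form G (p i) (p j) = 0) ∧
  ∀ i ≤ d, form G (p i) (p i) = (p i).eval lam

/-- The number of distinct eigenvalues of the adjacency matrix is `d + 1`. -/
def DistinctEigenvalues (d : ℕ) : Prop := (spectrum ℝ (G.adjMatrix ℝ)).ncard = d + 1

/-- The diameter of the (finite connected) graph is `D`. -/
def IsDiameter (D : ℕ) : Prop := (∀ x y, G.dist x y ≤ D) ∧ ∃ x y, G.dist x y = D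

/-- `G` is walk-regular: the number of closed walks of length `l` from `x` to `x`, which is the diagonal entry
of the `l`-th power of the adjacency matrix, does not depend on `x`. -/
def WalkRegular : Prop := ∀ (l : ℕ) (x y : V), (G.adjMatrix ℕ ^ l) x x = (G.adjMatrix ℕ ^ l) y y

end Pool.Agent.X126.Pre
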