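import Mathlib

/-!
# Permutation patterns: computation of the Möbius function
-/

set_option autoImplicit false

namespace Pool.Agent.X126.Pur

/-- A permutation of length `n` in one-line notation with entries `0, …, n-1`. -/
def IsPerm (l : List ℕ) : Prop := l.Perm (List.range l.length)

instance (l : List ℕ) : Decidable (IsPerm l) := by unfold IsPerm; infer_instance

/-- `a` and `b` have the same length and their entries are in the same relative order. -/
def SameOrder (a b : List ℕ) : Prop :=
  a.length = b.length ∧ ∀ i j, i < a.length → j < a.length →
    (a.getD i 0 < a.getD j 0 ↔ b.getD i 0 < b.getD j 0)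

/-- Pattern containment. -/
def Le (σ π : List ℕ) : Prop := ∃ m : List ℕ, m.Sublist π ∧ SameOrder m σ

/-- Proper pattern containment. -/
def Lt (σ π : List ℕ) : Prop := Le σ π ∧ σ.length < π.length

/-- standardization -/
def std (m : List ℕ) : List ℕ := m.map fun x => m.countP (fun y => decide (y < x))

@[simp] lemma length_std (m : List ℕ) : (std m).length = m.length := by simp [std]

lemma countP_range (k x : ℕ) (h : x ≤ k) : (List.range k).countP (fun y => decide (y < x)) = x := by
  induction k with
  | zero => simp; omega
  | succ k ih =>
    rw [List.range_succ, List.countP_append]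
    rcases Nat.lt_or_ge k x with hk | hk
    · have hx : x = k + 1 := by omega
      subst hx
      have : (List.range k).countP (fun y => decide (y < k + 1)) = k := by
        rw [List.countP_eq_length.2]
        · simp
        · intro a ha
          simp at ha ⊢
          omega
      rw [this]
      simp
    · rw [ih hk]
      simp
      omega

lemma countP_perm {l : List ℕ} (h : IsPerm l) {x : ℕ} (hx : x ∈ l) :
    l.countP (fun y => decide (y < x)) = x := by
  have h1 : l.countP (fun y => decide (y < x)) =
      (List.range l.length).countP (fun y => decide (y < x)) := h.countP_eq _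
  rw [h1]
  apply countP_range
  have := (h.mem_iff).1 hx
  simp at this
  omega

lemma std_perm {l : List ℕ} (h : IsPerm l) : std l = l := by
  unfold std
  conv_rhs => rw [← List.map_id l]
  apply List.map_congr_left
  intro x hx
  simpa using countP_perm h hx

lemma countP_eq_card (m : List ℕ) (x : ℕ) : m.countP (fun y => decide (y < x)) =
    ((Finset.range m.length).filter (fun j => m.getD j 0 < x)).card := by
  induction m with
  | nil => simp
  | cons a m ih =>
    rw [List.countP_cons, ih]
    have : (Finset.range (a :: m).length).filter (fun j => (a :: m).getD j 0 < x) =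
        (if a < x then {0} else ∅) ∪
          ((Finset.range m.length).filter (fun j => m.getD j 0 < x)).map ⟨Nat.succ, Nat.succ_injective⟩ := by
      ext j
      simp only [Finset.mem_filter, Finset.mem_range, List.length_cons, Finset.mem_union,
        Finset.mem_map, Function.Embedding.coeFn_mk]
      rcases j with _ | j
      · simp only [List.getD_cons_zero]
        split_ifs with h <;> simp [h]
      · simp only [List.getD_cons_succ]
        split_ifs with h <;> simp
    rw [this, Finset.card_union_of_disjoint]
    · rw [Finset.card_map]
      split_ifs with h1 h2 h2 <;> simp_all [add_comm]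
    · rw [Finset.disjoint_left]
      intro j hj hj2
      simp only [Finset.mem_map, Function.Embedding.coeFn_mk] at hj2
      obtain ⟨i, _, rfl⟩ := hj2
      split_ifs at hj with h <;> simp at hj

lemma std_sameOrder {m σ : List ℕ} (h : SameOrder m σ) : std m = std σ := by
  have hl := h.1
  apply List.ext_getElem (by simp [hl])
  intro i h1 h2
  simp only [length_std] at h1 h2
  simp only [std, List.getElem_map]
  rw [countP_eq_card, countP_eq_card]
  rw [show Finset.range m.length = Finset.range σ.length by rw [hl]]
  congr 1
  apply Finset.filter_congr
  intro j hj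
  rw [Finset.mem_range] at hj
  have := h.2 j i (by omega) h1
  rw [List.getD_eq_getElem _ _ (show i < m.length by omega),
    List.getD_eq_getElem _ _ (show i < σ.length by omega)] at this
  exact this

lemma sameOrder_std (m : List ℕ) : SameOrder m (std m) := by
  refine ⟨by simp, fun i j hi hj => ?_⟩
  have hi' : i < (std m).length := by simpa using hi
  have hj' : j < (std m).length := by simpa using hj
  rw [List.getD_eq_getElem _ _ hi, List.getD_eq_getElem _ _ hj, List.getD_eq_getElem _ _ hi',
    List.getD_eq_getElem _ _ hj']
  simp only [std, List.getElem_map]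
  rw [countP_eq_card, countP_eq_card]
  constructor
  · intro h
    apply Finset.card_lt_card
    rw [Finset.ssubset_iff_of_subset]
    · refine ⟨i, ?_, ?_⟩
      · simp only [Finset.mem_filter, Finset.mem_range]
        refine ⟨hi, ?_⟩
        rw [List.getD_eq_getElem _ _ hi]
        exact h
      · simp only [Finset.mem_filter, Finset.mem_range, not_and]
        intro _
        rw [List.getD_eq_getElem _ _ hi]
        omega
    · intro a ha
      simp only [Finset.mem_filter, Finset.mem_range] at ha ⊢
      exact ⟨ha.1, by omega⟩
  · intro h
    by_contra hcon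
    push Not at hcon
    have : ((Finset.range m.length).filter (fun a => m.getD a 0 < m[j])) ⊆
        ((Finset.range m.length).filter (fun a => m.getD a 0 < m[i])) := by
      intro a ha
      simp only [Finset.mem_filter, Finset.mem_range] at ha ⊢
      exact ⟨ha.1, by omega⟩
    have := Finset.card_le_card this
    omega

lemma isPerm_std {m : List ℕ} (h : m.Nodup) : IsPerm (std m) := by
  unfold IsPerm
  rw [length_std]
  have hnd : (std m).Nodup := by
    rw [List.nodup_iff_injective_getElem]
    intro i j hij
    by_contra hne
    have hs := sameOrder_std m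
    have hi : i.1 < m.length := by simpa using i.2
    have hj : j.1 < m.length := by simpa using j.2
    have hne' : m[i.1] ≠ m[j.1] := by
      intro h1
      apply hne
      apply Fin.ext
      exact (List.Nodup.getElem_inj_iff h).1 h1
    have hi2 : i.1 < (std m).length := i.2
    have hj2 : j.1 < (std m).length := j.2
    rcases lt_or_gt_of_ne hne' with h1 | h1
    · have := (hs.2 i.1 j.1 hi hj).1 (by
        rw [List.getD_eq_getElem _ _ hi, List.getD_eq_getElem _ _ hj]; exact h1)
      rw [List.getD_eq_getElem _ _ hi2, List.getD_eq_getElem _ _ hj2] at this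
      simp only at hij
      omega
    · have := (hs.2 j.1 i.1 hj hi).1 (by
        rw [List.getD_eq_getElem _ _ hi, List.getD_eq_getElem _ _ hj]; exact h1)
      rw [List.getD_eq_getElem _ _ hi2, List.getD_eq_getElem _ _ hj2] at this
      simp only at hij
      omega
  refine (List.subperm_of_subset hnd ?_).perm_of_length_le (by simp)
  intro x hx
  simp only [std, List.mem_map] at hx
  obtain ⟨y, hy, rfl⟩ := hx
  rw [List.mem_range]
  rw [List.countP_eq_length_filter]
  have : (List.filter (fun z => decide (z < y)) m).length < m.length := by
    apply List.length_filter_lt_length_iff_exists.2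
    exact ⟨y, hy, by simp⟩
  exact this

/-- the permutations contained in `π` -/
def dn (π : List ℕ) : List (List ℕ) := π.sublists.map std

lemma mem_dn {π : List ℕ} (hπ : π.Nodup) (ρ : List ℕ) : ρ ∈ dn π ↔ IsPerm ρ ∧ Le ρ π := by
  unfold dn
  simp only [List.mem_map, List.mem_sublists]
  constructor
  · rintro ⟨m, hm, rfl⟩
    exact ⟨isPerm_std (hm.nodup hπ), m, hm, sameOrder_std m⟩
  · rintro ⟨h1, m, hm, h2⟩
    exact ⟨m, hm, by rw [std_sameOrder h2, std_perm h1]⟩

lemma IsPerm.nodup {l : List ℕ} (h : IsPerm l) : l.Nodup := (h.nodup_iff).2 List.nodup_range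

lemma Le.length_le {σ π : List ℕ} (h : Le σ π) : σ.length ≤ π.length := by
  obtain ⟨m, hm, h2⟩ := h
  rw [← h2.1]
  exact hm.length_le

/-- For permutations, `Lt` is proper containment. -/
lemma lt_iff {σ π : List ℕ} (hσ : IsPerm σ) (hπ : IsPerm π) : Lt σ π ↔ Le σ π ∧ σ ≠ π := by
  constructor
  · rintro ⟨h1, h2⟩
    refine ⟨h1, ?_⟩
    rintro rfl
    exact lt_irrefl _ h2
  · rintro ⟨h1, h2⟩
    refine ⟨h1, lt_of_le_of_ne h1.length_le fun h3 => h2 ?_⟩
    obtain ⟨m, hm, h4⟩ := h1
    have : m = π := hm.eq_of_length (by rw [h4.1, h3])
    subst this
    rw [← std_perm hσ, ← std_sameOrder h4, std_perm hπ]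

end Pool.Agent.X126.Pur
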