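import Mathlib

/-!
# Largest eigenvalue of a symmetric matrix: certificates
-/

set_option autoImplicit false

open Finset Matrix

namespace Pool.Agent.X126.Ric

variable {ι : Type} [Fintype ι]

/-- The largest eigenvalue of a real symmetric matrix. -/
noncomputable def lamMax (M : Matrix ι ι ℝ) : ℝ :=
  sSup {t : ℝ | ∃ f : ι → ℝ, f ≠ 0 ∧ M.mulVec f = t • f}

lemma upper_aux (M : Matrix ι ι ℝ) (hM : ∀ i j, i ≠ j → 0 ≤ M i j) (g : ι → ℝ)
    (hg : ∀ i, 0 < g i) (μ : ℝ) (h : ∀ i, M.mulVec g i ≤ μ * g i) (t : ℝ) (f : ι → ℝ)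
    (hf : f ≠ 0) (hft : M.mulVec f = t • f) : t ≤ μ := by
  classical
  by_contra hcon
  push Not at hcon
  obtain ⟨i0, hi0⟩ : ∃ i, f i ≠ 0 := by
    by_contra h0
    push Not at h0
    exact hf (funext h0)
  obtain ⟨i, -, hi⟩ := Finset.exists_max_image (Finset.univ : Finset ι) (fun i => |f i| / g i)
    ⟨i0, Finset.mem_univ _⟩
  set s := |f i| / g i with hs
  have hs0 : 0 < s := by
    have h1 := hi i0 (Finset.mem_univ _)
    have h2 : 0 < |f i0| / g i0 := div_pos (abs_pos.2 hi0) (hg i0)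
    linarith
  have hfi : |f i| = s * g i := by
    rw [hs, div_mul_cancel₀ _ (hg i).ne']
  have hfj : ∀ j, |f j| ≤ s * g j := by
    intro j
    have := hi j (Finset.mem_univ _)
    rwa [div_le_iff₀ (hg j)] at this
  have e1 : t * f i = M i i * f i + ∑ j ∈ Finset.univ.erase i, M i j * f j := by
    have := congrFun hft i
    simp only [Matrix.mulVec, dotProduct, Pi.smul_apply, smul_eq_mul] at this
    rw [← this, ← Finset.add_sum_erase _ _ (Finset.mem_univ i)]
  have e2 : M i i * g i + ∑ j ∈ Finset.univ.erase i, M i j * g j ≤ μ * g i := by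
    have := h i
    simp only [Matrix.mulVec, dotProduct] at this
    rwa [← Finset.add_sum_erase _ _ (Finset.mem_univ i)] at this
  have e3 : |∑ j ∈ Finset.univ.erase i, M i j * f j| ≤
      s * ∑ j ∈ Finset.univ.erase i, M i j * g j := by
    refine (Finset.abs_sum_le_sum_abs _ _).trans ?_
    rw [Finset.mul_sum]
    apply Finset.sum_le_sum
    intro j hj
    have hji : i ≠ j := (Finset.ne_of_mem_erase hj).symm
    rw [abs_mul, abs_of_nonneg (hM i j hji)]
    nlinarith [hM i j hji, hfj j]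
  have e4 : (t - M i i) * f i = ∑ j ∈ Finset.univ.erase i, M i j * f j := by linarith
  have e5 : (t - M i i) * |f i| ≤ |∑ j ∈ Finset.univ.erase i, M i j * f j| := by
    rw [← e4, abs_mul]
    exact mul_le_mul_of_nonneg_right (le_abs_self _) (abs_nonneg _)
  have e6 : (t - M i i) * (s * g i) ≤ s * (μ * g i - M i i * g i) := by
    rw [← hfi]
    refine e5.trans (e3.trans ?_)
    exact mul_le_mul_of_nonneg_left (by linarith) hs0.le
  have e7 : (t - μ) * (s * g i) ≤ 0 := by nlinarith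
  have e8 : 0 < (t - μ) * (s * g i) := mul_pos (by linarith) (mul_pos hs0 (hg i))
  linarith

lemma lower_aux (M : Matrix ι ι ℝ) (hM : M.IsSymm) (f : ι → ℝ) (hf0 : f ≠ 0)
    (hf : ∀ i, 0 ≤ f i) (μ : ℝ) (h : ∀ i, μ * f i ≤ M.mulVec f i) :
    ∃ t, μ ≤ t ∧ ∃ v : ι → ℝ, v ≠ 0 ∧ M.mulVec v = t • v := by
  classical
  set N : Matrix ι ι ℝ := μ • (1 : Matrix ι ι ℝ) - M with hN
  have hNh : N.IsHermitian := by
    unfold Matrix.IsHermitian
    rw [hN, Matrix.conjTranspose_eq_transpose_of_trivial, Matrix.transpose_sub,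
      Matrix.transpose_smul, Matrix.transpose_one, hM]
  have hnp : ¬ N.PosDef := by
    intro hp
    have h1 := hp.re_dotProduct_pos hf0
    have h2 : RCLike.re (star f ⬝ᵥ (N *ᵥ f)) = ∑ i, f i * (μ * f i - M.mulVec f i) := by
      simp only [star_trivial, RCLike.re_to_real, dotProduct, hN, Matrix.sub_mulVec,
        Matrix.smul_mulVec, Matrix.one_mulVec, Pi.sub_apply, Pi.smul_apply, smul_eq_mul]
    rw [h2] at h1
    have h3 : ∑ i, f i * (μ * f i - M.mulVec f i) ≤ 0 := by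
      apply Finset.sum_nonpos
      intro i _
      nlinarith [hf i, h i]
    linarith
  rw [hNh.posDef_iff_eigenvalues_pos] at hnp
  push Not at hnp
  obtain ⟨i, hi⟩ := hnp
  refine ⟨μ - hNh.eigenvalues i, by linarith, ⇑(hNh.eigenvectorBasis i), ?_, ?_⟩
  · intro h0
    have h1 := hNh.eigenvectorBasis.orthonormal.ne_zero i
    apply h1
    ext j
    exact congrFun h0 j
  · have hv : ∀ (v : ι → ℝ) (c : ℝ), N *ᵥ v = c • v → M *ᵥ v = (μ - c) • v := by
      intro v c h1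
      rw [hN, Matrix.sub_mulVec, Matrix.smul_mulVec, Matrix.one_mulVec] at h1
      rw [sub_smul, ← h1]
      abel
    exact hv _ _ (hNh.mulVec_eigenvectorBasis i)

lemma nonempty_eig [Nonempty ι] (M : Matrix ι ι ℝ) (hM : M.IsSymm) :
    {t : ℝ | ∃ f : ι → ℝ, f ≠ 0 ∧ M.mulVec f = t • f}.Nonempty := by
  classical
  have hNh : M.IsHermitian := by
    unfold Matrix.IsHermitian
    rw [Matrix.conjTranspose_eq_transpose_of_trivial, hM]
  obtain ⟨i⟩ := ‹Nonempty ι›
  refine ⟨hNh.eigenvalues i, ⇑(hNh.eigenvectorBasis i), ?_, hNh.mulVec_eigenvectorBasis i⟩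
  intro h0
  have h1 := hNh.eigenvectorBasis.orthonormal.ne_zero i
  apply h1
  ext j
  exact congrFun h0 j

lemma bdd_eig (M : Matrix ι ι ℝ) :
    BddAbove {t : ℝ | ∃ f : ι → ℝ, f ≠ 0 ∧ M.mulVec f = t • f} := by
  classical
  apply Set.Finite.bddAbove
  apply Set.Finite.subset (Module.End.finite_hasEigenvalue (Matrix.toLin' M))
  rintro t ⟨f, hf, hft⟩
  change Module.End.HasEigenvalue (Matrix.toLin' M) t
  apply Module.End.hasEigenvalue_of_hasEigenvector (x := f)
  rw [Module.End.hasEigenvector_iff]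
  refine ⟨?_, hf⟩
  rw [Module.End.mem_eigenspace_iff, Matrix.toLin'_apply]
  exact hft

theorem lamMax_le [Nonempty ι] (M : Matrix ι ι ℝ) (hs : M.IsSymm) (hM : ∀ i j, i ≠ j → 0 ≤ M i j)
    (g : ι → ℝ) (hg : ∀ i, 0 < g i) (μ : ℝ) (h : ∀ i, M.mulVec g i ≤ μ * g i) :
    lamMax M ≤ μ := by
  apply csSup_le (nonempty_eig M hs)
  rintro t ⟨f, hf, hft⟩
  exact upper_aux M hM g hg μ h t f hf hft

theorem le_lamMax (M : Matrix ι ι ℝ) (hM : M.IsSymm) (f : ι → ℝ) (hf0 : f ≠ 0)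
    (hf : ∀ i, 0 ≤ f i) (μ : ℝ) (h : ∀ i, μ * f i ≤ M.mulVec f i) : μ ≤ lamMax M := by
  obtain ⟨t, ht, v, hv, hvt⟩ := lower_aux M hM f hf0 hf μ h
  exact ht.trans (le_csSup (bdd_eig M) ⟨v, hv, hvt⟩)

end Pool.Agent.X126.Ric
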