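import Pool.Agent.X126.RicA

/-!
# The Ricci matrix of a tree given by a parent function
-/

set_option autoImplicit false

open Finset Matrix

namespace Pool.Agent.X126.Ric

open Classical in
/-- The Ricci matrix of a tree (graph) `G`, indexed by the edges. -/
noncomputable def ricci {V : Type} [Fintype V] (G : SimpleGraph V) :
    Matrix G.edgeSet G.edgeSet ℝ := fun e e' =>
  if e = e' then - ∑ x : V, (if x ∈ e.1 then 1 / (G.degree x : ℝ) else 0)
  else ∑ x : V, (if x ∈ e.1 ∧ x ∈ e'.1 then 1 / (G.degree x : ℝ) else 0)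

/-- Attach a leaf `none` at the vertex `v`. -/
def attach {V : Type} (G : SimpleGraph V) (v : V) : SimpleGraph (Option V) where
  Adj a b := (∃ x y, a = some x ∧ b = some y ∧ G.Adj x y) ∨ (a = none ∧ b = some v) ∨
    (a = some v ∧ b = none)
  symm := ⟨by
    rintro a b (⟨x, y, h1, h2, h3⟩ | ⟨h1, h2⟩ | ⟨h1, h2⟩)
    · exact Or.inl ⟨y, x, h2, h1, h3.symm⟩
    · exact Or.inr (Or.inr ⟨h2, h1⟩)
    · exact Or.inr (Or.inl ⟨h2, h1⟩)⟩
  loopless := ⟨by
    rintro a (⟨x, y, h1, h2, h3⟩ | ⟨h1, h2⟩ | ⟨h1, h2⟩)
    · rw [h1] at h2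
      have : x = y := Option.some.inj h2
      subst this
      exact h3.ne rfl
    · rw [h1] at h2
      exact absurd h2 (by simp)
    · rw [h1] at h2
      exact absurd h2 (by simp)⟩

lemma ricci_symm {V : Type} [Fintype V] (G : SimpleGraph V) : (ricci G).IsSymm := by
  classical
  ext e e'
  rw [Matrix.transpose_apply]
  unfold ricci
  by_cases h : e = e'
  · subst h
    rfl
  · rw [if_neg h, if_neg (Ne.symm h)]
    apply Finset.sum_congr rfl
    intro x _
    simp only [and_comm]

lemma ricci_nonneg {V : Type} [Fintype V] (G : SimpleGraph V) (e e' : G.edgeSet) (h : e ≠ e') :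
    0 ≤ ricci G e e' := by
  classical
  unfold ricci
  rw [if_neg h]
  apply Finset.sum_nonneg
  intro x _
  split_ifs
  · positivity
  · exact le_rfl

section par

variable {V : Type} [Fintype V] [DecidableEq V] (r : V) (par : V → V)

/-- The graph in which every vertex other than `r` is joined with its parent. -/
def pg : SimpleGraph V := SimpleGraph.fromRel (fun x y => x ≠ r ∧ par x = y)

variable {r par} {lev : V → ℕ} (h1 : ∀ x, x ≠ r → lev (par x) + 1 = lev x)

include h1

lemma par_ne {x : V} (hx : x ≠ r) : x ≠ par x := by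
  intro h
  have := h1 x hx
  rw [← h] at this
  omega

lemma adj_iff {x y : V} : (pg r par).Adj x y ↔ (x ≠ r ∧ par x = y) ∨ (y ≠ r ∧ par y = x) := by
  unfold pg
  rw [SimpleGraph.fromRel_adj]
  constructor
  · exact fun h => h.2
  · intro h
    refine ⟨?_, h⟩
    rcases h with ⟨h2, h3⟩ | ⟨h2, h3⟩
    · rw [← h3]; exact par_ne h1 h2
    · rw [← h3]; exact (par_ne h1 h2).symm

lemma adj_par {x : V} (hx : x ≠ r) : (pg r par).Adj x (par x) := (adj_iff h1).2 (Or.inl ⟨hx, rfl⟩)

lemma sym_inj {x y : V} (hx : x ≠ r) (hy : y ≠ r) (h : s(x, par x) = s(y, par y)) : x = y := by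
  rw [Sym2.eq_iff] at h
  rcases h with h | ⟨h2, h3⟩
  · exact h.1
  · have e1 := h1 x hx
    have e2 := h1 y hy
    rw [h3] at e1
    rw [← h2] at e2
    omega

/-- the edges correspond to the vertices other than the root -/
noncomputable def phi : {x : V // x ≠ r} ≃ (pg r par).edgeSet :=
  Equiv.ofBijective (fun x => ⟨s(x.1, par x.1), adj_par h1 x.2⟩) (by
    constructor
    · intro x y hxy
      have := congrArg Subtype.val hxy
      exact Subtype.ext (sym_inj h1 x.2 y.2 this)
    · rintro ⟨e, he⟩
      induction e using Sym2.ind with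
      | _ a b =>
      rw [SimpleGraph.mem_edgeSet, adj_iff h1] at he
      rcases he with ⟨h2, h3⟩ | ⟨h2, h3⟩
      · exact ⟨⟨a, h2⟩, Subtype.ext (by simp [h3])⟩
      · exact ⟨⟨b, h2⟩, Subtype.ext (by simp [h3, Sym2.eq_swap])⟩)

lemma phi_val (x : {x : V // x ≠ r}) : (phi h1 x).1 = s(x.1, par x.1) := rfl

lemma isTree (h0 : lev r = 0) : (pg r par).IsTree := by
  rw [SimpleGraph.isTree_iff_connected_and_card]
  constructor
  · have hr : ∀ n : ℕ, ∀ x, lev x = n → (pg r par).Reachable x r := by
      intro n
      induction n with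
      | zero =>
        intro x hx
        by_cases hxr : x = r
        · rw [hxr]
        · have := h1 x hxr
          omega
      | succ n ih =>
        intro x hx
        by_cases hxr : x = r
        · rw [hxr]
        · have h2 := h1 x hxr
          exact (adj_par h1 hxr).reachable.trans (ih (par x) (by omega))
    haveI : Nonempty V := ⟨r⟩
    exact ⟨fun x y => (hr _ x rfl).trans (hr _ y rfl).symm⟩
  · rw [← Nat.card_congr (phi h1), Nat.card_eq_fintype_card, Nat.card_eq_fintype_card,
      Fintype.card_subtype_compl, Fintype.card_subtype_eq]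
    have : 0 < Fintype.card V := Fintype.card_pos_iff.2 ⟨r⟩
    omega

open Classical in
lemma degree_eq (z : V) : ((pg r par).degree z : ℝ) =
    (if z = r then 0 else 1) + ∑ y : V, (if y ≠ r ∧ par y = z then (1 : ℝ) else 0) := by
  have h2 : (pg r par).neighborFinset z =
      (if z = r then ∅ else {par z}) ∪ Finset.univ.filter (fun y => y ≠ r ∧ par y = z) := by
    ext y
    rw [SimpleGraph.mem_neighborFinset, adj_iff h1]
    by_cases hz : z = r
    · simp [hz]
    · simp only [hz, if_false, Finset.mem_union, Finset.mem_singleton, Finset.mem_filter,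
        Finset.mem_univ, true_and, ne_eq, not_false_eq_true]
      constructor
      · rintro (h | h)
        · exact Or.inl h.symm
        · exact Or.inr h
      · rintro (h | h)
        · exact Or.inl h.symm
        · exact Or.inr h
  rw [← SimpleGraph.card_neighborFinset_eq_degree, h2, Finset.card_union_of_disjoint]
  · push_cast
    rw [Finset.sum_boole]
    congr 1
    split_ifs <;> simp
  · rw [Finset.disjoint_left]
    intro y hy hy2
    simp only [Finset.mem_filter, Finset.mem_univ, true_and] at hy2
    by_cases hz : z = r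
    · simp [hz] at hy
    · simp only [hz, if_false, Finset.mem_singleton] at hy
      have e1 := h1 z hz
      have e2 := h1 y hy2.1
      rw [hy2.2] at e2
      rw [← hy] at e1
      omega

open Classical in
lemma ricci_phi (x y : {x : V // x ≠ r}) : ricci (pg r par) (phi h1 x) (phi h1 y) =
    if x = y then -(1 / ((pg r par).degree x.1 : ℝ) + 1 / ((pg r par).degree (par x.1) : ℝ))
    else (if par y.1 = x.1 then 1 / ((pg r par).degree x.1 : ℝ) else 0) +
      (if y.1 = par x.1 then 1 / ((pg r par).degree (par x.1) : ℝ) else 0) +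
      (if par y.1 = par x.1 then 1 / ((pg r par).degree (par x.1) : ℝ) else 0) := by
  unfold ricci
  have hinj : (phi h1 x = phi h1 y) ↔ x = y := (phi h1).injective.eq_iff
  by_cases hxy : x = y
  · rw [if_pos (hinj.2 hxy), if_pos hxy]
    congr 1
    have hx := par_ne h1 x.2
    refine (Finset.sum_congr rfl (g := fun z : V =>
      (if z = x.1 then 1 / ((pg r par).degree z : ℝ) else 0) +
        (if z = par x.1 then 1 / ((pg r par).degree z : ℝ) else 0)) (fun z _ => ?_)).trans ?_
    · have hm : z ∈ ((phi h1 x).1 : Sym2 V) ↔ z = x.1 ∨ z = par x.1 := by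
        rw [phi_val]; exact Sym2.mem_iff
      by_cases hz : z = x.1
      · have h3 : z ≠ par x.1 := by rw [hz]; exact hx
        rw [if_pos (hm.2 (Or.inl hz)), if_pos hz, if_neg h3, add_zero]
      · by_cases hz2 : z = par x.1
        · rw [if_pos (hm.2 (Or.inr hz2)), if_neg hz, if_pos hz2, zero_add]
        · rw [if_neg (fun h => (hm.1 h).elim hz hz2), if_neg hz, if_neg hz2, zero_add]
    · rw [Finset.sum_add_distrib, Finset.sum_ite_eq', Finset.sum_ite_eq',
        if_pos (Finset.mem_univ _), if_pos (Finset.mem_univ _)]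
  · rw [if_neg (fun h => hxy (hinj.1 h)), if_neg hxy]
    have hxy' : x.1 ≠ y.1 := fun h => hxy (Subtype.ext h)
    have hx := par_ne h1 x.2
    have hy := par_ne h1 y.2
    refine (Finset.sum_congr rfl (g := fun z : V =>
      (if z = x.1 then (if par y.1 = x.1 then 1 / ((pg r par).degree z : ℝ) else 0) else 0) +
        (if z = par x.1 then ((if y.1 = par x.1 then 1 / ((pg r par).degree z : ℝ) else 0) +
          (if par y.1 = par x.1 then 1 / ((pg r par).degree z : ℝ) else 0)) else 0))
      (fun z _ => ?_)).trans ?_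
    · have hm : z ∈ ((phi h1 x).1 : Sym2 V) ↔ z = x.1 ∨ z = par x.1 := by
        rw [phi_val]; exact Sym2.mem_iff
      have hm' : z ∈ ((phi h1 y).1 : Sym2 V) ↔ z = y.1 ∨ z = par y.1 := by
        rw [phi_val]; exact Sym2.mem_iff
      by_cases hz : z = x.1
      · have h3 : z ≠ par x.1 := by rw [hz]; exact hx
        rw [if_pos hz, if_neg h3, add_zero]
        by_cases h4 : par y.1 = x.1
        · rw [if_pos h4, if_pos ⟨hm.2 (Or.inl hz), hm'.2 (Or.inr (by rw [h4]; exact hz))⟩]
        · rw [if_neg h4, if_neg]
          rintro ⟨-, h5⟩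
          rcases hm'.1 h5 with h5 | h5
          · exact hxy' (hz.symm.trans h5)
          · exact h4 (h5.symm.trans hz)
      · by_cases hz2 : z = par x.1
        · rw [if_neg hz, if_pos hz2, zero_add]
          by_cases h4 : y.1 = par x.1
          · have h5 : par y.1 ≠ par x.1 := by rw [← h4]; exact hy.symm
            rw [if_pos h4, if_neg h5, add_zero,
              if_pos ⟨hm.2 (Or.inr hz2), hm'.2 (Or.inl (by rw [h4]; exact hz2))⟩]
          · rw [if_neg h4, zero_add]
            by_cases h6 : par y.1 = par x.1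
            · rw [if_pos h6, if_pos ⟨hm.2 (Or.inr hz2), hm'.2 (Or.inr (by rw [h6]; exact hz2))⟩]
            · rw [if_neg h6, if_neg]
              rintro ⟨-, h7⟩
              rcases hm'.1 h7 with h7 | h7
              · exact h4 (h7.symm.trans hz2)
              · exact h6 (h7.symm.trans hz2)
        · rw [if_neg hz, if_neg hz2, if_neg, add_zero]
          rintro ⟨h7, -⟩
          rcases hm.1 h7 with h7 | h7
          · exact hz h7
          · exact hz2 h7
    · rw [Finset.sum_add_distrib, Finset.sum_ite_eq', Finset.sum_ite_eq',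
        if_pos (Finset.mem_univ _), if_pos (Finset.mem_univ _)]
      ring


omit h1 in
/-- sum over the children -/
noncomputable def cs (r : V) (par : V → V) (W : V → ℝ) (z : V) : ℝ :=
  ∑ y : V, if y ≠ r ∧ par y = z then W y else 0

omit h1 in
/-- inverse degree -/
noncomputable def dinv (r : V) (par : V → V) (z : V) : ℝ :=
  1 / ((if z = r then 0 else 1) + cs r par (fun _ => 1) z)

omit h1 in
/-- the action of the Ricci matrix -/
noncomputable def act (r : V) (par : V → V) (W : V → ℝ) (x : V) : ℝ :=
  -(dinv r par x + 2 * dinv r par (par x)) * W x + dinv r par x * cs r par W x +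
    dinv r par (par x) * ((if par x ≠ r then W (par x) else 0) + cs r par W (par x))

open Classical in
lemma dinv_eq (z : V) : 1 / ((pg r par).degree z : ℝ) = dinv r par z := by
  unfold dinv cs
  rw [degree_eq h1]

omit h1 in
lemma sum_sub (F' : V → ℝ) : ∑ y : {x : V // x ≠ r}, F' y.1 =
    ∑ y : V, if y ≠ r then F' y else 0 := by
  rw [← Finset.sum_filter]
  exact (Finset.sum_subtype (Finset.univ.filter (fun y => y ≠ r)) (fun y => by simp) F').symm

open Classical in
theorem mulVec_phi (W : V → ℝ) (x : {x : V // x ≠ r}) :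
    (ricci (pg r par)).mulVec (fun e => W ((phi h1).symm e).1) (phi h1 x) = act r par W x.1 := by
  have hx := par_ne h1 x.2
  simp only [Matrix.mulVec, dotProduct]
  rw [← Equiv.sum_comp (phi h1)]
  simp only [Equiv.symm_apply_apply, ricci_phi h1, dinv_eq h1]
  have e1 : ∀ y : {x : V // x ≠ r}, (if x = y then -(dinv r par x.1 + dinv r par (par x.1))
      else (if par y.1 = x.1 then dinv r par x.1 else 0) +
        (if y.1 = par x.1 then dinv r par (par x.1) else 0) +
        (if par y.1 = par x.1 then dinv r par (par x.1) else 0)) * W y.1 =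
      (if x = y then (-(dinv r par x.1 + dinv r par (par x.1)) - dinv r par (par x.1)) * W y.1
        else 0) + ((if par y.1 = x.1 then dinv r par x.1 * W y.1 else 0) +
        (if y.1 = par x.1 then dinv r par (par x.1) * W y.1 else 0) +
        (if par y.1 = par x.1 then dinv r par (par x.1) * W y.1 else 0)) := by
    intro y
    by_cases hxy : x = y
    · subst hxy
      rw [if_pos rfl, if_pos rfl, if_neg (Ne.symm hx), if_neg hx, if_pos rfl]
      ring
    · rw [if_neg hxy, if_neg hxy]
      split_ifs <;> ring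
  rw [Finset.sum_congr rfl (fun y _ => e1 y), Finset.sum_add_distrib, Finset.sum_ite_eq,
    if_pos (Finset.mem_univ _)]
  rw [sum_sub (fun y => (if par y = x.1 then dinv r par x.1 * W y else 0) +
        (if y = par x.1 then dinv r par (par x.1) * W y else 0) +
        (if par y = par x.1 then dinv r par (par x.1) * W y else 0))]
  have e2 : ∀ y : V, (if y ≠ r then (if par y = x.1 then dinv r par x.1 * W y else 0) +
        (if y = par x.1 then dinv r par (par x.1) * W y else 0) +
        (if par y = par x.1 then dinv r par (par x.1) * W y else 0) else 0) =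
      dinv r par x.1 * (if y ≠ r ∧ par y = x.1 then W y else 0) +
      (if y = par x.1 then dinv r par (par x.1) * (if y ≠ r then W y else 0) else 0) +
      dinv r par (par x.1) * (if y ≠ r ∧ par y = par x.1 then W y else 0) := by
    intro y
    by_cases hy : y = r
    · simp [hy]
    · simp only [hy, ne_eq, not_false_eq_true, if_true, true_and, mul_ite, mul_zero]
  rw [Finset.sum_congr rfl (fun y _ => e2 y), Finset.sum_add_distrib, Finset.sum_add_distrib,
    ← Finset.mul_sum, ← Finset.mul_sum, Finset.sum_ite_eq', if_pos (Finset.mem_univ _)]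
  unfold act cs
  ring

open Classical in
theorem lamMax_pg_le (hne : ∃ x : V, x ≠ r) (W : V → ℝ) (hW : ∀ x, x ≠ r → 0 < W x) (μ : ℝ)
    (h : ∀ x, x ≠ r → act r par W x ≤ μ * W x) : lamMax (ricci (pg r par)) ≤ μ := by
  obtain ⟨x0, hx0⟩ := hne
  haveI : Nonempty (pg r par).edgeSet := ⟨phi h1 ⟨x0, hx0⟩⟩
  refine lamMax_le _ (ricci_symm _) (fun e e' h => ricci_nonneg _ e e' h)
    (fun e => W ((phi h1).symm e).1) (fun e => hW _ ((phi h1).symm e).2) μ ?_
  intro e
  obtain ⟨x, rfl⟩ := (phi h1).surjective e
  rw [mulVec_phi h1]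
  simp only [Equiv.symm_apply_apply]
  exact h x.1 x.2

open Classical in
theorem le_lamMax_pg (hne : ∃ x : V, x ≠ r) (W : V → ℝ) (hW : ∀ x, x ≠ r → 0 < W x) (μ : ℝ)
    (h : ∀ x, x ≠ r → μ * W x ≤ act r par W x) : μ ≤ lamMax (ricci (pg r par)) := by
  obtain ⟨x0, hx0⟩ := hne
  refine le_lamMax _ (ricci_symm _) (fun e => W ((phi h1).symm e).1) ?_
    (fun e => (hW _ ((phi h1).symm e).2).le) μ ?_
  · intro h0
    have := congrFun h0 (phi h1 ⟨x0, hx0⟩)
    simp only [Equiv.symm_apply_apply, Pi.zero_apply] at this
    exact (hW x0 hx0).ne' this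
  · intro e
    obtain ⟨x, rfl⟩ := (phi h1).surjective e
    rw [mulVec_phi h1]
    simp only [Equiv.symm_apply_apply]
    exact h x.1 x.2

end par

end Pool.Agent.X126.Ric
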