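import Pool.Agent.X126.TreeDefs

set_option autoImplicit false

open Filter Topology

namespace Pool.Agent.X126.Tree

variable {d k : ℕ} {M : Fin k → Fin k → Bool}

/-- labelings given from below -/
theorem shift_iff (t : List (Fin d) → Fin k) : t ∈ shift d k M ↔
    ∀ c : Fin d, M (t []) (t [c]) = true ∧ (fun g => t (c :: g)) ∈ shift d k M := by
  constructor
  · intro h c
    exact ⟨h [] c, fun g i => h (c :: g) i⟩
  · intro h g i
    cases g with
    | nil => exact (h i).1
    | cons c g => exact (h c).2 g i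

/-- patterns of height `n` with root label satisfying `R` -/
def Pat (d k : ℕ) (M : Fin k → Fin k → Bool) (n : ℕ) (R : Fin k → Prop) : Set (Δ d n → Fin k) :=
  {q | ∃ t ∈ shift d k M, R (t []) ∧ ∀ g : Δ d n, q g = t g.1}

noncomputable def x (d k : ℕ) (M : Fin k → Fin k → Bool) (n : ℕ) (i : Fin k) : ℕ :=
  Nat.card (Pat d k M n (fun j => j = i))

instance (n : ℕ) : Finite (Δ d n) := by
  have : {g : List (Fin d) | g.length ≤ n}.Finite := List.finite_length_le (Fin d) n
  exact this.to_subtype

theorem card_pat (n : ℕ) (R : Fin k → Prop) [DecidablePred R] :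
    Nat.card (Pat d k M n R) = ∑ j ∈ Finset.univ.filter R, x d k M n j := by
  classical
  have h0 : ∀ (R : Fin k → Prop), (Pat d k M n R).Finite := fun R => Set.toFinite _
  have h1 : Pat d k M n R = ⋃ j ∈ Finset.univ.filter R, Pat d k M n (fun i => i = j) := by
    ext q
    simp only [Pat, Set.mem_ofPred_eq, Set.mem_iUnion, Finset.mem_filter, Finset.mem_univ, true_and]
    constructor
    · rintro ⟨t, ht, hR, hq⟩
      exact ⟨t [], hR, t, ht, rfl, hq⟩
    · rintro ⟨j, hj, t, ht, rfl, hq⟩
      exact ⟨t, ht, hj, hq⟩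
  have h2 : Nat.card (Pat d k M n R) = (Pat d k M n R).ncard := rfl
  rw [h2, h1, Set.ncard_eq_toFinset_card _ (Set.toFinite _)]
  have h3 : (Set.toFinite (⋃ j ∈ Finset.univ.filter R, Pat d k M n (fun i => i = j))).toFinset
      = (Finset.univ.filter R).biUnion (fun j => (h0 (fun i => i = j)).toFinset) := by
    ext q; simp
  rw [h3, Finset.card_biUnion]
  · refine Finset.sum_congr rfl fun j _ => ?_
    rw [← Set.ncard_eq_toFinset_card]
    rfl
  · intro a _ b _ hab
    simp only [Function.onFun]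
    rw [Finset.disjoint_left]
    intro q hq hq'
    rw [Set.Finite.mem_toFinset] at hq hq'
    obtain ⟨t, -, rfl, hq⟩ := hq
    obtain ⟨t', -, rfl, hq'⟩ := hq'
    apply hab
    have e1 := hq ⟨[], by simp⟩
    have e2 := hq' ⟨[], by simp⟩
    simp only at e1 e2
    rw [← e1, ← e2]

/-- The equivalence behind the recurrence. -/
noncomputable def patEquiv (n : ℕ) (i : Fin k) :
    Pat d k M (n + 1) (fun j => j = i) ≃ (Fin d → Pat d k M n (fun j => M i j = true)) where
  toFun q := fun c => ⟨fun g => q.1 ⟨c :: g.1, by simpa using g.2⟩, by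
    obtain ⟨t, ht, hti, hq⟩ := q.2
    have h := (shift_iff t).1 ht c
    exact ⟨fun g => t (c :: g), h.2, by rw [← hti]; exact h.1, fun g => hq _⟩⟩
  invFun Q := ⟨fun g => match g with
    | ⟨[], _⟩ => i
    | ⟨c :: g, hg⟩ => (Q c).1 ⟨g, by simpa using hg⟩, by
    choose t ht hti hq using fun c => (Q c).2
    refine ⟨fun g => match g with
      | [] => i
      | c :: g => t c g, ?_, rfl, ?_⟩
    · rw [shift_iff]
      intro c
      exact ⟨hti c, ht c⟩
    · rintro ⟨g, hg⟩
      cases g with
      | nil => rfl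
      | cons c g => exact hq c ⟨g, by simpa using hg⟩⟩
  left_inv q := by
    obtain ⟨t, ht, hti, hq⟩ := q.2
    apply Subtype.ext
    funext g
    obtain ⟨g, hg⟩ := g
    cases g with
    | nil => simp only; rw [hq]; exact hti.symm
    | cons c g => rfl
  right_inv Q := by
    funext c
    apply Subtype.ext
    funext g
    rfl

theorem x_succ (n : ℕ) (i : Fin k) :
    x d k M (n + 1) i = (∑ j ∈ Finset.univ.filter (fun j => M i j = true), x d k M n j) ^ d := by
  unfold x
  rw [Nat.card_congr (patEquiv n i), Nat.card_pi, Finset.prod_const, Finset.card_univ, Fintype.card_fin]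
  congr 1
  exact card_pat n _

theorem p_eq (n : ℕ) : p d k M n = ∑ j, x d k M n j := by
  classical
  have h := card_pat (d := d) (M := M) n (fun _ => True)
  rw [Finset.filter_true] at h
  rw [← h]
  unfold p Pat
  simp only [true_and]
  rfl

/-- extendable symbols -/
def Ext (d k : ℕ) (M : Fin k → Fin k → Bool) (i : Fin k) : Prop := ∃ t ∈ shift d k M, t [] = i

theorem x_zero (i : Fin k) (hi : Ext d k M i) : x d k M 0 i = 1 := by
  obtain ⟨t, ht, hti⟩ := hi
  unfold x
  rw [Nat.card_eq_one_iff_unique]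
  refine ⟨⟨?_⟩, ⟨⟨fun g => t g.1, t, ht, hti, fun _ => rfl⟩⟩⟩
  rintro ⟨q, t, -, rfl, hq⟩ ⟨q', t', -, h', hq'⟩
  apply Subtype.ext
  funext g
  obtain ⟨g, hg⟩ := g
  have : g = [] := by
    cases g with
    | nil => rfl
    | cons a l => simp at hg
  subst this
  simp only [hq, hq']
  exact h'.symm

theorem x_not_ext (n : ℕ) (i : Fin k) (hi : ¬ Ext d k M i) : x d k M n i = 0 := by
  unfold x
  have : IsEmpty (Pat d k M n (fun j => j = i)) := by
    constructor
    rintro ⟨q, t, ht, hti, -⟩
    exact hi ⟨t, ht, hti⟩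
  exact Nat.card_of_isEmpty

theorem ext_succ (hd : 1 ≤ d) (i : Fin k) (hi : Ext d k M i) : ∃ j, M i j = true ∧ Ext d k M j := by
  obtain ⟨t, ht, hti⟩ := hi
  have h := (shift_iff t).1 ht ⟨0, hd⟩
  exact ⟨_, by rw [← hti]; exact h.1, _, h.2, rfl⟩

theorem x_pos (hd : 1 ≤ d) (n : ℕ) : ∀ i : Fin k, Ext d k M i → 1 ≤ x d k M n i := by
  induction n with
  | zero => intro i hi; rw [x_zero i hi]
  | succ n ih =>
    intro i hi
    obtain ⟨j, hj, hje⟩ := ext_succ hd i hi
    rw [x_succ]
    refine Nat.one_le_iff_ne_zero.2 (pow_ne_zero _ ?_)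
    have h1 := ih j hje
    have h2 : x d k M n j ≤ ∑ j ∈ Finset.univ.filter (fun j => M i j = true), x d k M n j :=
      Finset.single_le_sum (f := fun j => x d k M n j) (fun _ _ => Nat.zero_le _) (by simp [hj])
    omega

end Pool.Agent.X126.Tree
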