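import Pool.Agent.X126.TreeA

set_option autoImplicit false

open Filter Topology Relation

namespace Pool.Agent.X126.Tree

variable {d k : ℕ} {M : Fin k → Fin k → Bool}

/-! ### size of `Δ_n` -/

noncomputable def deltaEquiv (d n : ℕ) : Δ d (n + 1) ≃ Option (Fin d × Δ d n) where
  toFun g := match g with
    | ⟨[], _⟩ => none
    | ⟨c :: g, hg⟩ => some (c, ⟨g, by simpa using hg⟩)
  invFun o := match o with
    | none => ⟨[], by simp⟩
    | some (c, g) => ⟨c :: g.1, by simpa using g.2⟩
  left_inv g := by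
    obtain ⟨g, hg⟩ := g
    cases g <;> rfl
  right_inv o := by
    rcases o with _ | ⟨c, g⟩ <;> rfl

theorem card_delta (d n : ℕ) : ((d : ℝ) - 1) * (Nat.card (Δ d n) : ℝ) = (d : ℝ) ^ (n + 1) - 1 := by
  induction n with
  | zero =>
    have : Nat.card (Δ d 0) = 1 := by
      rw [Nat.card_eq_one_iff_unique]
      refine ⟨⟨?_⟩, ⟨⟨[], by simp⟩⟩⟩
      rintro ⟨a, ha⟩ ⟨b, hb⟩
      apply Subtype.ext
      cases a with
      | nil => cases b with
        | nil => rfl
        | cons _ _ => simp at hb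
      | cons _ _ => simp at ha
    rw [this]; push_cast; ring
  | succ n ih =>
    rw [Nat.card_congr (deltaEquiv d n), Finite.card_option, Nat.card_prod, Nat.card_eq_fintype_card,
      Fintype.card_fin]
    push_cast
    rw [mul_add, ← mul_assoc, mul_comm ((d : ℝ) - 1) (d : ℝ), mul_assoc, ih]
    ring

theorem card_delta_pos (d n : ℕ) : 0 < (Nat.card (Δ d n) : ℝ) := by
  have : Nonempty (Δ d n) := ⟨⟨[], by simp⟩⟩
  exact_mod_cast Nat.card_pos

/-- edges -/
def R (d k : ℕ) (M : Fin k → Fin k → Bool) (a b : Fin k) : Prop := M a b = true ∧ Ext d k M b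

theorem edge_le {i j : Fin k} (h : R d k M i j) (n : ℕ) : (x d k M n j) ^ d ≤ x d k M (n + 1) i := by
  rw [x_succ]
  refine Nat.pow_le_pow_left ?_ _
  exact Finset.single_le_sum (f := fun j => x d k M n j) (fun _ _ => Nat.zero_le _) (by simp [h.1])

theorem path_le {i j : Fin k} (h : ReflTransGen (R d k M) i j) :
    ∃ l, ∀ n, (x d k M n j) ^ (d ^ l) ≤ x d k M (n + l) i := by
  induction h using ReflTransGen.head_induction_on with
  | refl => exact ⟨0, fun n => by simp⟩
  | head h1 _ ih =>
    obtain ⟨l, hl⟩ := ih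
    refine ⟨l + 1, fun n => ?_⟩
    rw [pow_succ, pow_mul, ← add_assoc]
    exact (Nat.pow_le_pow_left (hl n) d).trans (edge_le h1 _)

theorem cyc_le {c : Fin k} (h : TransGen (R d k M) c c) :
    ∃ r, 1 ≤ r ∧ ∀ n, (x d k M n c) ^ (d ^ r) ≤ x d k M (n + r) c := by
  obtain ⟨b, h1, h2⟩ := TransGen.head'_iff.1 h
  obtain ⟨l, hl⟩ := path_le h2
  refine ⟨l + 1, by omega, fun n => ?_⟩
  rw [pow_succ, pow_mul, ← add_assoc]
  exact (Nat.pow_le_pow_left (hl n) d).trans (edge_le h1 _)

theorem cyc_iter {c : Fin k} {r : ℕ} (h : ∀ n, (x d k M n c) ^ (d ^ r) ≤ x d k M (n + r) c) (n q : ℕ) :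
    (x d k M n c) ^ (d ^ (q * r)) ≤ x d k M (n + q * r) c := by
  induction q with
  | zero => simp
  | succ q ih =>
    have e : n + (q + 1) * r = n + q * r + r := by ring
    rw [e]
    refine le_trans ?_ (h _)
    refine le_trans (le_of_eq ?_) (Nat.pow_le_pow_left ih _)
    rw [← pow_mul, ← pow_add]
    congr 2
    ring

/-- reachable from a cycle -/
def Cy (d k : ℕ) (M : Fin k → Fin k → Bool) (j : Fin k) : Prop :=
  ∃ c, Ext d k M c ∧ TransGen (R d k M) c c ∧ ReflTransGen (R d k M) c j

theorem Cy.ext {j : Fin k} (h : Cy d k M j) : Ext d k M j := by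
  obtain ⟨c, hc, -, h⟩ := h
  induction h with
  | refl => exact hc
  | tail _ h _ => exact h.2

theorem Cy.step {i j : Fin k} (h : Cy d k M i) (hij : R d k M i j) : Cy d k M j := by
  obtain ⟨c, hc, h1, h2⟩ := h
  exact ⟨c, hc, h1, h2.tail hij⟩

theorem lower (hd : 2 ≤ d) {j : Fin k} (hj : Cy d k M j) {m : ℕ} {B : ℝ} (hB0 : 0 ≤ B)
    (hB : B * (d : ℝ) ^ m ≤ Real.log (x d k M m j)) {h : ℝ} (hh : IsEntropy d k M h) :
    ((d : ℝ) - 1) / d * B ≤ h := by
  have hje := hj.ext
  obtain ⟨c, hc, h1, h2⟩ := hj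
  obtain ⟨l, hl⟩ := path_le h2
  obtain ⟨r, hr, hcyc⟩ := cyc_le h1
  have hd0 : (0 : ℝ) < d := by exact_mod_cast (by omega : 0 < d)
  have hd2 : (2 : ℝ) ≤ d := by exact_mod_cast hd
  have hsub : Tendsto (fun q : ℕ => m + l + q * r) atTop atTop :=
    tendsto_atTop_mono (fun q => by
      simp only [id]
      have := Nat.le_mul_of_pos_right q (by omega : 0 < r)
      omega) tendsto_id
  refine ge_of_tendsto' (hh.comp hsub) fun q => ?_
  simp only [Function.comp]
  set N := m + l + q * r with hN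
  have h3 : (x d k M m j) ^ (d ^ (l + q * r)) ≤ p d k M N := by
    rw [p_eq]
    refine le_trans ?_ (Finset.single_le_sum (f := fun j => x d k M N j) (fun _ _ => Nat.zero_le _)
      (Finset.mem_univ c))
    refine le_trans ?_ (cyc_iter hcyc (m + l) q)
    rw [pow_add, pow_mul]
    exact Nat.pow_le_pow_left (hl m) _
  have hx1 : 1 ≤ x d k M m j := x_pos (by omega) m j hje
  have h4 : B * (d : ℝ) ^ N ≤ Real.log (p d k M N) := by
    have h5 : Real.log (((x d k M m j) ^ (d ^ (l + q * r)) : ℕ) : ℝ) ≤ Real.log (p d k M N) := by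
      refine Real.log_le_log ?_ (by exact_mod_cast h3)
      have : 0 < (x d k M m j) ^ (d ^ (l + q * r)) := by positivity
      exact_mod_cast this
    rw [Nat.cast_pow, Real.log_pow, Nat.cast_pow] at h5
    refine le_trans ?_ h5
    have e : B * (d : ℝ) ^ N = (d : ℝ) ^ (l + q * r) * (B * (d : ℝ) ^ m) := by
      rw [hN, add_assoc, pow_add]; ring
    rw [e]
    exact mul_le_mul_of_nonneg_left hB (by positivity)
  rw [le_div_iff₀ (card_delta_pos d N)]
  refine le_trans ?_ h4
  have h6 := card_delta d N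
  have h7 : ((d : ℝ) - 1) / d * B * (Nat.card (Δ d N) : ℝ) = B * (((d : ℝ) ^ (N + 1) - 1) / d) := by
    rw [← h6]; field_simp
  rw [h7]
  refine mul_le_mul_of_nonneg_left ?_ hB0
  rw [div_le_iff₀ hd0, pow_succ]
  linarith

/-- out-degree -/
noncomputable def od (d k : ℕ) (M : Fin k → Fin k → Bool) (i : Fin k) : ℕ :=
  open Classical in (Finset.univ.filter (fun j => R d k M i j)).card

open Classical in
theorem x_succ' (n : ℕ) (i : Fin k) :
    x d k M (n + 1) i = (∑ j ∈ Finset.univ.filter (fun j => R d k M i j), x d k M n j) ^ d := by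
  rw [x_succ]
  congr 1
  symm
  refine Finset.sum_subset ?_ ?_
  · intro j hj
    simp only [Finset.mem_filter, Finset.mem_univ, true_and] at hj ⊢
    exact hj.1
  · intro j hj hj'
    simp only [Finset.mem_filter, Finset.mem_univ, true_and] at hj hj'
    exact x_not_ext n j fun he => hj' ⟨hj, he⟩

theorem x_one (i : Fin k) : x d k M 1 i = (od d k M i) ^ d := by
  classical
  have h := x_succ' (d := d) (M := M) 0 i
  rw [zero_add] at h
  rw [h]
  unfold od
  congr 1
  rw [Finset.card_eq_sum_ones]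
  refine Finset.sum_congr ?_ fun j hj => ?_
  · congr
  · simp only [Finset.mem_filter, Finset.mem_univ, true_and] at hj
    exact x_zero j hj.2

theorem od_pos (hd : 1 ≤ d) {i : Fin k} (hi : Ext d k M i) : 1 ≤ od d k M i := by
  classical
  obtain ⟨j, hj, hje⟩ := ext_succ hd i hi
  unfold od
  refine Finset.card_pos.2 ⟨j, ?_⟩
  simp only [Finset.mem_filter, Finset.mem_univ, true_and]
  exact ⟨hj, hje⟩

/-- the golden mean recursion -/
def PQ (d : ℕ) : ℕ → ℕ × ℕ
  | 0 => (1, 1)
  | n + 1 => (((PQ d n).1 + (PQ d n).2) ^ d, (PQ d n).1 ^ d)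

theorem PQ_le (d n : ℕ) : (PQ d n).2 ≤ (PQ d n).1 := by
  cases n with
  | zero => exact le_rfl
  | succ n => exact Nat.pow_le_pow_left (Nat.le_add_right _ _) d

theorem upper_C (hd : 1 ≤ d)
    (hC : ∀ j, Cy d k M j → od d k M j ≤ 2 ∧ (od d k M j = 2 → ∃ b, R d k M j b ∧ od d k M b = 1)) (n : ℕ) :
    ∀ j, Cy d k M j → x d k M n j ≤ (PQ d n).1 ∧ (od d k M j = 1 → x d k M n j ≤ (PQ d n).2) := by
  classical
  induction n with
  | zero =>
    intro j hj
    rw [x_zero j hj.ext]
    exact ⟨le_rfl, fun _ => le_rfl⟩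
  | succ n ih =>
    intro j hj
    obtain ⟨h1, h2⟩ := hC j hj
    have h0 := od_pos hd hj.ext
    have key1 : od d k M j = 1 → x d k M (n + 1) j ≤ (PQ d (n + 1)).2 := by
      intro hod
      obtain ⟨b, hb⟩ := Finset.card_eq_one.1 hod
      rw [x_succ']
      have hb' : Finset.univ.filter (fun i => R d k M j i) = {b} := by rw [← hb]
      rw [hb', Finset.sum_singleton]
      have hRb : R d k M j b := by
        have : b ∈ Finset.univ.filter (fun i => R d k M j i) := by rw [hb']; simp
        simpa using this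
      exact Nat.pow_le_pow_left (ih b (hj.step hRb)).1 d
    refine ⟨?_, key1⟩
    rcases Nat.lt_or_ge (od d k M j) 2 with h | h
    · exact (key1 (by omega)).trans (PQ_le d (n + 1))
    · have hod : od d k M j = 2 := le_antisymm h1 h
      obtain ⟨b, hb, hb1⟩ := h2 hod
      rw [x_succ']
      refine Nat.pow_le_pow_left ?_ d
      have hbm : b ∈ Finset.univ.filter (fun i => R d k M j i) := by simp [hb]
      rw [← Finset.add_sum_erase _ _ hbm]
      have hcard : ((Finset.univ.filter (fun i => R d k M j i)).erase b).card = 1 := by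
        rw [Finset.card_erase_of_mem hbm]
        have : (Finset.univ.filter (fun i => R d k M j i)).card = 2 := by
          rw [← hod]; unfold od; congr
        rw [this]
      obtain ⟨a, ha⟩ := Finset.card_eq_one.1 hcard
      rw [ha, Finset.sum_singleton, add_comm]
      have hRa : R d k M j a := by
        have : a ∈ (Finset.univ.filter (fun i => R d k M j i)).erase b := by rw [ha]; simp
        simpa using (Finset.mem_erase.1 this).2
      exact add_le_add (ih a (hj.step hRa)).1 ((ih b (hj.step hb)).2 hb1)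

/-- the general upper bound -/
theorem upper_all (hd : 2 ≤ d) {A : ℝ} (hA0 : 0 ≤ A)
    (hA : ∀ n, ∀ j, Cy d k M j → Real.log (x d k M n j) ≤ (d : ℝ) ^ n * A) :
    ∀ i, Ext d k M i → ∃ K, 0 ≤ K ∧ ∀ n, Real.log (x d k M n i) ≤ (d : ℝ) ^ n * A + K := by
  classical
  let T := {i : Fin k // Ext d k M i ∧ ¬ Cy d k M i}
  let r : T → T → Prop := fun a b => TransGen (R d k M) b.1 a.1
  have hir : Std.Irrefl r := ⟨fun a h => a.2.2 ⟨a.1, a.2.1, h, ReflTransGen.refl⟩⟩
  have htr : IsTrans T r := ⟨fun a b c h1 h2 => TransGen.trans h2 h1⟩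
  have hwf : WellFounded r := Finite.wellFounded_of_trans_of_irrefl r
  have key : ∀ a : T, ∃ K, 0 ≤ K ∧ ∀ n, Real.log (x d k M n a.1) ≤ (d : ℝ) ^ n * A + K := by
    intro a
    induction a using hwf.induction with
    | _ a ih =>
      have hsucc : ∀ j, R d k M a.1 j → ∃ K, 0 ≤ K ∧ ∀ n, Real.log (x d k M n j) ≤ (d : ℝ) ^ n * A + K := by
        intro j hj
        by_cases hc : Cy d k M j
        · exact ⟨0, le_rfl, fun n => by rw [add_zero]; exact hA n j hc⟩
        · exact ih ⟨j, hj.2, hc⟩ (TransGen.single hj)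
      choose! K hK0 hK using hsucc
      set F := Finset.univ.filter (fun j => R d k M a.1 j) with hF
      set S := ∑ j ∈ F, K j with hS
      have hS0 : 0 ≤ S := Finset.sum_nonneg fun j hj => hK0 j (by simpa [hF] using hj)
      have hFne : F.Nonempty := by
        obtain ⟨j, hj, hje⟩ := ext_succ (by omega) a.1 a.2.1
        exact ⟨j, by simp only [hF, Finset.mem_filter, Finset.mem_univ, true_and]; exact ⟨hj, hje⟩⟩
      have hFc : (1 : ℝ) ≤ F.card := by exact_mod_cast Finset.card_pos.2 hFne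
      refine ⟨d * (Real.log F.card + S), by
        have := Real.log_nonneg hFc
        positivity, fun n => ?_⟩
      cases n with
      | zero =>
        rw [x_zero _ a.2.1]
        have := Real.log_nonneg hFc
        simp only [Nat.cast_one, Real.log_one]
        positivity
      | succ n =>
        rw [x_succ', Nat.cast_pow, Real.log_pow]
        have h1 : Real.log ((∑ j ∈ F, x d k M n j : ℕ) : ℝ) ≤ Real.log F.card + ((d : ℝ) ^ n * A + S) := by
          have h2 : ((∑ j ∈ F, x d k M n j : ℕ) : ℝ) ≤ F.card * Real.exp ((d : ℝ) ^ n * A + S) := by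
            push_cast
            rw [← nsmul_eq_mul]
            refine Finset.sum_le_card_nsmul _ _ _ fun j hj => ?_
            have hRj : R d k M a.1 j := by simpa [hF] using hj
            have hx : (0 : ℝ) < x d k M n j := by
              exact_mod_cast x_pos (by omega) n j hRj.2
            rw [← Real.log_le_iff_le_exp hx]
            refine (hK j hRj n).trans ?_
            have : K j ≤ S := Finset.single_le_sum (f := K) (fun i hi => hK0 i (by simpa [hF] using hi)) hj
            linarith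
          have h3 : (0 : ℝ) < ((∑ j ∈ F, x d k M n j : ℕ) : ℝ) := by
            obtain ⟨j, hj⟩ := hFne
            have hRj : R d k M a.1 j := by simpa [hF] using hj
            have h4 := x_pos (by omega) n j hRj.2
            have h5 : x d k M n j ≤ ∑ j ∈ F, x d k M n j :=
              Finset.single_le_sum (f := fun j => x d k M n j) (fun _ _ => Nat.zero_le _) hj
            exact_mod_cast lt_of_lt_of_le h4 h5
          refine (Real.log_le_log h3 h2).trans ?_
          rw [Real.log_mul (by positivity) (by positivity), Real.log_exp]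
        have h4 := mul_le_mul_of_nonneg_left h1 (Nat.cast_nonneg d : (0 : ℝ) ≤ (d : ℝ))
        refine h4.trans (le_of_eq ?_)
        rw [pow_succ]; ring
  intro i hi
  by_cases hc : Cy d k M i
  · exact ⟨0, le_rfl, fun n => by rw [add_zero]; exact hA n i hc⟩
  · exact key ⟨i, hi, hc⟩

theorem upper (hd : 2 ≤ d) (hne : (shift d k M).Nonempty) {A : ℝ} (hA0 : 0 ≤ A)
    (hA : ∀ n, ∀ j, Cy d k M j → Real.log (x d k M n j) ≤ (d : ℝ) ^ n * A)
    {h : ℝ} (hh : IsEntropy d k M h) : h ≤ ((d : ℝ) - 1) / d * A := by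
  classical
  have hall := upper_all hd hA0 hA
  choose! K hK0 hK using hall
  obtain ⟨t, ht⟩ := hne
  set F := Finset.univ.filter (fun j => Ext d k M j) with hF
  set S := ∑ j ∈ F, K j with hS
  have hFne : F.Nonempty := ⟨t [], by simp only [hF, Finset.mem_filter, Finset.mem_univ, true_and]; exact ⟨t, ht, rfl⟩⟩
  have hFc : (1 : ℝ) ≤ F.card := by exact_mod_cast Finset.card_pos.2 hFne
  have hp : ∀ n, p d k M n = ∑ j ∈ F, x d k M n j := by
    intro n
    rw [p_eq]
    symm
    refine Finset.sum_subset (Finset.subset_univ _) fun j _ hj => ?_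
    simp only [hF, Finset.mem_filter, Finset.mem_univ, true_and] at hj
    exact x_not_ext n j hj
  have hb : ∀ n, Real.log (p d k M n) ≤ (Real.log F.card + S) + (d : ℝ) ^ n * A := by
    intro n
    rw [hp]
    have h2 : ((∑ j ∈ F, x d k M n j : ℕ) : ℝ) ≤ F.card * Real.exp ((d : ℝ) ^ n * A + S) := by
      push_cast
      rw [← nsmul_eq_mul]
      refine Finset.sum_le_card_nsmul _ _ _ fun j hj => ?_
      have hRj : Ext d k M j := by simpa [hF] using hj
      have hx : (0 : ℝ) < x d k M n j := by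
        exact_mod_cast x_pos (by omega) n j hRj
      rw [← Real.log_le_iff_le_exp hx]
      refine (hK j hRj n).trans ?_
      have : K j ≤ S := Finset.single_le_sum (f := K) (fun i hi => hK0 i (by simpa [hF] using hi)) hj
      linarith
    have h3 : (0 : ℝ) < ((∑ j ∈ F, x d k M n j : ℕ) : ℝ) := by
      obtain ⟨j, hj⟩ := hFne
      have hRj : Ext d k M j := by simpa [hF] using hj
      have h4 := x_pos (by omega) n j hRj
      have h5 : x d k M n j ≤ ∑ j ∈ F, x d k M n j :=
        Finset.single_le_sum (f := fun j => x d k M n j) (fun _ _ => Nat.zero_le _) hj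
      exact_mod_cast lt_of_lt_of_le h4 h5
    refine (Real.log_le_log h3 h2).trans (le_of_eq ?_)
    rw [Real.log_mul (by positivity) (by positivity), Real.log_exp]
    ring
  set C := Real.log F.card + S with hC
  have hd2 : (2 : ℝ) ≤ d := by exact_mod_cast hd
  have hd0 : (0 : ℝ) < d := by linarith
  have hd1 : (0 : ℝ) < (d : ℝ) - 1 := by linarith
  have hz : Tendsto (fun n : ℕ => ((d : ℝ)⁻¹) ^ n) atTop (𝓝 0) :=
    tendsto_pow_atTop_nhds_zero_of_lt_one (by positivity) (inv_lt_one_of_one_lt₀ (by linarith))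
  have hlim : Tendsto (fun n : ℕ => (C * ((d : ℝ)⁻¹) ^ n + A) * ((d : ℝ) - 1) / ((d : ℝ) - ((d : ℝ)⁻¹) ^ n))
      atTop (𝓝 ((C * 0 + A) * ((d : ℝ) - 1) / ((d : ℝ) - 0))) := by
    refine Tendsto.div (((hz.const_mul C).add_const A).mul_const _) (tendsto_const_nhds.sub hz) ?_
    rw [sub_zero]; exact hd0.ne'
  have e : (C * 0 + A) * ((d : ℝ) - 1) / ((d : ℝ) - 0) = ((d : ℝ) - 1) / d * A := by
    rw [sub_zero]; ring
  rw [e] at hlim
  refine le_of_tendsto_of_tendsto' hh hlim fun n => ?_
  rw [div_le_iff₀ (card_delta_pos d n)]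
  refine (hb n).trans (le_of_eq ?_)
  have h6 := card_delta d n
  have hdn : (0 : ℝ) < (d : ℝ) ^ n := by positivity
  have h7 : (d : ℝ) - ((d : ℝ)⁻¹) ^ n = ((d : ℝ) ^ (n + 1) - 1) / (d : ℝ) ^ n := by
    rw [inv_pow, pow_succ]; field_simp
  have h8 : (0 : ℝ) < (d : ℝ) ^ (n + 1) - 1 := by
    rw [← h6]; exact mul_pos hd1 (card_delta_pos d n)
  have h9 : (Nat.card (Δ d n) : ℝ) = ((d : ℝ) ^ (n + 1) - 1) / ((d : ℝ) - 1) := by
    rw [← h6]; field_simp
  rw [h7, h9, inv_pow]
  field_simp

end Pool.Agent.X126.Tree
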