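import Pool.Agent.X126.TreeB

set_option autoImplicit false

open Filter Topology Relation

namespace Pool.Agent.X126.Tree

variable {d k : ℕ} {M : Fin k → Fin k → Bool}

theorem dichotomy (hd : 2 ≤ d) (hne : (shift d k M).Nonempty) {A : ℝ} (hA0 : 0 ≤ A)
    (hA : ∀ n, Real.log (PQ d n).1 ≤ (d : ℝ) ^ n * A) {h : ℝ} (hh : IsEntropy d k M h) :
    h ≤ ((d : ℝ) - 1) / d * A ∨ ((d : ℝ) - 1) / d * ((1 + 1 / d) * Real.log 2) ≤ h := by
  classical
  have hd2 : (2 : ℝ) ≤ d := by exact_mod_cast hd
  have hd0 : (0 : ℝ) < d := by linarith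
  have hl2 : 0 < Real.log 2 := Real.log_pos (by norm_num)
  by_cases hC : ∀ j, Cy d k M j → od d k M j ≤ 2 ∧ (od d k M j = 2 → ∃ b, R d k M j b ∧ od d k M b = 1)
  · left
    refine upper hd hne hA0 (fun n j hj => ?_) hh
    have h1 := (upper_C (by omega) hC n j hj).1
    have h0 := x_pos (by omega) n j hj.ext
    exact (Real.log_le_log (by exact_mod_cast h0) (by exact_mod_cast h1)).trans (hA n)
  · right
    push Not at hC
    obtain ⟨j, hj, hjj⟩ := hC
    have hB0 : 0 ≤ (1 + 1 / (d : ℝ)) * Real.log 2 := by positivity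
    have h0 := od_pos (by omega : 1 ≤ d) hj.ext
    rcases Nat.lt_or_ge (od d k M j) 3 with h3 | h3
    · obtain ⟨hod, hall⟩ := hjj (by omega)
      -- both successors have out-degree at least two
      refine lower hd hj (m := 2) hB0 ?_ hh
      have h4 : ((2 * 2 ^ d) ^ d : ℕ) ≤ x d k M 2 j := by
        have := x_succ' (d := d) (M := M) 1 j
        rw [this]
        refine Nat.pow_le_pow_left ?_ d
        have hcard : (Finset.univ.filter (fun i => R d k M j i)).card = 2 := by
          rw [← hod]; unfold od; congr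
        have h8 := Finset.card_nsmul_le_sum (Finset.univ.filter (fun i => R d k M j i))
          (fun b => x d k M 1 b) (2 ^ d) (fun b hb => by
            have hRb : R d k M j b := by simpa using hb
            rw [x_one]
            refine Nat.pow_le_pow_left ?_ d
            have h5 := hall b hRb
            have h6 := od_pos (by omega : 1 ≤ d) hRb.2
            omega)
        rw [hcard, smul_eq_mul] at h8
        exact h8
      have h5 : Real.log (((2 * 2 ^ d) ^ d : ℕ) : ℝ) ≤ Real.log (x d k M 2 j) := by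
        refine Real.log_le_log ?_ (by exact_mod_cast h4)
        positivity
      refine le_trans (le_of_eq ?_) h5
      push_cast
      rw [Real.log_pow, Real.log_mul (by norm_num) (by positivity), Real.log_pow]
      field_simp
      ring
    · refine lower hd hj (m := 1) hB0 ?_ hh
      rw [x_one, pow_one, Nat.cast_pow, Real.log_pow]
      have h4 : Real.log 3 ≤ Real.log (od d k M j) := by
        refine Real.log_le_log (by norm_num) (by exact_mod_cast h3)
      have h5 : (1 + 1 / (d : ℝ)) * Real.log 2 ≤ Real.log 3 := by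
        have h6 : (1 + 1 / (d : ℝ)) ≤ 3 / 2 := by
          have : 1 / (d : ℝ) ≤ 1 / 2 := one_div_le_one_div_of_le (by norm_num) hd2
          linarith
        have h7 : 3 * Real.log 2 ≤ 2 * Real.log 3 := by
          have e1 : 3 * Real.log 2 = Real.log (2 ^ 3) := by rw [Real.log_pow]; norm_num
          have e2 : 2 * Real.log 3 = Real.log (3 ^ 2) := by rw [Real.log_pow]; norm_num
          rw [e1, e2]
          exact Real.log_le_log (by norm_num) (by norm_num)
        nlinarith
      nlinarith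

theorem PQ_pos (d n : ℕ) : 1 ≤ (PQ d n).1 := by
  induction n with
  | zero => exact le_rfl
  | succ n ih =>
    simp only [PQ]
    exact Nat.one_le_pow _ _ (by omega)

/-- bound from level `n0` -/
theorem PQ_bound (hd : 2 ≤ d) (n0 : ℕ) (n : ℕ) : Real.log (PQ d n).1 ≤ (d : ℝ) ^ n *
    ((Real.log (PQ d n0).1 + d * Real.log 2 / (d - 1)) / (d : ℝ) ^ n0) := by
  have hd2 : (2 : ℝ) ≤ d := by exact_mod_cast hd
  have hd0 : (0 : ℝ) < d := by linarith
  have hd1 : (0 : ℝ) < (d : ℝ) - 1 := by linarith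
  have hl2 : 0 < Real.log 2 := Real.log_pos (by norm_num)
  set c := d * Real.log 2 / ((d : ℝ) - 1) with hc
  have hc0 : 0 ≤ c := by positivity
  have hcd : d * Real.log 2 + c = d * c := by
    rw [hc]; field_simp; ring
  have hpos : ∀ n, (0 : ℝ) < (PQ d n).1 := fun n => by exact_mod_cast PQ_pos d n
  -- one step
  have hstep : ∀ n, Real.log (PQ d (n + 1)).1 + c ≤ d * (Real.log (PQ d n).1 + c) := by
    intro n
    have h1 : Real.log (PQ d (n + 1)).1 ≤ d * (Real.log 2 + Real.log (PQ d n).1) := by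
      have e : (PQ d (n + 1)).1 = ((PQ d n).1 + (PQ d n).2) ^ d := rfl
      rw [e, Nat.cast_pow, Real.log_pow]
      refine mul_le_mul_of_nonneg_left ?_ hd0.le
      rw [← Real.log_mul (by norm_num) (hpos n).ne']
      refine Real.log_le_log ?_ ?_
      · have := PQ_pos d n
        have h2 : 0 < (PQ d n).1 + (PQ d n).2 := by omega
        exact_mod_cast h2
      · have := PQ_le d n
        have h2 : (PQ d n).1 + (PQ d n).2 ≤ 2 * (PQ d n).1 := by omega
        exact_mod_cast h2
    nlinarith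
  have hlow : ∀ n, (d : ℝ) * Real.log (PQ d n).1 ≤ Real.log (PQ d (n + 1)).1 := by
    intro n
    have e : (PQ d (n + 1)).1 = ((PQ d n).1 + (PQ d n).2) ^ d := rfl
    rw [e, Nat.cast_pow, Real.log_pow]
    refine mul_le_mul_of_nonneg_left ?_ hd0.le
    exact Real.log_le_log (hpos n) (by exact_mod_cast Nat.le_add_right _ _)
  rw [mul_div_assoc', le_div_iff₀ (by positivity)]
  rcases le_total n0 n with h | h
  · obtain ⟨m, rfl⟩ := Nat.exists_eq_add_of_le h
    have key : ∀ m, Real.log (PQ d (n0 + m)).1 + c ≤ (d : ℝ) ^ m * (Real.log (PQ d n0).1 + c) := by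
      intro m
      induction m with
      | zero => simp
      | succ m ih =>
        rw [← add_assoc]
        refine (hstep _).trans ?_
        rw [pow_succ, mul_comm ((d : ℝ) ^ m) (d : ℝ), mul_assoc]
        exact mul_le_mul_of_nonneg_left ih hd0.le
    have h1 := key m
    rw [pow_add]
    have h2 : Real.log (PQ d (n0 + m)).1 ≤ (d : ℝ) ^ m * (Real.log (PQ d n0).1 + c) := by linarith
    have h3 : (0 : ℝ) < (d : ℝ) ^ n0 := by positivity
    calc Real.log (PQ d (n0 + m)).1 * (d : ℝ) ^ n0
        ≤ ((d : ℝ) ^ m * (Real.log (PQ d n0).1 + c)) * (d : ℝ) ^ n0 := by gcongr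
      _ = (d : ℝ) ^ n0 * (d : ℝ) ^ m * (Real.log (PQ d n0).1 + c) := by ring
  · obtain ⟨m, rfl⟩ := Nat.exists_eq_add_of_le h
    have key : ∀ m, (d : ℝ) ^ m * Real.log (PQ d n).1 ≤ Real.log (PQ d (n + m)).1 := by
      intro m
      induction m with
      | zero => simp
      | succ m ih =>
        rw [← add_assoc]
        refine le_trans ?_ (hlow _)
        rw [pow_succ, mul_comm ((d : ℝ) ^ m) (d : ℝ), mul_assoc]
        exact mul_le_mul_of_nonneg_left ih hd0.le
    have h1 := key m
    have h3 : (0 : ℝ) < (d : ℝ) ^ n := by positivity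
    calc Real.log (PQ d n).1 * (d : ℝ) ^ (n + m)
        = (d : ℝ) ^ n * ((d : ℝ) ^ m * Real.log (PQ d n).1) := by rw [pow_add]; ring
      _ ≤ (d : ℝ) ^ n * (Real.log (PQ d (n + m)).1 + c) := by
        refine mul_le_mul_of_nonneg_left ?_ h3.le
        linarith

/-- The gap. -/
theorem gap (hd : 2 ≤ d) : ∃ A : ℝ, Real.log 2 ≤ A ∧ A < (1 + 1 / d) * Real.log 2 ∧
    ∀ n, Real.log (PQ d n).1 ≤ (d : ℝ) ^ n * A := by
  have hl2 : 0 < Real.log 2 := Real.log_pos (by norm_num)
  rcases Nat.lt_or_ge d 3 with h | h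
  · obtain rfl : d = 2 := by omega
    refine ⟨_, ?_, ?_, PQ_bound (le_refl 2) 5⟩
    · have e : (PQ 2 5).1 = 8143397 ^ 2 := by norm_num [PQ]
      have e' : ((8143397 ^ 2 : ℕ) : ℝ) = (8143397 : ℝ) ^ 2 := by norm_num
      rw [e, e', Real.log_pow, le_div_iff₀ (by norm_num)]
      have h1 : Real.log (2 ^ 16) ≤ Real.log 8143397 := Real.log_le_log (by norm_num) (by norm_num)
      rw [Real.log_pow] at h1
      push_cast at h1 ⊢
      norm_num
      linarith
    · have e : (PQ 2 5).1 = 8143397 ^ 2 := by norm_num [PQ]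
      have e' : ((8143397 ^ 2 : ℕ) : ℝ) = (8143397 : ℝ) ^ 2 := by norm_num
      rw [e, e', Real.log_pow, div_lt_iff₀ (by norm_num)]
      have h1 : Real.log (8143397 * 2) < Real.log (2 ^ 24) := Real.log_lt_log (by norm_num) (by norm_num)
      rw [Real.log_pow, Real.log_mul (by norm_num) (by norm_num)] at h1
      push_cast at h1 ⊢
      norm_num
      linarith
  · have hd3 : (3 : ℝ) ≤ d := by exact_mod_cast h
    have hd0 : (0 : ℝ) < d := by linarith
    have hd1 : (0 : ℝ) < (d : ℝ) - 1 := by linarith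
    have e : (PQ d 2).1 = (2 ^ d + 1) ^ d := by simp [PQ]
    have hpow : (8 : ℝ) ≤ 2 ^ d := by
      calc (8 : ℝ) = 2 ^ 3 := by norm_num
        _ ≤ 2 ^ d := pow_le_pow_right₀ (by norm_num) h
    refine ⟨_, ?_, ?_, PQ_bound hd 2⟩
    · rw [e]
      push_cast
      rw [Real.log_pow, le_div_iff₀ (by positivity)]
      have h1 : Real.log (2 ^ d) ≤ Real.log (2 ^ d + 1) := Real.log_le_log (by positivity) (by linarith)
      rw [Real.log_pow] at h1
      have h2 : 0 ≤ d * Real.log 2 / ((d : ℝ) - 1) := by positivity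
      nlinarith
    · rw [e]
      push_cast
      rw [Real.log_pow, div_lt_iff₀ (by positivity)]
      have h1 : Real.log ((2 ^ d + 1) * (3 / 2)) ≤ Real.log (2 ^ (d + 1)) := by
        refine Real.log_le_log (by positivity) ?_
        rw [pow_succ]; linarith
      rw [Real.log_mul (by positivity) (by norm_num), Real.log_pow] at h1
      have h3 : Real.log 2 < 2 * Real.log (3 / 2) := by
        have e2 : 2 * Real.log (3 / 2) = Real.log ((3 / 2) ^ 2) := by rw [Real.log_pow]; norm_num
        rw [e2]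
        exact Real.log_lt_log (by norm_num) (by norm_num)
      have h4 : Real.log 2 / ((d : ℝ) - 1) ≤ Real.log 2 / 2 := by
        refine div_le_div_of_nonneg_left hl2.le (by norm_num) (by linarith)
      have h5 : d * Real.log 2 / ((d : ℝ) - 1) = d * (Real.log 2 / ((d : ℝ) - 1)) := by ring
      have h6 : (1 + 1 / (d : ℝ)) * Real.log 2 * (d : ℝ) ^ 2 = d * ((d + 1) * Real.log 2) := by
        field_simp
      rw [h5, h6, ← mul_add]
      refine mul_lt_mul_of_pos_left ?_ hd0
      push_cast at h1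
      linarith

theorem final (hd : 2 ≤ d) : ∃ a b : ℝ, ((d : ℝ) - 1) / d * Real.log 2 ≤ a ∧ a < b ∧
    b ≤ ((d : ℝ) - 1) * Real.log 2 ∧ ∀ h ∈ H d, h ∉ Set.Ioo a b := by
  obtain ⟨A, hA1, hA2, hA⟩ := gap hd
  have hd2 : (2 : ℝ) ≤ d := by exact_mod_cast hd
  have hd0 : (0 : ℝ) < d := by linarith
  have hd1 : (0 : ℝ) < (d : ℝ) - 1 := by linarith
  have hl2 : 0 < Real.log 2 := Real.log_pos (by norm_num)
  have hq : (0 : ℝ) < ((d : ℝ) - 1) / d := by positivity
  refine ⟨((d : ℝ) - 1) / d * A, ((d : ℝ) - 1) / d * ((1 + 1 / d) * Real.log 2), ?_, ?_, ?_, ?_⟩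
  · exact mul_le_mul_of_nonneg_left hA1 hq.le
  · exact mul_lt_mul_of_pos_left hA2 hq
  · have h1 : (1 + 1 / (d : ℝ)) / d ≤ 1 := by
      rw [div_le_one hd0]
      have : 1 / (d : ℝ) ≤ 1 := by rw [div_le_one hd0]; linarith
      linarith
    have e : ((d : ℝ) - 1) / d * ((1 + 1 / d) * Real.log 2)
        = ((d : ℝ) - 1) * Real.log 2 * ((1 + 1 / (d : ℝ)) / d) := by ring
    rw [e]
    exact mul_le_of_le_one_right (by positivity) h1
  · rintro h ⟨k, M, -, hne, hent⟩ ⟨h1, h2⟩
    rcases dichotomy hd hne (by linarith) hA hent with h3 | h3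
    · linarith
    · linarith

end Pool.Agent.X126.Tree
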