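import Mathlib

set_option autoImplicit false

open Filter Topology

namespace Pool.Agent.X126.Tree

/-- The hom Markov tree-shift `𝒯_M`: the labelings `t : Σ* → {1, …, k}` of the `d`-tree (words over `Fin d`; the
children of `g` are the words `g ++ [i]`) with `M(t(g), t(gi)) = 1` for all `g` and `i`. The `0-1` matrix `M` is
given as a `Bool`-valued function. -/
def shift (d k : ℕ) (M : Fin k → Fin k → Bool) : Set (List (Fin d) → Fin k) :=
  {t | ∀ (g : List (Fin d)) (i : Fin d), M (t g) (t (g ++ [i])) = true}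

/-- The words of length at most `n`. -/
abbrev Δ (d n : ℕ) : Type := {g : List (Fin d) // g.length ≤ n}

/-- `p_M(n)`: the number of distinct restrictions of the elements of `𝒯_M` to `Δ_n`. -/
noncomputable def p (d k : ℕ) (M : Fin k → Fin k → Bool) (n : ℕ) : ℕ :=
  {q : Δ d n → Fin k | ∃ t ∈ shift d k M, ∀ g : Δ d n, q g = t g.1}.ncard

/-- `h` is the entropy of `𝒯_M`: the limit of `log p_M(n) / |Δ_n|`. -/
def IsEntropy (d k : ℕ) (M : Fin k → Fin k → Bool) (h : ℝ) : Prop :=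
  Tendsto (fun n => Real.log (p d k M n) / (Nat.card (Δ d n) : ℝ)) atTop (𝓝 h)

/-- `ℋ^(d)`: all entropies of nonempty hom Markov tree-shifts. -/
def H (d : ℕ) : Set ℝ :=
  {h | ∃ (k : ℕ) (M : Fin k → Fin k → Bool), 1 ≤ k ∧ (shift d k M).Nonempty ∧ IsEntropy d k M h}

/-- `M` is irreducible. -/
def Irreducible (k : ℕ) (M : Fin k → Fin k → Bool) : Prop :=
  ∀ i j, ∃ m : ℕ, 1 ≤ m ∧ 0 < ((Matrix.of fun a b => if M a b then (1 : ℤ) else 0) ^ m) i j

/-- `ℋ^(d)_irr`. -/
def Hirr (d : ℕ) : Set ℝ :=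
  {h | ∃ (k : ℕ) (M : Fin k → Fin k → Bool), 1 ≤ k ∧ Irreducible k M ∧ (shift d k M).Nonempty ∧
    IsEntropy d k M h}

/-- `S` is dense in the open interval `(a, b)`. -/
def DenseIn (S : Set ℝ) (a b : ℝ) : Prop :=
  ∀ c e : ℝ, a ≤ c → c < e → e ≤ b → (S ∩ Set.Ioo c e).Nonempty

end Pool.Agent.X126.Tree
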