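import Mathlib

set_option autoImplicit false

open Filter Topology

namespace Pool.Agent.X126.Tsft

/-- Nodes of the `d`-ary tree. -/
abbrev Node (d : ℕ) : Type := List (Fin d)

/-- `n`-blocks. -/
abbrev Block (d : ℕ) (B : Type) (n : ℕ) : Type := {w : Node d // w.length < n} → B

/-- The `n`-block of `t` at `v`. -/
def blockAt {d : ℕ} {B : Type} (t : Node d → B) (v : Node d) (n : ℕ) : Block d B n :=
  fun w => t (v ++ w.1)

/-- The tree-shift with forbidden blocks `F`. -/
def shiftOf {d : ℕ} {B : Type} (F : Set (Σ n : ℕ, Block d B n)) : Set (Node d → B) :=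
  {t | ∀ p ∈ F, ∀ v, blockAt t v p.1 ≠ p.2}

/-- The `n`-blocks occurring in `X`. -/
def blocks {d : ℕ} {B : Type} (X : Set (Node d → B)) (n : ℕ) : Set (Block d B n) :=
  {b | ∃ t ∈ X, ∃ v, blockAt t v n = b}

noncomputable section

/-! finset of short lists -/
def L (d : ℕ) : ℕ → Finset (Node d)
  | 0 => ∅
  | n + 1 => insert [] (((Finset.univ : Finset (Fin d)) ×ˢ L d n).image (fun p => p.1 :: p.2))

theorem mem_L (d n : ℕ) (w : Node d) : w ∈ L d n ↔ w.length < n := by
  induction n generalizing w with
  | zero => simp [L]
  | succ n ih =>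
    rw [L, Finset.mem_insert, Finset.mem_image]
    constructor
    · rintro (rfl | ⟨⟨j, w'⟩, h, rfl⟩)
      · simp
      · rw [Finset.mem_product] at h
        have := (ih w').1 h.2
        simp [this]
    · intro h
      rcases w with _ | ⟨j, w'⟩
      · left; rfl
      · right
        refine ⟨(j, w'), ?_, rfl⟩
        rw [Finset.mem_product]
        refine ⟨Finset.mem_univ _, (ih w').2 ?_⟩
        simpa using h

instance (d n : ℕ) : Fintype {w : Node d // w.length < n} :=
  Fintype.subtype (L d n) (mem_L d n)

variable {S : Type} [Fintype S] [DecidableEq S] (A : Matrix S S ℕ)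

/-- the number of children -/
def dd (S : Type) [Fintype S] : ℕ := Fintype.card S + 2

/-- state attached to a child index -/
def σ (j : Fin (Fintype.card S + 2)) : Option S :=
  if h : (j : ℕ) < Fintype.card S then some ((Fintype.equivFin S).symm ⟨j, h⟩) else none

/-- edge or dead -/
def stp (s : S) : Option S → Option S
  | none => none
  | some s' => if A s s' = 1 then some s' else none

def next : Option S → Fin (Fintype.card S + 2) → Option S
  | none, _ => none
  | some s, j => stp A s (σ j)

theorem sum_σ (G : Option S → ℕ) (h0 : G none = 0) :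
    ∑ j : Fin (Fintype.card S + 2), G (σ j) = ∑ s : S, G (some s) := by
  rw [Fin.sum_univ_castSucc, Fin.sum_univ_castSucc]
  have h1 : G (σ (Fin.last (Fintype.card S + 1)) : Option S) = 0 := by
    have : (σ (Fin.last (Fintype.card S + 1)) : Option S) = none := by
      unfold σ; simp
    rw [this, h0]
  have h2 : G (σ (Fin.last (Fintype.card S)).castSucc : Option S) = 0 := by
    have : (σ (Fin.last (Fintype.card S)).castSucc : Option S) = none := by
      unfold σ; simp
    rw [this, h0]
  rw [h1, h2, add_zero, add_zero]
  rw [← Equiv.sum_comp (Fintype.equivFin S).symm]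
  refine Finset.sum_congr rfl fun j _ => ?_
  congr 1
  unfold σ
  have : ((j.castSucc.castSucc : Fin (Fintype.card S + 2)) : ℕ) < Fintype.card S := j.2
  rw [dif_pos this]
  rfl

/-- state at a node -/
def st (a : Option S) (w : Node (Fintype.card S + 2)) : Option S := w.foldl (next A) a

theorem st_nil (a : Option S) : st A a [] = a := rfl
theorem st_cons (a : Option S) (j : Fin (Fintype.card S + 2)) (w) :
    st A a (j :: w) = st A (next A a j) w := rfl
theorem st_append (a : Option S) (v w) : st A a (v ++ w) = st A (st A a v) w := by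
  unfold st; rw [List.foldl_append]

theorem st_concat (a : Option S) (v) (j) : st A a (v ++ [j]) = next A (st A a v) j := by
  rw [st_append]; rfl

/-- the alphabet -/
abbrev Alph (S : Type) : Type := Option (S × Bool)

def state (x : Alph S) : Option S := x.map Prod.fst

/-- valid trees -/
def Valid (t : Node (Fintype.card S + 2) → Alph S) : Prop :=
  ∀ v j, state (t (v ++ [j])) = next A (state (t v)) j

theorem valid_state {t : Node (Fintype.card S + 2) → Alph S} (h : Valid A t) (v w) :
    state (t (v ++ w)) = st A (state (t v)) w := by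
  induction w using List.reverseRecOn with
  | nil => simp [st_nil]
  | append_singleton w j ih =>
    rw [← List.append_assoc, h, ih, st_concat]

/-- forbidden blocks -/
def Forb : Set (Σ n : ℕ, Block (Fintype.card S + 2) (Alph S) n) :=
  (fun b => (⟨2, b⟩ : Σ n : ℕ, Block (Fintype.card S + 2) (Alph S) n)) ''
    {b : Block (Fintype.card S + 2) (Alph S) 2 |
      ∃ j, state (b ⟨[j], by simp⟩) ≠ next A (state (b ⟨[], by simp⟩)) j}

theorem forb_finite : (Forb A).Finite := (Set.toFinite _).image _

theorem mem_shiftOf (t : Node (Fintype.card S + 2) → Alph S) :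
    t ∈ shiftOf (Forb A) ↔ Valid A t := by
  constructor
  · intro h v j
    by_contra hcon
    exact h ⟨2, blockAt t v 2⟩ ⟨blockAt t v 2, ⟨j, by simpa [blockAt] using hcon⟩, rfl⟩ v rfl
  · rintro h p ⟨b, ⟨j, hj⟩, rfl⟩ v hv
    simp only at hv
    subst hv
    apply hj
    have := h v j
    simpa [blockAt] using this

/-- blocks with given root state -/
def D (n : ℕ) (a : Option S) : Set (Block (Fintype.card S + 2) (Alph S) n) :=
  {b | ∀ w, state (b w) = st A a w.1}

theorem blocks_eq (n : ℕ) : blocks (shiftOf (Forb A)) n = ⋃ a : Option S, D A n a := by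
  ext b
  rw [Set.mem_iUnion]
  constructor
  · rintro ⟨t, ht, v, rfl⟩
    rw [mem_shiftOf] at ht
    exact ⟨state (t v), fun w => valid_state A ht v w.1⟩
  · rintro ⟨a, ha⟩
    set t : Node (Fintype.card S + 2) → Alph S := fun w =>
      if h : w.length < n then b ⟨w, h⟩ else (st A a w).map (fun s => (s, false)) with ht
    have hst : ∀ w, state (t w) = st A a w := by
      intro w
      simp only [ht]
      split_ifs with h
      · exact ha ⟨w, h⟩
      · unfold state
        rw [Option.map_map]
        exact Option.map_id'
    refine ⟨t, ?_, [], ?_⟩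
    · rw [mem_shiftOf]
      intro v j
      rw [hst, hst, st_concat]
    · funext w
      show t ([] ++ w.1) = b w
      simp only [ht, List.nil_append]
      rw [dif_pos w.2]

/-- number of alive nodes of level `< n` -/
def c (n : ℕ) (a : Option S) : ℕ := ∑ w ∈ L (Fintype.card S + 2) n, (if (st A a w).isSome then 1 else 0)

theorem D_card (n : ℕ) (a : Option S) : (D A n a).ncard = 2 ^ c A n a := by
  classical
  have h1 : D A n a = ↑(Fintype.piFinset (fun w : {w : Node (Fintype.card S + 2) // w.length < n} =>
      (Finset.univ : Finset (Alph S)).filter (fun x => state x = st A a w.1))) := by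
    ext b
    simp [D]
  rw [h1, Set.ncard_coe_finset, Fintype.card_piFinset]
  have h2 : ∀ w : {w : Node (Fintype.card S + 2) // w.length < n},
      ((Finset.univ : Finset (Alph S)).filter (fun x => state x = st A a w.1)).card =
      2 ^ (if (st A a w.1).isSome then 1 else 0) := by
    intro w
    rcases st A a w.1 with _ | s
    · have : ((Finset.univ : Finset (Alph S)).filter (fun x => state x = none)) = {none} := by
        ext x
        rcases x with _ | x <;> simp [state]
      rw [this]; simp
    · have : ((Finset.univ : Finset (Alph S)).filter (fun x => state x = some s)) =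
          {some (s, false), some (s, true)} := by
        ext x
        rcases x with _ | ⟨s', bb⟩
        · simp [state]
        · cases bb <;> simp [state]
      rw [this, Finset.card_pair (by simp)]; simp
  rw [Finset.prod_congr rfl (fun w _ => h2 w), Finset.prod_pow_eq_pow_sum]
  congr 1
  unfold c
  rw [Finset.sum_subtype (L (Fintype.card S + 2) n) (mem_L _ n)
    (fun w => if (st A a w).isSome then 1 else 0)]

theorem c_succ (n : ℕ) (a : Option S) :
    c A (n + 1) a = (if a.isSome then 1 else 0) + ∑ j, c A n (next A a j) := by
  unfold c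
  rw [L, Finset.sum_insert, Finset.sum_image, Finset.sum_product]
  · rfl
  · rintro ⟨j, w⟩ _ ⟨j', w'⟩ _ h
    simp only [List.cons.injEq] at h
    exact Prod.ext h.1 h.2
  · simp

theorem c_none (n : ℕ) : c A n none = 0 := by
  induction n with
  | zero => rfl
  | succ n ih =>
    rw [c_succ]
    simp [next, ih]

theorem c_zero (a : Option S) : c A 0 a = 0 := rfl

theorem c_succ_some (h01 : ∀ i j, A i j = 0 ∨ A i j = 1) (n : ℕ) (s : S) :
    c A (n + 1) (some s) = 1 + ∑ s', A s s' * c A n (some s') := by
  rw [c_succ]
  simp only [Option.isSome_some, if_true]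
  congr 1
  refine (sum_σ (fun o => c A n (stp A s o)) (by simp [stp, c_none])).trans ?_
  refine Finset.sum_congr rfl fun s' _ => ?_
  simp only [stp]
  rcases h01 s s' with h | h
  · rw [h]; simp [c_none]
  · rw [h]; simp

/-- row sums of the powers -/
def R (k : ℕ) (s : S) : ℕ := ∑ s', (A ^ k) s s'

theorem R_zero (s : S) : R A 0 s = 1 := by
  unfold R; simp [Matrix.one_apply]

theorem R_succ (k : ℕ) (s : S) : R A (k + 1) s = ∑ s', A s s' * R A k s' := by
  unfold R
  rw [pow_succ']
  simp only [Matrix.mul_apply]
  rw [Finset.sum_comm]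
  refine Finset.sum_congr rfl fun i _ => ?_
  rw [Finset.mul_sum]

theorem c_eq (h01 : ∀ i j, A i j = 0 ∨ A i j = 1) (n : ℕ) (s : S) :
    c A n (some s) = ∑ k ∈ Finset.range n, R A k s := by
  induction n generalizing s with
  | zero => rfl
  | succ n ih =>
    rw [c_succ_some A h01, Finset.sum_range_succ', R_zero, add_comm]
    congr 1
    simp only [R_succ]
    rw [Finset.sum_comm]
    refine Finset.sum_congr rfl fun s' _ => ?_
    rw [ih, Finset.mul_sum]

end

end Pool.Agent.X126.Tsft
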